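import Pool.Agent.Lib.P76w.Defs

/-!
# P76w.Alg (1.5 h): pointwise inequalities (pure real algebra)

Notation: `E > 0`, `0 < D ≤ E`, `|T| ≤ E`, `K ≥ 0`, `X = XX E T K = K + E + √((K+E)² - ET)`,
`B = BB E D T K = K + D + (E-T)²/E > 0`, `h = T/X`, `A = AA E D T K`, `gm a = √(¼+a²) - ½`.
`(K+E)² - ET ≥ 0` since `(K+E)² ≥ E² ≥ ET`; so `X ≥ K+E > 0`, and `|h| ≤ |T|/(K+E) ≤ 1`.

* `gm`: `gm a = a²/(√(¼+a²)+½)`, so `0 ≤ gm a ≤ a²`, `gm a ≤ |a|`, `|a - gm a| ≤ 2|a|`.
* `0 ≤ T`: `A = T/(2r)`, `r = √(B(B+2T)) = √((B+T)² - T²) ≥ B`, `Y = B+T+r`.  The minimum over `a` of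
  `(B+T) gm a - T a` is `½(r - (B+T)) = -T²/(2Y)`, attained at `a = A`: indeed
  `¼ + A² = (r²+T²)/(4r²) = (B+T)²/(4r²)`, so `gm A = (B+T)/(2r) - ½`, `(B+T) gm A - T A =
  ((B+T)² - T²)/(2r) - (B+T)/2 = ½(r - (B+T))`.
  As `E' ≤ T + D` and `K + D ≤ B`: `(K+E') gm A ≤ (B+T) gm A`, so with `Th/2 = T²/(2X)`:
  `G := (K+E') gm A - T A + Th/2 ≤ ½T²(1/X - 1/Y) = -½T² (X-Y)/(XY)`.
  Let `B₀ = B - D = K + (E-T)²/E`, `r₀ = √(B₀(B₀+2T))`, `Y₀ = B₀+T+r₀`.
  (1) `X - Y₀ ≥ T(E-T)/E`: `(K+E) - (B₀+T) = E - T - (E-T)²/E = T(E-T)/E`, and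
  `(K+E)² - ET ≥ B₀(B₀+2T)`: with `c = (E-T)/E = 1-t`, `t = T/E`, the difference is
  `(E-T)[2K(1-c) + E - c²(E-T) - 2cT] = (E-T)[2Kt + E(t - t² + t³)] ≥ 0`.
  (2) `Y - Y₀ ≤ 3D(B+T)/r`: `r² - r₀² = D(2B₀+D+2T) ≤ 2D(B+T)`, so `r - r₀ ≤ 2D(B+T)/r`, and
  `D ≤ D(B+T)/r` as `r ≤ B+T`.  With `Y ≥ B+T`: `½T²(Y-Y₀)/(XY) ≤ (3/2) D T²/(rX) = 3 D A h`.
  (3) `X ≤ 2(K+E)`, `Y ≤ 2(B+T) ≤ 2(K+D+E) ≤ 4(K+E)` (as `(E-T)²/E ≤ E-T`).
  So `G ≤ -T³(E-T)/(2E X Y) + 3DAh ≤ -T³(E-T)/(16E(K+E)²) + 3DAh`.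
* `T < 0`: `A = h`, `gm h ≤ h²`, `T h = X h²`, `X ≥ 2(K+E) ≥ 2(K+D)`; `(K+E') gm h ≤ (K+D) h²`
  (as `E' ≤ T + D ≤ D`, and `gm h ≥ 0`), so `G ≤ (K + D - X/2) h² ≤ 0 ≤ 3D|A||h|`.
* `A_small`: `T < 0`: `|A| = |h|`.  `0 ≤ T ≤ E/2`: `B ≥ K + E/4 ≥ (K+E)/4`, `A ≤ T/(2B)`.
* `A_big`: `B ≥ K`: `r ≥ √(2KT)` and `r ≥ K`.
* `diff_small`: `X = 2(K+E) - ET/X`, `2r = 2(B+T) - 2T²/Y`, `B + T = K+D+E-T+T²/E`:
  `|X - 2r| = |2T - 2D - ET/X - 2T²/E + 2T²/Y| ≤ 7T + 2D`, `|h - A| = T|X-2r|/(2rX) ≤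
  T(7T+2D)/(2B(K+E))` and `B ≥ (K+E)/4` (if `T ≤ E/2`: see above; if `E ≤ K`: `B ≥ K ≥ (K+E)/2`).
-/

open MeasureTheory Filter Topology
open scoped BigOperators

namespace Pool.Agent.P76w

open Pool.Agent.P76s

theorem gm_nonneg (a : ℝ) : 0 ≤ gm a := by
  unfold gm
  have h : (1 / 2 : ℝ) ≤ √(1 / 4 + a ^ 2) := Real.le_sqrt_of_sq_le (by nlinarith [sq_nonneg a])
  linarith

theorem gm_le_sq (a : ℝ) : gm a ≤ a ^ 2 := by
  unfold gm
  have h : √(1 / 4 + a ^ 2) ≤ 1 / 2 + a ^ 2 :=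
    Real.sqrt_le_iff.2 ⟨by positivity, by nlinarith [sq_nonneg (a ^ 2)]⟩
  linarith

theorem gm_le_abs (a : ℝ) : gm a ≤ |a| := by
  unfold gm
  have h : √(1 / 4 + a ^ 2) ≤ 1 / 2 + |a| :=
    Real.sqrt_le_iff.2 ⟨by positivity, by nlinarith [abs_nonneg a, sq_abs a]⟩
  linarith

theorem sub_gm_le (a : ℝ) : |a - gm a| ≤ 2 * |a| := by
  have h1 := abs_sub a (gm a)
  have h2 := gm_le_abs a
  have h3 : |gm a| = gm a := abs_of_nonneg (gm_nonneg a)
  linarith

theorem continuous_gm : Continuous gm := by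
  unfold gm
  fun_prop

theorem XX_ge {E T K : ℝ} (hE : 0 < E) (hT : |T| ≤ E) (hK : 0 ≤ K) : K + E ≤ XX E T K := by
  unfold XX
  have := Real.sqrt_nonneg ((K + E) ^ 2 - E * T)
  linarith

theorem h_le {E T K : ℝ} (hE : 0 < E) (hT : |T| ≤ E) (hK : 0 ≤ K) :
    |T / XX E T K| ≤ |T| / (K + E) := by
  have h1 := XX_ge hE hT hK
  have h2 : 0 < K + E := by linarith
  rw [abs_div, abs_of_pos (lt_of_lt_of_le h2 h1)]
  exact div_le_div_of_nonneg_left (abs_nonneg T) h2 h1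

/-- Basic facts about `B` and `r = √(B(B+2T))` for `0 ≤ T`. -/
theorem BB_facts {E D T K : ℝ} (hE : 0 < E) (hD : 0 < D) (hK : 0 ≤ K) (h0 : 0 ≤ T) :
    0 < BB E D T K ∧ K + D ≤ BB E D T K ∧
    BB E D T K ≤ √(BB E D T K * (BB E D T K + 2 * T)) ∧
    √(BB E D T K * (BB E D T K + 2 * T)) ≤ BB E D T K + T ∧
    √(BB E D T K * (BB E D T K + 2 * T)) ^ 2 = (BB E D T K + T) ^ 2 - T ^ 2 := by
  have h1 : 0 ≤ (E - T) ^ 2 / E := div_nonneg (sq_nonneg _) hE.le
  have h2 : K + D ≤ BB E D T K := by unfold BB; linarith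
  have h3 : 0 < BB E D T K := by linarith
  have h4 : 0 ≤ BB E D T K * (BB E D T K + 2 * T) := by positivity
  refine ⟨h3, h2, ?_, ?_, ?_⟩
  · exact Real.le_sqrt_of_sq_le (by nlinarith)
  · exact Real.sqrt_le_iff.2 ⟨by linarith, by nlinarith [sq_nonneg T]⟩
  · rw [Real.sq_sqrt h4]; ring

theorem AA_pos_eq {E D T K : ℝ} (h0 : 0 ≤ T) :
    AA E D T K = T / (2 * √(BB E D T K * (BB E D T K + 2 * T))) := by
  unfold AA
  rw [if_pos h0]

theorem AA_neg_eq {E D T K : ℝ} (h0 : T < 0) : AA E D T K = T / XX E T K := by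
  unfold AA
  rw [if_neg (not_le.2 h0)]

/-- the case `0 ≤ T` of `alg_G` -/
theorem alg_G_pos {E D T K E' : ℝ} (hE : 0 < E) (hD : 0 < D) (hDE : D ≤ E) (hTE : T ≤ E)
    (hK : 0 ≤ K) (hE' : E' ≤ T + D) (h0 : 0 ≤ T) :
    (K + E') * gm (AA E D T K) - T * AA E D T K + T * (T / XX E T K) / 2 ≤
      -(T ^ 3 * (E - T) / (16 * E * (K + E) ^ 2)) +
        3 * D * (AA E D T K * (T / XX E T K)) := by
  obtain ⟨hB, hBK, hBr, hrB, hr2⟩ := BB_facts (K := K) hE hD hK h0
  rw [AA_pos_eq h0]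
  set B := BB E D T K with hBdef
  set r := √(B * (B + 2 * T)) with hrdef
  have hr : 0 < r := lt_of_lt_of_le hB hBr
  have hKE : 0 < K + E := by linarith
  -- the value of gm
  have hgm : gm (T / (2 * r)) = (B + T) / (2 * r) - 1 / 2 := by
    unfold gm
    have h1 : 1 / 4 + (T / (2 * r)) ^ 2 = ((B + T) / (2 * r)) ^ 2 := by
      rw [div_pow, div_pow]
      have : (2 * r) ^ 2 = 4 * ((B + T) ^ 2 - T ^ 2) := by rw [mul_pow, hr2]; norm_num
      have h3 : (B + T) ^ 2 - T ^ 2 ≠ 0 := by rw [← hr2]; positivity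
      rw [this]
      field_simp
      ring
    rw [h1, Real.sqrt_sq (by positivity)]
  have hX1 : K + E ≤ XX E T K := by
    unfold XX
    have := Real.sqrt_nonneg ((K + E) ^ 2 - E * T)
    linarith
  set X := XX E T K with hXdef
  have hX : 0 < X := by linarith
  -- upper bound for X
  have hX2 : X ≤ 2 * (K + E) := by
    rw [hXdef]
    unfold XX
    have : √((K + E) ^ 2 - E * T) ≤ K + E :=
      Real.sqrt_le_iff.2 ⟨hKE.le, by linarith [mul_nonneg hE.le h0]⟩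
    linarith
  set Y := B + T + r with hYdef
  have hY : 0 < Y := by positivity
  have hc : (E - T) ^ 2 / E ≤ E - T := by
    rw [div_le_iff₀ hE]
    linarith [mul_nonneg (sub_nonneg.2 hTE) h0]
  have hY2 : Y ≤ 4 * (K + E) := by
    have : B + T ≤ K + D + E := by
      rw [hBdef]; unfold BB; linarith
    linarith
  -- comparison with B₀
  set B₀ := K + (E - T) ^ 2 / E with hB0
  have hB0n : 0 ≤ B₀ := by
    have : 0 ≤ (E - T) ^ 2 / E := div_nonneg (sq_nonneg _) hE.le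
    linarith
  have hBB0 : B = B₀ + D := by rw [hBdef, hB0]; unfold BB; ring
  set r₀ := √(B₀ * (B₀ + 2 * T)) with hr0
  have hr0n : 0 ≤ r₀ := Real.sqrt_nonneg _
  have hr02 : r₀ ^ 2 = (B₀ + T) ^ 2 - T ^ 2 := by
    rw [hr0, Real.sq_sqrt (by positivity)]; ring
  have hlin : (K + E) - (B₀ + T) = T * (E - T) / E := by
    rw [hB0]
    field_simp
    ring
  have hQ : 0 ≤ T * (E - T) / E := div_nonneg (mul_nonneg h0 (by linarith)) hE.le
  have h1 : r₀ ≤ √((K + E) ^ 2 - E * T) := by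
    refine Real.le_sqrt_of_sq_le ?_
    rw [hr02]
    have h5 : (K + E) ^ 2 - E * T - ((B₀ + T) ^ 2 - T ^ 2) =
        T * (E - T) / E * (K + B₀ + T) := by
      have h6 : (K + E) ^ 2 - (B₀ + T) ^ 2 = T * (E - T) / E * (K + E + (B₀ + T)) := by
        rw [← hlin]; ring
      have h7 : T * (E - T) / E * E = T * (E - T) := by field_simp
      have h8 : T * (E - T) / E * (K + E + (B₀ + T)) = T * (E - T) / E * (K + B₀ + T) +
        T * (E - T) / E * E := by ring
      have h9 : (K + E) ^ 2 - E * T - ((B₀ + T) ^ 2 - T ^ 2) =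
        ((K + E) ^ 2 - (B₀ + T) ^ 2) - T * (E - T) := by ring
      rw [h9, h6, h8, h7]
      ring
    have h6 : 0 ≤ T * (E - T) / E * (K + B₀ + T) := mul_nonneg hQ (by positivity)
    linarith
  have h2 : B₀ + T + r₀ + T * (E - T) / E ≤ X := by
    rw [hXdef]
    unfold XX
    linarith
  have h3 : r - r₀ ≤ 2 * D * (B + T) / r := by
    rw [le_div_iff₀ hr]
    have h4 : r ^ 2 - r₀ ^ 2 = D * (B + B₀ + 2 * T) := by
      rw [hr2, hr02, hBB0]; ring
    have h5 : r₀ ≤ r := by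
      refine Real.sqrt_le_sqrt ?_
      rw [hBB0]
      linarith [mul_nonneg hD.le hB0n, mul_nonneg hD.le h0, mul_self_nonneg D]
    have hDB : D * B₀ = D * B - D * D := by rw [hBB0]; ring
    linarith [mul_nonneg hr0n (sub_nonneg.2 h5), mul_self_nonneg D]
  have h4 : D ≤ D * (B + T) / r := by
    rw [le_div_iff₀ hr]
    exact mul_le_mul_of_nonneg_left hrB hD.le
  have h5 : Y - X ≤ 3 * D * (B + T) / r - T * (E - T) / E := by
    have e1 : 3 * D * (B + T) / r = D * (B + T) / r + 2 * D * (B + T) / r := by ring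
    rw [e1]
    have e2 : Y = B₀ + T + r₀ + D + (r - r₀) := by rw [hYdef, hBB0]; ring
    linarith
  -- the identity for the minimum
  have h6 : (B + T) * gm (T / (2 * r)) - T * (T / (2 * r)) = -(T ^ 2 / (2 * Y)) := by
    rw [hgm]
    have e1 : (B + T) * ((B + T) / (2 * r) - 1 / 2) - T * (T / (2 * r)) =
      ((B + T) ^ 2 - T ^ 2) / (2 * r) - (B + T) / 2 := by ring
    rw [e1, ← hr2]
    have e2 : r ^ 2 / (2 * r) = r / 2 := by field_simp
    rw [e2]
    have e3 : T ^ 2 = (B + T - r) * Y := by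
      rw [hYdef]
      linear_combination hr2
    rw [e3]
    field_simp
    ring
  have h7 : (K + E') * gm (T / (2 * r)) ≤ (B + T) * gm (T / (2 * r)) :=
    mul_le_mul_of_nonneg_right (by linarith) (gm_nonneg _)
  have h8 : T * (T / X) / 2 - T ^ 2 / (2 * Y) = T ^ 2 / (2 * X * Y) * (Y - X) := by
    field_simp
  have h9 : T ^ 2 / (2 * X * Y) * (Y - X) ≤
      T ^ 2 / (2 * X * Y) * (3 * D * (B + T) / r - T * (E - T) / E) :=
    mul_le_mul_of_nonneg_left h5 (by positivity)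
  have h10 : T ^ 2 / (2 * X * Y) * (3 * D * (B + T) / r) ≤ 3 * D * (T / (2 * r) * (T / X)) := by
    have e1 : T ^ 2 / (2 * X * Y) * (3 * D * (B + T) / r) =
      3 * D * (T / (2 * r) * (T / X)) * ((B + T) / Y) := by
      field_simp
    rw [e1]
    have e2 : (B + T) / Y ≤ 1 := by
      rw [div_le_one hY]
      linarith
    exact mul_le_of_le_one_right (by positivity) e2
  have h11 : T ^ 3 * (E - T) / (16 * E * (K + E) ^ 2) ≤
      T ^ 2 / (2 * X * Y) * (T * (E - T) / E) := by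
    have e1 : T ^ 2 / (2 * X * Y) * (T * (E - T) / E) = T ^ 3 * (E - T) / (2 * E * (X * Y)) := by
      field_simp
    rw [e1]
    refine div_le_div_of_nonneg_left (mul_nonneg (by positivity) (by linarith)) (by positivity) ?_
    have e2 : X * Y ≤ (2 * (K + E)) * (4 * (K + E)) :=
      mul_le_mul hX2 hY2 hY.le (by positivity)
    have e3 := mul_le_mul_of_nonneg_left e2 (show 0 ≤ 2 * E by linarith)
    linarith
  have h12 : T ^ 2 / (2 * X * Y) * (3 * D * (B + T) / r - T * (E - T) / E) =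
      T ^ 2 / (2 * X * Y) * (3 * D * (B + T) / r) - T ^ 2 / (2 * X * Y) * (T * (E - T) / E) := by
    ring
  linarith

theorem alg_G {E D T K E' : ℝ} (hE : 0 < E) (hD : 0 < D) (hDE : D ≤ E) (hT : |T| ≤ E)
    (hK : 0 ≤ K) (hE' : E' ≤ T + D) :
    (K + E') * gm (AA E D T K) - T * AA E D T K + T * (T / XX E T K) / 2 ≤
      -((max T 0) ^ 3 * (E - T) / (16 * E * (K + E) ^ 2)) +
        3 * D * (|AA E D T K| * |T / XX E T K|) := by
  have hX1 := XX_ge hE hT hK
  have hKE : 0 < K + E := by linarith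
  have hX : 0 < XX E T K := by linarith
  rcases le_or_gt 0 T with h0 | h0
  · rw [max_eq_left h0]
    have hA : 0 ≤ AA E D T K := by
      rw [AA_pos_eq h0]
      positivity
    rw [abs_of_nonneg hA, abs_of_nonneg (div_nonneg h0 hX.le)]
    exact alg_G_pos hE hD hDE (le_of_abs_le hT) hK hE' h0
  · rw [max_eq_right h0.le, AA_neg_eq h0]
    have hX2 : 2 * (K + E) ≤ XX E T K := by
      unfold XX
      have : K + E ≤ √((K + E) ^ 2 - E * T) := Real.le_sqrt_of_sq_le (by nlinarith)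
      linarith
    set X := XX E T K with hXdef
    set h := T / X with hh
    have hTX : T = X * h := by rw [hh]; field_simp
    have h1 : (K + E') * gm h ≤ (K + D) * h ^ 2 := by
      have e1 : (K + E') * gm h ≤ (K + D) * gm h :=
        mul_le_mul_of_nonneg_right (by linarith) (gm_nonneg _)
      have e2 : (K + D) * gm h ≤ (K + D) * h ^ 2 :=
        mul_le_mul_of_nonneg_left (gm_le_sq h) (by linarith)
      linarith
    have h2 : (K + D) * h ^ 2 ≤ X / 2 * h ^ 2 :=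
      mul_le_mul_of_nonneg_right (by linarith) (sq_nonneg h)
    have h3 : T * h = X * h ^ 2 := by
      calc T * h = (X * h) * h := by rw [← hTX]
        _ = X * h ^ 2 := by ring
    have h4 : 0 ≤ 3 * D * (|h| * |h|) := by positivity
    have h5 : (0 : ℝ) ^ 3 * (E - T) / (16 * E * (K + E) ^ 2) = 0 := by
      rw [zero_pow three_ne_zero, zero_mul, zero_div]
    rw [h5]
    linarith

theorem A_small {E D T K : ℝ} (hE : 0 < E) (hD : 0 < D) (hT : |T| ≤ E) (hK : 0 ≤ K)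
    (h : T ≤ E / 2) : |AA E D T K| ≤ 2 * |T| / (K + E) := by
  have hKE : 0 < K + E := by linarith
  rcases le_or_gt 0 T with h0 | h0
  · obtain ⟨hB, hBK, hBr, -, -⟩ := BB_facts (K := K) hE hD hK h0
    rw [AA_pos_eq h0, abs_of_nonneg (by positivity), abs_of_nonneg h0]
    set r := √(BB E D T K * (BB E D T K + 2 * T)) with hr
    have h1 : (K + E) / 4 ≤ BB E D T K := by
      have : E / 4 ≤ (E - T) ^ 2 / E := by
        rw [le_div_iff₀ hE]
        nlinarith
      unfold BB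
      linarith
    rw [div_le_div_iff₀ (by linarith) hKE]
    have h2 : K + E ≤ 4 * r := by linarith
    have h3 := mul_le_mul_of_nonneg_left h2 h0
    linarith
  · rw [AA_neg_eq h0]
    refine (h_le hE hT hK).trans ?_
    refine div_le_div_of_nonneg_right ?_ hKE.le
    linarith [abs_nonneg T]

theorem A_big {E D T K : ℝ} (hE : 0 < E) (hD : 0 < D) (hT : |T| ≤ E) (hK : 0 < K) (h : 0 ≤ T) :
    |AA E D T K| ≤ √(E / (8 * K)) ∧ |AA E D T K| ≤ E / (2 * K) := by
  obtain ⟨hB, hBK, hBr, -, -⟩ := BB_facts (K := K) hE hD hK.le h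
  have hTE : T ≤ E := le_of_abs_le hT
  rw [AA_pos_eq h, abs_of_nonneg (by positivity)]
  set B := BB E D T K with hBdef
  have hnn : 0 < B * (B + 2 * T) := by positivity
  set r := √(B * (B + 2 * T)) with hr
  have hr0 : 0 < r := Real.sqrt_pos.2 hnn
  have hr2 : r ^ 2 = B * (B + 2 * T) := Real.sq_sqrt hnn.le
  constructor
  · refine Real.le_sqrt_of_sq_le ?_
    rw [div_pow, mul_pow, hr2, div_le_div_iff₀ (by positivity) (by positivity)]
    have h1 : K * (2 * T) ≤ B * (B + 2 * T) :=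
      mul_le_mul (by linarith) (by linarith) (by linarith) hB.le
    have h2 : T * (K * (2 * T)) ≤ E * (B * (B + 2 * T)) :=
      mul_le_mul hTE h1 (by positivity) hE.le
    linarith
  · rw [div_le_div_iff₀ (by positivity) (by positivity)]
    have h1 : K ≤ r := by linarith
    have h2 : T * K ≤ E * r := mul_le_mul hTE h1 hK.le hE.le
    linarith

theorem diff_neg {E D T K : ℝ} (h : T < 0) : T / XX E T K - AA E D T K = 0 := by
  rw [AA_neg_eq h, sub_self]

theorem diff_small {E D T K : ℝ} (hE : 0 < E) (hD : 0 < D) (hT : |T| ≤ E) (hK : 0 ≤ K)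
    (h0 : 0 ≤ T) (h : T ≤ E / 2 ∨ E ≤ K) :
    |T / XX E T K - AA E D T K| ≤ 2 * T * (7 * T + 2 * D) / (K + E) ^ 2 := by
  obtain ⟨hB, hBK, hBr, hrB, hr2⟩ := BB_facts (K := K) hE hD hK h0
  have hTE : T ≤ E := le_of_abs_le hT
  have hKE : 0 < K + E := by linarith
  have hX1 := XX_ge hE hT hK
  rw [AA_pos_eq h0]
  have hBe : BB E D T K + T = K + D + E - T + T ^ 2 / E := by
    unfold BB
    field_simp
    ring
  have hB4 : (K + E) / 4 ≤ BB E D T K := by
    rcases h with h | h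
    · have : E / 4 ≤ (E - T) ^ 2 / E := by
        rw [le_div_iff₀ hE]
        nlinarith
      unfold BB
      linarith
    · linarith
  set B := BB E D T K with hBdef
  set r := √(B * (B + 2 * T)) with hr
  have hr0 : 0 < r := lt_of_lt_of_le hB hBr
  have hnn : 0 ≤ (K + E) ^ 2 - E * T := by
    linarith [mul_nonneg hK hE.le, sq_nonneg K, mul_le_mul_of_nonneg_left hTE hE.le]
  have hXe : XX E T K * (2 * (K + E) - XX E T K) = E * T := by
    unfold XX
    have := Real.sq_sqrt hnn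
    linear_combination (-1 : ℝ) * this
  set X := XX E T K with hXdef
  have hX : 0 < X := by linarith
  set Y := B + T + r with hYdef
  have hY : 0 < Y := by positivity
  have e1 : X = 2 * (K + E) - E * T / X := by
    rw [eq_sub_iff_add_eq, ← eq_sub_iff_add_eq', div_eq_iff hX.ne']
    linarith
  have e2 : r = B + T - T ^ 2 / Y := by
    rw [eq_sub_iff_add_eq, ← eq_sub_iff_add_eq', div_eq_iff hY.ne', hYdef]
    linear_combination hr2
  have b1 : E * T / X ≤ T := by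
    rw [div_le_iff₀ hX]
    have hEX : E ≤ X := by linarith
    linarith [mul_le_mul_of_nonneg_left hEX h0]
  have b1' : 0 ≤ E * T / X := by positivity
  have b2 : T ^ 2 / E ≤ T := by
    rw [div_le_iff₀ hE]
    linarith [mul_le_mul_of_nonneg_left hTE h0]
  have b2' : 0 ≤ T ^ 2 / E := by positivity
  have b3 : T ^ 2 / Y ≤ T := by
    rw [div_le_iff₀ hY]
    have hTY : T ≤ Y := by linarith
    linarith [mul_le_mul_of_nonneg_left hTY h0]
  have b3' : 0 ≤ T ^ 2 / Y := by positivity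
  have hdiff : |2 * r - X| ≤ 7 * T + 2 * D := by
    rw [abs_le]
    constructor <;> linarith
  have e3 : T / X - T / (2 * r) = T * (2 * r - X) / (2 * r * X) := by
    field_simp
  rw [e3, abs_div, abs_mul, abs_of_nonneg h0, abs_of_pos (show 0 < 2 * r * X by positivity)]
  have h1 : (K + E) ^ 2 / 2 ≤ 2 * r * X := by
    have h2 : (K + E) / 4 * (K + E) ≤ r * X := mul_le_mul (by linarith) hX1 hKE.le hr0.le
    linarith
  have h2 : T * |2 * r - X| / (2 * r * X) ≤ T * (7 * T + 2 * D) / ((K + E) ^ 2 / 2) :=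
    div_le_div₀ (by positivity) (mul_le_mul_of_nonneg_left hdiff h0) (by positivity) h1
  refine h2.trans (le_of_eq ?_)
  field_simp

theorem continuous_ek : Continuous ek := by
  unfold ek
  fun_prop

theorem continuous_AA {E D : ℝ} (hE : 0 < E) (hD : 0 < D) {T : E3 → ℝ} (hc : Continuous T)
    (hT : ∀ k, |T k| ≤ E) : Continuous fun k => AA E D (T k) (ek k) := by
  have hek : Continuous ek := continuous_ek
  have hek0 : ∀ k, 0 ≤ ek k := fun k => by unfold ek; positivity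
  have h1 : (fun k => AA E D (T k) (ek k)) = fun k =>
      max (T k) 0 / (2 * √(BB E D (max (T k) 0) (ek k) *
        (BB E D (max (T k) 0) (ek k) + 2 * max (T k) 0))) +
      min (T k) 0 / XX E (min (T k) 0) (ek k) := by
    funext k
    rcases le_or_gt 0 (T k) with h0 | h0
    · rw [AA_pos_eq h0, max_eq_left h0, min_eq_right h0, zero_div, add_zero]
    · rw [AA_neg_eq h0, max_eq_right h0.le, min_eq_left h0.le, zero_div, zero_add]
  rw [h1]
  have hBc : Continuous fun k => BB E D (max (T k) 0) (ek k) := by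
    unfold BB
    fun_prop
  refine Continuous.add ?_ ?_
  · refine Continuous.div (by fun_prop) (by fun_prop) fun k => ?_
    obtain ⟨hB, -, hBr, -, -⟩ := BB_facts (K := ek k) hE hD (hek0 k) (le_max_right (T k) 0)
    have : 0 < √(BB E D (max (T k) 0) (ek k) *
        (BB E D (max (T k) 0) (ek k) + 2 * max (T k) 0)) := lt_of_lt_of_le hB hBr
    positivity
  · refine Continuous.div (by fun_prop) ?_ fun k => ?_
    · unfold XX
      fun_prop
    · unfold XX
      have h2 := Real.sqrt_nonneg ((ek k + E) ^ 2 - E * min (T k) 0)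
      have h3 := hek0 k
      have : 0 < ek k + E + √((ek k + E) ^ 2 - E * min (T k) 0) := by linarith
      exact this.ne'

end Pool.Agent.P76w
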