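import Pool.Agent.Lib.P76w.Defs
import Pool.Agent.Lib.P76s.FourierEqn
import Pool.Agent.Lib.P76s.Planch

/-!
# P76w.CtFacts (1 h): basic facts about the cosine transform

`ct g x = ∫ g(k) cos(2π⟨k,x⟩) dk = Re 𝓕 g x` for integrable real `g` (`Real.fourier_eq`: the kernel is
`e^{-2πi⟨k,x⟩}`).  `v₁` even: `𝓕 v₁` is real (`P76s` has `hat_im`/`fourier_im` as models).
* `ct_memLp`: `P76s.fourier_memLp`; `ct_sq`: `|ct g| ≤ |𝓕 g|` and Plancherel (`P76s.plancherel`).
* `ct_tendsto`: Riemann-Lebesgue (`tendsto_integral_exp_inner_smul_cocompact` or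
  `Real.zero_at_infty_fourier`...).
* `ct_comm`: Fubini: `∫ f(x) ct g x dx = ∫ ct f k · g(k) dk` (`cos` is symmetric).
-/

open MeasureTheory Filter Topology
open scoped BigOperators FourierTransform ComplexConjugate

namespace Pool.Agent.P76w

open Pool.Agent.P76s

namespace CtAux

theorem cont_cos (x : E3) : Continuous fun k : E3 => Real.cos (2 * Real.pi * inner ℝ k x) := by
  fun_prop

theorem cont_sin (x : E3) : Continuous fun k : E3 => Real.sin (2 * Real.pi * inner ℝ k x) := by
  fun_prop

theorem int_cos {g : E3 → ℝ} (hg : Integrable g) (x : E3) :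
    Integrable fun k : E3 => g k * Real.cos (2 * Real.pi * inner ℝ k x) := by
  refine hg.norm.mono' (hg.aestronglyMeasurable.mul (cont_cos x).aestronglyMeasurable)
    (Filter.Eventually.of_forall fun k => ?_)
  rw [norm_mul]
  exact mul_le_of_le_one_right (norm_nonneg _) (Real.abs_cos_le_one _)

theorem int_sin {g : E3 → ℝ} (hg : Integrable g) (x : E3) :
    Integrable fun k : E3 => g k * Real.sin (2 * Real.pi * inner ℝ k x) := by
  refine hg.norm.mono' (hg.aestronglyMeasurable.mul (cont_sin x).aestronglyMeasurable)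
    (Filter.Eventually.of_forall fun k => ?_)
  rw [norm_mul]
  exact mul_le_of_le_one_right (norm_nonneg _) (Real.abs_sin_le_one _)

theorem expand {g : E3 → ℝ} (hg : Integrable g) (x : E3) :
    𝓕 (fun k => (g k : ℂ)) x = ((ct g x : ℝ) : ℂ) -
      ((∫ k, g k * Real.sin (2 * Real.pi * inner ℝ k x) : ℝ) : ℂ) * Complex.I := by
  rw [Real.fourier_eq', ct, ← integral_complex_ofReal, ← integral_complex_ofReal,
    ← integral_mul_const, ← integral_sub (int_cos hg x).ofReal ((int_sin hg x).ofReal.mul_const _)]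
  refine integral_congr_ae (Filter.Eventually.of_forall fun k => ?_)
  simp only [smul_eq_mul]
  rw [Complex.exp_mul_I]
  push_cast
  rw [show (-2 * (Real.pi : ℂ) * ((inner ℝ k x : ℝ) : ℂ)) = -(2 * (Real.pi : ℂ) * ((inner ℝ k x : ℝ) : ℂ)) by
    ring, Complex.cos_neg, Complex.sin_neg]
  ring

end CtAux

open CtAux

theorem ct_eq_re {g : E3 → ℝ} (hg : Integrable g) (x : E3) :
    ct g x = (𝓕 (fun k => (g k : ℂ)) x).re := by
  rw [expand hg x]
  simp

theorem ct_continuous {g : E3 → ℝ} (hg : Integrable g) : Continuous (ct g) := by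
  have h : ct g = fun x => (𝓕 (fun k => (g k : ℂ)) x).re := funext (ct_eq_re hg)
  rw [h]
  exact Complex.continuous_re.comp (fe_cont hg.ofReal)

theorem ct_neg (g : E3 → ℝ) (x : E3) : ct g (-x) = ct g x := by
  unfold ct
  refine integral_congr_ae (Filter.Eventually.of_forall fun k => ?_)
  simp only [inner_neg_right, mul_neg, Real.cos_neg]

theorem ct_abs_le {g : E3 → ℝ} (hg : Integrable g) (x : E3) : |ct g x| ≤ ∫ k, |g k| := by
  unfold ct
  refine (norm_integral_le_integral_norm (f := fun k => g k * Real.cos (2 * Real.pi * inner ℝ k x))).trans ?_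
  refine integral_mono (int_cos hg x).norm hg.abs fun k => ?_
  rw [norm_mul]
  exact mul_le_of_le_one_right (norm_nonneg _) (Real.abs_cos_le_one _)

theorem ct_zero (g : E3 → ℝ) : ct g 0 = ∫ x, g x := by
  unfold ct
  simp

theorem ct_add {f g : E3 → ℝ} (hf : Integrable f) (hg : Integrable g) (x : E3) :
    ct (fun k => f k + g k) x = ct f x + ct g x := by
  unfold ct
  rw [← integral_add (int_cos hf x) (int_cos hg x)]
  refine integral_congr_ae (Filter.Eventually.of_forall fun k => ?_)
  simp only
  ring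

theorem ct_sub {f g : E3 → ℝ} (hf : Integrable f) (hg : Integrable g) (x : E3) :
    ct (fun k => f k - g k) x = ct f x - ct g x := by
  unfold ct
  rw [← integral_sub (int_cos hf x) (int_cos hg x)]
  refine integral_congr_ae (Filter.Eventually.of_forall fun k => ?_)
  simp only
  ring

theorem ct_smul (c : ℝ) (g : E3 → ℝ) (x : E3) : ct (fun k => c * g k) x = c * ct g x := by
  unfold ct
  rw [← integral_const_mul]
  refine integral_congr_ae (Filter.Eventually.of_forall fun k => ?_)
  simp only
  ring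

theorem ct_memLp {g : E3 → ℝ} (hg : Integrable g) (hg2 : MemLp g 2) : MemLp (ct g) 2 := by
  have h : ct g = fun x => (𝓕 (fun k => (g k : ℂ)) x).re := funext (ct_eq_re hg)
  rw [h]
  exact (fourier_memLp hg.ofReal hg2.ofReal).re

theorem ct_sq {g : E3 → ℝ} (hg : Integrable g) (hg2 : MemLp g 2) :
    ∫ k, ct g k ^ 2 ≤ ∫ x, g x ^ 2 := by
  have hp := plancherel (f := fun k => (g k : ℂ)) (g := fun k => (g k : ℂ)) hg.ofReal hg2.ofReal
    hg.ofReal hg2.ofReal
  have hm := fourier_memLp (f := fun k => (g k : ℂ)) hg.ofReal hg2.ofReal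
  have h1 : ∫ k, 𝓕 (fun k => (g k : ℂ)) k * conj (𝓕 (fun k => (g k : ℂ)) k) =
      ((∫ k, ‖𝓕 (fun k => (g k : ℂ)) k‖ ^ 2 : ℝ) : ℂ) := by
    rw [← integral_complex_ofReal]
    refine integral_congr_ae (Filter.Eventually.of_forall fun k => ?_)
    simp only
    rw [Complex.mul_conj, Complex.normSq_eq_norm_sq]
  have h2 : ∫ x, (g x : ℂ) * conj (g x : ℂ) = ((∫ x, g x ^ 2 : ℝ) : ℂ) := by
    rw [← integral_complex_ofReal]
    refine integral_congr_ae (Filter.Eventually.of_forall fun k => ?_)
    simp only [Complex.conj_ofReal]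
    push_cast
    ring
  rw [h1, h2] at hp
  have h3 : ∫ k, ‖𝓕 (fun k => (g k : ℂ)) k‖ ^ 2 = ∫ x, g x ^ 2 := by exact_mod_cast hp
  rw [← h3]
  refine integral_mono (ct_memLp hg hg2).integrable_sq hm.norm.integrable_sq fun k => ?_
  simp only
  rw [ct_eq_re hg, sq_le_sq, abs_norm]
  exact Complex.abs_re_le_norm _

theorem ct_tendsto {g : E3 → ℝ} (hg : Integrable g) : Tendsto (ct g) (cocompact E3) (𝓝 0) := by
  have h : ct g = fun x => (𝓕 (fun k => (g k : ℂ)) x).re := funext (ct_eq_re hg)
  rw [h]
  have h1 : Tendsto (𝓕 (fun k => (g k : ℂ))) (cocompact E3) (𝓝 0) :=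
    tendsto_integral_exp_inner_smul_cocompact (fun k => (g k : ℂ))
  have h2 := (Complex.continuous_re.tendsto (0 : ℂ)).comp h1
  rwa [Complex.zero_re] at h2

theorem ct_comm {f g : E3 → ℝ} (hf : Integrable f) (hg : Integrable g) :
    ∫ x, f x * ct g x = ∫ k, ct f k * g k := by
  have hint : Integrable (fun p : E3 × E3 =>
      f p.1 * (g p.2 * Real.cos (2 * Real.pi * inner ℝ p.2 p.1))) (volume.prod volume) := by
    have h0 := hf.mul_prod hg
    refine h0.norm.mono' ?_ (Filter.Eventually.of_forall fun p => ?_)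
    · have hc : Continuous fun p : E3 × E3 => Real.cos (2 * Real.pi * inner ℝ p.2 p.1) := by
        fun_prop
      have h1 := h0.aestronglyMeasurable.mul hc.aestronglyMeasurable
      refine h1.congr (Filter.Eventually.of_forall fun p => ?_)
      show f p.1 * g p.2 * _ = _
      ring
    · rw [norm_mul, norm_mul, norm_mul]
      have h2 : ‖Real.cos (2 * Real.pi * inner ℝ p.2 p.1)‖ ≤ 1 := Real.abs_cos_le_one _
      have h3 : 0 ≤ ‖f p.1‖ * ‖g p.2‖ := by positivity
      nlinarith
  calc ∫ x, f x * ct g x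
      = ∫ x, ∫ k, f x * (g k * Real.cos (2 * Real.pi * inner ℝ k x)) := by
        refine integral_congr_ae (Filter.Eventually.of_forall fun x => ?_)
        simp only [ct]
        rw [integral_const_mul]
    _ = ∫ k, ∫ x, f x * (g k * Real.cos (2 * Real.pi * inner ℝ k x)) :=
        integral_integral_swap (f := fun x k => f x * (g k * Real.cos (2 * Real.pi * inner ℝ k x))) hint
    _ = _ := by
        refine integral_congr_ae (Filter.Eventually.of_forall fun k => ?_)
        simp only [ct]
        rw [← integral_mul_const]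
        refine integral_congr_ae (Filter.Eventually.of_forall fun x => ?_)
        simp only
        rw [real_inner_comm]
        ring

/-- the transform of an even integrable function is real -/
theorem fourier_even {g : E3 → ℝ} (hg : Integrable g) (he : ∀ᵐ x, g (-x) = g x) (k : E3) :
    𝓕 (fun x => (g x : ℂ)) k = ((ct g k : ℝ) : ℂ) := by
  rw [expand hg k]
  have h0 : ∫ x, g x * Real.sin (2 * Real.pi * inner ℝ x k) = 0 := by
    have h1 := integral_neg_eq_self (fun x => g x * Real.sin (2 * Real.pi * inner ℝ x k)) volume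
    have h2 : ∫ x : E3, g (-x) * Real.sin (2 * Real.pi * inner ℝ (-x) k) =
        ∫ x, -(g x * Real.sin (2 * Real.pi * inner ℝ x k)) := by
      refine integral_congr_ae ?_
      filter_upwards [he] with x hx
      rw [hx, inner_neg_left, mul_neg, Real.sin_neg, mul_neg]
    rw [h2, integral_neg] at h1
    linarith
  rw [h0]
  simp

end Pool.Agent.P76w
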