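import Pool.Agent.Lib.P76w.CtFacts
import Pool.Agent.Lib.P76w.Alg

/-!
# P76w.Cutoff (1 h): cutting off the pairing function
(black boxes: CtFacts, Alg for `gm`)

`A_M(k) = max 0 (min 1 (M + 1 - |k|)) * A k`: continuous, even, compactly supported, `|A_M| ≤ |A|`,
`A_M → A` pointwise.  `gm` is continuous and monotone in `|·|`, so `0 ≤ gm A_M ≤ gm A ≤ |A|`.
Dominated convergence: `∫ ek gm A_M → ∫ ek gm A`, `∫ gm A_M → ∫ gm A`, `ct A_M x → ct A x`,
`ct (gm A_M) x → ct (gm A) x` for every `x`, both bounded by `∫ |A|`; so the integrals against `v` converge,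
and `FF v A_M ρ → FF v A ρ`.
-/

open MeasureTheory Filter Topology
open scoped BigOperators FourierTransform

namespace Pool.Agent.P76w

open Pool.Agent.P76s

namespace CutoffAux

/-- the cutoff -/
noncomputable def cM (M : ℕ) (k : E3) : ℝ := max 0 (min 1 ((M : ℝ) + 1 - ‖k‖))

theorem cM_nonneg (M : ℕ) (k : E3) : 0 ≤ cM M k := le_max_left _ _

theorem cM_le (M : ℕ) (k : E3) : cM M k ≤ 1 := max_le zero_le_one (min_le_left _ _)

theorem cM_cont (M : ℕ) : Continuous (cM M) :=
  continuous_const.max (continuous_const.min (continuous_const.sub continuous_norm))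

theorem cM_neg (M : ℕ) (k : E3) : cM M (-k) = cM M k := by simp [cM]

theorem cM_supp {M : ℕ} {k : E3} (h : (M : ℝ) + 1 ≤ ‖k‖) : cM M k = 0 := by
  unfold cM
  have h1 : min 1 ((M : ℝ) + 1 - ‖k‖) ≤ 0 := (min_le_right _ _).trans (by linarith)
  exact max_eq_left h1

theorem cM_one {M : ℕ} {k : E3} (h : ‖k‖ ≤ M) : cM M k = 1 := by
  unfold cM
  rw [min_eq_left (by linarith), max_eq_right zero_le_one]

theorem cM_tendsto (k : E3) : Tendsto (fun M => cM M k) atTop (𝓝 1) := by
  obtain ⟨n, hn⟩ := exists_nat_ge ‖k‖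
  refine tendsto_const_nhds.congr' ?_
  filter_upwards [eventually_ge_atTop n] with M hM
  rw [cM_one (hn.trans (by exact_mod_cast hM))]

theorem gm_mul_le {c a : ℝ} (hc0 : 0 ≤ c) (hc1 : c ≤ 1) : gm (c * a) ≤ gm a := by
  unfold gm
  have h1 : (c * a) ^ 2 ≤ a ^ 2 := by
    rw [mul_pow]
    have h2 : c ^ 2 ≤ 1 := by nlinarith
    nlinarith [sq_nonneg a]
  have h3 : √(1 / 4 + (c * a) ^ 2) ≤ √(1 / 4 + a ^ 2) := Real.sqrt_le_sqrt (by linarith)
  linarith

/-- dominated convergence for the cosine transform -/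
theorem ct_lim {F : ℕ → E3 → ℝ} {f b : E3 → ℝ} (hF : ∀ n, Continuous (F n))
    (hb : Integrable b) (hle : ∀ n k, |F n k| ≤ b k)
    (hlim : ∀ k, Tendsto (fun n => F n k) atTop (𝓝 (f k))) (x : E3) :
    Tendsto (fun n => ct (F n) x) atTop (𝓝 (ct f x)) := by
  unfold ct
  refine tendsto_integral_of_dominated_convergence b ?_ hb ?_ ?_
  · intro n
    have hc : Continuous fun k : E3 => F n k * Real.cos (2 * Real.pi * inner ℝ k x) := by
      refine (hF n).mul (Real.continuous_cos.comp (continuous_const.mul ?_))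
      exact continuous_id.inner continuous_const
    exact hc.aestronglyMeasurable
  · intro n
    refine Filter.Eventually.of_forall fun k => ?_
    rw [Real.norm_eq_abs, abs_mul]
    calc |F n k| * |Real.cos (2 * Real.pi * inner ℝ k x)| ≤ b k * 1 :=
          mul_le_mul (hle n k) (Real.abs_cos_le_one _) (abs_nonneg _)
            ((abs_nonneg _).trans (hle n k))
      _ = b k := mul_one _
  · exact Filter.Eventually.of_forall fun k => (hlim k).mul_const _

theorem abs_gm (a : ℝ) : |gm a| ≤ |a| := by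
  rw [abs_of_nonneg (gm_nonneg a)]
  exact gm_le_abs a

theorem int_le {F b : E3 → ℝ} (hF : Continuous F) (hb : Integrable b) (hle : ∀ k, |F k| ≤ b k) :
    Integrable F ∧ ∫ k, |F k| ≤ ∫ k, b k := by
  have h1 : Integrable F := hb.mono' hF.aestronglyMeasurable
    (Filter.Eventually.of_forall fun k => hle k)
  exact ⟨h1, integral_mono h1.abs hb hle⟩

end CutoffAux

open CutoffAux in
theorem cutoff {v A : E3 → ℝ} {ρ ε : ℝ} (hv : Integrable v) (hA : Continuous A)
    (hAe : ∀ k, A (-k) = A k) (hAi : Integrable A) (hK : Integrable fun k => ek k * gm (A k))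
    (hε : 0 < ε) :
    ∃ A' : E3 → ℝ, Continuous A' ∧ HasCompactSupport A' ∧ (∀ k, A' (-k) = A' k) ∧
      ∫ k, gm (A' k) ≤ ∫ k, gm (A k) ∧ FF v A' ρ ≤ FF v A ρ + ε := by
  have hc : ∀ M, Continuous fun k => cM M k * A k := fun M => (cM_cont M).mul hA
  have hg : Continuous fun k => gm (A k) := continuous_gm.comp hA
  have hgc : ∀ M, Continuous fun k => gm (cM M k * A k) := fun M => continuous_gm.comp (hc M)
  have hAb : Integrable fun k => |A k| := hAi.abs
  have hle : ∀ M k, |cM M k * A k| ≤ |A k| := by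
    intro M k
    rw [abs_mul, abs_of_nonneg (cM_nonneg M k)]
    calc cM M k * |A k| ≤ 1 * |A k| := mul_le_mul_of_nonneg_right (cM_le M k) (abs_nonneg _)
      _ = |A k| := one_mul _
  have hgle : ∀ M k, |gm (cM M k * A k)| ≤ |A k| := fun M k => (abs_gm _).trans (hle M k)
  have hgle' : ∀ k, |gm (A k)| ≤ |A k| := fun k => abs_gm _
  have hgi : Integrable fun k => gm (A k) := (int_le hg hAb hgle').1
  have hlim : ∀ k, Tendsto (fun M => cM M k * A k) atTop (𝓝 (A k)) := by
    intro k
    have := (cM_tendsto k).mul_const (A k)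
    rwa [one_mul] at this
  have hglim : ∀ k, Tendsto (fun M => gm (cM M k * A k)) atTop (𝓝 (gm (A k))) := fun k =>
    (continuous_gm.tendsto (A k)).comp (hlim k)
  have hek : Continuous ek := by
    unfold ek
    fun_prop
  have hek0 : ∀ k, 0 ≤ ek k := by
    intro k
    unfold ek
    positivity
  -- the four limits
  have L1 : Tendsto (fun M => ∫ k, ek k * gm (cM M k * A k)) atTop
      (𝓝 (∫ k, ek k * gm (A k))) := by
    refine tendsto_integral_of_dominated_convergence (fun k => ek k * gm (A k)) ?_ hK ?_ ?_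
    · exact fun M => (hek.mul (hgc M)).aestronglyMeasurable
    · intro M
      refine Filter.Eventually.of_forall fun k => ?_
      rw [Real.norm_eq_abs, abs_of_nonneg (mul_nonneg (hek0 k) (gm_nonneg _))]
      exact mul_le_mul_of_nonneg_left (gm_mul_le (cM_nonneg M k) (cM_le M k)) (hek0 k)
    · exact Filter.Eventually.of_forall fun k => (hglim k).const_mul _
  have L2 : Tendsto (fun M => ∫ k, gm (cM M k * A k)) atTop (𝓝 (∫ k, gm (A k))) := by
    refine tendsto_integral_of_dominated_convergence (fun k => |A k|) ?_ hAb ?_ ?_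
    · exact fun M => (hgc M).aestronglyMeasurable
    · intro M
      exact Filter.Eventually.of_forall fun k => hgle M k
    · exact Filter.Eventually.of_forall fun k => hglim k
  have C1 : ∀ x, Tendsto (fun M => ct (fun k => cM M k * A k) x) atTop (𝓝 (ct A x)) := fun x =>
    ct_lim hc hAb hle hlim x
  have C2 : ∀ x, Tendsto (fun M => ct (fun k => gm (cM M k * A k)) x) atTop
      (𝓝 (ct (fun k => gm (A k)) x)) := fun x => ct_lim hgc hAb hgle hglim x
  obtain ⟨I, hI⟩ : ∃ I : ℝ, I = ∫ k, |A k| := ⟨_, rfl⟩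
  have hI0 : 0 ≤ I := by
    rw [hI]
    exact integral_nonneg fun k => abs_nonneg _
  have B1 : ∀ M x, |ct (fun k => cM M k * A k) x| ≤ I := by
    intro M x
    rw [hI]
    obtain ⟨h1, h2⟩ := int_le (hc M) hAb (hle M)
    exact (ct_abs_le h1 x).trans h2
  have B2 : ∀ M x, |ct (fun k => gm (cM M k * A k)) x| ≤ I := by
    intro M x
    rw [hI]
    obtain ⟨h1, h2⟩ := int_le (hgc M) hAb (hgle M)
    exact (ct_abs_le h1 x).trans h2
  have K1 : ∀ M, Continuous (ct fun k => cM M k * A k) := fun M =>
    ct_continuous (int_le (hc M) hAb (hle M)).1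
  have K2 : ∀ M, Continuous (ct fun k => gm (cM M k * A k)) := fun M =>
    ct_continuous (int_le (hgc M) hAb (hgle M)).1
  have L3 : Tendsto (fun M => ∫ x, v x * (ct (fun k => gm (cM M k * A k)) x -
      ct (fun k => cM M k * A k) x)) atTop
      (𝓝 (∫ x, v x * (ct (fun k => gm (A k)) x - ct A x))) := by
    refine tendsto_integral_of_dominated_convergence (fun x => |v x| * (2 * I)) ?_
      (hv.abs.mul_const _) ?_ ?_
    · exact fun M => hv.aestronglyMeasurable.mul ((K2 M).sub (K1 M)).aestronglyMeasurable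
    · intro M
      refine Filter.Eventually.of_forall fun x => ?_
      rw [Real.norm_eq_abs, abs_mul]
      refine mul_le_mul_of_nonneg_left ?_ (abs_nonneg _)
      calc _ ≤ |ct (fun k => gm (cM M k * A k)) x| + |ct (fun k => cM M k * A k) x| := abs_sub _ _
        _ ≤ 2 * I := by linarith [B1 M x, B2 M x]
    · exact Filter.Eventually.of_forall fun x => ((C2 x).sub (C1 x)).const_mul _
  have L4 : Tendsto (fun M => ∫ x, v x * (ct (fun k => cM M k * A k) x ^ 2 +
      ct (fun k => gm (cM M k * A k)) x ^ 2)) atTop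
      (𝓝 (∫ x, v x * (ct A x ^ 2 + ct (fun k => gm (A k)) x ^ 2))) := by
    refine tendsto_integral_of_dominated_convergence (fun x => |v x| * (2 * I ^ 2)) ?_
      (hv.abs.mul_const _) ?_ ?_
    · exact fun M => hv.aestronglyMeasurable.mul
        (((K1 M).pow 2).add ((K2 M).pow 2)).aestronglyMeasurable
    · intro M
      refine Filter.Eventually.of_forall fun x => ?_
      rw [Real.norm_eq_abs, abs_mul]
      refine mul_le_mul_of_nonneg_left ?_ (abs_nonneg _)
      rw [abs_of_nonneg (by positivity)]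
      have h1 := sq_le_sq.mpr (show |ct (fun k => cM M k * A k) x| ≤ |I| by
        rw [abs_of_nonneg hI0]; exact B1 M x)
      have h2 := sq_le_sq.mpr (show |ct (fun k => gm (cM M k * A k)) x| ≤ |I| by
        rw [abs_of_nonneg hI0]; exact B2 M x)
      linarith
    · exact Filter.Eventually.of_forall fun x => (((C1 x).pow 2).add ((C2 x).pow 2)).const_mul _
  have L : Tendsto (fun M => FF v (fun k => cM M k * A k) ρ) atTop (𝓝 (FF v A ρ)) := by
    unfold FF
    exact ((L1.add_const _).add ((L2.const_sub ρ).mul L3)).add (L4.const_mul _)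
  have hev := L.eventually (gt_mem_nhds (show FF v A ρ < FF v A ρ + ε by linarith))
  obtain ⟨M, hM⟩ := hev.exists
  refine ⟨fun k => cM M k * A k, hc M, ?_, ?_, ?_, hM.le⟩
  · refine HasCompactSupport.intro (isCompact_closedBall (0 : E3) ((M : ℝ) + 1)) fun k hk => ?_
    rw [Metric.mem_closedBall, dist_zero_right, not_le] at hk
    rw [cM_supp hk.le, zero_mul]
  · intro k
    show cM M (-k) * A (-k) = cM M k * A k
    rw [cM_neg, hAe]
  · exact integral_mono (int_le (hgc M) hAb (hgle M)).1 hgi fun k =>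
      gm_mul_le (cM_nonneg M k) (cM_le M k)

end Pool.Agent.P76w
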