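import Pool.Agent.Lib.P76s.Defs

/-!
# MP_76de3d_mp, weak coupling: definitions

Notation of the proof.  `ek k = 2π²|k|²` is the kinetic symbol (`½|2πk|²`), `gm a = √(¼+a²) - ½`,
`ct g x = ∫ g(k) cos(2π k·x) dk` the cosine transform, `FF v A ρ` the energy per volume of the
quasi-free (Bogoliubov) state with pairing function `-A` and momentum distribution `gm A` at density `ρ`.

`SD v₁ lam ρ E D₀ T h` collects what we use about a solution of the Simple equation with potential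
`lam • v₁`: `T = ρ Ŝ`, `h = ρ û`, `E = 2e`, `D₀ = ρ ∫ u v`.
-/

open MeasureTheory Filter Topology ProbabilityTheory
open scoped ENNReal NNReal BigOperators FourierTransform ContDiff ComplexConjugate

namespace Pool.Agent.P76w

open Pool.Agent.P76s

/-! ### The variational side -/

/-- The kinetic symbol `½|2πk|²`. -/
noncomputable def ek (k : E3) : ℝ := 2 * Real.pi ^ 2 * ‖k‖ ^ 2

/-- `γ = √(¼+α²) - ½`. -/
noncomputable def gm (a : ℝ) : ℝ := √(1 / 4 + a ^ 2) - 1 / 2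

/-- The cosine transform `∫ g(k) cos(2π k·x) dk`. -/
noncomputable def ct (g : E3 → ℝ) (x : E3) : ℝ :=
  ∫ k, g k * Real.cos (2 * Real.pi * inner ℝ k x)

/-- The energy per volume of the quasi-free state with pairing function `-A` at density `ρ`. -/
noncomputable def FF (v A : E3 → ℝ) (ρ : ℝ) : ℝ :=
  (∫ k, ek k * gm (A k)) + ρ ^ 2 / 2 * (∫ x, v x) +
    (ρ - ∫ k, gm (A k)) * (∫ x, v x * (ct (fun k => gm (A k)) x - ct A x)) +
    1 / 2 * ∫ x, v x * (ct A x ^ 2 + ct (fun k => gm (A k)) x ^ 2)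

/-- `X = K + E + √((K+E)² - E T)`; the solution of the Simple equation is `h = T / X`. -/
noncomputable def XX (E T K : ℝ) : ℝ := K + E + √((K + E) ^ 2 - E * T)

/-- `B = K + D + (E-T)²/E`. -/
noncomputable def BB (E D T K : ℝ) : ℝ := K + D + (E - T) ^ 2 / E

/-- The trial pairing function: `½T/√(B(B+2T))` for `T ≥ 0`, `T/X = h` for `T < 0`. -/
noncomputable def AA (E D T K : ℝ) : ℝ :=
  if 0 ≤ T then T / (2 * √(BB E D T K * (BB E D T K + 2 * T))) else T / XX E T K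

/-- The potentials `v₁`. -/
structure Pot (v₁ : E3 → ℝ) : Prop where
  meas : Measurable v₁
  int : Integrable v₁
  nonneg : ∀ x, 0 ≤ v₁ x
  even : ∀ x, v₁ (-x) = v₁ x
  sq : MemLp v₁ 2
  pos : 0 < ∫ x, v₁ x

/-- The facts about a solution of the Simple equation with potential `lam • v₁` which are used:
`T = ρ Ŝ`, `h = ρ û`, `E = 2e`, `D₀ = ρ ∫ u v`. -/
structure SD (v₁ : E3 → ℝ) (lam ρ E D₀ : ℝ) (T h : E3 → ℝ) : Prop where
  lam_pos : 0 < lam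
  rho_pos : 0 < ρ
  E_pos : 0 < E
  D_nonneg : 0 ≤ D₀
  sum : E + D₀ = ρ * lam * ∫ x, v₁ x
  cont : Continuous T
  even : ∀ k, T (-k) = T k
  le : ∀ k, |T k| ≤ E
  close : ∀ k, |T k - ρ * lam * ct v₁ k| ≤ D₀
  sq : MemLp T 2
  sqle : ∫ k, T k ^ 2 ≤ (ρ * lam) ^ 2 * ∫ x, v₁ x ^ 2
  h_eq : ∀ k, h k = T k / XX E (T k) (ek k)

/-- The scaling function of the error integrals: `min(t^{-1/2}, t^{-2})`. -/
noncomputable def g0 (t : ℝ) : ℝ := min (1 / √t) (1 / t ^ 2)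

/-- the numbers `φ(E) = E^{3/2}/(1+E)` -/
noncomputable def phi (E : ℝ) : ℝ := E * √E / (1 + E)

/-- `J₁ = ∫ |A h|`. -/
noncomputable def J1 (E D : ℝ) (T h : E3 → ℝ) : ℝ := ∫ k, |AA E D (T k) (ek k)| * |h k|

/-- `J₂ = ∫ |h - A|`. -/
noncomputable def J2 (E D : ℝ) (T h : E3 → ℝ) : ℝ := ∫ k, |h k - AA E D (T k) (ek k)|

/-- `J₃ = ∫ |v̂₁| |A - gm A|`. -/
noncomputable def J3 (v₁ : E3 → ℝ) (E D : ℝ) (T : E3 → ℝ) : ℝ :=
  ∫ k, |ct v₁ k| * |AA E D (T k) (ek k) - gm (AA E D (T k) (ek k))|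

/-- `γ₀ = ∫ gm A`. -/
noncomputable def G0 (E D : ℝ) (T : E3 → ℝ) : ℝ := ∫ k, gm (AA E D (T k) (ek k))

/-! ### The many-body side -/

/-- The Hartley mode `(cos θ + sin θ)/√(L³)`, `θ = 2π n·y/L`: an orthonormal family on the box. -/
noncomputable def hart (L : ℝ) (n : Fin 3 → ℤ) (y : Fin 3 → ℝ) : ℝ :=
  (Real.cos (2 * Real.pi / L * ∑ b, (n b : ℝ) * y b) +
    Real.sin (2 * Real.pi / L * ∑ b, (n b : ℝ) * y b)) / √(L ^ 3)

/-- `2π|n|/L` squared. -/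
noncomputable def nsq (L : ℝ) (n : Fin 3 → ℤ) : ℝ := (2 * Real.pi / L) ^ 2 * ∑ b, (n b : ℝ) ^ 2

/-- The mode coefficient with `c² / (1 - |c|⁴) = -a`. -/
noncomputable def cc (a : ℝ) : ℂ :=
  (if 0 ≤ a then Complex.I else 1) * ((√(|a| / (1 + gm a)) : ℝ) : ℂ)

/-- The random field `√r + ∑ c_n x_n e_n(y)`. -/
noncomputable def fld (L r : ℝ) (I : Finset (Fin 3 → ℤ)) (a : (Fin 3 → ℤ) → ℝ) (x : I → ℝ)
    (y : Fin 3 → ℝ) : ℂ :=
  ((√r : ℝ) : ℂ) + ∑ n : I, cc (a n) * (x n : ℂ) * (hart L n y : ℂ)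

/-- The partial derivative of the random field in the direction `b`. -/
noncomputable def dfld (L : ℝ) (I : Finset (Fin 3 → ℤ)) (a : (Fin 3 → ℤ) → ℝ) (x : I → ℝ)
    (b : Fin 3) (y : Fin 3 → ℝ) : ℂ :=
  ∑ n : I, cc (a n) * (x n : ℂ) * ((2 * Real.pi / L * (n : Fin 3 → ℤ) b *
    ((Real.cos (2 * Real.pi / L * ∑ b, ((n : Fin 3 → ℤ) b : ℝ) * y b) -
      Real.sin (2 * Real.pi / L * ∑ b, ((n : Fin 3 → ℤ) b : ℝ) * y b)) / √(L ^ 3)) : ℝ) : ℂ)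

/-- The standard Gaussian measure on `ℝ^ι`. -/
noncomputable def gs (ι : Type*) [Fintype ι] : Measure (ι → ℝ) :=
  Measure.pi fun _ => gaussianReal 0 1

instance (ι : Type*) [Fintype ι] : IsProbabilityMeasure (gs ι) := by unfold gs; infer_instance

/-- The `N`-body component of the trial state. -/
noncomputable def psiN (L r : ℝ) (I : Finset (Fin 3 → ℤ)) (a : (Fin 3 → ℤ) → ℝ) (N : ℕ)
    (X : Conf N) : ℂ :=
  ∫ x, ∏ i, fld L r I a x (X i) ∂(gs I)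

/-- `m_n = |c_n|²`. -/
noncomputable def mm (a : ℝ) : ℝ := |a| / (1 + gm a)

/-- `∫_box f_x conj f_x'`. -/
noncomputable def JJ (L r : ℝ) (I : Finset (Fin 3 → ℤ)) (a : (Fin 3 → ℤ) → ℝ) (x x' : I → ℝ) : ℝ :=
  r * L ^ 3 + ∑ n : I, mm (a n) * x n * x' n

/-- `∫_box ∇f_x · conj ∇f_x'`. -/
noncomputable def KJ (L : ℝ) (I : Finset (Fin 3 → ℤ)) (a : (Fin 3 → ℤ) → ℝ) (x x' : I → ℝ) : ℝ :=
  ∑ n : I, nsq L n * mm (a n) * x n * x' n

/-- `∬ W(y - z) f_x(y) f_x(z) conj (f_x'(y) f_x'(z))`. -/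
noncomputable def IJ (L r : ℝ) (I : Finset (Fin 3 → ℤ)) (a : (Fin 3 → ℤ) → ℝ)
    (W : (Fin 3 → ℝ) → ℝ≥0∞) (x x' : I → ℝ) : ℂ :=
  ∫ y in box L, ∫ z in box L, ((W (y - z)).toReal : ℂ) *
    (fld L r I a x y * fld L r I a x z * conj (fld L r I a x' y * fld L r I a x' z))

/-- The normalisation `∏ (1 - m_n²)^{-1/2}`. -/
noncomputable def ZZ (I : Finset (Fin 3 → ℤ)) (a : (Fin 3 → ℤ) → ℝ) : ℝ :=
  ∏ n : I, (√(1 - mm (a n) ^ 2))⁻¹

/-- `α_L(z)`. -/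
noncomputable def alL (L : ℝ) (I : Finset (Fin 3 → ℤ)) (a : (Fin 3 → ℤ) → ℝ) (z : Fin 3 → ℝ) : ℝ :=
  -(L ^ 3)⁻¹ * ∑ n : I, a n * Real.cos (2 * Real.pi / L * ∑ b, ((n : Fin 3 → ℤ) b : ℝ) * z b)

/-- `γ_L(z)`. -/
noncomputable def gaL (L : ℝ) (I : Finset (Fin 3 → ℤ)) (a : (Fin 3 → ℤ) → ℝ) (z : Fin 3 → ℝ) : ℝ :=
  (L ^ 3)⁻¹ * ∑ n : I, gm (a n) * Real.cos (2 * Real.pi / L * ∑ b, ((n : Fin 3 → ℤ) b : ℝ) * z b)

/-- The two-particle density of the trial state. -/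
noncomputable def QQ (L r : ℝ) (I : Finset (Fin 3 → ℤ)) (a : (Fin 3 → ℤ) → ℝ) (z : Fin 3 → ℝ) : ℝ :=
  (r + gaL L I a 0) ^ 2 + 2 * r * (alL L I a z + gaL L I a z) + alL L I a z ^ 2 + gaL L I a z ^ 2

/-- The mean number of particles. -/
noncomputable def nbar (L r : ℝ) (I : Finset (Fin 3 → ℤ)) (a : (Fin 3 → ℤ) → ℝ) : ℝ :=
  r * L ^ 3 + ∑ n : I, gm (a n)

/-- The variance of the number of particles. -/
noncomputable def vbar (L r : ℝ) (I : Finset (Fin 3 → ℤ)) (a : (Fin 3 → ℤ) → ℝ) : ℝ :=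
  nbar L r I a + ∑ n : I, (a n ^ 2 + gm (a n) ^ 2)

/-- The energy of the trial state. -/
noncomputable def HH (L r : ℝ) (I : Finset (Fin 3 → ℤ)) (a : (Fin 3 → ℤ) → ℝ)
    (W : (Fin 3 → ℝ) → ℝ≥0∞) : ℝ :=
  1 / 2 * ∑ n : I, nsq L n * gm (a n) +
    1 / 2 * (L ^ 3 * ∫ z in box L, (W z).toReal * QQ L r I a z)

/-- The standing assumptions on the modes: finitely many, symmetric, without zero. -/
structure Modes (I : Finset (Fin 3 → ℤ)) (a : (Fin 3 → ℤ) → ℝ) : Prop where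
  zero : 0 ∉ I
  symm : ∀ n ∈ I, -n ∈ I
  even : ∀ n, a (-n) = a n

end Pool.Agent.P76w
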