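import Pool.Agent.Lib.P76w.Defs
import Pool.Agent.Lib.P76s.FourierPos

/-!
# P76w.Hartley (1.5 h): the Hartley modes on the box `[0,L)³`

`hart L n y = (cos θ_n + sin θ_n)/√(L³)`, `θ_n = (2π/L) n·y`.
`∫_box cos θ_n = L³ [n=0]`, `∫_box sin θ_n = 0` (e.g. via the scaling and `integral_ch`, `box_scale` of
`P76s.FourierPos`, or as iterated one-dimensional integrals).  Products by
`(cos a + sin a)(cos b + sin b) = cos(a-b) + sin(a+b)` and
`(cos a - sin a)(cos b - sin b) = cos(a-b) - sin(a+b)`: so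
* `hart_orth`: `∫ hart n hart m = [n=m]` (for `n + m = 0` the sine is `0` anyway);
* `hart_int`: `∫ hart n = 0` for `n ≠ 0`;
* the derivative modes `(2π/L) n_b (cos θ - sin θ)/√(L³)`: `∫ = (2π/L)² n_b m_b [n=m]`.
* `inner_fld`, `inner_dfld`: expand the finite sums; `conj` of `cc a`: `cc a * conj (cc a) = mm a`;
  `hart` real; `0 ∉ I` kills the cross terms with the constant `√r` (`√r √r = r`, `0 ≤ r`).
* `hart_sum`: symmetrise over `n ↦ -n` (`g`, `I` symmetric): `hart n y hart n z + hart (-n) y hart (-n) z =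
  2 cos(θ_n(y) - θ_n(z))/L³` since `(cos a + sin a)(cos b + sin b) + (cos a - sin a)(cos b - sin b) =
  2 (cos a cos b + sin a sin b)`.
-/

open MeasureTheory Filter Topology
open scoped BigOperators ContDiff ComplexConjugate

namespace Pool.Agent.P76w

open Pool.Agent.P76s

namespace HartleyAux

open Pool.Agent.P76s.FourierPosAux

/-- the phase -/
noncomputable def th (L : ℝ) (n : Fin 3 → ℤ) (y : Fin 3 → ℝ) : ℝ :=
  2 * Real.pi / L * ∑ b, (n b : ℝ) * y b

lemma th_scale {L : ℝ} (hL : 0 < L) (n : Fin 3 → ℤ) (x : Fin 3 → ℝ) :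
    th L n (L • x) = ph n x := by
  unfold th ph
  simp only [Pi.smul_apply, smul_eq_mul]
  have h : ∀ b, (n b : ℝ) * (L * x b) = L * ((n b : ℝ) * x b) := fun b => by ring
  simp only [h]
  rw [← Finset.mul_sum]
  field_simp

lemma th_add (L : ℝ) (n m : Fin 3 → ℤ) (y : Fin 3 → ℝ) : th L (n + m) y = th L n y + th L m y := by
  unfold th
  simp only [Pi.add_apply, Int.cast_add, add_mul, Finset.sum_add_distrib, mul_add]

lemma th_sub (L : ℝ) (n m : Fin 3 → ℤ) (y : Fin 3 → ℝ) : th L (n - m) y = th L n y - th L m y := by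
  unfold th
  simp only [Pi.sub_apply, Int.cast_sub, sub_mul, Finset.sum_sub_distrib, mul_sub]

lemma th_neg (L : ℝ) (n : Fin 3 → ℤ) (y : Fin 3 → ℝ) : th L (-n) y = -th L n y := by
  unfold th
  simp only [Pi.neg_apply, Int.cast_neg, neg_mul, Finset.sum_neg_distrib, mul_neg]

lemma th_sub' (L : ℝ) (n : Fin 3 → ℤ) (y z : Fin 3 → ℝ) : th L n (y - z) = th L n y - th L n z := by
  unfold th
  simp only [Pi.sub_apply, mul_sub, Finset.sum_sub_distrib]

lemma th_cont (L : ℝ) (n : Fin 3 → ℤ) : Continuous (th L n) := by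
  unfold th
  fun_prop

lemma int_cos {L : ℝ} (hL : 0 < L) (n : Fin 3 → ℤ) :
    ∫ y in box L, Real.cos (th L n y) = if n = 0 then L ^ 3 else 0 := by
  have h := box_scale hL (fun y => Real.cos (th L n y))
  simp only [th_scale hL] at h
  rw [FourierPosAux.integral_cos] at h
  have h3 : (L ^ 3) ≠ 0 := by positivity
  have h4 : ∫ y in box L, Real.cos (th L n y) = L ^ 3 * (if n = 0 then 1 else 0) := by
    rw [h]
    field_simp
  rw [h4]
  split_ifs <;> simp

lemma int_sin {L : ℝ} (hL : 0 < L) (n : Fin 3 → ℤ) :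
    ∫ y in box L, Real.sin (th L n y) = 0 := by
  have h := box_scale hL (fun y => Real.sin (th L n y))
  simp only [th_scale hL] at h
  have h1 : ∫ x in Q 0, Real.sin (ph n x) = 0 := by
    by_cases hn : n = 0
    · rw [hn]
      simp only [ph_zero, Real.sin_zero, integral_zero]
    · have h1 := integral_im (integrableOn_Q (continuous_ch n) 0) (𝕜 := ℂ)
      rw [integral_ch hn] at h1
      simp only [RCLike.im_to_complex, ch_im, Complex.zero_im] at h1
      exact h1
  rw [h1] at h
  have h3 : (L ^ 3)⁻¹ ≠ 0 := by positivity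
  exact (mul_eq_zero.1 h.symm).resolve_left h3

lemma contint {F : (Fin 3 → ℝ) → ℝ} (hF : Continuous F) (L : ℝ) :
    Integrable F (volume.restrict (box L)) := by
  have h : IntegrableOn F (Set.Icc (fun _ => (0 : ℝ)) (fun _ => L)) volume :=
    hF.continuousOn.integrableOn_compact isCompact_Icc
  refine h.mono_set ?_
  intro y hy
  simp only [box, Set.mem_pi, Set.mem_univ, true_implies, Set.mem_Ico] at hy
  exact ⟨fun b => (hy b).1, fun b => (hy b).2.le⟩

lemma contintC {F : (Fin 3 → ℝ) → ℂ} (hF : Continuous F) (L : ℝ) :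
    Integrable F (volume.restrict (box L)) := by
  have h : IntegrableOn F (Set.Icc (fun _ => (0 : ℝ)) (fun _ => L)) volume :=
    hF.continuousOn.integrableOn_compact isCompact_Icc
  refine h.mono_set ?_
  intro y hy
  simp only [box, Set.mem_pi, Set.mem_univ, true_implies, Set.mem_Ico] at hy
  exact ⟨fun b => (hy b).1, fun b => (hy b).2.le⟩

/-- the derivative mode -/
noncomputable def hart' (L : ℝ) (n : Fin 3 → ℤ) (y : Fin 3 → ℝ) : ℝ :=
  (Real.cos (th L n y) - Real.sin (th L n y)) / √(L ^ 3)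

lemma hart_eq (L : ℝ) (n : Fin 3 → ℤ) (y : Fin 3 → ℝ) :
    hart L n y = (Real.cos (th L n y) + Real.sin (th L n y)) / √(L ^ 3) := rfl

lemma hart_cont (L : ℝ) (n : Fin 3 → ℤ) : Continuous (hart L n) := by
  have := th_cont L n
  simp only [funext (hart_eq L n)]
  fun_prop

lemma hart'_cont (L : ℝ) (n : Fin 3 → ℤ) : Continuous (hart' L n) := by
  have := th_cont L n
  unfold hart'
  fun_prop

lemma sq3 {L : ℝ} (hL : 0 < L) : √(L ^ 3) * √(L ^ 3) = L ^ 3 :=
  Real.mul_self_sqrt (by positivity)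

lemma div3 {L : ℝ} (hL : 0 < L) (a b : ℝ) :
    a / √(L ^ 3) * (b / √(L ^ 3)) = (L ^ 3)⁻¹ * (a * b) := by
  rw [div_mul_div_comm, sq3 hL, div_eq_inv_mul]

lemma orth' {L : ℝ} (hL : 0 < L) (n m : Fin 3 → ℤ) :
    ∫ y in box L, hart' L n y * hart' L m y = if n = m then 1 else 0 := by
  have e : ∀ y, hart' L n y * hart' L m y =
      (L ^ 3)⁻¹ * (Real.cos (th L (n - m) y) - Real.sin (th L (n + m) y)) := by
    intro y
    unfold hart'
    rw [div3 hL, th_sub, th_add, Real.cos_sub, Real.sin_add]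
    ring
  simp only [e]
  rw [integral_const_mul, integral_sub, int_cos hL, int_sin hL]
  · simp only [sub_eq_zero, sub_zero]
    split_ifs
    · exact inv_mul_cancel₀ (by positivity)
    · simp
  · exact contint (Real.continuous_cos.comp (th_cont L _)) L
  · exact contint (Real.continuous_sin.comp (th_cont L _)) L

lemma gen_orth {ι : Type*} [Fintype ι] [DecidableEq ι] {g : ι → (Fin 3 → ℝ) → ℝ}
    (hc : ∀ n, Continuous (g n)) {L : ℝ}
    (ho : ∀ n m, ∫ y in box L, g n y * g m y = if n = m then 1 else 0) (α β : ι → ℂ) :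
    ∫ y in box L, (∑ n, α n * (g n y : ℂ)) * conj (∑ m, β m * (g m y : ℂ)) =
      ∑ n, α n * conj (β n) := by
  have e : ∀ y, (∑ n, α n * (g n y : ℂ)) * conj (∑ m, β m * (g m y : ℂ)) =
      ∑ n, ∑ m, (α n * conj (β m)) * (((g n y * g m y : ℝ)) : ℂ) := by
    intro y
    rw [map_sum, Finset.sum_mul_sum]
    refine Finset.sum_congr rfl fun n _ => Finset.sum_congr rfl fun m _ => ?_
    rw [map_mul, Complex.conj_ofReal]
    push_cast
    ring
  simp only [e]
  have hi : ∀ n m, Integrable (fun y => (α n * conj (β m)) * (((g n y * g m y : ℝ)) : ℂ))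
      (volume.restrict (box L)) := by
    intro n m
    refine contintC ?_ L
    have := hc n
    have := hc m
    fun_prop
  rw [integral_finsetSum _ fun n _ => integrable_finsetSum _ fun m _ => hi n m]
  refine Finset.sum_congr rfl fun n _ => ?_
  rw [integral_finsetSum _ fun m _ => hi n m]
  simp only [integral_const_mul, integral_complex_ofReal, ho]
  rw [Finset.sum_eq_single n]
  · simp
  · intro m _ hm
    rw [if_neg (Ne.symm hm)]
    simp
  · intro h
    exact absurd (Finset.mem_univ n) h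

end HartleyAux

open HartleyAux

theorem hart_orth {L : ℝ} (hL : 0 < L) (n m : Fin 3 → ℤ) :
    ∫ y in box L, hart L n y * hart L m y = if n = m then 1 else 0 := by
  have e : ∀ y, hart L n y * hart L m y =
      (L ^ 3)⁻¹ * (Real.cos (th L (n - m) y) + Real.sin (th L (n + m) y)) := by
    intro y
    rw [hart_eq, hart_eq, div3 hL, th_sub, th_add, Real.cos_sub, Real.sin_add]
    ring
  simp only [e]
  rw [integral_const_mul, integral_add, int_cos hL, int_sin hL]
  · simp only [sub_eq_zero, add_zero]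
    split_ifs
    · exact inv_mul_cancel₀ (by positivity)
    · simp
  · exact contint (Real.continuous_cos.comp (th_cont L _)) L
  · exact contint (Real.continuous_sin.comp (th_cont L _)) L

theorem hart_int {L : ℝ} (hL : 0 < L) {n : Fin 3 → ℤ} (hn : n ≠ 0) :
    ∫ y in box L, hart L n y = 0 := by
  simp only [hart_eq]
  rw [integral_div, integral_add, int_cos hL, int_sin hL, if_neg hn]
  · simp
  · exact contint (Real.continuous_cos.comp (th_cont L _)) L
  · exact contint (Real.continuous_sin.comp (th_cont L _)) L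

theorem cc_mul_conj (a : ℝ) : cc a * conj (cc a) = (mm a : ℂ) := by
  have h0 : 0 ≤ |a| / (1 + gm a) := by
    refine div_nonneg (abs_nonneg a) ?_
    unfold gm
    have := Real.sqrt_nonneg (1 / 4 + a ^ 2)
    linarith
  have h1 : √(|a| / (1 + gm a)) * √(|a| / (1 + gm a)) = mm a := Real.mul_self_sqrt h0
  unfold cc
  split_ifs
  · rw [map_mul, Complex.conj_ofReal, Complex.conj_I, ← h1]
    push_cast
    linear_combination (-((√(|a| / (1 + gm a)) : ℝ) : ℂ) * ((√(|a| / (1 + gm a)) : ℝ) : ℂ)) *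
      Complex.I_mul_I
  · rw [map_mul, Complex.conj_ofReal, map_one, ← h1]
    push_cast
    ring

theorem inner_fld {L r : ℝ} (hL : 0 < L) (hr : 0 ≤ r) {I : Finset (Fin 3 → ℤ)} (h0 : 0 ∉ I)
    (a : (Fin 3 → ℤ) → ℝ) (x x' : I → ℝ) :
    ∫ y in box L, fld L r I a x y * conj (fld L r I a x' y) = ((JJ L r I a x x' : ℝ) : ℂ) := by
  have hne : ∀ n : I, (n : Fin 3 → ℤ) ≠ 0 := fun n h => h0 (h ▸ n.2)
  have hS : ∀ x : I → ℝ, Continuous fun y => ∑ n : I, cc (a n) * (x n : ℂ) * (hart L n y : ℂ) := by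
    intro x
    refine continuous_finsetSum _ fun n _ => ?_
    have := hart_cont L n
    fun_prop
  have hz : ∀ x : I → ℝ, ∫ y in box L, ∑ n : I, cc (a n) * (x n : ℂ) * (hart L n y : ℂ) = 0 := by
    intro x
    rw [integral_finsetSum]
    · refine Finset.sum_eq_zero fun n _ => ?_
      rw [integral_const_mul, integral_complex_ofReal, hart_int hL (hne n)]
      simp
    · intro n _
      refine contintC ?_ L
      have := hart_cont L n
      fun_prop
  have e : ∀ y, fld L r I a x y * conj (fld L r I a x' y) =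
      (r : ℂ) * ((Real.cos (th L 0 y) : ℝ) : ℂ) + ((√r : ℝ) : ℂ) *
        conj (∑ n : I, cc (a n) * (x' n : ℂ) * (hart L n y : ℂ)) +
      ((√r : ℝ) : ℂ) * (∑ n : I, cc (a n) * (x n : ℂ) * (hart L n y : ℂ)) +
      (∑ n : I, cc (a n) * (x n : ℂ) * (hart L n y : ℂ)) *
        conj (∑ n : I, cc (a n) * (x' n : ℂ) * (hart L n y : ℂ)) := by
    intro y
    have h1 : th L 0 y = 0 := by
      unfold th
      simp
    have h2 : (r : ℂ) = ((√r : ℝ) : ℂ) * ((√r : ℝ) : ℂ) := by
      rw [← Complex.ofReal_mul, Real.mul_self_sqrt hr]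
    unfold fld
    rw [map_add, Complex.conj_ofReal, h1, Real.cos_zero, h2]
    push_cast
    ring
  simp only [e]
  have hcS : ∀ x : I → ℝ, Continuous fun y =>
      conj (∑ n : I, cc (a n) * (x n : ℂ) * (hart L n y : ℂ)) := fun x =>
    Complex.continuous_conj.comp (hS x)
  rw [integral_add, integral_add, integral_add, integral_const_mul, integral_const_mul,
    integral_const_mul, integral_conj, hz, hz, integral_complex_ofReal, int_cos hL, if_pos rfl,
    gen_orth (fun n : I => hart_cont L n)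
      (fun n m => by rw [hart_orth hL]; simp only [Subtype.ext_iff])]
  · have h3 : ∀ n : I, cc (a n) * (x n : ℂ) * conj (cc (a n) * (x' n : ℂ)) =
        (((mm (a n) * x n * x' n : ℝ)) : ℂ) := by
      intro n
      rw [map_mul, Complex.conj_ofReal]
      push_cast
      rw [← cc_mul_conj]
      ring
    simp only [h3]
    unfold JJ
    push_cast
    simp
  · exact contintC (by have := th_cont L 0; fun_prop) L
  · exact contintC (continuous_const.mul (hcS x')) L
  · exact contintC ((by have := th_cont L 0; fun_prop : Continuous fun y =>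
      (r : ℂ) * ((Real.cos (th L 0 y) : ℝ) : ℂ)).add (continuous_const.mul (hcS x'))) L
  · exact contintC (continuous_const.mul (hS x)) L
  · exact contintC (((by have := th_cont L 0; fun_prop : Continuous fun y =>
      (r : ℂ) * ((Real.cos (th L 0 y) : ℝ) : ℂ)).add (continuous_const.mul (hcS x'))).add
        (continuous_const.mul (hS x))) L
  · exact contintC ((hS x).mul (hcS x')) L

theorem inner_dfld {L : ℝ} (hL : 0 < L) (I : Finset (Fin 3 → ℤ)) (a : (Fin 3 → ℤ) → ℝ)
    (x x' : I → ℝ) :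
    ∑ b, ∫ y in box L, dfld L I a x b y * conj (dfld L I a x' b y) =
      ((KJ L I a x x' : ℝ) : ℂ) := by
  have e : ∀ (x : I → ℝ) (b : Fin 3) (y : Fin 3 → ℝ), dfld L I a x b y =
      ∑ n : I, (cc (a n) * (x n : ℂ) * ((2 * Real.pi / L * (n : Fin 3 → ℤ) b : ℝ) : ℂ)) *
        (hart' L n y : ℂ) := by
    intro x b y
    unfold dfld
    refine Finset.sum_congr rfl fun n _ => ?_
    unfold hart' th
    push_cast
    ring
  have h1 : ∀ b, ∫ y in box L, dfld L I a x b y * conj (dfld L I a x' b y) =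
      ∑ n : I, (((2 * Real.pi / L * (n : Fin 3 → ℤ) b) ^ 2 * (mm (a n) * x n * x' n) : ℝ) : ℂ) := by
    intro b
    simp only [e]
    rw [gen_orth (fun n : I => hart'_cont L n)
      (fun n m => by rw [orth' hL]; simp only [Subtype.ext_iff])]
    refine Finset.sum_congr rfl fun n _ => ?_
    rw [map_mul, map_mul, Complex.conj_ofReal, Complex.conj_ofReal]
    push_cast
    rw [← cc_mul_conj]
    ring
  simp only [h1]
  rw [Finset.sum_comm]
  unfold KJ nsq
  push_cast
  refine Finset.sum_congr rfl fun n _ => ?_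
  rw [Finset.mul_sum, Finset.sum_mul, Finset.sum_mul, Finset.sum_mul]
  refine Finset.sum_congr rfl fun b _ => ?_
  ring

theorem hart_sum {L : ℝ} (hL : 0 < L) {I : Finset (Fin 3 → ℤ)} (hI : ∀ n ∈ I, -n ∈ I)
    {g : (Fin 3 → ℤ) → ℝ} (hg : ∀ n, g (-n) = g n) (y z : Fin 3 → ℝ) :
    ∑ n : I, g n * (hart L n y * hart L n z) =
      (L ^ 3)⁻¹ * ∑ n : I, g n *
        Real.cos (2 * Real.pi / L * ∑ b, ((n : Fin 3 → ℤ) b : ℝ) * (y - z) b) := by
  change ∑ n : I, g n * (hart L n y * hart L n z) =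
    (L ^ 3)⁻¹ * ∑ n : I, g n * Real.cos (th L n (y - z))
  rw [Finset.sum_coe_sort I (fun n => g n * (hart L n y * hart L n z)),
    Finset.sum_coe_sort I (fun n => g n * Real.cos (th L n (y - z)))]
  have hneg : ∑ n ∈ I, g n * (hart L n y * hart L n z) =
      ∑ n ∈ I, g n * (hart L (-n) y * hart L (-n) z) := by
    refine Finset.sum_nbij' (fun n => -n) (fun n => -n) hI hI (fun n _ => neg_neg n)
      (fun n _ => neg_neg n) fun n _ => ?_
    rw [hg, neg_neg]
  have h2 : ∑ n ∈ I, g n * (hart L n y * hart L n z) +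
      ∑ n ∈ I, g n * (hart L n y * hart L n z) =
      2 * ((L ^ 3)⁻¹ * ∑ n ∈ I, g n * Real.cos (th L n (y - z))) := by
    nth_rewrite 2 [hneg]
    rw [← Finset.sum_add_distrib, Finset.mul_sum, Finset.mul_sum]
    refine Finset.sum_congr rfl fun n _ => ?_
    rw [hart_eq, hart_eq, hart_eq, hart_eq, div3 hL, div3 hL, th_sub', th_neg, th_neg,
      Real.cos_neg, Real.cos_neg, Real.sin_neg, Real.sin_neg, Real.cos_sub]
    ring
  linarith

end Pool.Agent.P76w
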