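import Pool.Agent.Lib.P76w.Defs

/-!
# P76w.GaussPoly (1.5 h): polynomial growth is integrable for Gaussian measures, with exponential weights

`gs ι` is the product of standard Gaussians, `J(x,y) = ∑ m_n x_n y_n` with `|m_n| < 1`.
`|m x y| ≤ |m|(x²+y²)/2`; let `m* = max |m_n| < 1`.  `(1 + ∑|x| + ∑|y|)^k ≤ C_ε exp(ε ∑(x² + y²))` and
`∫ exp(s x²) d gaussianReal 0 1 < ∞` for `s < ½` (take `m*/2 + ε < ½`).  Products: `integrable` on `gs ι × gs ι` by
`Integrable.fintype_prod` and `Integrable.mul_prod` (factorised majorant `∏ exp(s x_n²) ∏ exp(s y_n²)`).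
-/

open MeasureTheory Filter Topology ProbabilityTheory
open scoped BigOperators

namespace Pool.Agent.P76w

open Pool.Agent.P76s

lemma integrable_exp_sq_gauss {s : ℝ} (hs : s < 1 / 2) :
    Integrable (fun x : ℝ => Real.exp (s * x ^ 2)) (gaussianReal 0 1) := by
  rw [gaussianReal_of_var_ne_zero 0 one_ne_zero,
    integrable_withDensity_iff_integrable_smul' (measurable_gaussianPDF 0 1)
      (ae_of_all _ fun x => gaussianPDF_lt_top)]
  have h1 : Integrable (fun x : ℝ => Real.exp (-(1 / 2 - s) * x ^ 2)) :=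
    integrable_exp_neg_mul_sq (by linarith)
  refine (h1.const_mul ((√(2 * Real.pi * (1 : NNReal)))⁻¹)).congr ?_
  refine ae_of_all _ fun x => ?_
  show _ = (gaussianPDF 0 1 x).toReal * Real.exp (s * x ^ 2)
  rw [toReal_gaussianPDF, gaussianPDFReal_def]
  show (√(2 * Real.pi * (1 : NNReal)))⁻¹ * Real.exp (-(1 / 2 - s) * x ^ 2) =
    ((√(2 * Real.pi * (1 : NNReal)))⁻¹ * Real.exp (-(x - 0) ^ 2 / (2 * ((1 : NNReal) : ℝ)))) *
      Real.exp (s * x ^ 2)
  rw [mul_assoc (√(2 * Real.pi * (1 : NNReal)))⁻¹, ← Real.exp_add]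
  congr 2
  rw [NNReal.coe_one]
  ring

lemma integrable_exp_sum_sq {ι : Type*} [Fintype ι] {s : ℝ} (hs : s < 1 / 2) :
    Integrable (fun x : ι → ℝ => Real.exp (s * ∑ n, x n ^ 2)) (gs ι) := by
  have h := Integrable.fintype_prod (ι := ι) (μ := fun _ => gaussianReal 0 1)
    (f := fun _ x => Real.exp (s * x ^ 2)) (fun _ => integrable_exp_sq_gauss hs)
  unfold gs
  refine h.congr (ae_of_all _ fun x => ?_)
  show ∏ n, Real.exp (s * x n ^ 2) = Real.exp (s * ∑ n, x n ^ 2)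
  rw [← Real.exp_sum, Finset.mul_sum]

lemma integrable_exp_sum_sq₂ {ι : Type*} [Fintype ι] {s : ℝ} (hs : s < 1 / 2) :
    Integrable (fun p : (ι → ℝ) × (ι → ℝ) =>
      Real.exp (s * (∑ n, p.1 n ^ 2 + ∑ n, p.2 n ^ 2))) ((gs ι).prod (gs ι)) := by
  have h := (integrable_exp_sum_sq (ι := ι) hs).mul_prod (integrable_exp_sum_sq (ι := ι) hs)
  refine h.congr (ae_of_all _ fun p => ?_)
  show Real.exp (s * ∑ n, p.1 n ^ 2) * Real.exp (s * ∑ n, p.2 n ^ 2) =
    Real.exp (s * (∑ n, p.1 n ^ 2 + ∑ n, p.2 n ^ 2))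
  rw [← Real.exp_add]
  congr 1
  ring

lemma pow_le_exp_sq {ι : Type*} [Fintype ι] (k : ℕ) {ε : ℝ} (hε : 0 < ε) (x y : ι → ℝ) :
    (1 + ∑ n, |x n| + ∑ n, |y n|) ^ k ≤
      ((k.factorial : ℝ) * Real.exp (1 + Fintype.card ι * (1 / (2 * ε)))) *
        Real.exp (ε * (∑ n, x n ^ 2 + ∑ n, y n ^ 2)) := by
  have hb : ∀ z : ℝ, |z| ≤ ε * z ^ 2 + 1 / (4 * ε) := by
    intro z
    have h1 : 0 ≤ ε * (|z| - 1 / (2 * ε)) ^ 2 := by positivity
    have h2 : ε * (|z| - 1 / (2 * ε)) ^ 2 = ε * z ^ 2 + 1 / (4 * ε) - |z| := by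
      have h3 : |z| ^ 2 = z ^ 2 := sq_abs z
      field_simp
      nlinarith
    linarith
  have hs : ∀ z : ι → ℝ, ∑ n, |z n| ≤ ε * ∑ n, z n ^ 2 + Fintype.card ι * (1 / (4 * ε)) := by
    intro z
    calc ∑ n, |z n| ≤ ∑ n, (ε * z n ^ 2 + 1 / (4 * ε)) := Finset.sum_le_sum fun n _ => hb (z n)
      _ = ε * ∑ n, z n ^ 2 + Fintype.card ι * (1 / (4 * ε)) := by
        rw [Finset.sum_add_distrib, ← Finset.mul_sum, Finset.sum_const, Finset.card_univ,
          nsmul_eq_mul]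
  have h0 : 0 ≤ 1 + ∑ n, |x n| + ∑ n, |y n| := by positivity
  have h1 := Real.pow_div_factorial_le_exp _ h0 k
  rw [div_le_iff₀ (by positivity)] at h1
  refine h1.trans ?_
  rw [mul_comm (Real.exp _) (k.factorial : ℝ), mul_assoc]
  refine mul_le_mul_of_nonneg_left ?_ (by positivity)
  rw [← Real.exp_add]
  refine Real.exp_le_exp.mpr ?_
  have h3 := hs x
  have h4 := hs y
  have h5 : (Fintype.card ι : ℝ) * (1 / (2 * ε)) =
      Fintype.card ι * (1 / (4 * ε)) + Fintype.card ι * (1 / (4 * ε)) := by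
    field_simp
    ring
  rw [h5, mul_add]
  linarith

theorem integrable_poly_exp {ι : Type*} [Fintype ι] {m : ι → ℝ} (hm : ∀ n, |m n| < 1) (k : ℕ) :
    Integrable (fun p : (ι → ℝ) × (ι → ℝ) => (1 + ∑ n, |p.1 n| + ∑ n, |p.2 n|) ^ k *
      Real.exp (∑ n, |m n * p.1 n * p.2 n|)) ((gs ι).prod (gs ι)) := by
  obtain ⟨M, hM0, hM1, hM⟩ : ∃ M : ℝ, 0 ≤ M ∧ M < 1 ∧ ∀ n, |m n| ≤ M := by
    rcases isEmpty_or_nonempty ι with h | h
    · exact ⟨0, le_rfl, one_pos, fun n => (h.false n).elim⟩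
    · obtain ⟨n0, hn0⟩ := Finite.exists_max (fun n => |m n|)
      exact ⟨|m n0|, abs_nonneg _, hm n0, hn0⟩
  have hε : 0 < (1 - M) / 4 := by linarith
  have hs : M / 2 + (1 - M) / 4 < 1 / 2 := by linarith
  have h1 := (integrable_exp_sum_sq₂ (ι := ι) hs).const_mul
    ((k.factorial : ℝ) * Real.exp (1 + Fintype.card ι * (1 / (2 * ((1 - M) / 4)))))
  refine h1.mono' ?_ (ae_of_all _ fun p => ?_)
  · refine Continuous.aestronglyMeasurable ?_
    fun_prop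
  · have h2 := pow_le_exp_sq k hε p.1 p.2
    have h0 : 0 ≤ (1 + ∑ n, |p.1 n| + ∑ n, |p.2 n|) ^ k := by positivity
    rw [Real.norm_of_nonneg (mul_nonneg h0 (Real.exp_pos _).le)]
    have h3 : ∑ n, |m n * p.1 n * p.2 n| ≤ M / 2 * (∑ n, p.1 n ^ 2 + ∑ n, p.2 n ^ 2) := by
      rw [← Finset.sum_add_distrib, Finset.mul_sum]
      refine Finset.sum_le_sum fun n _ => ?_
      rw [mul_assoc, abs_mul, abs_mul]
      have h4 : |p.1 n| * |p.2 n| ≤ (p.1 n ^ 2 + p.2 n ^ 2) / 2 := by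
        nlinarith [sq_abs (p.1 n), sq_abs (p.2 n), sq_nonneg (|p.1 n| - |p.2 n|)]
      calc |m n| * (|p.1 n| * |p.2 n|) ≤ M * ((p.1 n ^ 2 + p.2 n ^ 2) / 2) :=
            mul_le_mul (hM n) h4 (by positivity) hM0
        _ = M / 2 * (p.1 n ^ 2 + p.2 n ^ 2) := by ring
    calc (1 + ∑ n, |p.1 n| + ∑ n, |p.2 n|) ^ k * Real.exp (∑ n, |m n * p.1 n * p.2 n|)
        ≤ (((k.factorial : ℝ) * Real.exp (1 + Fintype.card ι * (1 / (2 * ((1 - M) / 4))))) *
            Real.exp ((1 - M) / 4 * (∑ n, p.1 n ^ 2 + ∑ n, p.2 n ^ 2))) *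
            Real.exp (M / 2 * (∑ n, p.1 n ^ 2 + ∑ n, p.2 n ^ 2)) :=
          mul_le_mul h2 (Real.exp_le_exp.mpr h3) (Real.exp_pos _).le (h0.trans h2)
      _ = ((k.factorial : ℝ) * Real.exp (1 + Fintype.card ι * (1 / (2 * ((1 - M) / 4))))) *
            Real.exp ((M / 2 + (1 - M) / 4) * (∑ n, p.1 n ^ 2 + ∑ n, p.2 n ^ 2)) := by
          rw [mul_assoc, ← Real.exp_add]
          congr 2
          ring

/-- Corollary (`m = 0`). -/
theorem integrable_poly {ι : Type*} [Fintype ι] (k : ℕ) :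
    Integrable (fun x : ι → ℝ => (1 + ∑ n, |x n|) ^ k) (gs ι) := by
  have h1 := (integrable_exp_sum_sq (ι := ι) (s := 1 / 4) (by norm_num)).const_mul
    ((k.factorial : ℝ) * Real.exp (1 + Fintype.card ι * (1 / (2 * (1 / 4)))))
  refine h1.mono' ?_ (ae_of_all _ fun x => ?_)
  · refine Continuous.aestronglyMeasurable ?_
    fun_prop
  · have h2 := pow_le_exp_sq k (show (0 : ℝ) < 1 / 4 by norm_num) x (fun _ => 0)
    have h0 : 0 ≤ (1 + ∑ n, |x n|) ^ k := by positivity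
    rw [Real.norm_of_nonneg h0]
    simpa using h2

theorem integrable_poly₂ {ι : Type*} [Fintype ι] (k : ℕ) :
    Integrable (fun p : (ι → ℝ) × (ι → ℝ) => (1 + ∑ n, |p.1 n| + ∑ n, |p.2 n|) ^ k)
      ((gs ι).prod (gs ι)) := by
  have h := integrable_poly_exp (ι := ι) (m := fun _ => 0) (fun n => by simp) k
  simpa using h

end Pool.Agent.P76w
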