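import Pool.Agent.Lib.P76w.FldCalc
import Pool.Agent.Lib.P76w.GaussPoly

/-!
# P76w.Wave (2 h): the trial function is an admissible wave function
(black boxes: FldCalc, GaussPoly)

`psiN X = ∫ ∏ᵢ fld x (X i) d(gs I)(x)`.  Expand (`fld x y = ∑_{s : Option I} κ_s(x) φ_s(y)` with
`φ_none = √r`, `φ_n = cc(a n) hart n`, `κ_none = 1`, `κ_n = x_n`):
`psiN X = ∑_{s : Fin N → Option I} M_s ∏ᵢ φ_{s i}(X i)`, `M_s = ∫ ∏ᵢ κ_{s i}(x) d(gs I)` (`Finset.prod_univ_sum`;
monomials are integrable by `integrable_poly`).  So `psiN` is a finite sum of products of smooth functions: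
smooth, and the derivative in the direction `Pi.single i (Pi.single b 1)` can be computed termwise and
resummed.  Periodicity: `fld_periodic` (only the factor `i` changes).  Symmetry: the product over `i` is
invariant under permutations (`Equiv.prod_comp`).
-/

open MeasureTheory Filter Topology ProbabilityTheory
open scoped BigOperators ContDiff ComplexConjugate

namespace Pool.Agent.P76w

open Pool.Agent.P76s

/-- the coefficients `κ` -/
noncomputable def kap {I : Finset (Fin 3 → ℤ)} (x : I → ℝ) : Option I → ℂ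
  | none => 1
  | some n => (x n : ℂ)

/-- the modes `φ` -/
noncomputable def ph (L r : ℝ) (I : Finset (Fin 3 → ℤ)) (a : (Fin 3 → ℤ) → ℝ)
    (σ : Option I) (y : Fin 3 → ℝ) : ℂ :=
  match σ with
  | none => ((√r : ℝ) : ℂ)
  | some n => cc (a n) * (hart L n y : ℂ)

/-- the derivatives of the modes -/
noncomputable def dph (L : ℝ) (I : Finset (Fin 3 → ℤ)) (a : (Fin 3 → ℤ) → ℝ) (b : Fin 3)
    (σ : Option I) (y : Fin 3 → ℝ) : ℂ :=
  match σ with
  | none => 0
  | some n => dfld L I a (Pi.single n 1) b y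

theorem fld_kap (L r : ℝ) (I : Finset (Fin 3 → ℤ)) (a : (Fin 3 → ℤ) → ℝ) (x : I → ℝ)
    (y : Fin 3 → ℝ) : fld L r I a x y = ∑ σ : Option I, kap x σ * ph L r I a σ y := by
  rw [Fintype.sum_option]
  simp only [fld, kap, ph, one_mul]
  congr 1
  exact Finset.sum_congr rfl fun n _ => by ring

theorem dfld_kap (L : ℝ) (I : Finset (Fin 3 → ℤ)) (a : (Fin 3 → ℤ) → ℝ) (x : I → ℝ)
    (b : Fin 3) (y : Fin 3 → ℝ) :
    dfld L I a x b y = ∑ σ : Option I, kap x σ * dph L I a b σ y := by
  rw [Fintype.sum_option]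
  simp only [kap, dph, mul_zero, zero_add]
  unfold dfld
  refine Finset.sum_congr rfl fun n _ => ?_
  rw [Finset.sum_eq_single n]
  · simp only [Pi.single_eq_same, Complex.ofReal_one]
    ring
  · intro m _ hmn
    rw [Pi.single_eq_of_ne hmn]
    simp
  · intro h
    exact absurd (Finset.mem_univ _) h

theorem ph_eq (L r : ℝ) (I : Finset (Fin 3 → ℤ)) (a : (Fin 3 → ℤ) → ℝ) (n : I)
    (y : Fin 3 → ℝ) :
    ph L r I a (some n) y = fld L r I a (Pi.single n 1) y - ((√r : ℝ) : ℂ) := by
  simp only [ph, fld]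
  rw [Finset.sum_eq_single n]
  · simp only [Pi.single_eq_same, Complex.ofReal_one]
    ring
  · intro m _ hmn
    rw [Pi.single_eq_of_ne hmn]
    simp
  · intro h
    exact absurd (Finset.mem_univ _) h

theorem ph_contDiff (L r : ℝ) (I : Finset (Fin 3 → ℤ)) (a : (Fin 3 → ℤ) → ℝ) (σ : Option I) :
    ContDiff ℝ ∞ (ph L r I a σ) := by
  rcases σ with _ | n
  · exact contDiff_const
  · have h : ph L r I a (some n) =
        fun y => fld L r I a (Pi.single n 1) y - ((√r : ℝ) : ℂ) := by
      funext y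
      exact ph_eq L r I a n y
    rw [h]
    exact (fld_contDiff L r I a _).sub contDiff_const

theorem ph_periodic {L : ℝ} (hL : 0 < L) (r : ℝ) (I : Finset (Fin 3 → ℤ))
    (a : (Fin 3 → ℤ) → ℝ) (σ : Option I) (y : Fin 3 → ℝ) (n : Fin 3 → ℤ) :
    ph L r I a σ (y + lat L n) = ph L r I a σ y := by
  rcases σ with _ | m
  · rfl
  · rw [ph_eq, ph_eq, fld_periodic hL]

theorem ph_fderiv (L r : ℝ) (I : Finset (Fin 3 → ℤ)) (a : (Fin 3 → ℤ) → ℝ) (σ : Option I)
    (y : Fin 3 → ℝ) (b : Fin 3) :
    fderiv ℝ (ph L r I a σ) y (Pi.single b 1) = dph L I a b σ y := by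
  rcases σ with _ | n
  · have h : ph L r I a none = fun _ => ((√r : ℝ) : ℂ) := rfl
    rw [h]
    simp [dph]
  · have h : ph L r I a (some n) =
        fun y => fld L r I a (Pi.single n 1) y - ((√r : ℝ) : ℂ) := by
      funext y
      exact ph_eq L r I a n y
    rw [h, fderiv_sub_const, fld_fderiv]
    rfl

theorem kap_norm {I : Finset (Fin 3 → ℤ)} (x : I → ℝ) (σ : Option I) :
    ‖kap x σ‖ ≤ 1 + ∑ n, |x n| := by
  have hs : (0 : ℝ) ≤ ∑ n, |x n| := Finset.sum_nonneg fun n _ => abs_nonneg _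
  rcases σ with _ | n
  · simp only [kap, norm_one]
    linarith
  · simp only [kap, Complex.norm_real, Real.norm_eq_abs]
    have h := Finset.single_le_sum (f := fun n : I => |x n|) (fun n _ => abs_nonneg _)
      (Finset.mem_univ n)
    linarith

theorem kap_continuous {I : Finset (Fin 3 → ℤ)} (σ : Option I) :
    Continuous fun x : I → ℝ => kap x σ := by
  rcases σ with _ | n
  · exact continuous_const
  · exact Complex.continuous_ofReal.comp (continuous_apply n)

theorem kap_integrable {I : Finset (Fin 3 → ℤ)} {N : ℕ} (s : Fin N → Option I) :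
    Integrable (fun x : I → ℝ => ∏ j, kap x (s j)) (gs I) := by
  refine (integrable_poly (ι := I) N).mono' ?_ ?_
  · exact (continuous_finsetProd _ fun j _ => kap_continuous (s j)).aestronglyMeasurable
  · refine Filter.Eventually.of_forall fun x => ?_
    rw [norm_prod]
    calc ∏ j, ‖kap x (s j)‖ ≤ ∏ _j : Fin N, (1 + ∑ n, |x n|) :=
          Finset.prod_le_prod (fun j _ => norm_nonneg _) fun j _ => kap_norm x (s j)
      _ = (1 + ∑ n, |x n|) ^ N := by
          rw [Finset.prod_const, Finset.card_univ, Fintype.card_fin]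

/-- The expansion of a Gaussian average of a product of linear forms. -/
theorem int_prod_kap {I : Finset (Fin 3 → ℤ)} {N : ℕ} (ψ : Fin N → Option I → ℂ) :
    ∫ x : I → ℝ, ∏ j, (∑ σ : Option I, kap x σ * ψ j σ) ∂(gs I) =
      ∑ s : Fin N → Option I, (∫ x : I → ℝ, ∏ j, kap x (s j) ∂(gs I)) * ∏ j, ψ j (s j) := by
  have h1 : ∀ x : I → ℝ, ∏ j, (∑ σ : Option I, kap x σ * ψ j σ) =
      ∑ s : Fin N → Option I, (∏ j, kap x (s j)) * ∏ j, ψ j (s j) := by
    intro x
    rw [Finset.prod_univ_sum, Fintype.piFinset_univ]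
    exact Finset.sum_congr rfl fun s _ => Finset.prod_mul_distrib
  rw [integral_congr_ae (Filter.Eventually.of_forall h1)]
  rw [integral_finsetSum _ fun s _ => (kap_integrable s).mul_const _]
  exact Finset.sum_congr rfl fun s _ => integral_mul_const _ _

theorem psiN_eq (L r : ℝ) (I : Finset (Fin 3 → ℤ)) (a : (Fin 3 → ℤ) → ℝ) (N : ℕ)
    (X : Conf N) :
    psiN L r I a N X = ∑ s : Fin N → Option I,
      (∫ x : I → ℝ, ∏ j, kap x (s j) ∂(gs I)) * ∏ j, ph L r I a (s j) (X j) := by
  unfold psiN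
  rw [← int_prod_kap fun j σ => ph L r I a σ (X j)]
  refine integral_congr_ae (Filter.Eventually.of_forall fun x => ?_)
  exact Finset.prod_congr rfl fun j _ => fld_kap L r I a x (X j)

theorem psiN_wave {L : ℝ} (hL : 0 < L) (r : ℝ) (I : Finset (Fin 3 → ℤ)) (a : (Fin 3 → ℤ) → ℝ)
    (N : ℕ) : IsWave N L (psiN L r I a N) := by
  refine ⟨?_, ?_, ?_⟩
  · have h : psiN L r I a N = fun X => ∑ s : Fin N → Option I,
        (∫ x : I → ℝ, ∏ j, kap x (s j) ∂(gs I)) * ∏ j, ph L r I a (s j) (X j) := by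
      funext X
      exact psiN_eq L r I a N X
    rw [h]
    refine ContDiff.sum fun s _ => contDiff_const.mul ?_
    refine contDiff_prod fun j _ => ?_
    exact (ph_contDiff L r I a (s j)).comp (contDiff_apply ℝ (Fin 3 → ℝ) j)
  · intro X i n
    unfold psiN
    refine integral_congr_ae (Filter.Eventually.of_forall fun x => ?_)
    refine Finset.prod_congr rfl fun j _ => ?_
    by_cases hj : j = i
    · subst hj
      rw [Pi.add_apply, Pi.single_eq_same, fld_periodic hL]
    · rw [Pi.add_apply, Pi.single_eq_of_ne hj, add_zero]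
  · intro X σ
    unfold psiN
    refine integral_congr_ae (Filter.Eventually.of_forall fun x => ?_)
    exact Equiv.prod_comp σ fun j => fld L r I a x (X j)

theorem prod_ph_fderiv (L r : ℝ) (I : Finset (Fin 3 → ℤ)) (a : (Fin 3 → ℤ) → ℝ)
    {N : ℕ} (s : Fin N → Option I) (X : Conf N) (i : Fin N) (b : Fin 3) :
    HasFDerivAt (fun X : Conf N => ∏ j, ph L r I a (s j) (X j))
      (fderiv ℝ (fun X : Conf N => ∏ j, ph L r I a (s j) (X j)) X) X ∧
    fderiv ℝ (fun X : Conf N => ∏ j, ph L r I a (s j) (X j)) X (Pi.single i (Pi.single b 1)) =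
      ∏ j, (if j = i then dph L I a b (s j) (X j) else ph L r I a (s j) (X j)) := by
  have hd : ∀ j : Fin N, HasFDerivAt (fun X : Conf N => ph L r I a (s j) (X j))
      ((fderiv ℝ (ph L r I a (s j)) (X j)).comp (ContinuousLinearMap.proj j)) X := by
    intro j
    have h1 : HasFDerivAt (ph L r I a (s j)) (fderiv ℝ (ph L r I a (s j)) (X j)) (X j) :=
      ((ph_contDiff L r I a (s j)).differentiable (by simp) (X j)).hasFDerivAt
    exact HasFDerivAt.comp X (f := fun X : Conf N => X j) h1
      (ContinuousLinearMap.proj (R := ℝ) (φ := fun _ : Fin N => Fin 3 → ℝ) j).hasFDerivAt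
  have hp := HasFDerivAt.finsetProd (u := Finset.univ) fun j _ => hd j
  refine ⟨?_, ?_⟩
  · rw [hp.fderiv]
    exact hp
  · rw [hp.fderiv, ContinuousLinearMap.sum_apply, Finset.sum_eq_single i]
    · rw [ContinuousLinearMap.smul_apply, ContinuousLinearMap.comp_apply,
        ContinuousLinearMap.proj_apply, Pi.single_eq_same, ph_fderiv, smul_eq_mul,
        ← Finset.mul_prod_erase Finset.univ _ (Finset.mem_univ i), if_pos rfl, mul_comm]
      congr 1
      exact Finset.prod_congr rfl fun j hj => (if_neg (Finset.ne_of_mem_erase hj)).symm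
    · intro j _ hj
      rw [ContinuousLinearMap.smul_apply, ContinuousLinearMap.comp_apply,
        ContinuousLinearMap.proj_apply, Pi.single_eq_of_ne hj, map_zero, smul_zero]
    · intro h
      exact absurd (Finset.mem_univ _) h

theorem psiN_fderiv (L r : ℝ) (I : Finset (Fin 3 → ℤ)) (a : (Fin 3 → ℤ) → ℝ)
    {N : ℕ} (X : Conf N) (i : Fin N) (b : Fin 3) :
    fderiv ℝ (psiN L r I a N) X (Pi.single i (Pi.single b 1)) =
      ∫ x, dfld L I a x b (X i) * ∏ j ∈ Finset.univ.erase i, fld L r I a x (X j) ∂(gs I) := by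
  have h : psiN L r I a N = fun X => ∑ s : Fin N → Option I,
      (∫ x : I → ℝ, ∏ j, kap x (s j) ∂(gs I)) * ∏ j, ph L r I a (s j) (X j) := by
    funext X
    exact psiN_eq L r I a N X
  have hd : HasFDerivAt (fun X : Conf N => ∑ s : Fin N → Option I,
      (∫ x : I → ℝ, ∏ j, kap x (s j) ∂(gs I)) * ∏ j, ph L r I a (s j) (X j))
      (∑ s : Fin N → Option I, (∫ x : I → ℝ, ∏ j, kap x (s j) ∂(gs I)) •
        fderiv ℝ (fun X : Conf N => ∏ j, ph L r I a (s j) (X j)) X) X := by
    refine HasFDerivAt.fun_sum fun s _ => ?_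
    exact (prod_ph_fderiv L r I a s X i b).1.const_mul _
  rw [h, hd.fderiv, ContinuousLinearMap.sum_apply]
  have hR : ∫ x, dfld L I a x b (X i) * ∏ j ∈ Finset.univ.erase i, fld L r I a x (X j) ∂(gs I) =
      ∫ x : I → ℝ, ∏ j, (∑ σ : Option I, kap x σ *
        (if j = i then dph L I a b σ (X j) else ph L r I a σ (X j))) ∂(gs I) := by
    refine integral_congr_ae (Filter.Eventually.of_forall fun x => ?_)
    simp only
    rw [← Finset.mul_prod_erase Finset.univ _ (Finset.mem_univ i)]
    congr 1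
    · rw [dfld_kap]
      exact Finset.sum_congr rfl fun σ _ => by rw [if_pos rfl]
    · refine Finset.prod_congr rfl fun j hj => ?_
      rw [fld_kap]
      exact Finset.sum_congr rfl fun σ _ => by rw [if_neg (Finset.ne_of_mem_erase hj)]
  rw [hR, int_prod_kap fun j σ => if j = i then dph L I a b σ (X j) else ph L r I a σ (X j)]
  refine Finset.sum_congr rfl fun s _ => ?_
  rw [ContinuousLinearMap.smul_apply, (prod_ph_fderiv L r I a s X i b).2, smul_eq_mul]

end Pool.Agent.P76w
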