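import Pool.Agent.Lib.P76w.Factor
import Pool.Agent.Lib.P76w.Wave
import Pool.Agent.Lib.P76w.Hartley
import Pool.Agent.Lib.P76s.Tile

/-!
# P76w.Energy (2 h): mass, kinetic and interaction energy of `psiN`
(black boxes: Factor, Wave, Hartley, FldCalc)

* `mass_psiN`: `factor` with `u i y x = fld x y`; `∫_box fld conj fld' = JJ` (`inner_fld`), so the integral is
  `∬ JJ^N`, real; `mass` (a lintegral of `ofReal ‖·‖²`) is `ofReal` of the integral
  (`ofReal_integral_eq_lintegral_ofReal`).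
* `kinetic_psiN`: `psiN_fderiv`; for each `i, b` `factor` with `u i = dfld b` and `u j = fld` for `j ≠ i`
  gives `∬ (∫_box dfld_b conj dfld_b') JJ^(N-1)`; sum over `b` (`inner_dfld`) and over the `N` particles.
* `interaction_psiN`: `W` periodic, measurable, `∫⁻_box W < ∞`: `W < ∞` a.e., `w = W.toReal` is integrable on
  the box; `W (X i - X j) = ofReal (w (X i - X j))` for a.e. `X` (the exceptional set is null); each pair
  gives `∬ IJ JJ^(N-2)` (`factor_pair`, `inner_fld`), and there are `N(N-1)/2` pairs `i < j`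
  (`∑ᵢ card (Ioi i) = N(N-1)/2`).
-/

open MeasureTheory Filter Topology ProbabilityTheory
open scoped BigOperators ContDiff ComplexConjugate ENNReal

namespace Pool.Agent.P76w

open Pool.Agent.P76s

namespace EnergyAux

variable {L r : ℝ} {I : Finset (Fin 3 → ℤ)} {a : (Fin 3 → ℤ) → ℝ}

theorem fld_cont (L r : ℝ) (I : Finset (Fin 3 → ℤ)) (a : (Fin 3 → ℤ) → ℝ) :
    Continuous fun p : (Fin 3 → ℝ) × (I → ℝ) => fld L r I a p.2 p.1 := by
  have h2 : Continuous fun p : (Fin 3 → ℝ) × (I → ℝ) => (p.2, p.1) :=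
    continuous_snd.prodMk continuous_fst
  have h := (fld_continuous L r I a).comp h2
  simp only [Function.comp_def] at h
  exact h

theorem dfld_cont (L : ℝ) (I : Finset (Fin 3 → ℤ)) (a : (Fin 3 → ℤ) → ℝ) (b : Fin 3) :
    Continuous fun p : (Fin 3 → ℝ) × (I → ℝ) => dfld L I a p.2 b p.1 := by
  have h2 : Continuous fun p : (Fin 3 → ℝ) × (I → ℝ) => (p.2, p.1) :=
    continuous_snd.prodMk continuous_fst
  have h := (dfld_continuous L I a b).comp h2
  simp only [Function.comp_def] at h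
  exact h

/-- the mass, as a real integral -/
theorem mass_aux (hL : 0 < L) (hr : 0 ≤ r) (h0 : 0 ∉ I) (N : ℕ) :
    IntegrableOn (fun X : Conf N => ‖psiN L r I a N X‖ ^ 2) (confBox N L) ∧
    (∫ X in confBox N L, ‖psiN L r I a N X‖ ^ 2) =
      ∫ x, ∫ x', JJ L r I a x x' ^ N ∂(gs I) ∂(gs I) := by
  obtain ⟨C, _, hC⟩ := fld_bound L r I a
  obtain ⟨h1, h2⟩ := factor (N := N) hL (u := fun _ y x => fld L r I a x y)
    (fun _ => fld_cont L r I a) (C := C) (fun _ y x => (hC x y).1)
  refine ⟨h1, ?_⟩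
  apply Complex.ofReal_injective
  refine h2.trans ?_
  rw [← integral_complex_ofReal]
  refine integral_congr_ae (Eventually.of_forall fun x => ?_)
  simp only
  rw [← integral_complex_ofReal]
  refine integral_congr_ae (Eventually.of_forall fun x' => ?_)
  simp only
  rw [inner_fld hL hr h0, Finset.prod_const, Finset.card_univ, Fintype.card_fin]
  push_cast
  rfl

/-- bound for the inner products -/
theorem inner_bound {ι : Type*} [Fintype ι] {u : (Fin 3 → ℝ) → (ι → ℝ) → ℂ} {C : ℝ}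
    (hC : 0 ≤ C) (hub : ∀ y x, ‖u y x‖ ≤ C * (1 + ∑ n, |x n|)) (x x' : ι → ℝ) :
    ‖∫ y in box L, u y x * conj (u y x')‖ ≤
      C ^ 2 * (volume (box L)).toReal * (1 + ∑ n, |x n| + ∑ n, |x' n|) ^ 2 := by
  have hfin : volume (box L) < ⊤ := by
    unfold box
    rw [volume_pi_pi]
    simp [Real.volume_Ico]
  have hx : 0 ≤ ∑ n, |x n| := Finset.sum_nonneg fun n _ => abs_nonneg _
  have hx' : 0 ≤ ∑ n, |x' n| := Finset.sum_nonneg fun n _ => abs_nonneg _
  have h := norm_setIntegral_le_of_norm_le_const (μ := volume) (s := box L)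
    (f := fun y => u y x * conj (u y x'))
    (C := C ^ 2 * (1 + ∑ n, |x n| + ∑ n, |x' n|) ^ 2) hfin (fun y _ => by
      rw [norm_mul, RCLike.norm_conj]
      calc ‖u y x‖ * ‖u y x'‖ ≤ (C * (1 + ∑ n, |x n|)) * (C * (1 + ∑ n, |x' n|)) :=
            mul_le_mul (hub y x) (hub y x') (norm_nonneg _) (by positivity)
        _ ≤ C ^ 2 * (1 + ∑ n, |x n| + ∑ n, |x' n|) ^ 2 := by
            have : (1 + ∑ n, |x n|) * (1 + ∑ n, |x' n|) ≤
                (1 + ∑ n, |x n| + ∑ n, |x' n|) ^ 2 := by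
              nlinarith [mul_nonneg hx hx']
            calc (C * (1 + ∑ n, |x n|)) * (C * (1 + ∑ n, |x' n|)) =
                C ^ 2 * ((1 + ∑ n, |x n|) * (1 + ∑ n, |x' n|)) := by ring
              _ ≤ _ := mul_le_mul_of_nonneg_left this (by positivity))
  refine h.trans (le_of_eq ?_)
  rw [Measure.real]
  ring

theorem inner_meas {ι : Type*} [Fintype ι] {u : (Fin 3 → ℝ) → (ι → ℝ) → ℂ}
    (hu : Continuous fun p : (Fin 3 → ℝ) × (ι → ℝ) => u p.1 p.2) :
    StronglyMeasurable fun p : (ι → ℝ) × (ι → ℝ) =>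
      ∫ y in box L, u y p.1 * conj (u y p.2) := by
  have h1 : Continuous fun q : ((ι → ℝ) × (ι → ℝ)) × (Fin 3 → ℝ) =>
      u q.2 q.1.1 * conj (u q.2 q.1.2) := by
    refine Continuous.mul ?_ ?_
    · exact hu.comp (continuous_snd.prodMk (continuous_fst.comp continuous_fst))
    · exact Complex.continuous_conj.comp
        (hu.comp (continuous_snd.prodMk (continuous_snd.comp continuous_fst)))
  exact h1.stronglyMeasurable.integral_prod_right

/-- the kinetic energy in the direction `b` of the particle `i` -/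
theorem kin_aux (hL : 0 < L) (hr : 0 ≤ r) (h0 : 0 ∉ I) {N : ℕ} (i : Fin N) (b : Fin 3) :
    IntegrableOn (fun X : Conf N => ‖fderiv ℝ (psiN L r I a N) X
      (Pi.single i (Pi.single b 1))‖ ^ 2) (confBox N L) ∧
    ((∫ X in confBox N L, ‖fderiv ℝ (psiN L r I a N) X (Pi.single i (Pi.single b 1))‖ ^ 2 : ℝ) :
      ℂ) = ∫ p, (∫ y in box L, dfld L I a p.1 b y * conj (dfld L I a p.2 b y)) *
        ((JJ L r I a p.1 p.2 : ℝ) : ℂ) ^ (N - 1) ∂((gs I).prod (gs I)) ∧
    Integrable (fun p : (I → ℝ) × (I → ℝ) =>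
      (∫ y in box L, dfld L I a p.1 b y * conj (dfld L I a p.2 b y)) *
        ((JJ L r I a p.1 p.2 : ℝ) : ℂ) ^ (N - 1)) ((gs I).prod (gs I)) := by
  obtain ⟨C, hC0, hC⟩ := fld_bound L r I a
  let u : Fin N → (Fin 3 → ℝ) → (I → ℝ) → ℂ := fun j y x =>
    if j = i then dfld L I a x b y else fld L r I a x y
  have hu : ∀ j, Continuous fun p : (Fin 3 → ℝ) × (I → ℝ) => u j p.1 p.2 := by
    intro j
    by_cases h : j = i
    · simp only [u, if_pos h]
      exact dfld_cont L I a b
    · simp only [u, if_neg h]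
      exact fld_cont L r I a
  have hub : ∀ j y x, ‖u j y x‖ ≤ C * (1 + ∑ n, |x n|) := by
    intro j y x
    by_cases h : j = i
    · simp only [u, if_pos h]
      exact (hC x y).2 b
    · simp only [u, if_neg h]
      exact (hC x y).1
  have hprod : ∀ X : Conf N, fderiv ℝ (psiN L r I a N) X (Pi.single i (Pi.single b 1)) =
      ∫ x, ∏ j, u j (X j) x ∂(gs I) := by
    intro X
    rw [psiN_fderiv]
    refine integral_congr_ae (Eventually.of_forall fun x => ?_)
    simp only
    rw [← Finset.mul_prod_erase Finset.univ (fun j => u j (X j) x) (Finset.mem_univ i)]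
    congr 1
    · simp [u]
    · refine Finset.prod_congr rfl fun j hj => ?_
      simp only [u, if_neg (Finset.ne_of_mem_erase hj)]
  obtain ⟨h1, h2⟩ := factor hL hu hub
  have hval : ∀ x x' : I → ℝ, ∏ j, (∫ y in box L, u j y x * conj (u j y x')) =
      (∫ y in box L, dfld L I a x b y * conj (dfld L I a x' b y)) *
        ((JJ L r I a x x' : ℝ) : ℂ) ^ (N - 1) := by
    intro x x'
    rw [← Finset.mul_prod_erase Finset.univ _ (Finset.mem_univ i)]
    congr 1
    · simp [u]
    · rw [← inner_fld hL hr h0 a x x']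
      rw [Finset.prod_congr rfl (g := fun _ => ∫ y in box L, fld L r I a x y *
        conj (fld L r I a x' y)) (fun j hj => by
          simp only [u, if_neg (Finset.ne_of_mem_erase hj)])]
      rw [Finset.prod_const, Finset.card_erase_of_mem (Finset.mem_univ i), Finset.card_univ,
        Fintype.card_fin]
  have hint : Integrable (fun p : (I → ℝ) × (I → ℝ) =>
      (∫ y in box L, dfld L I a p.1 b y * conj (dfld L I a p.2 b y)) *
        ((JJ L r I a p.1 p.2 : ℝ) : ℂ) ^ (N - 1)) ((gs I).prod (gs I)) := by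
    set V := C ^ 2 * (volume (box L)).toReal with hV
    have hV0 : 0 ≤ V := by positivity
    refine Integrable.mono'
      ((integrable_poly₂ (ι := I) (2 + 2 * (N - 1))).const_mul (V ^ (1 + (N - 1)))) ?_ ?_
    · refine StronglyMeasurable.aestronglyMeasurable ?_
      refine StronglyMeasurable.mul (inner_meas (u := fun y x => dfld L I a x b y)
        (dfld_cont L I a b)) ?_
      refine StronglyMeasurable.pow ?_ _
      have := inner_meas (L := L) (u := fun y x => fld L r I a x y) (fld_cont L r I a)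
      have h3 : (fun p : (I → ℝ) × (I → ℝ) => ∫ y in box L, fld L r I a p.1 y *
          conj (fld L r I a p.2 y)) = fun p => ((JJ L r I a p.1 p.2 : ℝ) : ℂ) := by
        funext p
        exact inner_fld hL hr h0 a p.1 p.2
      rw [← h3]
      exact this
    · refine Eventually.of_forall fun p => ?_
      rw [norm_mul, norm_pow]
      have b1 := inner_bound (L := L) (u := fun y (x : I → ℝ) => dfld L I a x b y) hC0.le
        (fun y x => (hC x y).2 b) p.1 p.2
      have b2 := inner_bound (L := L) (u := fun y (x : I → ℝ) => fld L r I a x y) hC0.le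
        (fun y x => (hC x y).1) p.1 p.2
      rw [inner_fld hL hr h0] at b2
      set P := 1 + ∑ n, |p.1 n| + ∑ n, |p.2 n| with hP
      calc _ ≤ (V * P ^ 2) * (V * P ^ 2) ^ (N - 1) :=
            mul_le_mul b1 (pow_le_pow_left₀ (norm_nonneg _) b2 _)
              (by positivity) (by positivity)
        _ = V ^ (1 + (N - 1)) * P ^ (2 + 2 * (N - 1)) := by
            rw [mul_pow, ← pow_mul, pow_add, pow_add, pow_one]
            ring
  refine ⟨?_, ?_, hint⟩
  · simp_rw [hprod]
    exact h1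
  · simp_rw [hprod]
    rw [h2, integral_prod _ hint]
    exact integral_congr_ae (Eventually.of_forall fun x =>
      integral_congr_ae (Eventually.of_forall fun x' => hval x x'))

theorem kin_sum (hL : 0 < L) (hr : 0 ≤ r) (h0 : 0 ∉ I) {N : ℕ} (i : Fin N) :
    ∑ b, (∫ X in confBox N L, ‖fderiv ℝ (psiN L r I a N) X
      (Pi.single i (Pi.single b 1))‖ ^ 2) =
      ∫ x, ∫ x', KJ L I a x x' * JJ L r I a x x' ^ (N - 1) ∂(gs I) ∂(gs I) := by
  have hK := fun b : Fin 3 => kin_aux (a := a) hL hr h0 i b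
  apply Complex.ofReal_injective
  push_cast
  rw [Finset.sum_congr rfl fun b _ => (hK b).2.1,
    ← integral_finsetSum _ fun b _ => (hK b).2.2]
  have hval : ∀ p : (I → ℝ) × (I → ℝ),
      ∑ b, (∫ y in box L, dfld L I a p.1 b y * conj (dfld L I a p.2 b y)) *
        ((JJ L r I a p.1 p.2 : ℝ) : ℂ) ^ (N - 1) =
      ((KJ L I a p.1 p.2 * JJ L r I a p.1 p.2 ^ (N - 1) : ℝ) : ℂ) := by
    intro p
    rw [← Finset.sum_mul, inner_dfld hL]
    push_cast
    rfl
  have hint : Integrable (fun p : (I → ℝ) × (I → ℝ) =>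
      ((KJ L I a p.1 p.2 * JJ L r I a p.1 p.2 ^ (N - 1) : ℝ) : ℂ)) ((gs I).prod (gs I)) := by
    simp_rw [← hval]
    exact integrable_finsetSum _ fun b _ => (hK b).2.2
  simp_rw [hval]
  rw [integral_prod _ hint, ← integral_complex_ofReal]
  refine integral_congr_ae (Eventually.of_forall fun x => ?_)
  exact integral_complex_ofReal

theorem ae_lt_top_of_periodic (hL : 0 < L) {W : (Fin 3 → ℝ) → ℝ≥0∞} (hW : Measurable W)
    (hWp : ∀ y (n : Fin 3 → ℤ), W (y + lat L n) = W y) (hWi : ∫⁻ y in box L, W y ≠ ⊤) :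
    ∀ᵐ y, y ∈ {y | W y < ⊤} := by
  have h1 : ∀ᵐ y ∂(volume.restrict (box L)), W y < ⊤ := ae_lt_top hW hWi
  have hmeas : MeasurableSet {y | ¬ W y < ⊤} := by
    have : {y | ¬ W y < ⊤} = W ⁻¹' {⊤} := by
      ext y
      simp
    rw [this]
    exact hW (measurableSet_singleton _)
  have h2 := tl_tiling hL (w := {y | ¬ W y < ⊤}.indicator fun _ => (1 : ℝ≥0∞))
    (measurable_const.indicator hmeas)
  have h3 : ∀ n : Fin 3 → ℤ, ∫⁻ y in box L,
      ({y | ¬ W y < ⊤}.indicator (fun _ => (1 : ℝ≥0∞))) (y + lat L n) = 0 := by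
    intro n
    have hm2 : Measurable fun y : Fin 3 → ℝ =>
        ({y | ¬ W y < ⊤}.indicator (fun _ => (1 : ℝ≥0∞))) (y + lat L n) :=
      (measurable_const.indicator hmeas).comp (measurable_id.add_const _)
    rw [lintegral_eq_zero_iff hm2]
    filter_upwards [h1] with y hy
    simp only [Pi.zero_apply]
    refine Set.indicator_of_notMem ?_ _
    simp only [Set.mem_ofPred_eq, not_not]
    rw [hWp]
    exact hy
  simp_rw [h3] at h2
  rw [tsum_zero, lintegral_indicator hmeas, setLIntegral_one] at h2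
  exact h2

theorem pair_lt_top (hL : 0 < L) {W : (Fin 3 → ℝ) → ℝ≥0∞} (hW : Measurable W)
    (hWp : ∀ y (n : Fin 3 → ℤ), W (y + lat L n) = W y) (hWi : ∫⁻ y in box L, W y ≠ ⊤)
    {N : ℕ} {i j : Fin N} (hij : i ≠ j) :
    ∀ᵐ X : Conf N, W (X i - X j) < ⊤ := by
  let A : Conf N →ₗ[ℝ] (Fin 3 → ℝ) :=
    (LinearMap.proj (R := ℝ) (φ := fun _ : Fin N => Fin 3 → ℝ) i) -
      (LinearMap.proj (R := ℝ) (φ := fun _ : Fin N => Fin 3 → ℝ) j)
  have hA : Function.Surjective A := by
    intro y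
    refine ⟨Pi.single i y, ?_⟩
    simp only [A, LinearMap.sub_apply, LinearMap.proj_apply, Pi.single_eq_same]
    rw [Pi.single_eq_of_ne hij.symm, sub_zero]
  have hs : MeasurableSet {y | W y < ⊤} := measurableSet_lt hW measurable_const
  exact (ae_comp_linearMap_mem_iff A (volume : Measure (Conf N))
    (volume : Measure (Fin 3 → ℝ)) hA hs).2 (ae_lt_top_of_periodic hL hW hWp hWi)

theorem sum_card_Ioi (N : ℕ) :
    ((∑ i : Fin N, (Finset.Ioi i).card : ℕ) : ℝ) = N * (N - 1) / 2 := by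
  have h1 : ∑ i : Fin N, (Finset.Ioi i).card = ∑ k ∈ Finset.range N, k := by
    simp_rw [Fin.card_Ioi]
    rw [Fin.sum_univ_eq_sum_range (fun k => N - 1 - k) N]
    exact Finset.sum_range_reflect (fun k => k) N
  have h2 := Finset.sum_range_id_mul_two N
  rw [h1]
  rcases Nat.eq_zero_or_pos N with h | h
  · subst h
    simp
  · have h3 : (((∑ k ∈ Finset.range N, k) * 2 : ℕ) : ℝ) = ((N * (N - 1) : ℕ) : ℝ) := by
      exact_mod_cast h2
    rw [Nat.cast_mul, Nat.cast_mul, Nat.cast_sub h] at h3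
    push_cast at h3 ⊢
    linarith

end EnergyAux

open EnergyAux

theorem mass_psiN {L r : ℝ} (hL : 0 < L) (hr : 0 ≤ r) {I : Finset (Fin 3 → ℤ)} (h0 : 0 ∉ I)
    (a : (Fin 3 → ℤ) → ℝ) (N : ℕ) :
    mass N L (psiN L r I a N) =
      ENNReal.ofReal (∫ x, ∫ x', JJ L r I a x x' ^ N ∂(gs I) ∂(gs I)) ∧
    0 ≤ ∫ x, ∫ x', JJ L r I a x x' ^ N ∂(gs I) ∂(gs I) := by
  obtain ⟨h1, h2⟩ := mass_aux (a := a) hL hr h0 N
  rw [← h2]
  refine ⟨?_, integral_nonneg fun X => by positivity⟩
  unfold mass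
  rw [ofReal_integral_eq_lintegral_ofReal h1 (Eventually.of_forall fun X => by positivity)]

theorem kinetic_psiN {L r : ℝ} (hL : 0 < L) (hr : 0 ≤ r) {I : Finset (Fin 3 → ℤ)} (h0 : 0 ∉ I)
    (a : (Fin 3 → ℤ) → ℝ) (N : ℕ) :
    kinetic N L (psiN L r I a N) = ENNReal.ofReal (N / 2 *
      ∫ x, ∫ x', KJ L I a x x' * JJ L r I a x x' ^ (N - 1) ∂(gs I) ∂(gs I)) ∧
    0 ≤ N / 2 * ∫ x, ∫ x', KJ L I a x x' * JJ L r I a x x' ^ (N - 1) ∂(gs I) ∂(gs I) := by
  have hK := fun (i : Fin N) (b : Fin 3) => kin_aux (a := a) hL hr h0 i b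
  have hint : IntegrableOn (fun x : Conf N => 1 / 2 * ∑ i, ∑ b,
      ‖fderiv ℝ (psiN L r I a N) x (Pi.single i (Pi.single b 1))‖ ^ 2) (confBox N L) := by
    refine Integrable.const_mul ?_ _
    exact integrable_finsetSum _ fun i _ => integrable_finsetSum _ fun b _ => (hK i b).1
  have hval : (∫ x in confBox N L, 1 / 2 * ∑ i, ∑ b,
      ‖fderiv ℝ (psiN L r I a N) x (Pi.single i (Pi.single b 1))‖ ^ 2) =
      N / 2 * ∫ x, ∫ x', KJ L I a x x' * JJ L r I a x x' ^ (N - 1) ∂(gs I) ∂(gs I) := by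
    rw [integral_const_mul, integral_finsetSum _ fun i _ =>
      integrable_finsetSum _ fun b _ => (hK i b).1]
    have : ∀ i : Fin N, (∫ x in confBox N L, ∑ b,
        ‖fderiv ℝ (psiN L r I a N) x (Pi.single i (Pi.single b 1))‖ ^ 2) =
        ∫ x, ∫ x', KJ L I a x x' * JJ L r I a x x' ^ (N - 1) ∂(gs I) ∂(gs I) := by
      intro i
      rw [integral_finsetSum _ fun b _ => (hK i b).1]
      exact kin_sum hL hr h0 i
    rw [Finset.sum_congr rfl fun i _ => this i, Finset.sum_const, Finset.card_univ,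
      Fintype.card_fin, nsmul_eq_mul]
    ring
  rw [← hval]
  refine ⟨?_, integral_nonneg fun X => by positivity⟩
  unfold kinetic
  rw [ofReal_integral_eq_lintegral_ofReal hint (Eventually.of_forall fun X => by positivity)]

theorem interaction_psiN {L r : ℝ} (hL : 0 < L) (hr : 0 ≤ r) {I : Finset (Fin 3 → ℤ)}
    (h0 : 0 ∉ I) (a : (Fin 3 → ℤ) → ℝ) {W : (Fin 3 → ℝ) → ℝ≥0∞} (hW : Measurable W)
    (hWp : ∀ y (n : Fin 3 → ℤ), W (y + lat L n) = W y) (hWi : ∫⁻ y in box L, W y ≠ ⊤) (N : ℕ) :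
    interaction N L W (psiN L r I a N) ≠ ⊤ ∧
    (((interaction N L W (psiN L r I a N)).toReal : ℝ) : ℂ) = ((N * (N - 1) / 2 : ℝ) : ℂ) *
      ∫ x, ∫ x', IJ L r I a W x x' * ((JJ L r I a x x' : ℝ) : ℂ) ^ (N - 2) ∂(gs I) ∂(gs I) := by
  obtain ⟨C, hC0, hC⟩ := fld_bound L r I a
  set w : (Fin 3 → ℝ) → ℝ := fun y => (W y).toReal with hw
  have hwm : Measurable w := hW.ennreal_toReal
  have hwi : IntegrableOn w (box L) := integrable_toReal_of_lintegral_ne_top hW.aemeasurable hWi
  set V : ℂ := ∫ x, ∫ x', IJ L r I a W x x' * ((JJ L r I a x x' : ℝ) : ℂ) ^ (N - 2) ∂(gs I)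
    ∂(gs I) with hV
  have hpair : ∀ i j : Fin N, i ≠ j →
      IntegrableOn (fun X : Conf N => w (X i - X j) * ‖psiN L r I a N X‖ ^ 2) (confBox N L) ∧
      ((∫ X in confBox N L, w (X i - X j) * ‖psiN L r I a N X‖ ^ 2 : ℝ) : ℂ) = V := by
    intro i j hij
    obtain ⟨h1, h2⟩ := factor_pair (N := N) hL (u := fun y x => fld L r I a x y)
      (fld_cont L r I a) (C := C) (fun y x => (hC x y).1) hwm
      (fun y => ENNReal.toReal_nonneg) hwi (fun y n => by simp only [hw, hWp]) hij
    refine ⟨h1, h2.trans ?_⟩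
    rw [hV]
    refine integral_congr_ae (Eventually.of_forall fun x => ?_)
    simp only
    refine integral_congr_ae (Eventually.of_forall fun x' => ?_)
    simp only
    rw [inner_fld hL hr h0]
    rfl
  have hpsi : Measurable fun X : Conf N => ENNReal.ofReal (‖psiN L r I a N X‖ ^ 2) :=
    ((psiN_wave hL r I a N).smooth.continuous.norm.pow 2).measurable.ennreal_ofReal
  have hWm : ∀ i j : Fin N, Measurable fun X : Conf N => W (X i - X j) := fun i j =>
    hW.comp ((measurable_pi_apply i).sub (measurable_pi_apply j))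
  have hl : ∀ i j : Fin N, i ≠ j →
      ∫⁻ X in confBox N L, W (X i - X j) * ENNReal.ofReal (‖psiN L r I a N X‖ ^ 2) =
        ENNReal.ofReal (∫ X in confBox N L, w (X i - X j) * ‖psiN L r I a N X‖ ^ 2) := by
    intro i j hij
    rw [ofReal_integral_eq_lintegral_ofReal (hpair i j hij).1
      (Eventually.of_forall fun X => mul_nonneg ENNReal.toReal_nonneg (by positivity))]
    refine lintegral_congr_ae ?_
    filter_upwards [ae_restrict_of_ae (pair_lt_top hL hW hWp hWi hij)] with X hX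
    rw [ENNReal.ofReal_mul ENNReal.toReal_nonneg, ENNReal.ofReal_toReal hX.ne]
  have hI : interaction N L W (psiN L r I a N) = ENNReal.ofReal
      (∑ i, ∑ j ∈ Finset.Ioi i,
        ∫ X in confBox N L, w (X i - X j) * ‖psiN L r I a N X‖ ^ 2) := by
    unfold interaction
    rw [ENNReal.ofReal_sum_of_nonneg (fun i _ => Finset.sum_nonneg fun j _ =>
      integral_nonneg fun X => mul_nonneg ENNReal.toReal_nonneg (by positivity))]
    simp_rw [Finset.sum_mul]
    have hm2 : ∀ i j : Fin N, Measurable fun X : Conf N =>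
        W (X i - X j) * ENNReal.ofReal (‖psiN L r I a N X‖ ^ 2) := fun i j =>
      (hWm i j).mul hpsi
    rw [lintegral_finsetSum _ (fun i _ => Finset.measurable_fun_sum _ fun j _ => hm2 i j)]
    refine Finset.sum_congr rfl fun i _ => ?_
    rw [ENNReal.ofReal_sum_of_nonneg (fun j _ =>
      integral_nonneg fun X => mul_nonneg ENNReal.toReal_nonneg (by positivity)),
      lintegral_finsetSum _ (fun j _ => hm2 i j)]
    refine Finset.sum_congr rfl fun j hj => ?_
    exact hl i j (Finset.mem_Ioi.1 hj).ne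
  rw [hI]
  refine ⟨ENNReal.ofReal_ne_top, ?_⟩
  rw [ENNReal.toReal_ofReal (Finset.sum_nonneg fun i _ => Finset.sum_nonneg fun j _ =>
      integral_nonneg fun X => mul_nonneg ENNReal.toReal_nonneg (by positivity))]
  push_cast
  have h3 : ∀ i : Fin N, ∑ j ∈ Finset.Ioi i,
      ((∫ X in confBox N L, w (X i - X j) * ‖psiN L r I a N X‖ ^ 2 : ℝ) : ℂ) =
      ((Finset.Ioi i).card : ℂ) * V := by
    intro i
    rw [Finset.sum_congr rfl fun j hj => (hpair i j (Finset.mem_Ioi.1 hj).ne).2,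
      Finset.sum_const, nsmul_eq_mul]
  rw [Finset.sum_congr rfl fun i _ => h3 i, ← Finset.sum_mul]
  congr 1
  have h4 := congrArg (fun t : ℝ => (t : ℂ)) (sum_card_Ioi N)
  push_cast at h4
  exact h4

end Pool.Agent.P76w
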