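import Pool.Agent.Lib.P76w.Defs

/-!
# P76w.Scale (1.5 h): radial integrals over `ℝ³` and scaling

`ek k = 2π²|k|²`, `g0 t = min(1/√t, 1/t²)`.
* `g0_int`: `g0 (ek k) ≤ min(C/|k|, C/|k|⁴)`: integrable near `0` and at infinity in three dimensions
  (polar coordinates, e.g. `MeasureTheory.integrable_fun_norm_addHaar`, or layer-cake / known facts
  on `∫ (1+|x|)^{-r}`: away from the unit ball `g0 ≤ C (1+|k|)^{-4}`; `|k|⁻¹` on the unit ball).
* `g0_scale`: `k = √E k'`: `ek k / E = ek (k/√E)`, `dk = E^{3/2} dk'` (`integral_comp_smul`).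
* `inv_ball`: `|k|⁻¹` is integrable on balls.
* `b_over_K`: near `0`: `|b|/K ≤ V/K`, and `|k|⁻²` is integrable on the unit ball; outside:
  `|b|/K ≤ ½(b² + K⁻²)`, and `|k|⁻⁴` is integrable outside the unit ball.
* `g0_comparison`: elementary: the four functions of `t > 0` below are `≤ g0 t`.
-/

open MeasureTheory Filter Topology
open scoped BigOperators

namespace Pool.Agent.P76w

open Pool.Agent.P76s

theorem ek_nonneg' (k : E3) : 0 ≤ ek k := by unfold ek; positivity

theorem finrank_E3 : Module.finrank ℝ E3 = 3 := by simp [E3]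

theorem sqrt_ek' (k : E3) : √(ek k) = √2 * Real.pi * ‖k‖ := by
  unfold ek
  rw [show 2 * Real.pi ^ 2 * ‖k‖ ^ 2 = 2 * (Real.pi * ‖k‖) ^ 2 by ring,
    Real.sqrt_mul (by norm_num), Real.sqrt_sq (by positivity)]
  ring

theorem meas_ek : Measurable (fun k : E3 => ek k) := by
  unfold ek
  fun_prop

theorem meas_g0 : Measurable g0 := by
  unfold g0
  fun_prop

theorem inv_ball (R : ℝ) : IntegrableOn (fun k : E3 => 1 / √(ek k)) (Metric.ball 0 R) := by
  refine integrableOn_ball_of_norm_le_rpow (C := 1 / (√2 * Real.pi)) (α := 1) ?_ ?_ ?_ ?_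
  · rw [finrank_E3]; norm_num
  · rw [finrank_E3]; norm_num
  · refine Filter.Eventually.of_forall fun k => ?_
    rw [Real.norm_of_nonneg (by positivity), sqrt_ek', Real.rpow_neg_one, one_div_mul_eq_div]
    rw [one_div, mul_inv, div_eq_mul_inv, mul_comm]
  · exact ((measurable_const.div (Real.continuous_sqrt.measurable.comp meas_ek))).aestronglyMeasurable

/-- outside the unit ball -/
theorem inv_sq_le {k : E3} (hk : k ∉ Metric.ball (0 : E3) 1) :
    1 / ek k ^ 2 ≤ (1 + ‖k‖) ^ (-(4 : ℝ)) := by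
  have hk1 : 1 ≤ ‖k‖ := by
    rw [mem_ball_zero_iff, not_lt] at hk
    exact hk
  have h0 : (0 : ℝ) < 1 + ‖k‖ := by linarith
  rw [Real.rpow_neg h0.le, show (4 : ℝ) = ((4 : ℕ) : ℝ) by norm_num, Real.rpow_natCast, ← one_div]
  have hpi : 3 < Real.pi := Real.pi_gt_three
  have h1 : (1 + ‖k‖) ^ 2 ≤ ek k := by
    unfold ek
    have : (1 + ‖k‖) ^ 2 ≤ 4 * ‖k‖ ^ 2 := by nlinarith
    have h2 : (4 : ℝ) ≤ 2 * Real.pi ^ 2 := by nlinarith
    have h3 : 4 * ‖k‖ ^ 2 ≤ 2 * Real.pi ^ 2 * ‖k‖ ^ 2 :=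
      mul_le_mul_of_nonneg_right h2 (by positivity)
    linarith
  refine one_div_le_one_div_of_le (by positivity) ?_
  calc (1 + ‖k‖) ^ 4 = ((1 + ‖k‖) ^ 2) ^ 2 := by ring
    _ ≤ ek k ^ 2 := pow_le_pow_left₀ (by positivity) h1 2

theorem int_tail : Integrable (fun k : E3 => (1 + ‖k‖) ^ (-(4 : ℝ))) := by
  refine integrable_one_add_norm ?_
  rw [finrank_E3]
  norm_num

theorem int_inv_sq : IntegrableOn (fun k : E3 => 1 / ek k ^ 2) (Metric.ball (0 : E3) 1)ᶜ := by
  refine Integrable.mono' int_tail.integrableOn ?_ ?_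
  · exact (measurable_const.div (meas_ek.pow_const 2)).aestronglyMeasurable
  · refine (ae_restrict_mem measurableSet_ball.compl).mono fun k hk => ?_
    rw [Real.norm_of_nonneg (by positivity)]
    exact inv_sq_le hk

theorem g0_int : Integrable (fun k : E3 => g0 (ek k)) := by
  have hm : Measurable (fun k : E3 => g0 (ek k)) := meas_g0.comp meas_ek
  have hg : ∀ k : E3, 0 ≤ g0 (ek k) := fun k => by
    unfold g0
    exact le_min (by positivity) (by positivity)
  have h1 : IntegrableOn (fun k : E3 => g0 (ek k)) (Metric.ball 0 1) := by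
    refine Integrable.mono' (inv_ball 1) hm.aestronglyMeasurable ?_
    refine Filter.Eventually.of_forall fun k => ?_
    rw [Real.norm_of_nonneg (hg k)]
    exact min_le_left _ _
  have h2 : IntegrableOn (fun k : E3 => g0 (ek k)) (Metric.ball (0 : E3) 1)ᶜ := by
    refine Integrable.mono' int_inv_sq hm.aestronglyMeasurable ?_
    refine Filter.Eventually.of_forall fun k => ?_
    rw [Real.norm_of_nonneg (hg k)]
    exact min_le_right _ _
  have h3 := h1.union h2
  rwa [Set.union_compl_self, integrableOn_univ] at h3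

theorem g0_scale {E : ℝ} (hE : 0 < E) : Integrable (fun k : E3 => g0 (ek k / E)) ∧
    ∫ k : E3, g0 (ek k / E) = E * √E * ∫ k : E3, g0 (ek k) := by
  have hs : 0 < √E := Real.sqrt_pos.2 hE
  have h1 : (fun k : E3 => g0 (ek k / E)) = fun k : E3 => g0 (ek ((√E)⁻¹ • k)) := by
    funext k
    congr 1
    unfold ek
    rw [norm_smul, norm_inv, Real.norm_of_nonneg hs.le, mul_pow, inv_pow, Real.sq_sqrt hE.le]
    field_simp
  rw [h1]
  refine ⟨g0_int.comp_smul (R := (√E)⁻¹) (inv_ne_zero hs.ne'), ?_⟩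
  have h2 := Measure.integral_comp_inv_smul_of_nonneg (μ := (volume : Measure E3))
    (fun k : E3 => g0 (ek k)) hs.le
  rw [h2, finrank_E3, smul_eq_mul]
  congr 1
  rw [pow_succ, Real.sq_sqrt hE.le]

theorem b_over_K {b : E3 → ℝ} {V : ℝ} (hb : Continuous b) (hV : ∀ k, |b k| ≤ V)
    (hb2 : MemLp b 2) : Integrable (fun k : E3 => |b k| / ek k) := by
  have hm : Measurable (fun k : E3 => |b k| / ek k) :=
    (hb.abs.measurable).div meas_ek
  have h1 : IntegrableOn (fun k : E3 => |b k| / ek k) (Metric.ball 0 1) := by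
    refine integrableOn_ball_of_norm_le_rpow (C := V / (2 * Real.pi ^ 2)) (α := 2) ?_ ?_ ?_
      hm.aestronglyMeasurable
    · rw [finrank_E3]; norm_num
    · rw [finrank_E3]; norm_num
    · refine Filter.Eventually.of_forall fun k => ?_
      have hk := ek_nonneg' k
      rw [Real.norm_of_nonneg (by positivity), show (-2 : ℝ) = -((2 : ℕ) : ℝ) by norm_num,
        Real.rpow_neg (norm_nonneg _), Real.rpow_natCast]
      have h2 : V / (2 * Real.pi ^ 2) * (‖k‖ ^ 2)⁻¹ = V / ek k := by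
        unfold ek
        rw [div_eq_mul_inv, div_eq_mul_inv, mul_inv (2 * Real.pi ^ 2) (‖k‖ ^ 2), mul_assoc]
      rw [h2]
      exact div_le_div_of_nonneg_right (hV k) hk
  have h2 : IntegrableOn (fun k : E3 => |b k| / ek k) (Metric.ball (0 : E3) 1)ᶜ := by
    have hsq : Integrable (fun k : E3 => b k ^ 2) := hb2.integrable_sq
    refine Integrable.mono' (hsq.integrableOn.add int_inv_sq) hm.aestronglyMeasurable ?_
    refine Filter.Eventually.of_forall fun k => ?_
    have hk := ek_nonneg' k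
    rw [Real.norm_of_nonneg (by positivity)]
    show |b k| / ek k ≤ b k ^ 2 + 1 / ek k ^ 2
    have h3 : |b k| / ek k = |b k| * (1 / ek k) := by rw [mul_one_div]
    have h4 : 1 / ek k ^ 2 = (1 / ek k) ^ 2 := by rw [one_div_pow]
    rw [h3, h4, ← sq_abs (b k)]
    nlinarith [sq_nonneg (|b k| - 1 / ek k), sq_nonneg (|b k|), sq_nonneg (1 / ek k)]
  have h3 := h1.union h2
  rwa [Set.union_compl_self, integrableOn_univ] at h3

/-- `(1+t)^{-2} ≤ g0 t` -/
theorem g0_a {t : ℝ} (ht : 0 < t) : 1 / (1 + t) ^ 2 ≤ g0 t := by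
  have hs : 0 < √t := Real.sqrt_pos.2 ht
  have hsq : √t ^ 2 = t := Real.sq_sqrt ht.le
  refine le_min ?_ ?_
  · refine one_div_le_one_div_of_le hs ?_
    nlinarith [sq_nonneg (√t - 1)]
  · refine one_div_le_one_div_of_le (by positivity) ?_
    nlinarith

/-- `min(1/√(8t), 1/(2t)) / (1+t) ≤ g0 t` -/
theorem g0_b {t : ℝ} (ht : 0 < t) : min (1 / √(8 * t)) (1 / (2 * t)) / (1 + t) ≤ g0 t := by
  have hs : 0 < √t := Real.sqrt_pos.2 ht
  refine le_min ?_ ?_
  · calc min (1 / √(8 * t)) (1 / (2 * t)) / (1 + t) ≤ (1 / √(8 * t)) / (1 + t) :=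
          div_le_div_of_nonneg_right (min_le_left _ _) (by linarith)
      _ ≤ 1 / √(8 * t) := div_le_self (by positivity) (by linarith)
      _ ≤ 1 / √t := one_div_le_one_div_of_le hs (Real.sqrt_le_sqrt (by linarith))
  · calc min (1 / √(8 * t)) (1 / (2 * t)) / (1 + t) ≤ (1 / (2 * t)) / (1 + t) :=
          div_le_div_of_nonneg_right (min_le_right _ _) (by linarith)
      _ = 1 / (2 * t * (1 + t)) := by rw [div_div]
      _ ≤ 1 / t ^ 2 := one_div_le_one_div_of_le (by positivity) (by nlinarith)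

/-- `min(1/√(8t), 1/(2t)²) ≤ g0 t` -/
theorem g0_c {t : ℝ} (ht : 0 < t) : min (1 / √(8 * t)) ((1 / (2 * t)) ^ 2) ≤ g0 t := by
  have hs : 0 < √t := Real.sqrt_pos.2 ht
  refine min_le_min ?_ ?_
  · exact one_div_le_one_div_of_le hs (Real.sqrt_le_sqrt (by linarith))
  · rw [one_div_pow]
    exact one_div_le_one_div_of_le (by positivity) (by nlinarith)

/-- `1/√t ≤ g0 t` for `t ≤ 1` -/
theorem g0_d {t : ℝ} (ht : 0 < t) (ht1 : t ≤ 1) : 1 / √t ≤ g0 t := by
  have hs : 0 < √t := Real.sqrt_pos.2 ht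
  have hsq : √t ^ 2 = t := Real.sq_sqrt ht.le
  refine le_min le_rfl ?_
  refine one_div_le_one_div_of_le (by positivity) ?_
  have hs1 : √t ≤ 1 := Real.sqrt_le_one.2 ht1
  calc t ^ 2 ≤ t := by nlinarith
    _ ≤ √t := by nlinarith

end Pool.Agent.P76w
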