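import Pool.Agent.Lib.P76w.Inversion
import Pool.Agent.Lib.P76w.Scale
import Pool.Agent.Lib.P76s.SimpleExact
import Pool.Agent.Lib.P76s.SimpleLower
import Pool.Agent.Lib.P76s.PosU

/-!
# P76w.EvenU (2 h): at weak coupling every solution of the Simple equation is even
(black boxes: Inversion, Scale, P76s.FourierEqn, P76s.Planch, P76s.SimpleExact.facts, PosU.nonneg_of_le_one)

`v = lam v₁`, `(u,e)` a solution, `0 ≤ u ≤ 1` (`nonneg_of_le_one`), `e > 0` (`SimpleLowerAux.e_pos`),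
`|û| ≤ 1/ρ` (`facts`).  Let `o(x) = u(x) - u(-x)`, `|o| ≤ 1`; `ô(k) = û(k) - û(-k)`, `û(-k) = conj û(k)`.
The difference of `fourier_eqn` at `k` and at `-k`, with `S(x) - S(-x) = -o(x)v(x)`:
  `(4π²|k|² + 4e - 2eρ(û(k) + û(-k))) ô(k) = - 𝓕[o v](k)`, and `û(k) + û(-k) = 2 Re û(k)` is real and `≤ 2/ρ`.
So `|ô(k)| ≤ |𝓕[o v](k)| / (4π²|k|²)` for `k ≠ 0`.
If `|o| ≤ M` a.e. then `|𝓕[ov]| ≤ M lam V` and `‖𝓕[ov]‖₂ = ‖ov‖₂ ≤ M lam ‖v₁‖₂`; by `2ab ≤ a² + b²`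
scaled (or Hölder): `∫ |ô| ≤ C₅ lam M`, `C₅` depending only on `v₁`
(`∫_{|k|≤1} |k|⁻² < ∞`, `∫_{|k|>1} |k|⁻⁴ < ∞`; from Scale: `g0_int` and `b_over_K`), so `𝓕 o ∈ L¹` and by
`ae_bound` `|o| ≤ C₅ lam M` a.e.  If `C₅ lam₀ ≤ ½`: `|o| ≤ 2^{-n}` a.e. for all `n`, so `o = 0` a.e.
-/

open MeasureTheory Filter Topology
open scoped BigOperators FourierTransform

namespace Pool.Agent.P76w

open Pool.Agent.P76s

namespace EvenUAux

open scoped ComplexConjugate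

theorem fe_neg (f : E3 → ℂ) (k : E3) : 𝓕 (fun x => f (-x)) k = 𝓕 f (-k) := by
  rw [Real.fourier_eq', Real.fourier_eq', ← integral_neg_eq_self]
  simp only [neg_neg, inner_neg_left, inner_neg_right]

theorem fe_sub {f g : E3 → ℂ} (hf : Integrable f) (hg : Integrable g) (k : E3) :
    𝓕 (fun x => f x - g x) k = 𝓕 f k - 𝓕 g k := by
  have h1 : (fun x => f x - g x) = fun x => f x + (-1 : ℂ) * g x := by
    funext x
    ring
  rw [h1, fe_add hf (hg.const_mul _), fe_smul]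
  ring

/-- The equation for the odd part. -/
theorem odd_eq {v u : E3 → ℝ} {ρ e : ℝ} (h : IsSimpleSolution v ρ u e)
    (heven : ∀ x, v (-x) = v x) (k : E3) :
    ((4 * Real.pi ^ 2 * ‖k‖ ^ 2 + 4 * e : ℝ) : ℂ) *
      𝓕 (fun x => ((u x - u (-x) : ℝ) : ℂ)) k =
      -𝓕 (fun x => (((u x - u (-x)) * v x : ℝ) : ℂ)) k +
        ((2 * e * ρ : ℝ) : ℂ) * (𝓕 (fun x => (u x : ℂ)) k + 𝓕 (fun x => (u x : ℂ)) (-k)) *
        𝓕 (fun x => ((u x - u (-x) : ℝ) : ℂ)) k := by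
  have iU : Integrable (fun x => (u x : ℂ)) := h.int_u.ofReal
  have iS : Integrable (fun x => (((1 - u x) * v x : ℝ) : ℂ)) := h.int_S.ofReal
  have h1 := fourier_eqn h k
  have h2 := fourier_eqn h (-k)
  rw [norm_neg] at h2
  have hO : 𝓕 (fun x => ((u x - u (-x) : ℝ) : ℂ)) k =
      𝓕 (fun x => (u x : ℂ)) k - 𝓕 (fun x => (u x : ℂ)) (-k) := by
    rw [← fe_neg (fun x => (u x : ℂ)) k, ← fe_sub iU iU.comp_neg]
    exact congrArg (fun f : E3 → ℂ => 𝓕 f k) (funext fun x => by push_cast; ring)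
  have hQ : 𝓕 (fun x => (((u x - u (-x)) * v x : ℝ) : ℂ)) k =
      𝓕 (fun x => (((1 - u x) * v x : ℝ) : ℂ)) (-k) -
        𝓕 (fun x => (((1 - u x) * v x : ℝ) : ℂ)) k := by
    rw [← fe_neg (fun x => (((1 - u x) * v x : ℝ) : ℂ)) k, ← fe_sub iS.comp_neg iS]
    exact congrArg (fun f : E3 → ℂ => 𝓕 f k) (funext fun x => by rw [heven]; push_cast; ring)
  rw [hO, hQ]
  linear_combination h1 - h2

theorem odd_norm {v u : E3 → ℝ} {ρ e : ℝ} (hρ : 0 < ρ) (he : 0 < e)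
    (h : IsSimpleSolution v ρ u e) (heven : ∀ x, v (-x) = v x)
    (hU : ∀ k, ‖𝓕 (fun x => (u x : ℂ)) k‖ ≤ 1 / ρ) (k : E3) :
    2 * ek k * ‖𝓕 (fun x => ((u x - u (-x) : ℝ) : ℂ)) k‖ ≤
      ‖𝓕 (fun x => (((u x - u (-x)) * v x : ℝ) : ℂ)) k‖ := by
  have h1 : ‖((4 * Real.pi ^ 2 * ‖k‖ ^ 2 + 4 * e : ℝ) : ℂ) *
      𝓕 (fun x => ((u x - u (-x) : ℝ) : ℂ)) k‖ =
      ‖-𝓕 (fun x => (((u x - u (-x)) * v x : ℝ) : ℂ)) k +
        ((2 * e * ρ : ℝ) : ℂ) * (𝓕 (fun x => (u x : ℂ)) k + 𝓕 (fun x => (u x : ℂ)) (-k)) *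
        𝓕 (fun x => ((u x - u (-x) : ℝ) : ℂ)) k‖ := by
    rw [odd_eq h heven k]
  set O := 𝓕 (fun x => ((u x - u (-x) : ℝ) : ℂ)) k with hO
  set Q := 𝓕 (fun x => (((u x - u (-x)) * v x : ℝ) : ℂ)) k with hQ
  have h0 : 0 ≤ 4 * Real.pi ^ 2 * ‖k‖ ^ 2 + 4 * e := by positivity
  rw [norm_mul, Complex.norm_real, Real.norm_eq_abs, abs_of_nonneg h0] at h1
  have h2 : ‖-Q + ((2 * e * ρ : ℝ) : ℂ) *
      (𝓕 (fun x => (u x : ℂ)) k + 𝓕 (fun x => (u x : ℂ)) (-k)) * O‖ ≤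
      ‖Q‖ + 2 * e * ρ * (1 / ρ + 1 / ρ) * ‖O‖ := by
    refine (norm_add_le _ _).trans ?_
    rw [norm_neg, norm_mul, norm_mul, Complex.norm_real, Real.norm_eq_abs,
      abs_of_nonneg (by positivity : 0 ≤ 2 * e * ρ)]
    have h3 := (norm_add_le (𝓕 (fun x => (u x : ℂ)) k) (𝓕 (fun x => (u x : ℂ)) (-k))).trans
      (add_le_add (hU k) (hU (-k)))
    have h4 : 2 * e * ρ * ‖𝓕 (fun x => (u x : ℂ)) k + 𝓕 (fun x => (u x : ℂ)) (-k)‖ * ‖O‖ ≤
        2 * e * ρ * (1 / ρ + 1 / ρ) * ‖O‖ :=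
      mul_le_mul_of_nonneg_right (mul_le_mul_of_nonneg_left h3 (by positivity))
        (norm_nonneg _)
    linarith
  have h5 : 2 * e * ρ * (1 / ρ + 1 / ρ) = 4 * e := by
    field_simp
    ring
  rw [h5] at h2
  have h6 : 2 * ek k = 4 * Real.pi ^ 2 * ‖k‖ ^ 2 := by
    unfold ek
    ring
  rw [h6]
  nlinarith [h1, h2, norm_nonneg O]

/-- the comparison function -/
noncomputable def b0 (k : E3) : ℝ := ((1 : ℝ) + ‖k‖ ^ 2)⁻¹

theorem b0_pos (k : E3) : 0 < b0 k := by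
  unfold b0
  positivity

theorem b0_le (k : E3) : b0 k ≤ 1 := by
  unfold b0
  exact inv_le_one_of_one_le₀ (by nlinarith [sq_nonneg ‖k‖])

theorem b0_cont : Continuous b0 := by
  unfold b0
  refine Continuous.inv₀ (by fun_prop) fun k => ?_
  positivity

theorem b0_sq_int : Integrable fun k : E3 => b0 k ^ 2 := by
  have h := integrable_rpow_neg_one_add_norm_sq (E := E3) (μ := volume) (r := 4)
    (by rw [finrank_euclideanSpace, Fintype.card_fin]; norm_num)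
  refine h.congr (Filter.Eventually.of_forall fun k => ?_)
  simp only [b0]
  have h1 : (-4 / 2 : ℝ) = -((2 : ℕ) : ℝ) := by norm_num
  rw [h1, Real.rpow_neg (by positivity), Real.rpow_natCast, inv_pow]

theorem b0_memLp : MemLp b0 2 :=
  (memLp_two_iff_integrable_sq b0_cont.aestronglyMeasurable).2 b0_sq_int

theorem b0_over : Integrable fun k : E3 => b0 k / ek k := by
  have h := b_over_K (b := b0) (V := 1) b0_cont
    (fun k => by rw [abs_of_pos (b0_pos k)]; exact b0_le k) b0_memLp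
  exact h.congr (Filter.Eventually.of_forall fun k => by
    simp only
    rw [abs_of_pos (b0_pos k)])

theorem ek_nonneg (k : E3) : 0 ≤ ek k := by
  unfold ek
  positivity

theorem comparison {q V : ℝ} (hq : 0 ≤ q) (hV : q ≤ V) (k : E3) :
    q / ek k ≤ 2 * V * (b0 k / ek k) + (1 / 2 * q ^ 2 + 1 / 2 * b0 k ^ 2) := by
  have hek := ek_nonneg k
  have hV0 : 0 ≤ V := hq.trans hV
  have hb := b0_pos k
  rcases le_or_gt ‖k‖ 1 with hk | hk
  · have h1 : 1 / 2 ≤ b0 k := by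
      unfold b0
      rw [one_div]
      refine inv_anti₀ (by positivity) ?_
      nlinarith [norm_nonneg k]
    have h2 : q / ek k ≤ 2 * V * (b0 k / ek k) := by
      rw [← mul_div_assoc]
      refine div_le_div_of_nonneg_right ?_ hek
      nlinarith
    have h3 : 0 ≤ 1 / 2 * q ^ 2 + 1 / 2 * b0 k ^ 2 := by positivity
    linarith
  · have h0 : 0 ≤ 2 * V * (b0 k / ek k) := by positivity
    have h1 : 1 / ek k ≤ b0 k := by
      unfold b0 ek
      rw [one_div]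
      refine inv_anti₀ (by positivity) ?_
      nlinarith [Real.pi_gt_three, sq_nonneg (Real.pi - 3), norm_nonneg k,
        mul_pos Real.pi_pos Real.pi_pos, mul_self_nonneg (‖k‖ - 1),
        mul_nonneg (sub_nonneg.2 (Real.pi_gt_three.le)) (sq_nonneg ‖k‖)]
    have h2 : q / ek k ≤ q * b0 k := by
      rw [div_eq_mul_one_div]
      exact mul_le_mul_of_nonneg_left h1 hq
    nlinarith [sq_nonneg (q - b0 k)]

/-- one step of the iteration -/
theorem step {v₁ : E3 → ℝ} (hv : Pot v₁) {lam ρ e M : ℝ} (hlam : 0 < lam) (hρ : 0 < ρ)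
    (he : 0 < e) (hM : 0 < M) {u : E3 → ℝ} (h : IsSimpleSolution (fun x => lam * v₁ x) ρ u e)
    (hU : ∀ k, ‖𝓕 (fun x => (u x : ℂ)) k‖ ≤ 1 / ρ)
    (hlamC : lam * (2 * (∫ x, v₁ x) * (∫ k, b0 k / ek k) +
      (1 / 2 * (∫ x, v₁ x ^ 2) + 1 / 2 * ∫ k, b0 k ^ 2)) ≤ 1)
    (ho : ∀ᵐ x, |u x - u (-x)| ≤ M) : ∀ᵐ x, |u x - u (-x)| ≤ M / 2 := by
  have heven : ∀ x, (fun x => lam * v₁ x) (-x) = (fun x => lam * v₁ x) x := fun x => by
    simp only
    rw [hv.even]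
  set F : E3 → ℂ := fun x => (((u x - u (-x)) * (lam * v₁ x) : ℝ) : ℂ) with hF
  have hFn : ∀ᵐ x, ‖F x‖ ≤ lam * M * v₁ x := by
    filter_upwards [ho] with x hx
    rw [hF]
    simp only
    rw [Complex.norm_real, Real.norm_eq_abs, abs_mul,
      abs_of_nonneg (mul_nonneg hlam.le (hv.nonneg x))]
    have h1 := mul_le_mul_of_nonneg_right hx (mul_nonneg hlam.le (hv.nonneg x))
    linarith
  have hou : Integrable (fun x => u x - u (-x)) := h.int_u.sub h.int_u.comp_neg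
  have hFm : AEStronglyMeasurable F volume := by
    refine Complex.continuous_ofReal.comp_aestronglyMeasurable ?_
    exact hou.aestronglyMeasurable.mul (hv.int.aestronglyMeasurable.const_mul lam)
  have hFi : Integrable F := (hv.int.const_mul (lam * M)).mono' hFm hFn
  have hV2 : MemLp (fun x => lam * M * v₁ x) 2 := hv.sq.const_mul (lam * M)
  have hF2 : MemLp F 2 := by
    refine hV2.mono hFm ?_
    filter_upwards [hFn] with x hx
    exact hx.trans (le_abs_self _)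
  -- the two bounds for `𝓕 F`
  have hQ1 : ∀ k, ‖𝓕 F k‖ ≤ lam * M * ∫ x, v₁ x := by
    intro k
    refine (SimpleExactAux.fe_norm_le F k).trans ?_
    rw [← integral_const_mul]
    exact integral_mono_ae hFi.norm (hv.int.const_mul _) hFn
  have hQm : MemLp (𝓕 F) 2 := fourier_memLp hFi hF2
  have hQi : Integrable fun k => ‖𝓕 F k‖ ^ 2 :=
    (memLp_two_iff_integrable_sq_norm hQm.aestronglyMeasurable).1 hQm
  have hQ2 : ∫ k, ‖𝓕 F k‖ ^ 2 ≤ (lam * M) ^ 2 * ∫ x, v₁ x ^ 2 := by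
    have h1 := plancherel hFi hF2 hFi hF2
    have h2 : ((∫ k, ‖𝓕 F k‖ ^ 2 : ℝ) : ℂ) = ((∫ x, ‖F x‖ ^ 2 : ℝ) : ℂ) := by
      rw [← integral_complex_ofReal, ← integral_complex_ofReal]
      have e1 : ∀ z : ℂ, ((‖z‖ ^ 2 : ℝ) : ℂ) = z * conj z := fun z => by
        rw [Complex.mul_conj, Complex.normSq_eq_norm_sq]
      simp only [e1]
      exact h1
    have h3 : ∫ k, ‖𝓕 F k‖ ^ 2 = ∫ x, ‖F x‖ ^ 2 := by exact_mod_cast h2
    rw [h3, ← integral_const_mul]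
    have hsq : Integrable fun x => v₁ x ^ 2 :=
      (memLp_two_iff_integrable_sq hv.int.aestronglyMeasurable).1 hv.sq
    refine integral_mono_ae
      ((memLp_two_iff_integrable_sq_norm hF2.aestronglyMeasurable).1 hF2)
      (hsq.const_mul _) ?_
    filter_upwards [hFn] with x hx
    have h4 := pow_le_pow_left₀ (norm_nonneg _) hx 2
    rw [← mul_pow]
    exact h4
  -- `O`
  have hO : ∀ k, 2 * ek k * ‖𝓕 (fun x => ((u x - u (-x) : ℝ) : ℂ)) k‖ ≤ ‖𝓕 F k‖ := fun k =>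
    odd_norm hρ he h heven hU k
  have hlM : 0 < lam * M := mul_pos hlam hM
  have hdom : Integrable fun k => lam * M * (2 * (∫ x, v₁ x) * (b0 k / ek k) +
      (1 / 2 * (‖𝓕 F k‖ ^ 2 / (lam * M) ^ 2) + 1 / 2 * b0 k ^ 2)) := by
    refine Integrable.const_mul ?_ _
    exact (b0_over.const_mul _).add (((hQi.div_const _).const_mul _).add (b0_sq_int.const_mul _))
  have hptw : ∀ᵐ k : E3, 2 * ‖𝓕 (fun x => ((u x - u (-x) : ℝ) : ℂ)) k‖ ≤
      lam * M * (2 * (∫ x, v₁ x) * (b0 k / ek k) +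
      (1 / 2 * (‖𝓕 F k‖ ^ 2 / (lam * M) ^ 2) + 1 / 2 * b0 k ^ 2)) := by
    have hne : ∀ᵐ k : E3, k ≠ 0 := by
      rw [ae_iff]
      simp
    filter_upwards [hne] with k hk
    have hek : 0 < ek k := by
      unfold ek
      have := norm_pos_iff.2 hk
      positivity
    have h1 : 2 * ‖𝓕 (fun x => ((u x - u (-x) : ℝ) : ℂ)) k‖ ≤ ‖𝓕 F k‖ / ek k := by
      rw [le_div_iff₀ hek]
      have := hO k
      linarith
    have h2 := comparison (q := ‖𝓕 F k‖ / (lam * M)) (V := ∫ x, v₁ x) (by positivity)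
      (by rw [div_le_iff₀ hlM, mul_comm]; exact hQ1 k) k
    have h3 : ‖𝓕 F k‖ / ek k = lam * M * (‖𝓕 F k‖ / (lam * M) / ek k) := by
      field_simp
    rw [div_pow] at h2
    rw [h3] at h1
    exact h1.trans (mul_le_mul_of_nonneg_left h2 hlM.le)
  have hoC : Integrable (fun x => ((u x - u (-x) : ℝ) : ℂ)) := hou.ofReal
  have hOi : Integrable (𝓕 (fun x => ((u x - u (-x) : ℝ) : ℂ))) := by
    refine hdom.mono' (fe_cont hoC).aestronglyMeasurable ?_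
    filter_upwards [hptw] with k hk
    have := norm_nonneg (𝓕 (fun x => ((u x - u (-x) : ℝ) : ℂ)) k)
    linarith
  have hb2 : Integrable fun k => 1 / 2 * (‖𝓕 F k‖ ^ 2 / (lam * M) ^ 2) + 1 / 2 * b0 k ^ 2 :=
    ((hQi.div_const _).const_mul _).add (b0_sq_int.const_mul _)
  have hint : 2 * ∫ k, ‖𝓕 (fun x => ((u x - u (-x) : ℝ) : ℂ)) k‖ ≤ M := by
    rw [← integral_const_mul]
    refine (integral_mono_ae (hOi.norm.const_mul 2) hdom hptw).trans ?_
    rw [integral_const_mul, integral_add (b0_over.const_mul _) hb2,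
      integral_add ((hQi.div_const _).const_mul _) (b0_sq_int.const_mul _),
      integral_const_mul, integral_const_mul, integral_const_mul, integral_div]
    have h1 : (∫ k, ‖𝓕 F k‖ ^ 2) / (lam * M) ^ 2 ≤ ∫ x, v₁ x ^ 2 := by
      rw [div_le_iff₀ (by positivity)]
      linarith
    calc lam * M * (2 * (∫ x, v₁ x) * (∫ k, b0 k / ek k) +
          (1 / 2 * ((∫ k, ‖𝓕 F k‖ ^ 2) / (lam * M) ^ 2) + 1 / 2 * ∫ k, b0 k ^ 2))
        ≤ lam * M * (2 * (∫ x, v₁ x) * (∫ k, b0 k / ek k) +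
          (1 / 2 * (∫ x, v₁ x ^ 2) + 1 / 2 * ∫ k, b0 k ^ 2)) := by
          refine mul_le_mul_of_nonneg_left ?_ hlM.le
          linarith
      _ = M * (lam * (2 * (∫ x, v₁ x) * (∫ k, b0 k / ek k) +
          (1 / 2 * (∫ x, v₁ x ^ 2) + 1 / 2 * ∫ k, b0 k ^ 2))) := by ring
      _ ≤ M * 1 := mul_le_mul_of_nonneg_left hlamC hM.le
      _ = M := mul_one _
  filter_upwards [ae_bound hoC hOi] with x hx
  rw [Complex.norm_real, Real.norm_eq_abs] at hx
  linarith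

end EvenUAux

open EvenUAux

theorem even_u {v₁ : E3 → ℝ} (hv : Pot v₁) : ∃ lam₀ > 0, ∀ lam > 0, lam ≤ lam₀ → ∀ ρ > 0,
    ∀ (u : E3 → ℝ) (e : ℝ), IsSimpleSolution (fun x => lam * v₁ x) ρ u e → (∀ᵐ x, u x ≤ 1) →
    ∀ᵐ x, u (-x) = u x := by
  have hV : 0 < ∫ x, v₁ x := hv.pos
  have hW : 0 ≤ ∫ x, v₁ x ^ 2 := integral_nonneg fun x => by positivity
  have hc0 : 0 ≤ ∫ k, b0 k / ek k :=
    integral_nonneg fun k => div_nonneg (b0_pos k).le (ek_nonneg k)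
  have hc1 : 0 ≤ ∫ k, b0 k ^ 2 := integral_nonneg fun k => by positivity
  set C : ℝ := 2 * (∫ x, v₁ x) * (∫ k, b0 k / ek k) +
      (1 / 2 * (∫ x, v₁ x ^ 2) + 1 / 2 * ∫ k, b0 k ^ 2) with hC
  have hC0 : 0 ≤ C := by positivity
  refine ⟨1 / (C + 1), by positivity, fun lam hlam hle ρ hρ u e h hu1 => ?_⟩
  have hlamC : lam * C ≤ 1 := by
    rw [le_div_iff₀ (by positivity)] at hle
    nlinarith
  have hvi : Integrable (fun x => lam * v₁ x) := hv.int.const_mul lam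
  have hv0 : ∀ x, 0 ≤ (fun x => lam * v₁ x) x := fun x => mul_nonneg hlam.le (hv.nonneg x)
  have hu0 := nonneg_of_le_one hρ hvi hv0 h hu1
  have hu : ∀ᵐ x, 0 ≤ u x ∧ u x ≤ 1 := by
    filter_upwards [hu0, hu1] with x h0 h1
    exact ⟨h0, h1⟩
  have hne : 0 < ∫ x, lam * v₁ x := by
    rw [integral_const_mul]
    positivity
  have he : 0 < e := SimpleLowerAux.e_pos hvi hv0 hne hρ h hu
  have hU := (SimpleExactAux.facts hρ hvi hv0 h hu he).2.2.2.2.2.2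
  have hneg : ∀ᵐ x : E3, 0 ≤ u (-x) ∧ u (-x) ≤ 1 :=
    (Measure.measurePreserving_neg (volume : Measure E3)).quasiMeasurePreserving.ae hu
  have hn : ∀ n : ℕ, ∀ᵐ x, |u x - u (-x)| ≤ (1 / 2 : ℝ) ^ n := by
    intro n
    induction n with
    | zero =>
      filter_upwards [hu, hneg] with x h1 h2
      rw [pow_zero, abs_le]
      constructor <;> linarith [h1.1, h1.2, h2.1, h2.2]
    | succ n ih =>
      have hs := step hv hlam hρ he (M := (1 / 2 : ℝ) ^ n) (by positivity) h hU hlamC ih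
      filter_upwards [hs] with x hx
      rw [pow_succ]
      linarith
  rw [← ae_all_iff] at hn
  filter_upwards [hn] with x hx
  have ht : Tendsto (fun n : ℕ => (1 / 2 : ℝ) ^ n) atTop (𝓝 0) :=
    tendsto_pow_atTop_nhds_zero_of_lt_one (by norm_num) (by norm_num)
  have h0 : |u x - u (-x)| ≤ 0 := ge_of_tendsto' ht hx
  have h1 := abs_eq_zero.1 (le_antisymm h0 (abs_nonneg _))
  linarith

end Pool.Agent.P76w
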