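import Pool.Agent.Lib.P76w.FldCalc
import Pool.Agent.Lib.P76w.GaussPoly
import Pool.Agent.Lib.P76s.PairReduce
import Pool.Agent.Lib.P76s.Tile

/-!
# P76w.Factor (2.5 h): integrating out the particles
(black boxes: FldCalc, GaussPoly; `restrict_confBox` of P76s.PairReduce)

General Fubini statements: for `uᵢ(y, x)` (`y` in the box, `x ∈ ℝ^I` Gaussian) jointly continuous with
`‖uᵢ(y,x)‖ ≤ C (1 + ∑|x|)`:
`∫_{confBox} ‖∫ ∏ᵢ uᵢ(Xᵢ,x) dgs(x)‖² dX = ∬ ∏ᵢ (∫_box uᵢ(y,x) conj uᵢ(y,x') dy) dgs dgs`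
(write `‖z‖² = z conj z`, the product of two integrals as a double integral, Fubini (integrable: finite
measure of the box, polynomial growth in `x, x'`), `integral_fintype_prod_eq_prod` on `confBox`
(`restrict_confBox`)).
With a pair weight `w(X_i - X_j)`, `w ≥ 0` periodic measurable, `∫_box w < ∞` (real-valued, integrable on
the box): the same with the factors `i ≠ j` integrated together:
`∫_{confBox} w(X_i - X_j) ‖∫ ∏ₖ u(X_k,x)‖² dX = ∬ (∬_{box²} w(y-z) u(y,x)u(z,x) conj(u(y,x')u(z,x'))) (∫_box u conj u')^{N-2}`.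
(`∬_{box²} w(y-z) = L³ ∫_box w` by periodicity, so everything is integrable; use
`MeasurableEquiv.piFinSuccAbove`/`Fin.consEquiv` twice or reduce to `i = 0, j = 1` by a permutation, cf. `pair_int`
in PairReduce.)
-/

open MeasureTheory Filter Topology ProbabilityTheory
open scoped BigOperators ContDiff ComplexConjugate ENNReal

namespace Pool.Agent.P76w

open Pool.Agent.P76s

namespace FactorAux

/-- The general Fubini statement. -/
theorem absA {Ξ Z : Type*} [MeasurableSpace Ξ] [MeasurableSpace Z] {ν : Measure Ξ} [SFinite ν]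
    {γ : Measure Z} [SFinite γ] {om : Ξ → ℝ} (hω : Integrable om ν) {Φ : Ξ → Z → ℂ}
    (hω0 : ∀ X, 0 ≤ om X)
    (hΦ : Measurable fun p : Ξ × Z => Φ p.1 p.2) {G : Z → ℝ} (hG : Integrable G γ)
    (hb : ∀ X x, ‖Φ X x‖ ≤ G x) :
    Integrable (fun X => om X * ‖∫ x, Φ X x ∂γ‖ ^ 2) ν ∧
    ((∫ X, om X * ‖∫ x, Φ X x ∂γ‖ ^ 2 ∂ν : ℝ) : ℂ) =
      ∫ x, ∫ x', (∫ X, (om X : ℂ) * (Φ X x * conj (Φ X x')) ∂ν) ∂γ ∂γ := by
  have hG0 : ∀ X : Ξ, ∀ x, 0 ≤ G x := fun X x => (norm_nonneg _).trans (hb X x)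
  have hm : StronglyMeasurable fun X => ∫ x, Φ X x ∂γ :=
    (hΦ.stronglyMeasurable).integral_prod_right'
  have hbd : ∀ X, ‖∫ x, Φ X x ∂γ‖ ≤ ∫ x, G x ∂γ := by
    intro X
    exact norm_integral_le_of_norm_le hG (ae_of_all _ fun x => hb X x)
  constructor
  · refine (hω.mul_const ((∫ x, G x ∂γ) ^ 2)).mono'
      (hω.aestronglyMeasurable.mul (hm.norm.pow 2).aestronglyMeasurable) (ae_of_all _ fun X => ?_)
    rw [norm_mul, norm_pow, norm_norm, Real.norm_of_nonneg (hω0 X)]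
    exact mul_le_mul_of_nonneg_left (pow_le_pow_left₀ (norm_nonneg _) (hbd X) 2) (hω0 X)
  · have hF : Integrable (Function.uncurry fun (X : Ξ) (q : Z × Z) =>
        (om X : ℂ) * (Φ X q.1 * conj (Φ X q.2))) (ν.prod (γ.prod γ)) := by
      have h1 : Integrable (fun p : Ξ × (Z × Z) => om p.1 * (G p.2.1 * G p.2.2))
          (ν.prod (γ.prod γ)) := hω.mul_prod (hG.mul_prod hG)
      have hm1 : Measurable fun p : Ξ × (Z × Z) => Φ p.1 p.2.1 :=
        hΦ.comp (measurable_fst.prodMk (measurable_fst.comp measurable_snd))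
      have hm2 : Measurable fun p : Ξ × (Z × Z) => conj (Φ p.1 p.2.2) :=
        (Complex.continuous_conj.measurable).comp
          (hΦ.comp (measurable_fst.prodMk (measurable_snd.comp measurable_snd)))
      refine h1.mono' ?_ (ae_of_all _ fun p => ?_)
      · have hωm : AEStronglyMeasurable (fun p : Ξ × (Z × Z) => (om p.1 : ℂ))
            (ν.prod (γ.prod γ)) :=
          (Complex.continuous_ofReal.comp_aestronglyMeasurable hω.aestronglyMeasurable).comp_fst
        exact hωm.mul (hm1.mul hm2).aestronglyMeasurable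
      · simp only [Function.uncurry]
        rw [norm_mul, norm_mul, Complex.norm_real, Real.norm_of_nonneg (hω0 _),
          RCLike.norm_conj]
        have b1 := hb p.1 p.2.1
        have b2 := hb p.1 p.2.2
        exact mul_le_mul_of_nonneg_left
          (mul_le_mul b1 b2 (norm_nonneg _) ((norm_nonneg _).trans b1)) (hω0 p.1)
    have e1 : ∀ X, ((om X * ‖∫ x, Φ X x ∂γ‖ ^ 2 : ℝ) : ℂ) =
        ∫ q : Z × Z, (om X : ℂ) * (Φ X q.1 * conj (Φ X q.2)) ∂(γ.prod γ) := by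
      intro X
      have h2 : ((‖∫ x, Φ X x ∂γ‖ ^ 2 : ℝ) : ℂ) =
          (∫ x, Φ X x ∂γ) * ∫ x', conj (Φ X x') ∂γ := by
        rw [integral_conj, Complex.mul_conj, Complex.normSq_eq_norm_sq]
      rw [Complex.ofReal_mul, h2, integral_const_mul,
        integral_prod_mul (fun x => Φ X x) (fun x => conj (Φ X x))]
    rw [← integral_complex_ofReal]
    calc ∫ X, ((om X * ‖∫ x, Φ X x ∂γ‖ ^ 2 : ℝ) : ℂ) ∂ν
        = ∫ X, ∫ q : Z × Z, (om X : ℂ) * (Φ X q.1 * conj (Φ X q.2)) ∂(γ.prod γ) ∂ν :=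
          integral_congr_ae (ae_of_all _ e1)
      _ = ∫ q : Z × Z, ∫ X, (om X : ℂ) * (Φ X q.1 * conj (Φ X q.2)) ∂ν ∂(γ.prod γ) :=
          integral_integral_swap hF
      _ = _ := integral_prod _ hF.integral_prod_right

/-- Splitting off two variables. -/
theorem pair_equiv {Y : Type*} [MeasurableSpace Y] (μ : Measure Y) [SigmaFinite μ] {n : ℕ}
    {i j : Fin (n + 2)} (hij : i ≠ j) :
    ∃ E : (Fin (n + 2) → Y) ≃ᵐ (Y × Y) × (Fin n → Y),
      MeasurePreserving E (Measure.pi fun _ => μ) ((μ.prod μ).prod (Measure.pi fun _ => μ)) ∧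
      (∀ X, (E X).1 = (X i, X j)) ∧
      ∀ (a : Y → ℂ) X, ∏ k, a (X k) = a (X i) * a (X j) * ∏ k, a ((E X).2 k) := by
  obtain ⟨j', rfl⟩ := Fin.exists_succAbove_eq hij.symm
  let e1 := MeasurableEquiv.piFinSuccAbove (fun _ : Fin (n + 2) => Y) i
  let e2 := MeasurableEquiv.piFinSuccAbove (fun _ : Fin (n + 1) => Y) j'
  have m1 : MeasurePreserving e1 (Measure.pi fun _ => μ) (μ.prod (Measure.pi fun _ => μ)) :=
    measurePreserving_piFinSuccAbove (fun _ => μ) i
  have m2 : MeasurePreserving e2 (Measure.pi fun _ => μ) (μ.prod (Measure.pi fun _ => μ)) :=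
    measurePreserving_piFinSuccAbove (fun _ => μ) j'
  let e3 : Y × (Fin (n + 1) → Y) ≃ᵐ Y × (Y × (Fin n → Y)) :=
    (MeasurableEquiv.refl Y).prodCongr e2
  have m3 : MeasurePreserving e3 (μ.prod (Measure.pi fun _ => μ))
      (μ.prod (μ.prod (Measure.pi fun _ => μ))) := (MeasurePreserving.id μ).prod m2
  let e4 : Y × (Y × (Fin n → Y)) ≃ᵐ (Y × Y) × (Fin n → Y) := MeasurableEquiv.prodAssoc.symm
  have m4 : MeasurePreserving e4 (μ.prod (μ.prod (Measure.pi fun _ => μ)))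
      ((μ.prod μ).prod (Measure.pi fun _ => μ)) :=
    (measurePreserving_prodAssoc μ μ (Measure.pi fun _ => μ)).symm _
  refine ⟨(e1.trans e3).trans e4, ?_, ?_, ?_⟩
  · exact (m1.trans m3).trans m4
  · intro X
    rfl
  · intro a X
    rw [Fin.prod_univ_succAbove _ i, Fin.prod_univ_succAbove _ j', ← mul_assoc]
    rfl

theorem pairB {Y : Type*} [MeasurableSpace Y] (μ : Measure Y) [SigmaFinite μ] {N : ℕ}
    {i j : Fin N} (hij : i ≠ j) (W : Y × Y → ℂ) (a : Y → ℂ) :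
    ∫ X, W (X i, X j) * ∏ k, a (X k) ∂(Measure.pi fun _ : Fin N => μ) =
      (∫ p, W p * (a p.1 * a p.2) ∂(μ.prod μ)) * (∫ y, a y ∂μ) ^ (N - 2) := by
  obtain ⟨n, rfl⟩ : ∃ n, N = n + 2 := by
    have h1 := i.2
    have h2 := j.2
    have h3 : (i : ℕ) ≠ j := fun h => hij (Fin.ext h)
    exact ⟨N - 2, by omega⟩
  obtain ⟨E, hE, h1, h2⟩ := pair_equiv μ hij
  have h3 : ∀ X : Fin (n + 2) → Y, W (X i, X j) * ∏ k, a (X k) =
      (fun p : (Y × Y) × (Fin n → Y) => (W p.1 * (a p.1.1 * a p.1.2)) * ∏ k, a (p.2 k)) (E X) := by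
    intro X
    rw [h2 a X]
    simp only
    rw [h1 X]
    ring
  have h4 := hE.integral_comp' (fun p : (Y × Y) × (Fin n → Y) =>
    (W p.1 * (a p.1.1 * a p.1.2)) * ∏ k, a (p.2 k))
  rw [integral_congr_ae (ae_of_all _ h3), h4,
    integral_prod_mul (fun p : Y × Y => W p * (a p.1 * a p.2)) (fun q : Fin n → Y => ∏ k, a (q k)),
    integral_fintype_prod_eq_pow, Fintype.card_fin]
  rfl

theorem pairI {Y : Type*} [MeasurableSpace Y] (μ : Measure Y) [IsFiniteMeasure μ] {N : ℕ}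
    {i j : Fin N} (hij : i ≠ j) {W : Y × Y → ℝ} (hW : Integrable W (μ.prod μ)) :
    Integrable (fun X : Fin N → Y => W (X i, X j)) (Measure.pi fun _ : Fin N => μ) := by
  obtain ⟨n, rfl⟩ : ∃ n, N = n + 2 := by
    have h1 := i.2
    have h2 := j.2
    have h3 : (i : ℕ) ≠ j := fun h => hij (Fin.ext h)
    exact ⟨N - 2, by omega⟩
  obtain ⟨E, hE, h1, h2⟩ := pair_equiv μ hij
  have h3 : (fun X : Fin (n + 2) → Y => W (X i, X j)) =
      (fun p : (Y × Y) × (Fin n → Y) => W p.1) ∘ E := by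
    funext X
    simp only [Function.comp_apply]
    rw [h1 X]
  rw [h3]
  exact (hE.integrable_comp_emb E.measurableEmbedding).2 (hW.comp_fst _)

theorem finite_box (L : ℝ) : IsFiniteMeasure ((volume : Measure (Fin 3 → ℝ)).restrict (box L)) := by
  refine ⟨?_⟩
  rw [Measure.restrict_apply_univ]
  unfold box
  rw [volume_pi, Measure.pi_pi]
  refine ENNReal.prod_lt_top fun _ _ => ?_
  rw [Real.volume_Ico]
  exact ENNReal.ofReal_lt_top

/-- The pair weight is integrable. -/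
theorem pairW {L : ℝ} (hL : 0 < L) {w : (Fin 3 → ℝ) → ℝ} (hwm : Measurable w)
    (hw0 : ∀ y, 0 ≤ w y) (hwi : IntegrableOn w (box L))
    (hwp : ∀ y (n : Fin 3 → ℤ), w (y + lat L n) = w y) :
    Integrable (fun p : (Fin 3 → ℝ) × (Fin 3 → ℝ) => w (p.1 - p.2))
      (((volume : Measure (Fin 3 → ℝ)).restrict (box L)).prod
        ((volume : Measure (Fin 3 → ℝ)).restrict (box L))) := by
  have := finite_box L
  have hm : Measurable fun p : (Fin 3 → ℝ) × (Fin 3 → ℝ) => w (p.1 - p.2) :=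
    hwm.comp (measurable_fst.sub measurable_snd)
  refine ⟨hm.aestronglyMeasurable, ?_⟩
  rw [hasFiniteIntegral_iff_ofReal (ae_of_all _ fun p => hw0 _)]
  have hm2 : Measurable fun p : (Fin 3 → ℝ) × (Fin 3 → ℝ) => ENNReal.ofReal (w (p.1 - p.2)) :=
    ENNReal.measurable_ofReal.comp hm
  rw [lintegral_prod_symm _ hm2.aemeasurable]
  have h1 : ∀ z : Fin 3 → ℝ, ∫⁻ y in box L, ENNReal.ofReal (w (y - z)) =
      ∫⁻ y in box L, ENNReal.ofReal (w y) := by
    intro z
    have h2 := lintegral_box_shift hL (f := fun y => ENNReal.ofReal (w y))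
      (ENNReal.measurable_ofReal.comp hwm) (fun y n => by simp only [hwp]) (-z)
    simpa only [sub_eq_add_neg] using h2
  simp only [h1]
  rw [lintegral_const]
  refine ENNReal.mul_lt_top ?_ (measure_lt_top _ _)
  have h3 := hwi.2
  rw [hasFiniteIntegral_iff_ofReal (ae_of_all _ fun p => hw0 _)] at h3
  exact h3

theorem meas_prod {ι : Type*} [Fintype ι] {N : ℕ}
    {u : Fin N → (Fin 3 → ℝ) → (ι → ℝ) → ℂ}
    (hu : ∀ i, Continuous fun p : (Fin 3 → ℝ) × (ι → ℝ) => u i p.1 p.2) :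
    Measurable fun p : Conf N × (ι → ℝ) => ∏ i, u i (p.1 i) p.2 := by
  have h : Continuous fun p : Conf N × (ι → ℝ) => ∏ i, u i (p.1 i) p.2 := by
    refine continuous_finsetProd _ fun i _ => ?_
    have hc : Continuous fun p : Conf N × (ι → ℝ) => ((p.1 i, p.2) : (Fin 3 → ℝ) × (ι → ℝ)) :=
      ((continuous_apply i).comp continuous_fst).prodMk continuous_snd
    exact (hu i).comp hc
  exact h.measurable

theorem bd_prod {ι : Type*} [Fintype ι] {N : ℕ}
    {u : Fin N → (Fin 3 → ℝ) → (ι → ℝ) → ℂ} {C : ℝ}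
    (hub : ∀ i y x, ‖u i y x‖ ≤ C * (1 + ∑ n, |x n|)) (X : Conf N) (x : ι → ℝ) :
    ‖∏ i, u i (X i) x‖ ≤ C ^ N * (1 + ∑ n, |x n|) ^ N := by
  rw [norm_prod, ← mul_pow]
  calc ∏ i, ‖u i (X i) x‖ ≤ ∏ _i : Fin N, C * (1 + ∑ n, |x n|) :=
        Finset.prod_le_prod (fun i _ => norm_nonneg _) fun i _ => hub i _ _
    _ = (C * (1 + ∑ n, |x n|)) ^ N := by
        rw [Finset.prod_const, Finset.card_univ, Fintype.card_fin]

end FactorAux

open FactorAux PairReduceAux

theorem factor {L : ℝ} (hL : 0 < L) {ι : Type*} [Fintype ι] {N : ℕ}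
    {u : Fin N → (Fin 3 → ℝ) → (ι → ℝ) → ℂ}
    (hu : ∀ i, Continuous fun p : (Fin 3 → ℝ) × (ι → ℝ) => u i p.1 p.2) {C : ℝ}
    (hub : ∀ i y x, ‖u i y x‖ ≤ C * (1 + ∑ n, |x n|)) :
    IntegrableOn (fun X : Conf N => ‖∫ x, ∏ i, u i (X i) x ∂(gs ι)‖ ^ 2) (confBox N L) ∧
    ((∫ X in confBox N L, ‖∫ x, ∏ i, u i (X i) x ∂(gs ι)‖ ^ 2 : ℝ) : ℂ) =
      ∫ x, ∫ x', ∏ i, (∫ y in box L, u i y x * conj (u i y x')) ∂(gs ι) ∂(gs ι) := by
  have := finite_box L
  have hrest := restrict_confBox N L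
  have hG : Integrable (fun x : ι → ℝ => C ^ N * (1 + ∑ n, |x n|) ^ N) (gs ι) :=
    (integrable_poly N).const_mul _
  have hA := absA (ν := (volume : Measure (Conf N)).restrict (confBox N L)) (γ := gs ι)
    (om := fun _ => (1 : ℝ)) (Φ := fun X x => ∏ i, u i (X i) x)
    (by rw [hrest]; exact integrable_const _) (fun _ => zero_le_one) (meas_prod hu) hG
    (bd_prod hub)
  simp only [one_mul, Complex.ofReal_one] at hA
  refine ⟨hA.1, hA.2.trans ?_⟩
  refine integral_congr_ae (ae_of_all _ fun x => integral_congr_ae (ae_of_all _ fun x' => ?_))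
  simp only
  rw [hrest]
  have h1 : ∀ X : Conf N, (∏ i, u i (X i) x) * conj (∏ i, u i (X i) x') =
      ∏ i, (fun (i : Fin N) (y : Fin 3 → ℝ) => u i y x * conj (u i y x')) i (X i) := by
    intro X
    rw [map_prod, ← Finset.prod_mul_distrib]
  simp only [h1]
  exact integral_fintype_prod_eq_prod (fun (i : Fin N) (y : Fin 3 → ℝ) => u i y x * conj (u i y x'))

theorem factor_pair {L : ℝ} (hL : 0 < L) {ι : Type*} [Fintype ι] {N : ℕ}
    {u : (Fin 3 → ℝ) → (ι → ℝ) → ℂ}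
    (hu : Continuous fun p : (Fin 3 → ℝ) × (ι → ℝ) => u p.1 p.2) {C : ℝ}
    (hub : ∀ y x, ‖u y x‖ ≤ C * (1 + ∑ n, |x n|))
    {w : (Fin 3 → ℝ) → ℝ} (hwm : Measurable w) (hw0 : ∀ y, 0 ≤ w y)
    (hwi : IntegrableOn w (box L)) (hwp : ∀ y (n : Fin 3 → ℤ), w (y + lat L n) = w y)
    {i j : Fin N} (hij : i ≠ j) :
    IntegrableOn (fun X : Conf N => w (X i - X j) * ‖∫ x, ∏ i, u (X i) x ∂(gs ι)‖ ^ 2)
      (confBox N L) ∧
    ((∫ X in confBox N L, w (X i - X j) * ‖∫ x, ∏ i, u (X i) x ∂(gs ι)‖ ^ 2 : ℝ) : ℂ) =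
      ∫ x, ∫ x', (∫ y in box L, ∫ z in box L, (w (y - z) : ℂ) *
          (u y x * u z x * conj (u y x' * u z x'))) *
        (∫ y in box L, u y x * conj (u y x')) ^ (N - 2) ∂(gs ι) ∂(gs ι) := by
  have := finite_box L
  have hrest := restrict_confBox N L
  have hG : Integrable (fun x : ι → ℝ => C ^ N * (1 + ∑ n, |x n|) ^ N) (gs ι) :=
    (integrable_poly N).const_mul _
  have hW := pairW hL hwm hw0 hwi hwp
  have hωi : Integrable (fun X : Conf N => w (X i - X j))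
      ((volume : Measure (Conf N)).restrict (confBox N L)) := by
    rw [hrest]
    exact pairI _ hij hW
  have hA := absA (ν := (volume : Measure (Conf N)).restrict (confBox N L)) (γ := gs ι)
    (om := fun X => w (X i - X j)) (Φ := fun X x => ∏ i, u (X i) x)
    hωi (fun _ => hw0 _) (meas_prod (u := fun _ => u) fun _ => hu) hG
    (bd_prod (u := fun _ => u) fun _ => hub)
  refine ⟨hA.1, hA.2.trans ?_⟩
  refine integral_congr_ae (ae_of_all _ fun x => integral_congr_ae (ae_of_all _ fun x' => ?_))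
  simp only
  rw [hrest]
  have h1 : ∀ X : Conf N, ((w (X i - X j) : ℝ) : ℂ) *
      ((∏ i, u (X i) x) * conj (∏ i, u (X i) x')) =
      (fun p : (Fin 3 → ℝ) × (Fin 3 → ℝ) => ((w (p.1 - p.2) : ℝ) : ℂ)) (X i, X j) *
        ∏ k, (fun y : Fin 3 → ℝ => u y x * conj (u y x')) (X k) := by
    intro X
    rw [map_prod, ← Finset.prod_mul_distrib]
  simp only [h1]
  have hB := pairB ((volume : Measure (Fin 3 → ℝ)).restrict (box L)) hij
    (fun p : (Fin 3 → ℝ) × (Fin 3 → ℝ) => ((w (p.1 - p.2) : ℝ) : ℂ))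
    (fun y : Fin 3 → ℝ => u y x * conj (u y x'))
  simp only at hB ⊢
  rw [hB]
  congr 1
  have hint : Integrable (fun p : (Fin 3 → ℝ) × (Fin 3 → ℝ) => ((w (p.1 - p.2) : ℝ) : ℂ) *
      (u p.1 x * u p.2 x * conj (u p.1 x' * u p.2 x')))
      (((volume : Measure (Fin 3 → ℝ)).restrict (box L)).prod
        ((volume : Measure (Fin 3 → ℝ)).restrict (box L))) := by
    set K := (C * (1 + ∑ n, |x n|)) ^ 2 * (C * (1 + ∑ n, |x' n|)) ^ 2 with hK
    refine (hW.mul_const K).mono' ?_ (ae_of_all _ fun p => ?_)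
    · have hux : ∀ x : ι → ℝ, Continuous fun y : Fin 3 → ℝ => u y x := fun x =>
        hu.comp (continuous_id.prodMk continuous_const)
      have hc : Continuous fun p : (Fin 3 → ℝ) × (Fin 3 → ℝ) =>
          u p.1 x * u p.2 x * conj (u p.1 x' * u p.2 x') := by
        have h2 := (hux x).comp (continuous_fst (X := Fin 3 → ℝ) (Y := Fin 3 → ℝ))
        have h3 := (hux x).comp (continuous_snd (X := Fin 3 → ℝ) (Y := Fin 3 → ℝ))
        have h4 := (hux x').comp (continuous_fst (X := Fin 3 → ℝ) (Y := Fin 3 → ℝ))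
        have h5 := (hux x').comp (continuous_snd (X := Fin 3 → ℝ) (Y := Fin 3 → ℝ))
        exact (h2.mul h3).mul (Complex.continuous_conj.comp (h4.mul h5))
      have hm : Measurable fun p : (Fin 3 → ℝ) × (Fin 3 → ℝ) => ((w (p.1 - p.2) : ℝ) : ℂ) :=
        Complex.measurable_ofReal.comp (hwm.comp (measurable_fst.sub measurable_snd))
      exact (hm.mul hc.measurable).aestronglyMeasurable
    · rw [norm_mul, Complex.norm_real, Real.norm_of_nonneg (hw0 _), norm_mul, norm_mul,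
        RCLike.norm_conj, norm_mul]
      have b1 := hub p.1 x
      have b2 := hub p.2 x
      have b3 := hub p.1 x'
      have b4 := hub p.2 x'
      have b0 := hw0 (p.1 - p.2)
      have c1 : 0 ≤ C * (1 + ∑ n, |x n|) := (norm_nonneg _).trans b1
      have c2 : 0 ≤ C * (1 + ∑ n, |x' n|) := (norm_nonneg _).trans b3
      have d1 : ‖u p.1 x‖ * ‖u p.2 x‖ ≤ (C * (1 + ∑ n, |x n|)) ^ 2 := by
        rw [sq]
        exact mul_le_mul b1 b2 (norm_nonneg _) c1
      have d2 : ‖u p.1 x'‖ * ‖u p.2 x'‖ ≤ (C * (1 + ∑ n, |x' n|)) ^ 2 := by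
        rw [sq]
        exact mul_le_mul b3 b4 (norm_nonneg _) c2
      refine mul_le_mul_of_nonneg_left ?_ b0
      exact mul_le_mul d1 d2 (by positivity) (by positivity)
  rw [← integral_prod _ hint]
  refine integral_congr_ae (ae_of_all _ fun p => ?_)
  simp only [map_mul]
  ring

end Pool.Agent.P76w
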