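import Pool.Agent.Lib.P76w.Defs

/-!
# P76w.FldCalc (1 h): calculus of the random field

`fld L r I a x` is a finite sum of smooth functions of `y`; its derivative in the direction
`Pi.single b 1` is `dfld` (chain rule: `∂_b θ_n = (2π/L) n_b`, `(cos θ + sin θ)' = cos θ - sin θ`... careful:
`d/dθ (cos θ + sin θ) = cos θ - sin θ`).  Periodicity: `θ_n(y + L m) = θ_n(y) + 2π n·m`, `n·m ∈ ℤ`.
Bounds: `mm a < 1` so `|cc a| ≤ 1`; `|hart| ≤ 2/√(L³)`; the constant `C` collects everything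
(finite `I`).  Joint measurability/continuity in `(x, y)` for Fubini.
-/

open MeasureTheory Filter Topology
open scoped BigOperators ContDiff ComplexConjugate

namespace Pool.Agent.P76w

open Pool.Agent.P76s

theorem gm_nonneg' (a : ℝ) : 0 ≤ gm a := by
  unfold gm
  have : (1 / 2 : ℝ) ≤ √(1 / 4 + a ^ 2) := by
    apply Real.le_sqrt_of_sq_le
    nlinarith [sq_nonneg a]
  linarith

/-- `gm a ^ 2 + gm a = a ^ 2` -/
theorem gm_sq (a : ℝ) : gm a ^ 2 + gm a = a ^ 2 := by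
  have h := Real.sq_sqrt (show 0 ≤ 1 / 4 + a ^ 2 by positivity)
  unfold gm
  nlinarith

theorem mm_nonneg (a : ℝ) : 0 ≤ mm a := by
  unfold mm
  have := gm_nonneg' a
  positivity

theorem abs_sq_eq (a : ℝ) : |a| ^ 2 = gm a * (1 + gm a) := by
  rw [sq_abs]
  linarith [gm_sq a]

theorem mm_lt_one (a : ℝ) : mm a < 1 := by
  unfold mm
  have h0 := gm_nonneg' a
  rw [div_lt_one (by positivity)]
  have h1 := abs_sq_eq a
  have h2 := abs_nonneg a
  by_contra h
  push Not at h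
  nlinarith

theorem mm_one_sub (a : ℝ) : 1 - mm a ^ 2 = 1 / (1 + gm a) := by
  unfold mm
  have h0 := gm_nonneg' a
  rw [div_pow, abs_sq_eq]
  field_simp
  ring

/-- `1/(1-m²) = 1 + gm a` -/
theorem mm_one (a : ℝ) : 1 / (1 - mm a ^ 2) = 1 + gm a := by
  rw [mm_one_sub, one_div_one_div]

/-- `m/(1-m²) = |a|` -/
theorem mm_a (a : ℝ) : mm a / (1 - mm a ^ 2) = |a| := by
  have h0 := gm_nonneg' a
  rw [div_eq_mul_one_div, mm_one]
  unfold mm
  field_simp

/-- `m²/(1-m²) = gm a` -/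
theorem mm_g (a : ℝ) : mm a ^ 2 / (1 - mm a ^ 2) = gm a := by
  have h0 := gm_nonneg' a
  rw [div_eq_mul_one_div, mm_one]
  unfold mm
  rw [div_pow, abs_sq_eq]
  field_simp

/-- `c²/(1-m²) = -a` -/
theorem cc_sq (a : ℝ) : cc a ^ 2 * ((1 / (1 - mm a ^ 2) : ℝ) : ℂ) = ((-a : ℝ) : ℂ) := by
  have h0 := gm_nonneg' a
  rw [mm_one]
  unfold cc
  have h1 : ((√(|a| / (1 + gm a)) : ℝ) : ℂ) ^ 2 = ((|a| / (1 + gm a) : ℝ) : ℂ) := by
    rw [← Complex.ofReal_pow, Real.sq_sqrt (by positivity)]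
  rw [mul_pow, h1]
  have h2 : ((|a| / (1 + gm a) : ℝ) : ℂ) * ((1 + gm a : ℝ) : ℂ) = ((|a| : ℝ) : ℂ) := by
    rw [← Complex.ofReal_mul]
    congr 1
    field_simp
  rw [mul_assoc, h2]
  split_ifs with h
  · rw [abs_of_nonneg h]
    simp
  · rw [abs_of_neg (not_le.1 h)]
    simp

theorem norm_cc_le (a : ℝ) : ‖cc a‖ ≤ 1 := by
  have h0 := gm_nonneg' a
  unfold cc
  rw [norm_mul]
  have h1 : ‖(if 0 ≤ a then Complex.I else 1 : ℂ)‖ = 1 := by
    split_ifs <;> simp
  rw [h1, one_mul, Complex.norm_real, Real.norm_of_nonneg (Real.sqrt_nonneg _)]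
  have h2 := mm_lt_one a
  unfold mm at h2
  calc √(|a| / (1 + gm a)) ≤ √1 := Real.sqrt_le_sqrt h2.le
    _ = 1 := Real.sqrt_one

theorem hart_contDiff (L : ℝ) (n : Fin 3 → ℤ) : ContDiff ℝ ∞ (hart L n) := by
  unfold hart
  fun_prop

theorem fld_contDiff (L r : ℝ) (I : Finset (Fin 3 → ℤ)) (a : (Fin 3 → ℤ) → ℝ) (x : I → ℝ) :
    ContDiff ℝ ∞ (fld L r I a x) := by
  unfold fld
  refine contDiff_const.add (ContDiff.sum fun n _ => contDiff_const.mul ?_)
  exact Complex.ofRealCLM.contDiff.comp (hart_contDiff L n)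

theorem hart_hasFDeriv (L : ℝ) (n : Fin 3 → ℤ) (y : Fin 3 → ℝ) (b : Fin 3) :
    fderiv ℝ (hart L n) y (Pi.single b 1) = 2 * Real.pi / L * n b *
    ((Real.cos (2 * Real.pi / L * ∑ b, (n b : ℝ) * y b) -
      Real.sin (2 * Real.pi / L * ∑ b, (n b : ℝ) * y b)) / √(L ^ 3)) := by
  have h1 : DifferentiableAt ℝ (hart L n) y := (hart_contDiff L n).differentiable (by simp) y
  rw [← h1.lineDeriv_eq_fderiv]
  have h2 : HasLineDerivAt ℝ (hart L n) (2 * Real.pi / L * n b *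
    ((Real.cos (2 * Real.pi / L * ∑ b, (n b : ℝ) * y b) -
      Real.sin (2 * Real.pi / L * ∑ b, (n b : ℝ) * y b)) / √(L ^ 3))) y (Pi.single b 1) := by
    unfold HasLineDerivAt
    have h3 : ∀ t : ℝ, ∑ c, (n c : ℝ) * (y + t • (Pi.single b 1 : Fin 3 → ℝ)) c =
        (∑ c, (n c : ℝ) * y c) + t * n b := by
      intro t
      simp only [Pi.add_apply, Pi.smul_apply, smul_eq_mul, mul_add, Finset.sum_add_distrib]
      congr 1
      rw [Finset.sum_eq_single b]
      · simp; ring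
      · intro c _ hc
        simp [Pi.single_eq_of_ne hc]
      · simp
    simp only [hart, h3]
    set s := ∑ c, (n c : ℝ) * y c
    have h4 : HasDerivAt (fun t : ℝ => 2 * Real.pi / L * (s + t * n b)) (2 * Real.pi / L * n b) 0 := by
      have : HasDerivAt (fun t : ℝ => s + t * n b) (1 * (n b : ℝ)) 0 :=
        ((hasDerivAt_id (0 : ℝ)).mul_const _).const_add s
      simpa using this.const_mul (2 * Real.pi / L)
    have h5 := (h4.cos.add h4.sin).div_const (√(L ^ 3))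
    refine h5.congr_deriv ?_
    simp only [zero_mul, add_zero]
    ring
  exact h2.lineDeriv

theorem fld_fderiv (L r : ℝ) (I : Finset (Fin 3 → ℤ)) (a : (Fin 3 → ℤ) → ℝ) (x : I → ℝ)
    (y : Fin 3 → ℝ) (b : Fin 3) :
    fderiv ℝ (fld L r I a x) y (Pi.single b 1) = dfld L I a x b y := by
  unfold fld dfld
  have hd : ∀ n : I, DifferentiableAt ℝ (fun y => cc (a n) * (x n : ℂ) * (hart L n y : ℂ)) y := by
    intro n
    have : ContDiff ℝ ∞ (fun y => cc (a n) * (x n : ℂ) * (hart L n y : ℂ)) :=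
      contDiff_const.mul (Complex.ofRealCLM.contDiff.comp (hart_contDiff L n))
    exact this.differentiable (by simp) y
  rw [fderiv_const_add, fderiv_fun_sum (fun n _ => hd n), sum_apply]
  refine Finset.sum_congr rfl fun n _ => ?_
  have h1 : DifferentiableAt ℝ (hart L n) y := (hart_contDiff L n).differentiable (by simp) y
  have h2 : HasFDerivAt (fun y => (hart L n y : ℂ)) (Complex.ofRealCLM.comp (fderiv ℝ (hart L n) y)) y :=
    Complex.ofRealCLM.hasFDerivAt.comp y h1.hasFDerivAt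
  rw [(h2.const_mul (cc (a n) * (x n : ℂ))).fderiv]
  simp only [smul_apply, ContinuousLinearMap.comp_apply, smul_eq_mul,
    Complex.ofRealCLM_apply, hart_hasFDeriv]

theorem phase_shift {L : ℝ} (hL : 0 < L) (n m : Fin 3 → ℤ) (y : Fin 3 → ℝ) :
    2 * Real.pi / L * ∑ b, (n b : ℝ) * (y + lat L m) b =
      2 * Real.pi / L * (∑ b, (n b : ℝ) * y b) + ((∑ b, n b * m b : ℤ) : ℝ) * (2 * Real.pi) := by
  simp only [Pi.add_apply, lat, mul_add, Finset.sum_add_distrib]
  push_cast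
  congr 1
  rw [Finset.mul_sum, Finset.sum_mul]
  refine Finset.sum_congr rfl fun b _ => ?_
  field_simp

theorem hart_periodic {L : ℝ} (hL : 0 < L) (n m : Fin 3 → ℤ) (y : Fin 3 → ℝ) :
    hart L n (y + lat L m) = hart L n y := by
  unfold hart
  rw [phase_shift hL, Real.cos_add_int_mul_two_pi, Real.sin_add_int_mul_two_pi]

theorem fld_periodic {L : ℝ} (hL : 0 < L) (r : ℝ) (I : Finset (Fin 3 → ℤ))
    (a : (Fin 3 → ℤ) → ℝ) (x : I → ℝ) (y : Fin 3 → ℝ) (n : Fin 3 → ℤ) :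
    fld L r I a x (y + lat L n) = fld L r I a x y := by
  unfold fld
  simp only [hart_periodic hL]

theorem abs_hart_le (L : ℝ) (n : Fin 3 → ℤ) (y : Fin 3 → ℝ) : |hart L n y| ≤ 2 / √(L ^ 3) := by
  unfold hart
  rw [abs_div, abs_of_nonneg (Real.sqrt_nonneg _)]
  gcongr
  have h1 := Real.abs_cos_le_one (2 * Real.pi / L * ∑ b, (n b : ℝ) * y b)
  have h2 := Real.abs_sin_le_one (2 * Real.pi / L * ∑ b, (n b : ℝ) * y b)
  exact (abs_add_le _ _).trans (by linarith)

theorem fld_bound (L r : ℝ) (I : Finset (Fin 3 → ℤ)) (a : (Fin 3 → ℤ) → ℝ) :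
    ∃ C > 0, ∀ (x : I → ℝ) (y : Fin 3 → ℝ), ‖fld L r I a x y‖ ≤ C * (1 + ∑ n, |x n|) ∧
      ∀ b, ‖dfld L I a x b y‖ ≤ C * (1 + ∑ n, |x n|) := by
  set C1 := ∑ n : I, ∑ b, |2 * Real.pi / L * (n : Fin 3 → ℤ) b| with hC1
  have hC1' : ∀ (n : I) (b : Fin 3), |2 * Real.pi / L * (n : Fin 3 → ℤ) b| ≤ C1 := by
    intro n b
    calc |2 * Real.pi / L * (n : Fin 3 → ℤ) b| ≤ ∑ b, |2 * Real.pi / L * (n : Fin 3 → ℤ) b| :=
          Finset.single_le_sum (f := fun b => |2 * Real.pi / L * (n : Fin 3 → ℤ) b|)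
            (fun _ _ => abs_nonneg _) (Finset.mem_univ b)
      _ ≤ C1 := Finset.single_le_sum (f := fun n : I => ∑ b, |2 * Real.pi / L * (n : Fin 3 → ℤ) b|)
            (fun _ _ => Finset.sum_nonneg fun _ _ => abs_nonneg _) (Finset.mem_univ n)
  have hC10 : 0 ≤ C1 := Finset.sum_nonneg fun _ _ => Finset.sum_nonneg fun _ _ => abs_nonneg _
  set D := 2 / √(L ^ 3) with hD
  have hD0 : 0 ≤ D := by positivity
  refine ⟨1 + √r + D + C1 * D, by positivity, fun x y => ⟨?_, fun b => ?_⟩⟩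
  · have hs : 0 ≤ ∑ n, |x n| := Finset.sum_nonneg fun _ _ => abs_nonneg _
    unfold fld
    calc ‖((√r : ℝ) : ℂ) + ∑ n : I, cc (a n) * (x n : ℂ) * (hart L n y : ℂ)‖
        ≤ ‖((√r : ℝ) : ℂ)‖ + ∑ n : I, ‖cc (a n) * (x n : ℂ) * (hart L n y : ℂ)‖ :=
          (norm_add_le _ _).trans (by gcongr; exact norm_sum_le _ _)
      _ ≤ √r + ∑ n : I, |x n| * D := by
          gcongr with n
          · rw [Complex.norm_real, Real.norm_of_nonneg (Real.sqrt_nonneg _)]
          · rw [norm_mul, norm_mul, Complex.norm_real, Complex.norm_real, Real.norm_eq_abs,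
              Real.norm_eq_abs]
            calc ‖cc (a n)‖ * |x n| * |hart L n y| ≤ 1 * |x n| * D := by
                  gcongr
                  · exact norm_cc_le _
                  · exact abs_hart_le _ _ _
              _ = |x n| * D := by ring
      _ = √r + D * ∑ n, |x n| := by rw [← Finset.sum_mul]; ring
      _ ≤ (1 + √r + D + C1 * D) * (1 + ∑ n, |x n|) := by
          have h1 : 0 ≤ √r := Real.sqrt_nonneg _
          have h2 : 0 ≤ C1 * D := by positivity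
          nlinarith [mul_nonneg h1 hs, mul_nonneg h2 hs, mul_nonneg hD0 hs]
  · have hs : 0 ≤ ∑ n, |x n| := Finset.sum_nonneg fun _ _ => abs_nonneg _
    unfold dfld
    refine (norm_sum_le _ _).trans ?_
    calc _ ≤ ∑ n : I, |x n| * (C1 * D) := by
          gcongr with n
          rw [norm_mul, norm_mul, Complex.norm_real, Complex.norm_real, Real.norm_eq_abs,
              Real.norm_eq_abs, abs_mul]
          have h3 : |(Real.cos (2 * Real.pi / L * ∑ b, ((n : Fin 3 → ℤ) b : ℝ) * y b) -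
              Real.sin (2 * Real.pi / L * ∑ b, ((n : Fin 3 → ℤ) b : ℝ) * y b)) / √(L ^ 3)| ≤ D := by
            rw [abs_div, abs_of_nonneg (Real.sqrt_nonneg _), hD]
            gcongr
            have h1 := Real.abs_cos_le_one (2 * Real.pi / L * ∑ b, ((n : Fin 3 → ℤ) b : ℝ) * y b)
            have h2 := Real.abs_sin_le_one (2 * Real.pi / L * ∑ b, ((n : Fin 3 → ℤ) b : ℝ) * y b)
            exact (abs_sub _ _).trans (by linarith)
          have h4 : ‖cc (a n)‖ * |x n| * (|2 * Real.pi / L * (n : Fin 3 → ℤ) b| *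
              |(Real.cos (2 * Real.pi / L * ∑ b, ((n : Fin 3 → ℤ) b : ℝ) * y b) -
              Real.sin (2 * Real.pi / L * ∑ b, ((n : Fin 3 → ℤ) b : ℝ) * y b)) / √(L ^ 3)|) ≤
              1 * |x n| * (C1 * D) := by
            gcongr
            · exact norm_cc_le _
            · exact hC1' n b
          exact h4.trans (le_of_eq (by ring))
      _ = (C1 * D) * ∑ n, |x n| := by rw [← Finset.sum_mul]; ring
      _ ≤ (1 + √r + D + C1 * D) * (1 + ∑ n, |x n|) := by
          have h1 : 0 ≤ √r := Real.sqrt_nonneg _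
          have h2 : 0 ≤ C1 * D := by positivity
          nlinarith [mul_nonneg h1 hs, mul_nonneg h2 hs, mul_nonneg hD0 hs]

theorem fld_continuous (L r : ℝ) (I : Finset (Fin 3 → ℤ)) (a : (Fin 3 → ℤ) → ℝ) :
    Continuous fun p : (I → ℝ) × (Fin 3 → ℝ) => fld L r I a p.1 p.2 := by
  unfold fld
  have h : ∀ n : I, Continuous fun p : (I → ℝ) × (Fin 3 → ℝ) => (hart L n p.2 : ℂ) := fun n =>
    Complex.continuous_ofReal.comp ((hart_contDiff L n).continuous.comp continuous_snd)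
  fun_prop

theorem dfld_continuous (L : ℝ) (I : Finset (Fin 3 → ℤ)) (a : (Fin 3 → ℤ) → ℝ) (b : Fin 3) :
    Continuous fun p : (I → ℝ) × (Fin 3 → ℝ) => dfld L I a p.1 b p.2 := by
  unfold dfld
  fun_prop

end Pool.Agent.P76w
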