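import Pool.Agent.Lib.P76w.TiltW
import Pool.Agent.Lib.P76w.Hartley
import Pool.Agent.Lib.P76w.FldCalc
import Pool.Agent.Lib.P76s.Tile
import Pool.Agent.Lib.P76s.NegMode

/-!
# P76w.IJCalc (2.5 h): the expectations in the tilted Gaussian measure
(black boxes: TiltW, Hartley, FldCalc)

`m n = mm (a n)`, `exp = Real.exp (∑ m_n x_n x'_n)`, `Z₀ = ZZ I a = ∏ (1-m²)^{-1/2}`; `gm (a n) = m²/(1-m²)`,
`|a n| = m/(1-m²)` (FldCalc).
* `tw_JJ`, `tw_JJ2`: `x_n x'_n = lin (single n) 0 · lin 0 (single n)`; `tw2`: `E x_n x'_n = m/(1-m²) = |a_n|`,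
  `∑ m_n |a_n| = ∑ gm`; `tw4`: `E x_n x'_n x_k x'_k = |a_n||a_k| + δ_nk((1+gm)² + ... )`: pairings
  `(x_n x'_n)(x_k x'_k)`, `(x_n x_k)(x'_n x'_k) = δ (1/(1-m²))²`, `(x_n x'_k)(x'_n x_k) = δ a²`; and
  `m²((1+gm)² + a²) = a² + gm²` (as `m(1+gm) = |a|`, `m|a| = gm`).  So `E JJ² = nbar² + ∑ (a² + gm²)`.
* `tw_KJ`: `∑ nsq m |a| = ∑ nsq gm`.
* `tw_IJ`: Fubini (`IJ` is an integral over the box²; integrable because of polynomial growth and
  `∬ w(y-z) < ∞`), and for fixed `y, z`: `fld x y = √r + lin c(y) 0`, `conj (fld x' z) = √r + lin 0 (conj c(z))`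
  with `c(y)_n = cc(a n) hart n y`; expand the product of four; `tw0..tw4`; covariances:
  `cov(c(y),0;c(z),0) = ∑ cc² hart hart/(1-m²) = -∑ a_n hart n y hart n z = alL (y-z)` (`cc_sq`, `hart_sum`),
  the same for the conjugates (real), and `cov(c(y),0;0,conj c(z)) = ∑ m·m/(1-m²) hart hart = gaL (y-z)`
  (`|cc|² = m`).  So the expectation is `Z₀ QQ(y-z)` (`alL`, `gaL` even in `z`, `gaL 0` for the pairs at
  the same point).  Finally `∬_{box²} w(y-z) QQ(y-z) = L³ ∫_box w QQ` (periodicity of `w` and `QQ`).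
* `IJ_bound`, `IJ_meas`: polynomial growth and measurability of `IJ`.
-/

open MeasureTheory Filter Topology ProbabilityTheory
open scoped BigOperators ContDiff ComplexConjugate ENNReal

namespace Pool.Agent.P76w

open Pool.Agent.P76s

namespace IJAux

section pg

variable {ι : Type*} [Fintype ι]

/-- measurable with polynomial growth -/
def PG (P : (ι → ℝ) × (ι → ℝ) → ℂ) : Prop :=
  Measurable P ∧ ∃ C : ℝ, 0 ≤ C ∧ ∃ k : ℕ, ∀ p, ‖P p‖ ≤ C * (1 + ∑ n, |p.1 n| + ∑ n, |p.2 n|) ^ k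

lemma one_le_S (p : (ι → ℝ) × (ι → ℝ)) : 1 ≤ 1 + ∑ n, |p.1 n| + ∑ n, |p.2 n| := by
  have h1 : 0 ≤ ∑ n, |p.1 n| := Finset.sum_nonneg fun _ _ => abs_nonneg _
  have h2 : 0 ≤ ∑ n, |p.2 n| := Finset.sum_nonneg fun _ _ => abs_nonneg _
  linarith

lemma PG.const (c : ℂ) : PG (fun _ : (ι → ℝ) × (ι → ℝ) => c) :=
  ⟨measurable_const, ‖c‖, norm_nonneg _, 0, fun p => by simp⟩

lemma PG.mul {P Q : (ι → ℝ) × (ι → ℝ) → ℂ} (hP : PG P) (hQ : PG Q) : PG (fun p => P p * Q p) := by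
  obtain ⟨hPm, C, hC, k, hk⟩ := hP
  obtain ⟨hQm, D, hD, l, hl⟩ := hQ
  refine ⟨hPm.mul hQm, C * D, mul_nonneg hC hD, k + l, fun p => ?_⟩
  rw [norm_mul, pow_add]
  calc ‖P p‖ * ‖Q p‖ ≤ _ := mul_le_mul (hk p) (hl p) (norm_nonneg _)
        (mul_nonneg hC (pow_nonneg (by linarith [one_le_S p]) _))
    _ = _ := by ring

lemma PG.add {P Q : (ι → ℝ) × (ι → ℝ) → ℂ} (hP : PG P) (hQ : PG Q) : PG (fun p => P p + Q p) := by
  obtain ⟨hPm, C, hC, k, hk⟩ := hP
  obtain ⟨hQm, D, hD, l, hl⟩ := hQ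
  refine ⟨hPm.add hQm, C + D, add_nonneg hC hD, k + l, fun p => ?_⟩
  have h1 : (1 + ∑ n, |p.1 n| + ∑ n, |p.2 n|) ^ k ≤ (1 + ∑ n, |p.1 n| + ∑ n, |p.2 n|) ^ (k + l) :=
    pow_le_pow_right₀ (one_le_S p) (by omega)
  have h2 : (1 + ∑ n, |p.1 n| + ∑ n, |p.2 n|) ^ l ≤ (1 + ∑ n, |p.1 n| + ∑ n, |p.2 n|) ^ (k + l) :=
    pow_le_pow_right₀ (one_le_S p) (by omega)
  calc ‖P p + Q p‖ ≤ ‖P p‖ + ‖Q p‖ := norm_add_le _ _
    _ ≤ C * _ + D * _ := add_le_add ((hk p).trans (mul_le_mul_of_nonneg_left h1 hC))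
        ((hl p).trans (mul_le_mul_of_nonneg_left h2 hD))
    _ = _ := by ring

lemma measurable_lin (a b : ι → ℂ) : Measurable (fun p : (ι → ℝ) × (ι → ℝ) => lin a b p.1 p.2) := by
  unfold lin
  fun_prop

lemma PG.lin (a b : ι → ℂ) : PG (fun p : (ι → ℝ) × (ι → ℝ) => lin a b p.1 p.2) := by
  obtain ⟨C, hC, h⟩ := lin_bound a b
  exact ⟨measurable_lin a b, C, hC.le, 1, fun p => by simpa using h p.1 p.2⟩

lemma PG.sum {κ : Type*} (s : Finset κ) {P : κ → (ι → ℝ) × (ι → ℝ) → ℂ} (hP : ∀ i ∈ s, PG (P i)) :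
    PG (fun p => ∑ i ∈ s, P i p) := by
  classical
  induction s using Finset.induction_on with
  | empty => simpa using PG.const (ι := ι) 0
  | insert i s hi ih =>
    simp only [Finset.sum_insert hi]
    exact PG.add (hP i (Finset.mem_insert_self i s))
      (ih fun j hj => hP j (Finset.mem_insert_of_mem hj))

/-- the exponential weight -/
noncomputable def wE (m : ι → ℝ) (p : (ι → ℝ) × (ι → ℝ)) : ℂ :=
  (Real.exp (∑ n, m n * p.1 n * p.2 n) : ℂ)

lemma measurable_wE (m : ι → ℝ) : Measurable (wE m) := by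
  unfold wE
  fun_prop

lemma norm_wE_le (m : ι → ℝ) (p : (ι → ℝ) × (ι → ℝ)) :
    ‖wE m p‖ ≤ Real.exp (∑ n, |m n * p.1 n * p.2 n|) := by
  unfold wE
  rw [Complex.norm_real, Real.norm_eq_abs, abs_of_pos (Real.exp_pos _)]
  exact Real.exp_le_exp.2 (Finset.sum_le_sum fun n _ => le_abs_self _)

variable {m : ι → ℝ}

lemma PG.integrable (hm : ∀ n, |m n| < 1) {P : (ι → ℝ) × (ι → ℝ) → ℂ} (hP : PG P) :
    Integrable (fun p => P p * wE m p) ((gs ι).prod (gs ι)) := by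
  obtain ⟨hPm, C, hC, k, hk⟩ := hP
  refine Integrable.mono' ((integrable_poly_exp hm k).const_mul C)
    ((hPm.mul (measurable_wE m)).aestronglyMeasurable) (ae_of_all _ fun p => ?_)
  rw [norm_mul, ← mul_assoc]
  exact mul_le_mul (hk p) (norm_wE_le m p) (norm_nonneg _)
    (mul_nonneg hC (pow_nonneg (by linarith [one_le_S p]) _))

/-- the tilted integral -/
noncomputable def TT (m : ι → ℝ) (P : (ι → ℝ) × (ι → ℝ) → ℂ) : ℂ :=
  ∫ p, P p * wE m p ∂((gs ι).prod (gs ι))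

lemma TT_eq (hm : ∀ n, |m n| < 1) {P : (ι → ℝ) × (ι → ℝ) → ℂ} (hP : PG P) :
    TT m P = ∫ x, ∫ y, P (x, y) * (Real.exp (∑ n, m n * x n * y n) : ℂ) ∂(gs ι) ∂(gs ι) := by
  unfold TT
  rw [integral_prod _ (hP.integrable hm)]
  rfl

lemma TT_add (hm : ∀ n, |m n| < 1) {P Q : (ι → ℝ) × (ι → ℝ) → ℂ} (hP : PG P) (hQ : PG Q) :
    TT m (fun p => P p + Q p) = TT m P + TT m Q := by
  unfold TT
  rw [← integral_add (hP.integrable hm) (hQ.integrable hm)]
  refine integral_congr_ae (ae_of_all _ fun p => ?_)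
  simp only [add_mul]

lemma TT_const_mul (c : ℂ) (P : (ι → ℝ) × (ι → ℝ) → ℂ) :
    TT m (fun p => c * P p) = c * TT m P := by
  unfold TT
  rw [← integral_const_mul]
  refine integral_congr_ae (ae_of_all _ fun p => ?_)
  simp only [mul_assoc]

lemma TT_sum (hm : ∀ n, |m n| < 1) {κ : Type*} (s : Finset κ) {P : κ → (ι → ℝ) × (ι → ℝ) → ℂ}
    (hP : ∀ i ∈ s, PG (P i)) :
    TT m (fun p => ∑ i ∈ s, P i p) = ∑ i ∈ s, TT m (P i) := by
  unfold TT
  rw [← integral_finsetSum _ fun i hi => (hP i hi).integrable hm]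
  refine integral_congr_ae (ae_of_all _ fun p => ?_)
  simp only [Finset.sum_mul]

lemma TT_const (hm : ∀ n, |m n| < 1) (c : ℂ) :
    TT m (fun _ => c) = c * ((∏ n, (√(1 - m n ^ 2))⁻¹ : ℝ) : ℂ) := by
  have h := TT_const_mul (m := m) c (fun _ => 1)
  simp only [mul_one] at h
  rw [h, TT_eq hm (PG.const 1)]
  simp only [one_mul]
  rw [tw0 hm]

lemma TT_lin (hm : ∀ n, |m n| < 1) (a b : ι → ℂ) :
    TT m (fun p => lin a b p.1 p.2) = 0 := by
  rw [TT_eq hm (PG.lin a b)]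
  exact tw1 hm a b

lemma TT_lin2 (hm : ∀ n, |m n| < 1) (a b a' b' : ι → ℂ) :
    TT m (fun p => lin a b p.1 p.2 * lin a' b' p.1 p.2) =
      ((∏ n, (√(1 - m n ^ 2))⁻¹ : ℝ) : ℂ) * cov m a b a' b' := by
  rw [TT_eq hm ((PG.lin a b).mul (PG.lin a' b'))]
  exact tw2 hm a b a' b'

lemma TT_lin3 (hm : ∀ n, |m n| < 1) (a b a' b' a'' b'' : ι → ℂ) :
    TT m (fun p => lin a b p.1 p.2 * lin a' b' p.1 p.2 * lin a'' b'' p.1 p.2) = 0 := by
  rw [TT_eq hm (((PG.lin a b).mul (PG.lin a' b')).mul (PG.lin a'' b''))]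
  exact tw3 hm a b a' b' a'' b''

lemma TT_lin4 (hm : ∀ n, |m n| < 1) (a b a' b' a'' b'' c d : ι → ℂ) :
    TT m (fun p => lin a b p.1 p.2 * lin a' b' p.1 p.2 * lin a'' b'' p.1 p.2 * lin c d p.1 p.2) =
      ((∏ n, (√(1 - m n ^ 2))⁻¹ : ℝ) : ℂ) *
        (cov m a b a' b' * cov m a'' b'' c d + cov m a b a'' b'' * cov m a' b' c d +
          cov m a b c d * cov m a' b' a'' b'') := by
  rw [TT_eq hm ((((PG.lin a b).mul (PG.lin a' b')).mul (PG.lin a'' b'')).mul (PG.lin c d))]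
  exact tw4 hm a b a' b' a'' b'' c d

/-- four affine forms -/
lemma TT_aff4 (hm : ∀ n, |m n| < 1) (s : ℂ) (a b a' b' a'' b'' c d : ι → ℂ) :
    TT m (fun p => (s + lin a b p.1 p.2) * (s + lin a' b' p.1 p.2) *
      ((s + lin a'' b'' p.1 p.2) * (s + lin c d p.1 p.2))) =
      ((∏ n, (√(1 - m n ^ 2))⁻¹ : ℝ) : ℂ) * (s ^ 4 + s ^ 2 *
        (cov m a b a' b' + cov m a b a'' b'' + cov m a b c d + cov m a' b' a'' b'' +
          cov m a' b' c d + cov m a'' b'' c d) +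
        (cov m a b a' b' * cov m a'' b'' c d + cov m a b a'' b'' * cov m a' b' c d +
          cov m a b c d * cov m a' b' a'' b'')) := by
  have e : (fun p : (ι → ℝ) × (ι → ℝ) => (s + lin a b p.1 p.2) * (s + lin a' b' p.1 p.2) *
      ((s + lin a'' b'' p.1 p.2) * (s + lin c d p.1 p.2))) =
      fun p => s ^ 4 + (s ^ 3 * lin a b p.1 p.2 + (s ^ 3 * lin a' b' p.1 p.2 +
        (s ^ 3 * lin a'' b'' p.1 p.2 + (s ^ 3 * lin c d p.1 p.2 +
        (s ^ 2 * (lin a b p.1 p.2 * lin a' b' p.1 p.2) +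
        (s ^ 2 * (lin a b p.1 p.2 * lin a'' b'' p.1 p.2) +
        (s ^ 2 * (lin a b p.1 p.2 * lin c d p.1 p.2) +
        (s ^ 2 * (lin a' b' p.1 p.2 * lin a'' b'' p.1 p.2) +
        (s ^ 2 * (lin a' b' p.1 p.2 * lin c d p.1 p.2) +
        (s ^ 2 * (lin a'' b'' p.1 p.2 * lin c d p.1 p.2) +
        (s * (lin a b p.1 p.2 * lin a' b' p.1 p.2 * lin a'' b'' p.1 p.2) +
        (s * (lin a b p.1 p.2 * lin a' b' p.1 p.2 * lin c d p.1 p.2) +
        (s * (lin a b p.1 p.2 * lin a'' b'' p.1 p.2 * lin c d p.1 p.2) +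
        (s * (lin a' b' p.1 p.2 * lin a'' b'' p.1 p.2 * lin c d p.1 p.2) +
        lin a b p.1 p.2 * lin a' b' p.1 p.2 * lin a'' b'' p.1 p.2 * lin c d p.1 p.2)))))))))))))) := by
    funext p
    ring
  rw [e]
  have L1 := PG.lin a b
  have L2 := PG.lin a' b'
  have L3 := PG.lin a'' b''
  have L4 := PG.lin c d
  have K : ∀ c : ℂ, PG (fun _ : (ι → ℝ) × (ι → ℝ) => c) := fun c => PG.const c
  have G := (L1.mul L2).mul L3 |>.mul L4
  have G1 := ((K s).mul ((L2.mul L3).mul L4)).add G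
  have G2 := ((K s).mul ((L1.mul L3).mul L4)).add G1
  have G3 := ((K s).mul ((L1.mul L2).mul L4)).add G2
  have G4 := ((K s).mul ((L1.mul L2).mul L3)).add G3
  have G5 := ((K (s ^ 2)).mul (L3.mul L4)).add G4
  have G6 := ((K (s ^ 2)).mul (L2.mul L4)).add G5
  have G7 := ((K (s ^ 2)).mul (L2.mul L3)).add G6
  have G8 := ((K (s ^ 2)).mul (L1.mul L4)).add G7
  have G9 := ((K (s ^ 2)).mul (L1.mul L3)).add G8
  have G10 := ((K (s ^ 2)).mul (L1.mul L2)).add G9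
  have G11 := ((K (s ^ 3)).mul L4).add G10
  have G12 := ((K (s ^ 3)).mul L3).add G11
  have G13 := ((K (s ^ 3)).mul L2).add G12
  have G14 := ((K (s ^ 3)).mul L1).add G13
  rw [TT_add hm (K (s ^ 4)) G14, TT_add hm ((K (s ^ 3)).mul L1) G13,
    TT_add hm ((K (s ^ 3)).mul L2) G12, TT_add hm ((K (s ^ 3)).mul L3) G11,
    TT_add hm ((K (s ^ 3)).mul L4) G10, TT_add hm ((K (s ^ 2)).mul (L1.mul L2)) G9,
    TT_add hm ((K (s ^ 2)).mul (L1.mul L3)) G8, TT_add hm ((K (s ^ 2)).mul (L1.mul L4)) G7,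
    TT_add hm ((K (s ^ 2)).mul (L2.mul L3)) G6, TT_add hm ((K (s ^ 2)).mul (L2.mul L4)) G5,
    TT_add hm ((K (s ^ 2)).mul (L3.mul L4)) G4, TT_add hm ((K s).mul ((L1.mul L2).mul L3)) G3,
    TT_add hm ((K s).mul ((L1.mul L2).mul L4)) G2, TT_add hm ((K s).mul ((L1.mul L3).mul L4)) G1,
    TT_add hm ((K s).mul ((L2.mul L3).mul L4)) G]
  simp only [TT_const_mul, TT_const hm, TT_lin hm, TT_lin2 hm, TT_lin3 hm, TT_lin4 hm]
  ring

end pg


section modes

variable {ι : Type*} [Fintype ι] [DecidableEq ι] {m : ι → ℝ}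

lemma lin_single_x (n : ι) (x y : ι → ℝ) : lin (Pi.single n 1) 0 x y = (x n : ℂ) := by
  unfold lin
  simp [Pi.single_apply]

lemma lin_single_y (n : ι) (x y : ι → ℝ) : lin 0 (Pi.single n 1) x y = (y n : ℂ) := by
  unfold lin
  simp [Pi.single_apply]

lemma cov_xy (n k : ι) : cov m (Pi.single n 1) 0 0 (Pi.single k 1) =
    if n = k then ((m n * (1 / (1 - m n ^ 2)) : ℝ) : ℂ) else 0 := by
  unfold cov
  rw [Finset.sum_eq_single n]
  · by_cases h : n = k
    · subst h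
      simp
    · simp [h]
  · intro j _ hj
    have h' : (Pi.single n (1 : ℂ) : ι → ℂ) j = 0 := Pi.single_eq_of_ne hj _
    simp [h']
  · simp

lemma cov_yx (n k : ι) : cov m 0 (Pi.single n 1) (Pi.single k 1) 0 =
    if n = k then ((m n * (1 / (1 - m n ^ 2)) : ℝ) : ℂ) else 0 := by
  unfold cov
  rw [Finset.sum_eq_single n]
  · by_cases h : n = k
    · subst h
      simp
    · simp [h]
  · intro j _ hj
    have h' : (Pi.single n (1 : ℂ) : ι → ℂ) j = 0 := Pi.single_eq_of_ne hj _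
    simp [h']
  · simp

lemma cov_xx (n k : ι) : cov m (Pi.single n 1) 0 (Pi.single k 1) 0 =
    if n = k then ((1 / (1 - m n ^ 2) : ℝ) : ℂ) else 0 := by
  unfold cov
  rw [Finset.sum_eq_single n]
  · by_cases h : n = k
    · subst h
      simp
    · simp [h]
  · intro j _ hj
    have h' : (Pi.single n (1 : ℂ) : ι → ℂ) j = 0 := Pi.single_eq_of_ne hj _
    simp [h']
  · simp

lemma cov_yy (n k : ι) : cov m 0 (Pi.single n 1) 0 (Pi.single k 1) =
    if n = k then ((1 / (1 - m n ^ 2) : ℝ) : ℂ) else 0 := by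
  unfold cov
  rw [Finset.sum_eq_single n]
  · by_cases h : n = k
    · subst h
      simp
    · simp [h]
  · intro j _ hj
    have h' : (Pi.single n (1 : ℂ) : ι → ℂ) j = 0 := Pi.single_eq_of_ne hj _
    simp [h']
  · simp

end modes

lemma mm_abs (t : ℝ) : |mm t| < 1 := by
  rw [abs_of_nonneg (mm_nonneg t)]
  exact mm_lt_one t

lemma mm_u1 (t : ℝ) : mm t * (1 / (1 - mm t ^ 2)) = |t| := by
  rw [mul_one_div, mm_a]

lemma mm_u2 (t : ℝ) : mm t * (mm t * (1 / (1 - mm t ^ 2))) = gm t := by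
  rw [← mul_assoc, mul_one_div, ← pow_two, mm_g]

/-- the linear-in-`x x'` sums -/
lemma TT_diag {I : Finset (Fin 3 → ℤ)} (a : (Fin 3 → ℤ) → ℝ) (c : ℂ) (g : I → ℝ) :
    TT (fun n : I => mm (a n)) (fun p => c + ∑ n : I, (g n : ℂ) * ((mm (a n) : ℂ) *
      (lin (Pi.single n 1) 0 p.1 p.2 * lin 0 (Pi.single n 1) p.1 p.2))) =
      (ZZ I a : ℂ) * (c + ∑ n : I, (g n : ℂ) * (gm (a n) : ℂ)) := by
  classical
  have hm : ∀ n : I, |mm (a n)| < 1 := fun n => mm_abs _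
  have K : ∀ c : ℂ, PG (fun _ : (I → ℝ) × (I → ℝ) => c) := fun c => PG.const c
  have hp : ∀ n ∈ (Finset.univ : Finset I), PG (fun p : (I → ℝ) × (I → ℝ) =>
      (g n : ℂ) * ((mm (a n) : ℂ) *
      (lin (Pi.single n 1) 0 p.1 p.2 * lin 0 (Pi.single n 1) p.1 p.2))) := fun n _ =>
    (K _).mul ((K _).mul ((PG.lin _ _).mul (PG.lin _ _)))
  rw [TT_add hm (K c) (PG.sum _ hp), TT_sum hm _ hp, TT_const hm]
  have e : ∀ n : I, TT (fun n : I => mm (a n)) (fun p : (I → ℝ) × (I → ℝ) =>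
      (g n : ℂ) * ((mm (a n) : ℂ) *
      (lin (Pi.single n 1) 0 p.1 p.2 * lin 0 (Pi.single n 1) p.1 p.2))) =
      (ZZ I a : ℂ) * ((g n : ℂ) * (gm (a n) : ℂ)) := by
    intro n
    rw [TT_const_mul, TT_const_mul, TT_lin2 hm, cov_xy, if_pos rfl, ← mm_u2 (a n)]
    unfold ZZ
    push_cast
    ring
  rw [Finset.sum_congr rfl fun n _ => e n, ← Finset.mul_sum]
  unfold ZZ
  ring


section field

variable {L r : ℝ} {I : Finset (Fin 3 → ℤ)} {a : (Fin 3 → ℤ) → ℝ}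

lemma fld_eq_lin (x x' : I → ℝ) (y : Fin 3 → ℝ) : fld L r I a x y =
    ((√r : ℝ) : ℂ) + lin (fun n : I => cc (a n) * (hart L n y : ℂ)) 0 x x' := by
  unfold fld lin
  simp only [Pi.zero_apply, zero_mul, Finset.sum_const_zero, add_zero]
  congr 1
  refine Finset.sum_congr rfl fun n _ => ?_
  ring

lemma conj_fld_eq_lin (x x' : I → ℝ) (y : Fin 3 → ℝ) : conj (fld L r I a x' y) =
    ((√r : ℝ) : ℂ) + lin 0 (fun n : I => conj (cc (a n)) * (hart L n y : ℂ)) x x' := by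
  unfold fld lin
  simp only [Pi.zero_apply, zero_mul, Finset.sum_const_zero, zero_add, map_add, map_sum, map_mul,
    Complex.conj_ofReal]
  congr 1
  refine Finset.sum_congr rfl fun n _ => ?_
  ring

lemma cov_cc (hL : 0 < L) (hI : Modes I a) (y z : Fin 3 → ℝ) :
    cov (fun n : I => mm (a n)) (fun n : I => cc (a n) * (hart L n y : ℂ)) 0
      (fun n : I => cc (a n) * (hart L n z : ℂ)) 0 = ((alL L I a (y - z) : ℝ) : ℂ) := by
  have h := hart_sum hL hI.symm hI.even y z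
  unfold cov alL
  rw [neg_mul, ← h, ← Finset.sum_neg_distrib, Complex.ofReal_sum]
  refine Finset.sum_congr rfl fun n _ => ?_
  have h2 := cc_sq (a n)
  simp only [Pi.zero_apply, zero_mul, mul_zero, add_zero]
  calc cc (a n) * (hart L n y : ℂ) * (cc (a n) * (hart L n z : ℂ)) *
        ((1 / (1 - mm (a n) ^ 2) : ℝ) : ℂ) =
        (cc (a n) ^ 2 * ((1 / (1 - mm (a n) ^ 2) : ℝ) : ℂ)) * ((hart L n y : ℂ) * (hart L n z : ℂ)) := by
        ring
    _ = _ := by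
        rw [h2]
        push_cast
        ring

lemma cov_conj (hL : 0 < L) (hI : Modes I a) (y z : Fin 3 → ℝ) :
    cov (fun n : I => mm (a n)) 0 (fun n : I => conj (cc (a n)) * (hart L n y : ℂ))
      0 (fun n : I => conj (cc (a n)) * (hart L n z : ℂ)) = ((alL L I a (y - z) : ℝ) : ℂ) := by
  have h := congrArg conj (cov_cc hL hI y z)
  rw [Complex.conj_ofReal] at h
  rw [← h]
  unfold cov
  rw [map_sum]
  refine Finset.sum_congr rfl fun n _ => ?_
  simp only [Pi.zero_apply, zero_mul, mul_zero, add_zero, zero_add, map_mul, Complex.conj_ofReal]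

lemma cov_mix (hL : 0 < L) (hI : Modes I a) (y z : Fin 3 → ℝ) :
    cov (fun n : I => mm (a n)) (fun n : I => cc (a n) * (hart L n y : ℂ)) 0
      0 (fun n : I => conj (cc (a n)) * (hart L n z : ℂ)) = ((gaL L I a (y - z) : ℝ) : ℂ) := by
  have h := hart_sum hL hI.symm (g := fun n => gm (a n)) (fun n => by rw [hI.even]) y z
  unfold cov gaL
  rw [← h, Complex.ofReal_sum]
  refine Finset.sum_congr rfl fun n _ => ?_
  have h2 := cc_mul_conj (a n)
  have h3 := mm_u2 (a n)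
  simp only [Pi.zero_apply, zero_mul, mul_zero, add_zero, zero_add]
  calc ((mm (a n) : ℝ) : ℂ) * (cc (a n) * (hart L n y : ℂ) * (conj (cc (a n)) * (hart L n z : ℂ))) *
        ((1 / (1 - mm (a n) ^ 2) : ℝ) : ℂ) =
        ((mm (a n) : ℝ) : ℂ) * ((cc (a n) * conj (cc (a n))) * ((1 / (1 - mm (a n) ^ 2) : ℝ) : ℂ)) *
          ((hart L n y : ℂ) * (hart L n z : ℂ)) := by
        ring
    _ = _ := by
        rw [h2, ← h3]
        push_cast
        ring

/-- the integrand -/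
noncomputable def Phi (L r : ℝ) (I : Finset (Fin 3 → ℤ)) (a : (Fin 3 → ℤ) → ℝ)
    (p : (I → ℝ) × (I → ℝ)) (q : (Fin 3 → ℝ) × (Fin 3 → ℝ)) : ℂ :=
  fld L r I a p.1 q.1 * fld L r I a p.1 q.2 * conj (fld L r I a p.2 q.1 * fld L r I a p.2 q.2)

lemma TT_Phi (hL : 0 < L) (hr : 0 ≤ r) (hI : Modes I a) (q : (Fin 3 → ℝ) × (Fin 3 → ℝ)) :
    TT (fun n : I => mm (a n)) (fun p => Phi L r I a p q) =
      ((ZZ I a * QQ L r I a (q.1 - q.2) : ℝ) : ℂ) := by
  have hm : ∀ n : I, |mm (a n)| < 1 := fun n => mm_abs _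
  have e : (fun p : (I → ℝ) × (I → ℝ) => Phi L r I a p q) = fun p =>
      (((√r : ℝ) : ℂ) + lin (fun n : I => cc (a n) * (hart L n q.1 : ℂ)) 0 p.1 p.2) *
      (((√r : ℝ) : ℂ) + lin (fun n : I => cc (a n) * (hart L n q.2 : ℂ)) 0 p.1 p.2) *
      ((((√r : ℝ) : ℂ) + lin 0 (fun n : I => conj (cc (a n)) * (hart L n q.1 : ℂ)) p.1 p.2) *
      (((√r : ℝ) : ℂ) + lin 0 (fun n : I => conj (cc (a n)) * (hart L n q.2 : ℂ)) p.1 p.2)) := by
    funext p
    unfold Phi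
    rw [map_mul, conj_fld_eq_lin p.1 p.2 q.1, conj_fld_eq_lin p.1 p.2 q.2,
      fld_eq_lin p.1 p.2 q.1, fld_eq_lin p.1 p.2 q.2]
  rw [e, TT_aff4 hm, cov_cc hL hI, cov_conj hL hI, cov_mix hL hI, cov_mix hL hI, cov_mix hL hI,
    cov_mix hL hI, sub_self, sub_self]
  have hs : ((√r : ℝ) : ℂ) ^ 2 = (r : ℂ) := by
    rw [← Complex.ofReal_pow, Real.sq_sqrt hr]
  have hs4 : ((√r : ℝ) : ℂ) ^ 4 = (r : ℂ) ^ 2 := by
    rw [← hs]
    ring
  have hg : gaL L I a (q.2 - q.1) = gaL L I a (q.1 - q.2) := by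
    unfold gaL
    congr 1
    refine Finset.sum_congr rfl fun n _ => ?_
    congr 1
    rw [← Real.cos_neg]
    congr 1
    rw [← mul_neg, ← Finset.sum_neg_distrib]
    congr 1
    refine Finset.sum_congr rfl fun b _ => ?_
    simp only [Pi.sub_apply]
    ring
  rw [hs, hs4, hg]
  unfold QQ ZZ
  push_cast
  ring

lemma continuous_fld_comp {X : Type*} [TopologicalSpace X] {u : X → (I → ℝ)} {v : X → (Fin 3 → ℝ)}
    (hu : Continuous u) (hv : Continuous v) : Continuous fun x => fld L r I a (u x) (v x) := by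
  have h := (fld_continuous L r I a).comp (hu.prodMk hv)
  exact h

lemma continuous_Phi : Continuous fun pq : ((I → ℝ) × (I → ℝ)) × ((Fin 3 → ℝ) × (Fin 3 → ℝ)) =>
    Phi L r I a pq.1 pq.2 := by
  unfold Phi
  have h1 := continuous_fld_comp (L := L) (r := r) (I := I) (a := a)
    (X := ((I → ℝ) × (I → ℝ)) × ((Fin 3 → ℝ) × (Fin 3 → ℝ))) (u := fun pq => pq.1.1)
    (v := fun pq => pq.2.1) (by fun_prop) (by fun_prop)
  have h2 := continuous_fld_comp (L := L) (r := r) (I := I) (a := a)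
    (X := ((I → ℝ) × (I → ℝ)) × ((Fin 3 → ℝ) × (Fin 3 → ℝ))) (u := fun pq => pq.1.1)
    (v := fun pq => pq.2.2) (by fun_prop) (by fun_prop)
  have h3 := continuous_fld_comp (L := L) (r := r) (I := I) (a := a)
    (X := ((I → ℝ) × (I → ℝ)) × ((Fin 3 → ℝ) × (Fin 3 → ℝ))) (u := fun pq => pq.1.2)
    (v := fun pq => pq.2.1) (by fun_prop) (by fun_prop)
  have h4 := continuous_fld_comp (L := L) (r := r) (I := I) (a := a)
    (X := ((I → ℝ) × (I → ℝ)) × ((Fin 3 → ℝ) × (Fin 3 → ℝ))) (u := fun pq => pq.1.2)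
    (v := fun pq => pq.2.2) (by fun_prop) (by fun_prop)
  exact (h1.mul h2).mul (Complex.continuous_conj.comp (h3.mul h4))

lemma Phi_bound (L r : ℝ) (I : Finset (Fin 3 → ℤ)) (a : (Fin 3 → ℤ) → ℝ) :
    ∃ C > 0, ∀ p q, ‖Phi L r I a p q‖ ≤ C * (1 + ∑ n, |p.1 n| + ∑ n, |p.2 n|) ^ 4 := by
  obtain ⟨C, hC, h⟩ := fld_bound L r I a
  refine ⟨C ^ 4, by positivity, fun p q => ?_⟩
  have s1 : 0 ≤ ∑ n, |p.1 n| := Finset.sum_nonneg fun _ _ => abs_nonneg _
  have s2 : 0 ≤ ∑ n, |p.2 n| := Finset.sum_nonneg fun _ _ => abs_nonneg _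
  set S := 1 + ∑ n, |p.1 n| + ∑ n, |p.2 n| with hS
  have hS0 : 0 ≤ S := by rw [hS]; linarith
  have b1 : ∀ y, ‖fld L r I a p.1 y‖ ≤ C * S := fun y =>
    ((h p.1 y).1).trans (mul_le_mul_of_nonneg_left (by rw [hS]; linarith) hC.le)
  have b2 : ∀ y, ‖fld L r I a p.2 y‖ ≤ C * S := fun y =>
    ((h p.2 y).1).trans (mul_le_mul_of_nonneg_left (by rw [hS]; linarith) hC.le)
  have hCS : 0 ≤ C * S := mul_nonneg hC.le hS0
  unfold Phi
  rw [norm_mul, norm_mul, RCLike.norm_conj, norm_mul]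
  calc _ ≤ (C * S) * (C * S) * ((C * S) * (C * S)) :=
        mul_le_mul (mul_le_mul (b1 _) (b1 _) (norm_nonneg _) hCS)
          (mul_le_mul (b2 _) (b2 _) (norm_nonneg _) hCS)
          (mul_nonneg (norm_nonneg _) (norm_nonneg _)) (mul_nonneg hCS hCS)
    _ = _ := by ring

end field

section per

variable {L : ℝ}

lemma lint_sub (hL : 0 < L) {f : (Fin 3 → ℝ) → ℝ≥0∞} (hf : Measurable f)
    (hper : ∀ y (n : Fin 3 → ℤ), f (y + lat L n) = f y) (x : Fin 3 → ℝ) :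
    ∫⁻ z in box L, f (x - z) = ∫⁻ z in box L, f z := by
  have hw : Measurable ((box L).indicator f) := hf.indicator tl_measurable_box
  have h2 : ∀ y, periodize L ((box L).indicator f) y = f y := by
    intro y
    unfold periodize
    rw [← tl_tsum_box hL y (f y)]
    refine tsum_congr fun n => ?_
    by_cases h : y + lat L n ∈ box L
    · rw [Set.indicator_of_mem h, Set.indicator_of_mem h, hper]
    · rw [Set.indicator_of_notMem h, Set.indicator_of_notMem h]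
  have h3 := lintegral_box_sub hL hw x
  simp only [h2] at h3
  rw [h3, lintegral_indicator tl_measurable_box]

/-- the measure on the box -/
noncomputable abbrev bm (L : ℝ) : Measure (Fin 3 → ℝ) := volume.restrict (box L)

instance : IsFiniteMeasure (bm L) := by
  constructor
  rw [Measure.restrict_apply_univ]
  by_cases hL : 0 < L
  · rw [NegModeAux.vol_box hL]
    exact ENNReal.ofReal_lt_top
  · have : box L = ∅ := by
      unfold box
      rw [Set.univ_pi_eq_empty_iff]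
      exact ⟨0, Set.Ico_eq_empty (by simpa using hL)⟩
    rw [this]
    simp

lemma intble_sub (hL : 0 < L) {F : (Fin 3 → ℝ) → ℝ} (hF : Measurable F)
    (hper : ∀ y (n : Fin 3 → ℤ), F (y + lat L n) = F y) (hFi : Integrable F (bm L))
    (x : Fin 3 → ℝ) : Integrable (fun z => F (x - z)) (bm L) := by
  refine ⟨(hF.comp (measurable_const.sub measurable_id)).aestronglyMeasurable, ?_⟩
  have h := lint_sub hL (f := fun y => ‖F y‖ₑ) hF.enorm (fun y n => by rw [hper]) x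
  unfold HasFiniteIntegral
  rw [h]
  exact hFi.2

lemma int_sub (hL : 0 < L) {F : (Fin 3 → ℝ) → ℝ} (hF : Measurable F)
    (hper : ∀ y (n : Fin 3 → ℤ), F (y + lat L n) = F y) (hFi : Integrable F (bm L))
    (x : Fin 3 → ℝ) : ∫ z in box L, F (x - z) = ∫ z in box L, F z := by
  rw [integral_eq_lintegral_pos_part_sub_lintegral_neg_part (intble_sub hL hF hper hFi x),
    integral_eq_lintegral_pos_part_sub_lintegral_neg_part hFi]
  rw [lint_sub hL (f := fun y => ENNReal.ofReal (F y)) hF.ennreal_ofReal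
    (fun y n => by rw [hper]) x, lint_sub hL (f := fun y => ENNReal.ofReal (-F y))
    hF.neg.ennreal_ofReal (fun y n => by rw [hper]) x]

lemma int_W {W : (Fin 3 → ℝ) → ℝ≥0∞} (hW : Measurable W) (hWi : ∫⁻ y in box L, W y ≠ ⊤) :
    Integrable (fun y => (W y).toReal) (bm L) :=
  integrable_toReal_of_lintegral_ne_top hW.aemeasurable hWi

lemma int_W2 (hL : 0 < L) {W : (Fin 3 → ℝ) → ℝ≥0∞} (hW : Measurable W)
    (hWp : ∀ y (n : Fin 3 → ℤ), W (y + lat L n) = W y) (hWi : ∫⁻ y in box L, W y ≠ ⊤) :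
    Integrable (fun q : (Fin 3 → ℝ) × (Fin 3 → ℝ) => (W (q.1 - q.2)).toReal)
      ((bm L).prod (bm L)) := by
  have hm : Measurable fun q : (Fin 3 → ℝ) × (Fin 3 → ℝ) => W (q.1 - q.2) :=
    hW.comp (measurable_fst.sub measurable_snd)
  refine integrable_toReal_of_lintegral_ne_top hm.aemeasurable ?_
  rw [lintegral_prod _ hm.aemeasurable]
  simp only
  rw [lintegral_congr fun x => lint_sub hL hW hWp x, lintegral_const]
  exact ENNReal.mul_ne_top hWi (measure_ne_top _ _)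

end per

end IJAux


open IJAux in
theorem tw_JJ {L r : ℝ} {I : Finset (Fin 3 → ℤ)} (a : (Fin 3 → ℤ) → ℝ) :
    ∫ x, ∫ x', ((JJ L r I a x x' : ℝ) : ℂ) *
      (Real.exp (∑ n : I, mm (a n) * x n * x' n) : ℂ) ∂(gs I) ∂(gs I) =
      ((ZZ I a * nbar L r I a : ℝ) : ℂ) := by
  classical
  have hm : ∀ n : I, |mm (a n)| < 1 := fun n => mm_abs _
  have e : (fun p : (I → ℝ) × (I → ℝ) => ((JJ L r I a p.1 p.2 : ℝ) : ℂ)) =
      fun p => ((r * L ^ 3 : ℝ) : ℂ) + ∑ n : I, ((1 : ℝ) : ℂ) * ((mm (a n) : ℂ) *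
      (lin (Pi.single n 1) 0 p.1 p.2 * lin 0 (Pi.single n 1) p.1 p.2)) := by
    funext p
    unfold JJ
    simp only [lin_single_x, lin_single_y]
    push_cast
    congr 1
    refine Finset.sum_congr rfl fun n _ => ?_
    ring
  have hp : PG (fun p : (I → ℝ) × (I → ℝ) => ((JJ L r I a p.1 p.2 : ℝ) : ℂ)) := by
    rw [e]
    exact (PG.const _).add (PG.sum _ fun n _ => (PG.const _).mul ((PG.const _).mul
      ((PG.lin _ _).mul (PG.lin _ _))))
  have h := TT_eq hm hp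
  simp only at h
  rw [← h, e, TT_diag a _ (fun _ => 1)]
  unfold nbar
  push_cast
  simp

open IJAux in
theorem tw_KJ {L : ℝ} {I : Finset (Fin 3 → ℤ)} (a : (Fin 3 → ℤ) → ℝ) :
    ∫ x, ∫ x', ((KJ L I a x x' : ℝ) : ℂ) *
      (Real.exp (∑ n : I, mm (a n) * x n * x' n) : ℂ) ∂(gs I) ∂(gs I) =
      ((ZZ I a * ∑ n : I, nsq L n * gm (a n) : ℝ) : ℂ) := by
  classical
  have hm : ∀ n : I, |mm (a n)| < 1 := fun n => mm_abs _
  have e : (fun p : (I → ℝ) × (I → ℝ) => ((KJ L I a p.1 p.2 : ℝ) : ℂ)) =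
      fun p => (0 : ℂ) + ∑ n : I, ((nsq L n : ℝ) : ℂ) * ((mm (a n) : ℂ) *
      (lin (Pi.single n 1) 0 p.1 p.2 * lin 0 (Pi.single n 1) p.1 p.2)) := by
    funext p
    unfold KJ
    simp only [lin_single_x, lin_single_y]
    push_cast
    rw [zero_add]
    refine Finset.sum_congr rfl fun n _ => ?_
    ring
  have hp : PG (fun p : (I → ℝ) × (I → ℝ) => ((KJ L I a p.1 p.2 : ℝ) : ℂ)) := by
    rw [e]
    exact (PG.const _).add (PG.sum _ fun n _ => (PG.const _).mul ((PG.const _).mul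
      ((PG.lin _ _).mul (PG.lin _ _))))
  have h := TT_eq hm hp
  simp only at h
  rw [← h, e, TT_diag a _ (fun n : I => nsq L n)]
  push_cast
  simp

open IJAux in
theorem tw_JJ2 {L r : ℝ} {I : Finset (Fin 3 → ℤ)} (a : (Fin 3 → ℤ) → ℝ) :
    ∫ x, ∫ x', ((JJ L r I a x x' ^ 2 : ℝ) : ℂ) *
      (Real.exp (∑ n : I, mm (a n) * x n * x' n) : ℂ) ∂(gs I) ∂(gs I) =
      ((ZZ I a * (nbar L r I a ^ 2 + ∑ n : I, (a n ^ 2 + gm (a n) ^ 2)) : ℝ) : ℂ) := by
  classical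
  have hm : ∀ n : I, |mm (a n)| < 1 := fun n => mm_abs _
  have e : (fun p : (I → ℝ) × (I → ℝ) => ((JJ L r I a p.1 p.2 ^ 2 : ℝ) : ℂ)) =
      fun p => ((((r * L ^ 3) ^ 2 : ℝ) : ℂ) + ∑ n : I, ((2 * (r * L ^ 3) : ℝ) : ℂ) *
        ((mm (a n) : ℂ) *
          (lin (Pi.single n 1) 0 p.1 p.2 * lin 0 (Pi.single n 1) p.1 p.2))) +
        ∑ n : I, ∑ k : I, ((mm (a n) * mm (a k) : ℝ) : ℂ) *
          (lin (Pi.single n 1) 0 p.1 p.2 * lin 0 (Pi.single n 1) p.1 p.2 *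
            lin (Pi.single k 1) 0 p.1 p.2 * lin 0 (Pi.single k 1) p.1 p.2) := by
    funext p
    unfold JJ
    simp only [lin_single_x, lin_single_y]
    have h1 : ∑ n : I, ∑ k : I, ((mm (a n) * mm (a k) : ℝ) : ℂ) *
        ((p.1 n : ℂ) * (p.2 n : ℂ) * (p.1 k : ℂ) * (p.2 k : ℂ)) =
        (∑ n : I, (mm (a n) : ℂ) * (p.1 n : ℂ) * (p.2 n : ℂ)) ^ 2 := by
      rw [pow_two, Finset.sum_mul_sum]
      refine Finset.sum_congr rfl fun n _ => Finset.sum_congr rfl fun k _ => ?_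
      push_cast
      ring
    rw [h1, ← Finset.mul_sum]
    push_cast
    have h2 : ∑ n : I, (mm (a n) : ℂ) * ((p.1 n : ℂ) * (p.2 n : ℂ)) =
        ∑ n : I, (mm (a n) : ℂ) * (p.1 n : ℂ) * (p.2 n : ℂ) :=
      Finset.sum_congr rfl fun n _ => by ring
    rw [h2]
    ring
  have K : ∀ c : ℂ, PG (fun _ : (I → ℝ) × (I → ℝ) => c) := fun c => PG.const c
  have hp1 : PG (fun p : (I → ℝ) × (I → ℝ) => (((r * L ^ 3) ^ 2 : ℝ) : ℂ) +
      ∑ n : I, ((2 * (r * L ^ 3) : ℝ) : ℂ) * ((mm (a n) : ℂ) *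
          (lin (Pi.single n 1) 0 p.1 p.2 * lin 0 (Pi.single n 1) p.1 p.2))) :=
    (K _).add (PG.sum _ fun n _ => (K _).mul ((K _).mul ((PG.lin _ _).mul (PG.lin _ _))))
  have hp3 : ∀ n k : I, PG (fun p : (I → ℝ) × (I → ℝ) => ((mm (a n) * mm (a k) : ℝ) : ℂ) *
          (lin (Pi.single n 1) 0 p.1 p.2 * lin 0 (Pi.single n 1) p.1 p.2 *
            lin (Pi.single k 1) 0 p.1 p.2 * lin 0 (Pi.single k 1) p.1 p.2)) := fun n k =>
    (K _).mul ((((PG.lin _ _).mul (PG.lin _ _)).mul (PG.lin _ _)).mul (PG.lin _ _))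
  have hp2 : ∀ n : I, PG (fun p : (I → ℝ) × (I → ℝ) => ∑ k : I,
      ((mm (a n) * mm (a k) : ℝ) : ℂ) *
          (lin (Pi.single n 1) 0 p.1 p.2 * lin 0 (Pi.single n 1) p.1 p.2 *
            lin (Pi.single k 1) 0 p.1 p.2 * lin 0 (Pi.single k 1) p.1 p.2)) := fun n =>
    PG.sum _ fun k _ => hp3 n k
  have hp : PG (fun p : (I → ℝ) × (I → ℝ) => ((JJ L r I a p.1 p.2 ^ 2 : ℝ) : ℂ)) := by
    rw [e]
    exact hp1.add (PG.sum _ fun n _ => hp2 n)
  have h := TT_eq hm hp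
  simp only at h
  rw [← h, e, TT_add hm hp1 (PG.sum _ fun n _ => hp2 n), TT_diag a _ (fun _ => 2 * (r * L ^ 3)),
    TT_sum hm _ fun n _ => hp2 n]
  have e1 : ∀ n : I, TT (fun n : I => mm (a n)) (fun p : (I → ℝ) × (I → ℝ) => ∑ k : I,
      ((mm (a n) * mm (a k) : ℝ) : ℂ) *
          (lin (Pi.single n 1) 0 p.1 p.2 * lin 0 (Pi.single n 1) p.1 p.2 *
            lin (Pi.single k 1) 0 p.1 p.2 * lin 0 (Pi.single k 1) p.1 p.2)) =
      (ZZ I a : ℂ) * (((gm (a n) * ∑ k : I, gm (a k)) + (a n ^ 2 + gm (a n) ^ 2) : ℝ) : ℂ) := by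
    intro n
    rw [TT_sum hm _ fun k _ => hp3 n k]
    have e2 : ∀ k : I, TT (fun n : I => mm (a n)) (fun p : (I → ℝ) × (I → ℝ) =>
      ((mm (a n) * mm (a k) : ℝ) : ℂ) *
          (lin (Pi.single n 1) 0 p.1 p.2 * lin 0 (Pi.single n 1) p.1 p.2 *
            lin (Pi.single k 1) 0 p.1 p.2 * lin 0 (Pi.single k 1) p.1 p.2)) =
        (ZZ I a : ℂ) * ((gm (a n) * gm (a k) + if n = k then (a n ^ 2 + gm (a n) ^ 2) else 0 : ℝ) : ℂ) := by
      intro k
      rw [TT_const_mul, TT_lin4 hm, cov_xy, cov_xy, cov_xx, cov_yy, cov_xy, cov_yx, if_pos rfl,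
        if_pos rfl]
      by_cases hnk : n = k
      · subst hnk
        simp only [if_true]
        have h1 := mm_u1 (a n)
        have h2 := mm_u2 (a n)
        have h3 : a n ^ 2 = (mm (a n) * (1 / (1 - mm (a n) ^ 2))) ^ 2 := by
          rw [h1, sq_abs]
        rw [h3, ← h2]
        unfold ZZ
        push_cast
        ring
      · simp only [hnk, if_false]
        rw [← mm_u2 (a n), ← mm_u2 (a k)]
        unfold ZZ
        push_cast
        ring
    rw [Finset.sum_congr rfl fun k _ => e2 k, ← Finset.mul_sum]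
    congr 1
    push_cast
    rw [Finset.sum_add_distrib, ← Finset.mul_sum]
    congr 1
    rw [← Complex.ofReal_sum, Finset.sum_ite_eq, if_pos (Finset.mem_univ n)]
    push_cast
    rfl
  rw [Finset.sum_congr rfl fun n _ => e1 n, ← Finset.mul_sum]
  unfold nbar
  push_cast
  rw [← Finset.mul_sum, Finset.sum_add_distrib, ← Finset.sum_mul]
  ring


open IJAux in
theorem IJ_bound {L r : ℝ} (hL : 0 < L) {I : Finset (Fin 3 → ℤ)} (a : (Fin 3 → ℤ) → ℝ)
    {W : (Fin 3 → ℝ) → ℝ≥0∞} (hW : Measurable W)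
    (hWp : ∀ y (n : Fin 3 → ℤ), W (y + lat L n) = W y) (hWi : ∫⁻ y in box L, W y ≠ ⊤) :
    Measurable (Function.uncurry (IJ L r I a W)) ∧
    ∃ C > 0, ∀ x x', ‖IJ L r I a W x x'‖ ≤ C * (1 + ∑ n, |x n| + ∑ n, |x' n|) ^ 4 := by
  obtain ⟨C, hC, h⟩ := Phi_bound L r I a
  have hWm : Measurable fun q : (Fin 3 → ℝ) × (Fin 3 → ℝ) => ((W (q.1 - q.2)).toReal : ℂ) :=
    Complex.measurable_ofReal.comp (hW.comp (measurable_fst.sub measurable_snd)).ennreal_toReal
  have hG : Measurable fun pq : ((I → ℝ) × (I → ℝ)) × ((Fin 3 → ℝ) × (Fin 3 → ℝ)) =>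
      ((W (pq.2.1 - pq.2.2)).toReal : ℂ) * Phi L r I a pq.1 pq.2 :=
    (hWm.comp measurable_snd).mul continuous_Phi.measurable
  have hI2 : ∀ p : (I → ℝ) × (I → ℝ), Integrable (fun q : (Fin 3 → ℝ) × (Fin 3 → ℝ) =>
      ((W (q.1 - q.2)).toReal : ℂ) * Phi L r I a p q) ((bm L).prod (bm L)) := by
    intro p
    refine Integrable.mono' ((int_W2 hL hW hWp hWi).mul_const
      (C * (1 + ∑ n, |p.1 n| + ∑ n, |p.2 n|) ^ 4))
      (hG.comp (measurable_const.prodMk measurable_id)).aestronglyMeasurable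
      (ae_of_all _ fun q => ?_)
    simp only [norm_mul, Complex.norm_real, Real.norm_eq_abs, abs_of_nonneg ENNReal.toReal_nonneg]
    exact mul_le_mul_of_nonneg_left (h p q) ENNReal.toReal_nonneg
  have hIJ : ∀ p : (I → ℝ) × (I → ℝ), IJ L r I a W p.1 p.2 =
      ∫ q, ((W (q.1 - q.2)).toReal : ℂ) * Phi L r I a p q ∂((bm L).prod (bm L)) := by
    intro p
    rw [integral_prod _ (hI2 p)]
    rfl
  constructor
  · have e : Function.uncurry (IJ L r I a W) = fun p =>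
        ∫ q, ((W (q.1 - q.2)).toReal : ℂ) * Phi L r I a p q ∂((bm L).prod (bm L)) := by
      funext p
      rw [← hIJ]
      rfl
    rw [e]
    exact (hG.stronglyMeasurable.integral_prod_right').measurable
  · refine ⟨(∫ q : (Fin 3 → ℝ) × (Fin 3 → ℝ), (W (q.1 - q.2)).toReal ∂((bm L).prod (bm L))) * C + C,
      ?_, fun x x' => ?_⟩
    · have : 0 ≤ ∫ q : (Fin 3 → ℝ) × (Fin 3 → ℝ), (W (q.1 - q.2)).toReal ∂((bm L).prod (bm L)) :=
        integral_nonneg fun q => ENNReal.toReal_nonneg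
      positivity
    · have hx := hIJ (x, x')
      simp only at hx
      rw [hx]
      have hS : 0 ≤ (1 + ∑ n, |x n| + ∑ n, |x' n|) ^ 4 := pow_nonneg
        (by linarith [one_le_S (x, x')]) _
      calc _ ≤ ∫ q : (Fin 3 → ℝ) × (Fin 3 → ℝ), (W (q.1 - q.2)).toReal *
            (C * (1 + ∑ n, |x n| + ∑ n, |x' n|) ^ 4) ∂((bm L).prod (bm L)) := by
            refine norm_integral_le_of_norm_le ((int_W2 hL hW hWp hWi).mul_const _)
              (ae_of_all _ fun q => ?_)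
            simp only [norm_mul, Complex.norm_real, Real.norm_eq_abs,
              abs_of_nonneg ENNReal.toReal_nonneg]
            exact mul_le_mul_of_nonneg_left (h (x, x') q) ENNReal.toReal_nonneg
        _ = (∫ q : (Fin 3 → ℝ) × (Fin 3 → ℝ), (W (q.1 - q.2)).toReal ∂((bm L).prod (bm L))) *
            (C * (1 + ∑ n, |x n| + ∑ n, |x' n|) ^ 4) := integral_mul_const _ _
        _ ≤ _ := by nlinarith [mul_nonneg hC.le hS]

open IJAux in
theorem tw_IJ {L r : ℝ} (hL : 0 < L) (hr : 0 ≤ r) {I : Finset (Fin 3 → ℤ)}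
    {a : (Fin 3 → ℤ) → ℝ} (hI : Modes I a)
    {W : (Fin 3 → ℝ) → ℝ≥0∞} (hW : Measurable W)
    (hWp : ∀ y (n : Fin 3 → ℤ), W (y + lat L n) = W y) (hWi : ∫⁻ y in box L, W y ≠ ⊤) :
    ∫ x, ∫ x', IJ L r I a W x x' *
      (Real.exp (∑ n : I, mm (a n) * x n * x' n) : ℂ) ∂(gs I) ∂(gs I) =
      ((ZZ I a * (L ^ 3 * ∫ z in box L, (W z).toReal * QQ L r I a z) : ℝ) : ℂ) := by
  have hm : ∀ n : I, |mm (a n)| < 1 := fun n => mm_abs _
  obtain ⟨hmeas, C₀, hC₀, hb⟩ := IJ_bound (r := r) hL (I := I) a hW hWp hWi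
  have hPG : PG (fun p : (I → ℝ) × (I → ℝ) => IJ L r I a W p.1 p.2) :=
    ⟨hmeas, C₀, hC₀.le, 4, fun p => hb p.1 p.2⟩
  have h0 := TT_eq hm hPG
  simp only at h0
  rw [← h0]
  obtain ⟨C, hC, h⟩ := Phi_bound L r I a
  have hWm : Measurable fun q : (Fin 3 → ℝ) × (Fin 3 → ℝ) => ((W (q.1 - q.2)).toReal : ℂ) :=
    Complex.measurable_ofReal.comp (hW.comp (measurable_fst.sub measurable_snd)).ennreal_toReal
  have hG : Measurable fun pq : ((I → ℝ) × (I → ℝ)) × ((Fin 3 → ℝ) × (Fin 3 → ℝ)) =>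
      ((W (pq.2.1 - pq.2.2)).toReal : ℂ) * Phi L r I a pq.1 pq.2 :=
    (hWm.comp measurable_snd).mul continuous_Phi.measurable
  have hI2 : ∀ p : (I → ℝ) × (I → ℝ), Integrable (fun q : (Fin 3 → ℝ) × (Fin 3 → ℝ) =>
      ((W (q.1 - q.2)).toReal : ℂ) * Phi L r I a p q) ((bm L).prod (bm L)) := by
    intro p
    refine Integrable.mono' ((int_W2 hL hW hWp hWi).mul_const
      (C * (1 + ∑ n, |p.1 n| + ∑ n, |p.2 n|) ^ 4))
      (hG.comp (measurable_const.prodMk measurable_id)).aestronglyMeasurable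
      (ae_of_all _ fun q => ?_)
    simp only [norm_mul, Complex.norm_real, Real.norm_eq_abs, abs_of_nonneg ENNReal.toReal_nonneg]
    exact mul_le_mul_of_nonneg_left (h p q) ENNReal.toReal_nonneg
  have hIJ : ∀ p : (I → ℝ) × (I → ℝ), IJ L r I a W p.1 p.2 =
      ∫ q, ((W (q.1 - q.2)).toReal : ℂ) * Phi L r I a p q ∂((bm L).prod (bm L)) := by
    intro p
    rw [integral_prod _ (hI2 p)]
    rfl
  -- Fubini
  have hInt : Integrable (Function.uncurry fun (p : (I → ℝ) × (I → ℝ))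
      (q : (Fin 3 → ℝ) × (Fin 3 → ℝ)) => ((W (q.1 - q.2)).toReal : ℂ) * Phi L r I a p q *
        wE (fun n : I => mm (a n)) p) (((gs I).prod (gs I)).prod ((bm L).prod (bm L))) := by
    have hmaj := (((integrable_poly_exp hm 4).const_mul C).mul_prod (int_W2 hL hW hWp hWi))
    refine Integrable.mono' hmaj
      (hG.mul ((measurable_wE _).comp measurable_fst)).aestronglyMeasurable
      (ae_of_all _ fun pq => ?_)
    obtain ⟨p, q⟩ := pq
    simp only [Function.uncurry_apply_pair, norm_mul, Complex.norm_real, Real.norm_eq_abs,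
      abs_of_nonneg ENNReal.toReal_nonneg]
    calc (W (q.1 - q.2)).toReal * ‖Phi L r I a p q‖ * ‖wE (fun n : I => mm (a n)) p‖ ≤
          (W (q.1 - q.2)).toReal * (C * (1 + ∑ n, |p.1 n| + ∑ n, |p.2 n|) ^ 4) *
            Real.exp (∑ n : I, |mm (a n) * p.1 n * p.2 n|) := by
          refine mul_le_mul (mul_le_mul_of_nonneg_left (h p q) ENNReal.toReal_nonneg)
            (norm_wE_le _ p) (norm_nonneg _) ?_
          exact mul_nonneg ENNReal.toReal_nonneg (mul_nonneg hC.le (pow_nonneg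
            (by linarith [one_le_S p]) _))
      _ = _ := by ring
  have hswap := integral_integral_swap hInt
  have hL1 : TT (fun n : I => mm (a n)) (fun p => IJ L r I a W p.1 p.2) =
      ∫ p, ∫ q, ((W (q.1 - q.2)).toReal : ℂ) * Phi L r I a p q *
        wE (fun n : I => mm (a n)) p ∂((bm L).prod (bm L)) ∂((gs I).prod (gs I)) := by
    unfold TT
    refine integral_congr_ae (ae_of_all _ fun p => ?_)
    simp only
    rw [hIJ p, integral_mul_const]
  have hR1 : ∀ q : (Fin 3 → ℝ) × (Fin 3 → ℝ), ∫ p, ((W (q.1 - q.2)).toReal : ℂ) *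
      Phi L r I a p q * wE (fun n : I => mm (a n)) p ∂((gs I).prod (gs I)) =
      ((ZZ I a * ((W (q.1 - q.2)).toReal * QQ L r I a (q.1 - q.2)) : ℝ) : ℂ) := by
    intro q
    have h1 := TT_Phi hL hr hI q
    unfold TT at h1
    simp only [mul_assoc]
    rw [integral_const_mul, h1]
    push_cast
    ring
  rw [hL1, hswap, integral_congr_ae (ae_of_all _ hR1), integral_complex_ofReal, integral_const_mul]
  congr 2
  -- the box integral
  have hQc : Continuous (QQ L r I a) := by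
    unfold QQ alL gaL
    fun_prop
  have hQp : ∀ y (n : Fin 3 → ℤ), QQ L r I a (y + lat L n) = QQ L r I a y := by
    intro y n
    have hcos : ∀ k : Fin 3 → ℤ, Real.cos (2 * Real.pi / L * ∑ b, (k b : ℝ) * (y + lat L n) b) =
        Real.cos (2 * Real.pi / L * ∑ b, (k b : ℝ) * y b) := by
      intro k
      have e : 2 * Real.pi / L * ∑ b, (k b : ℝ) * (y + lat L n) b =
          2 * Real.pi / L * ∑ b, (k b : ℝ) * y b + ((∑ b, k b * n b : ℤ) : ℝ) * (2 * Real.pi) := by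
        simp only [Pi.add_apply, lat, mul_add, Finset.sum_add_distrib]
        push_cast
        rw [Finset.mul_sum (f := fun b => (k b : ℝ) * (L * n b)), Finset.sum_mul]
        congr 1
        refine Finset.sum_congr rfl fun b _ => ?_
        field_simp
      rw [e, Real.cos_add_int_mul_two_pi]
    unfold QQ alL gaL
    simp only [hcos]
  have hWQm : Measurable fun z => (W z).toReal * QQ L r I a z :=
    hW.ennreal_toReal.mul hQc.measurable
  have hWQp : ∀ y (n : Fin 3 → ℤ), (W (y + lat L n)).toReal * QQ L r I a (y + lat L n) =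
      (W y).toReal * QQ L r I a y := fun y n => by rw [hWp, hQp]
  obtain ⟨M, hM⟩ : ∃ M, ∀ z, |QQ L r I a z| ≤ M := by
    have hc : ∀ (c : ℝ) (g : I → ℝ) (z : Fin 3 → ℝ), |c * ∑ n : I, g n *
        Real.cos (2 * Real.pi / L * ∑ b, ((n : Fin 3 → ℤ) b : ℝ) * z b)| ≤
        |c| * ∑ n : I, |g n| := by
      intro c g z
      rw [abs_mul]
      refine mul_le_mul_of_nonneg_left ((Finset.abs_sum_le_sum_abs _ _).trans
        (Finset.sum_le_sum fun n _ => ?_)) (abs_nonneg _)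
      rw [abs_mul]
      exact mul_le_of_le_one_right (abs_nonneg _) (Real.abs_cos_le_one _)
    have hA : ∀ z, |alL L I a z| ≤ |-(L ^ 3)⁻¹| * ∑ n : I, |a n| := fun z => hc _ (fun n => a n) z
    have hB : ∀ z, |gaL L I a z| ≤ |(L ^ 3)⁻¹| * ∑ n : I, |gm (a n)| := fun z =>
      hc _ (fun n => gm (a n)) z
    set A := |-(L ^ 3)⁻¹| * ∑ n : I, |a n|
    set B := |(L ^ 3)⁻¹| * ∑ n : I, |gm (a n)|
    refine ⟨(r + gaL L I a 0) ^ 2 + 2 * r * (A + B) + A ^ 2 + B ^ 2, fun z => ?_⟩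
    have h1 := hA z
    have h2 := hB z
    have h3 : alL L I a z ^ 2 ≤ A ^ 2 := sq_le_sq' (by linarith [abs_le.1 h1]) (abs_le.1 h1).2
    have h4 : gaL L I a z ^ 2 ≤ B ^ 2 := sq_le_sq' (by linarith [abs_le.1 h2]) (abs_le.1 h2).2
    have h5 : |2 * r * (alL L I a z + gaL L I a z)| ≤ 2 * r * (A + B) := by
      rw [abs_mul, abs_of_nonneg (by positivity : 0 ≤ 2 * r)]
      exact mul_le_mul_of_nonneg_left ((abs_add_le _ _).trans (add_le_add h1 h2)) (by positivity)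
    have h6 := abs_le.1 h5
    unfold QQ
    rw [abs_le]
    constructor
    · nlinarith [sq_nonneg (r + gaL L I a 0), sq_nonneg (alL L I a z), sq_nonneg (gaL L I a z),
        sq_nonneg A, sq_nonneg B]
    · linarith
  have hWQi : Integrable (fun z => (W z).toReal * QQ L r I a z) (bm L) := by
    refine Integrable.mono' ((int_W hW hWi).mul_const M) hWQm.aestronglyMeasurable
      (ae_of_all _ fun z => ?_)
    rw [norm_mul, Real.norm_eq_abs, Real.norm_eq_abs, abs_of_nonneg ENNReal.toReal_nonneg]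
    exact mul_le_mul_of_nonneg_left (hM z) ENNReal.toReal_nonneg
  have hWQi2 : Integrable (fun q : (Fin 3 → ℝ) × (Fin 3 → ℝ) =>
      (W (q.1 - q.2)).toReal * QQ L r I a (q.1 - q.2)) ((bm L).prod (bm L)) := by
    refine Integrable.mono' ((int_W2 hL hW hWp hWi).mul_const M)
      (hWQm.comp (measurable_fst.sub measurable_snd)).aestronglyMeasurable
      (ae_of_all _ fun q => ?_)
    rw [norm_mul, Real.norm_eq_abs, Real.norm_eq_abs, abs_of_nonneg ENNReal.toReal_nonneg]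
    exact mul_le_mul_of_nonneg_left (hM _) ENNReal.toReal_nonneg
  rw [integral_prod _ hWQi2]
  simp only
  rw [integral_congr_ae (ae_of_all _ fun y => int_sub hL hWQm hWQp hWQi y), integral_const,
    smul_eq_mul]
  congr 1
  rw [Measure.real, Measure.restrict_apply_univ, NegModeAux.vol_box hL, ENNReal.toReal_ofReal (by positivity)]

end Pool.Agent.P76w
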