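import Pool.Agent.Lib.P76w.Defs
import Pool.Agent.Lib.P76s.PairReduce

/-!
# P76w.NMono (1.5 h): the ground-state energy is nondecreasing in the particle number

For `Ψ` admissible for `N+1` particles and fixed `z`, the slice `Ψ_z(X) = Ψ(Fin.snoc X z)` (or `Fin.cons z X`) is
admissible for `N` particles; its derivatives are the corresponding derivatives of `Ψ`.  Split
`confBox (N+1) L` as `box L × confBox N L` (`volume_preserving_piFinSuccAbove`, or the product structure of
`restrict_confBox`): the kinetic energy of `Ψ` is at least `∫_z kinetic(Ψ_z)` (drop the last particle), the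
interaction at least `∫_z interaction(Ψ_z)` (drop the pairs with the last particle), `mass Ψ = ∫_z mass(Ψ_z)`.
`groundEnergy N · mass Ψ_z ≤ kinetic Ψ_z + interaction Ψ_z` (definition if `mass Ψ_z ≠ 0`, trivial otherwise;
mass is finite since `Ψ_z` is continuous on a bounded box).  Integrate over `z` and divide by `mass Ψ`
(finite, non-zero).
-/

open MeasureTheory Filter Topology ProbabilityTheory
open scoped BigOperators ContDiff ComplexConjugate ENNReal

namespace Pool.Agent.P76w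

open Pool.Agent.P76s

namespace NMonoAux

/-- The configuration with `z` in front. -/
def cz (N : ℕ) (z : Fin 3 → ℝ) (X : Conf N) : Conf (N + 1) :=
  Fin.cons (α := fun _ => Fin 3 → ℝ) z X

theorem cz_zero {N : ℕ} (z : Fin 3 → ℝ) (X : Conf N) : cz N z X 0 = z := rfl

theorem cz_succ {N : ℕ} (z : Fin 3 → ℝ) (X : Conf N) (i : Fin N) : cz N z X i.succ = X i := rfl

/-- The linear map `X ↦ (0, X)`. -/
noncomputable def lc (N : ℕ) : Conf N →L[ℝ] Conf (N + 1) :=
  ContinuousLinearMap.pi fun i => Fin.cases (motive := fun _ => Conf N →L[ℝ] (Fin 3 → ℝ)) 0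
    (fun j => ContinuousLinearMap.proj j) i

theorem lc_apply {N : ℕ} (X : Conf N) : lc N X = cz N 0 X := by
  funext i
  refine Fin.cases ?_ (fun j => ?_) i
  · simp [lc, cz_zero]
  · simp [lc, cz_succ]

theorem cz_eq {N : ℕ} (z : Fin 3 → ℝ) (X : Conf N) : cz N z X = cz N z 0 + lc N X := by
  rw [lc_apply]
  funext i
  refine Fin.cases ?_ (fun j => ?_) i
  · simp [cz_zero]
  · simp [cz_succ]

theorem cz_single {N : ℕ} (i : Fin N) (w : Fin 3 → ℝ) :
    cz N 0 (Pi.single i w) = Pi.single i.succ w := by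
  funext j
  refine Fin.cases ?_ (fun k => ?_) j
  · rw [cz_zero, Pi.single_eq_of_ne (Fin.succ_ne_zero i).symm]
  · rw [cz_succ]
    by_cases h : k = i
    · subst h
      rw [Pi.single_eq_same, Pi.single_eq_same]
    · rw [Pi.single_eq_of_ne h, Pi.single_eq_of_ne (fun h' => h (Fin.succ_injective _ h'))]

theorem cz_hasFDerivAt {N : ℕ} (z : Fin 3 → ℝ) (X : Conf N) :
    HasFDerivAt (cz N z) (lc N) X := by
  have h : cz N z = fun X => cz N z 0 + lc N X := by
    funext X
    exact cz_eq z X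
  rw [h]
  exact (lc N).hasFDerivAt.const_add _

theorem cz_contDiff {N : ℕ} (z : Fin 3 → ℝ) : ContDiff ℝ ∞ (cz N z) := by
  have h : cz N z = fun X => cz N z 0 + lc N X := by
    funext X
    exact cz_eq z X
  rw [h]
  exact contDiff_const.add (lc N).contDiff

theorem slice_wave {N : ℕ} {L : ℝ} {Ψ : Conf (N + 1) → ℂ} (h : IsWave (N + 1) L Ψ)
    (z : Fin 3 → ℝ) : IsWave N L (fun X => Ψ (cz N z X)) where
  smooth := h.smooth.comp (cz_contDiff z)
  periodic := by
    intro X i n
    have h1 : cz N z (X + Pi.single i (lat L n)) = cz N z X + Pi.single i.succ (lat L n) := by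
      rw [← cz_single, ← lc_apply, cz_eq z (X + _), cz_eq z X, map_add, add_assoc]
    change Ψ (cz N z (X + Pi.single i (lat L n))) = _
    rw [h1, h.periodic]
  symm := by
    intro X σ
    have h1 : cz N z (X ∘ σ) = cz N z X ∘ (Equiv.Perm.decomposeFin.symm (0, σ)) := by
      funext i
      refine Fin.cases ?_ (fun j => ?_) i
      · rw [Function.comp_apply, Equiv.Perm.decomposeFin_symm_apply_zero, cz_zero, cz_zero]
      · rw [Function.comp_apply, Equiv.Perm.decomposeFin_symm_apply_succ, Equiv.swap_self,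
          Equiv.refl_apply, cz_succ, cz_succ, Function.comp_apply]
    change Ψ (cz N z (X ∘ σ)) = _
    rw [h1, h.symm]

theorem slice_fderiv {N : ℕ} {L : ℝ} {Ψ : Conf (N + 1) → ℂ} (h : IsWave (N + 1) L Ψ)
    (z : Fin 3 → ℝ) (X : Conf N) (i : Fin N) (w : Fin 3 → ℝ) :
    fderiv ℝ (fun X => Ψ (cz N z X)) X (Pi.single i w) =
      fderiv ℝ Ψ (cz N z X) (Pi.single i.succ w) := by
  have h1 : HasFDerivAt Ψ (fderiv ℝ Ψ (cz N z X)) (cz N z X) :=
    (h.smooth.differentiable (by simp) _).hasFDerivAt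
  have h2 := h1.comp X (cz_hasFDerivAt z X)
  have h3 : fderiv ℝ (fun X => Ψ (cz N z X)) X = (fderiv ℝ Ψ (cz N z X)).comp (lc N) := h2.fderiv
  rw [h3, ContinuousLinearMap.comp_apply, lc_apply, cz_single]

theorem measurableSet_box (L : ℝ) : MeasurableSet (box L) :=
  MeasurableSet.univ_pi fun _ => measurableSet_Ico

/-- Fubini: the first particle. -/
theorem lintegral_confBox_succ (N : ℕ) (L : ℝ) {f : Conf (N + 1) → ℝ≥0∞} (hf : Measurable f) :
    ∫⁻ x in confBox (N + 1) L, f x =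
      ∫⁻ z in box L, ∫⁻ X in confBox N L, f (cz N z X) := by
  have hp := (volume_preserving_piFinSuccAbove (fun _ : Fin (N + 1) => Fin 3 → ℝ) 0).symm
  have hcc : ∀ p : (Fin 3 → ℝ) × Conf N,
      (MeasurableEquiv.piFinSuccAbove (fun _ : Fin (N + 1) => Fin 3 → ℝ) 0).symm p =
        cz N p.1 p.2 := by
    intro p
    change Fin.insertNth (α := fun _ => Fin 3 → ℝ) 0 p.1 p.2 = _
    rw [Fin.insertNth_zero]
    rfl
  have hset : (MeasurableEquiv.piFinSuccAbove (fun _ : Fin (N + 1) => Fin 3 → ℝ) 0).symm ⁻¹'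
      (confBox (N + 1) L) = box L ×ˢ confBox N L := by
    ext p
    rw [Set.mem_preimage, hcc, Set.mem_prod]
    unfold confBox
    simp only [Set.mem_univ_pi]
    rw [Fin.forall_fin_succ]
    rfl
  have h1 := hp.setLIntegral_comp_preimage_emb
    (MeasurableEquiv.measurableEmbedding _) f (confBox (N + 1) L)
  rw [← h1, hset, Measure.volume_eq_prod, ← Measure.prod_restrict, lintegral_prod]
  · simp_rw [hcc]
  · exact (hf.comp (MeasurableEquiv.measurable _)).aemeasurable

theorem inter_succ {N : ℕ} (W : (Fin 3 → ℝ) → ℝ≥0∞) (z : Fin 3 → ℝ) (X : Conf N) :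
    ∑ i, ∑ j ∈ Finset.Ioi i, W (X i - X j) ≤
      ∑ i, ∑ j ∈ Finset.Ioi i, W (cz N z X i - cz N z X j) := by
  have h1 : ∀ (M : ℕ) (g : Fin M → Fin M → ℝ≥0∞) (i : Fin M),
      ∑ j ∈ Finset.Ioi i, g i j = ∑ j, if i < j then g i j else 0 := by
    intro M g i
    rw [← Finset.sum_filter]
    congr 1
    ext j
    simp
  simp_rw [h1 _ (fun i j => W (X i - X j)), h1 _ (fun i j => W (cz N z X i - cz N z X j))]
  rw [Fin.sum_univ_succ]
  refine le_trans ?_ le_add_self
  refine Finset.sum_le_sum fun i _ => ?_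
  rw [Fin.sum_univ_succ]
  refine le_trans ?_ le_add_self
  refine Finset.sum_le_sum fun j _ => ?_
  simp only [Fin.succ_lt_succ_iff, cz_succ]
  exact le_rfl

theorem kin_succ {N : ℕ} {L : ℝ} {Ψ : Conf (N + 1) → ℂ} (h : IsWave (N + 1) L Ψ)
    (z : Fin 3 → ℝ) (X : Conf N) :
    1 / 2 * ∑ i : Fin N, ∑ b, ‖fderiv ℝ (fun X => Ψ (cz N z X)) X
        (Pi.single i (Pi.single b 1))‖ ^ 2 ≤
      1 / 2 * ∑ i : Fin (N + 1), ∑ b, ‖fderiv ℝ Ψ (cz N z X)
        (Pi.single i (Pi.single b 1))‖ ^ 2 := by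
  refine mul_le_mul_of_nonneg_left ?_ (by norm_num)
  rw [Fin.sum_univ_succ]
  simp_rw [slice_fderiv h z X]
  refine le_add_of_nonneg_left ?_
  exact Finset.sum_nonneg fun b _ => by positivity

theorem measurable_kin {N : ℕ} {L : ℝ} {Ψ : Conf N → ℂ} (h : IsWave N L Ψ) :
    Measurable fun x => ENNReal.ofReal
      (1 / 2 * ∑ i, ∑ b, ‖fderiv ℝ Ψ x (Pi.single i (Pi.single b 1))‖ ^ 2) := by
  have h1 : Continuous (fderiv ℝ Ψ) := h.smooth.continuous_fderiv (by simp)
  have h2 : Continuous fun x =>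
      (1 / 2 * ∑ i, ∑ b, ‖fderiv ℝ Ψ x (Pi.single i (Pi.single b 1))‖ ^ 2 : ℝ) := by
    refine continuous_const.mul (continuous_finsetSum _ fun i _ =>
      continuous_finsetSum _ fun b _ => ?_)
    exact ((h1.clm_apply continuous_const).norm).pow 2
  exact ENNReal.measurable_ofReal.comp h2.measurable

theorem measurable_mass {N : ℕ} {L : ℝ} {Ψ : Conf N → ℂ} (h : IsWave N L Ψ) :
    Measurable fun x => ENNReal.ofReal (‖Ψ x‖ ^ 2) :=
  ENNReal.measurable_ofReal.comp (h.smooth.continuous.norm.pow 2).measurable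

theorem measurable_int {N : ℕ} {L : ℝ} {Ψ : Conf N → ℂ} (h : IsWave N L Ψ)
    {W : (Fin 3 → ℝ) → ℝ≥0∞} (hW : Measurable W) :
    Measurable fun x => (∑ i, ∑ j ∈ Finset.Ioi i, W (x i - x j)) *
      ENNReal.ofReal (‖Ψ x‖ ^ 2) := by
  refine Measurable.mul ?_ (measurable_mass h)
  refine Finset.measurable_fun_sum _ fun i _ => Finset.measurable_fun_sum _ fun j _ => ?_
  exact hW.comp ((measurable_pi_apply i).sub (measurable_pi_apply j))

end NMonoAux

open NMonoAux

theorem mass_ne_top {N : ℕ} {L : ℝ} {Ψ : Conf N → ℂ} (h : IsWave N L Ψ) :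
    mass N L Ψ ≠ ⊤ := by
  unfold mass
  have hK : IsCompact (Set.univ.pi fun _ : Fin N => Set.univ.pi fun _ : Fin 3 => Set.Icc (0 : ℝ) L) :=
    isCompact_univ_pi fun _ => isCompact_univ_pi fun _ => isCompact_Icc
  have hsub : confBox N L ⊆
      (Set.univ.pi fun _ : Fin N => Set.univ.pi fun _ : Fin 3 => Set.Icc (0 : ℝ) L) := by
    unfold confBox box
    exact Set.pi_mono fun _ _ => Set.pi_mono fun _ _ => Set.Ico_subset_Icc_self
  have hc : Continuous fun x => ‖Ψ x‖₊ ^ 2 := (h.smooth.continuous.nnnorm).pow 2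
  have h1 := setLIntegral_lt_top_of_isCompact (μ := (volume : Measure (Conf N)))
    hK.measure_lt_top.ne hK hc
  refine ne_of_lt (lt_of_le_of_lt ?_ h1)
  refine (lintegral_mono_set hsub).trans (le_of_eq ?_)
  refine lintegral_congr fun x => ?_
  rw [ENNReal.ofReal, Real.toNNReal_pow (norm_nonneg _), norm_toNNReal]

theorem groundEnergy_mul_mass_le {N : ℕ} {L : ℝ} {W : (Fin 3 → ℝ) → ℝ≥0∞} {Ψ : Conf N → ℂ}
    (h : IsWave N L Ψ) :
    groundEnergy N L W * mass N L Ψ ≤ kinetic N L Ψ + interaction N L W Ψ := by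
  by_cases h0 : mass N L Ψ = 0
  · rw [h0, mul_zero]
    exact zero_le
  · rw [← ENNReal.le_div_iff_mul_le (Or.inl h0) (Or.inl (mass_ne_top h))]
    unfold groundEnergy
    exact iInf_le_of_le Ψ (iInf_le_of_le h (iInf_le_of_le h0 le_rfl))

theorem groundEnergy_succ {N : ℕ} {L : ℝ} (hL : 0 < L) {W : (Fin 3 → ℝ) → ℝ≥0∞}
    (hW : Measurable W) : groundEnergy N L W ≤ groundEnergy (N + 1) L W := by
  have _ := hL
  conv_rhs => unfold groundEnergy
  refine le_iInf fun Ψ => le_iInf fun h => le_iInf fun h0 => ?_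
  rw [ENNReal.le_div_iff_mul_le (Or.inl h0) (Or.inl (mass_ne_top h))]
  have hk := measurable_kin h
  have hi := measurable_int h hW
  have h1 : mass (N + 1) L Ψ = ∫⁻ z in box L, mass N L (fun X => Ψ (cz N z X)) := by
    unfold mass
    exact lintegral_confBox_succ N L (measurable_mass h)
  have h2 : kinetic (N + 1) L Ψ + interaction (N + 1) L W Ψ =
      ∫⁻ z in box L, ∫⁻ X in confBox N L,
        (ENNReal.ofReal (1 / 2 * ∑ i : Fin (N + 1), ∑ b, ‖fderiv ℝ Ψ (cz N z X)
          (Pi.single i (Pi.single b 1))‖ ^ 2) +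
        (∑ i, ∑ j ∈ Finset.Ioi i, W (cz N z X i - cz N z X j)) *
          ENNReal.ofReal (‖Ψ (cz N z X)‖ ^ 2)) := by
    unfold kinetic interaction
    rw [← lintegral_add_left hk]
    exact lintegral_confBox_succ N L (hk.add hi)
  rw [h1, h2]
  refine (lintegral_const_mul_le _ _).trans (lintegral_mono fun z => ?_)
  refine (groundEnergy_mul_mass_le (slice_wave h z)).trans ?_
  unfold kinetic interaction
  refine (le_lintegral_add _ _).trans (lintegral_mono fun X => ?_)
  refine add_le_add (ENNReal.ofReal_le_ofReal (kin_succ h z X)) ?_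
  exact mul_le_mul_left (inter_succ W z X) _

theorem groundEnergy_mono_N {N M : ℕ} (h : N ≤ M) {L : ℝ} (hL : 0 < L)
    {W : (Fin 3 → ℝ) → ℝ≥0∞} (hW : Measurable W) : groundEnergy N L W ≤ groundEnergy M L W :=
  monotone_nat_of_le_succ (f := fun N => groundEnergy N L W)
    (fun _ => groundEnergy_succ hL hW) h

end Pool.Agent.P76w
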