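import Pool.Agent.Lib.P76w.GaussPoly

/-!
# P76w.SumExp (1.5 h): summing over the particle number
(black box: GaussPoly)

`J(x,y) = c + ∑ m_n x_n y_n`, `|m_n| < 1`; `P` of polynomial growth.  `∑_N |P| |J|^N/N! = |P| e^{|J|}`, which is
integrable by GaussPoly (`|J| ≤ |c| + ∑ |m x y|`).  So `hasSum_integral_of_summable_integral_norm` (on the
product measure; convert the iterated integrals with `integral_prod`).
-/

open MeasureTheory Filter Topology ProbabilityTheory
open scoped BigOperators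

namespace Pool.Agent.P76w

open Pool.Agent.P76s

theorem sum_exp {ι : Type*} [Fintype ι] {m : ι → ℝ} (hm : ∀ n, |m n| < 1) (c : ℝ)
    {P : (ι → ℝ) → (ι → ℝ) → ℂ} (hP : Measurable (Function.uncurry P)) {C : ℝ} {k : ℕ}
    (hPb : ∀ x y, ‖P x y‖ ≤ C * (1 + ∑ n, |x n| + ∑ n, |y n|) ^ k) :
    HasSum (fun N : ℕ => ((N.factorial : ℂ))⁻¹ *
        ∫ x, ∫ y, P x y * ((c + ∑ n, m n * x n * y n : ℝ) : ℂ) ^ N ∂(gs ι) ∂(gs ι))
      ((Real.exp c : ℂ) *
        ∫ x, ∫ y, P x y * (Real.exp (∑ n, m n * x n * y n) : ℂ) ∂(gs ι) ∂(gs ι)) := by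
  have hC : 0 ≤ C := by
    have := (norm_nonneg _).trans (hPb 0 0)
    simpa using this
  set S : (ι → ℝ) × (ι → ℝ) → ℝ := fun p => ∑ n, m n * p.1 n * p.2 n with hS
  have hSm : Measurable S := by
    rw [hS]
    fun_prop
  set A : (ι → ℝ) × (ι → ℝ) → ℝ := fun p => ∑ n, |m n * p.1 n * p.2 n| with hA
  have hSA : ∀ p, |S p| ≤ A p := fun p => Finset.abs_sum_le_sum_abs _ _
  set G : (ι → ℝ) × (ι → ℝ) → ℝ := fun p => C * Real.exp |c| *
    ((1 + ∑ n, |p.1 n| + ∑ n, |p.2 n|) ^ k * Real.exp (A p)) with hGdef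
  have hG : Integrable G ((gs ι).prod (gs ι)) := (integrable_poly_exp hm k).const_mul _
  have hPm : Measurable fun p : (ι → ℝ) × (ι → ℝ) => P p.1 p.2 := hP
  have hJb : ∀ p, Real.exp |c + S p| ≤ Real.exp |c| * Real.exp (A p) := by
    intro p
    rw [← Real.exp_add]
    exact Real.exp_le_exp.2 ((abs_add_le _ _).trans (add_le_add le_rfl (hSA p)))
  have hGP : ∀ p, ‖P p.1 p.2‖ * Real.exp |c + S p| ≤ G p := by
    intro p
    calc ‖P p.1 p.2‖ * Real.exp |c + S p|
        ≤ (C * (1 + ∑ n, |p.1 n| + ∑ n, |p.2 n|) ^ k) * (Real.exp |c| * Real.exp (A p)) :=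
          mul_le_mul (hPb _ _) (hJb p) (Real.exp_pos _).le
            ((norm_nonneg _).trans (hPb _ _))
      _ = G p := by
          rw [hGdef]
          ring
  set F : ℕ → (ι → ℝ) × (ι → ℝ) → ℂ := fun N p =>
    ((N.factorial : ℂ))⁻¹ * (P p.1 p.2 * ((c + S p : ℝ) : ℂ) ^ N) with hF
  have hFm : ∀ N, Measurable (F N) := by
    intro N
    rw [hF]
    exact ((hPm.mul ((Complex.measurable_ofReal.comp (hSm.const_add c)).pow_const N)).const_mul _)
  have hFn : ∀ N p, ‖F N p‖ = ‖P p.1 p.2‖ * (|c + S p| ^ N / (N.factorial : ℝ)) := by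
    intro N p
    rw [hF]
    simp only [norm_mul, norm_inv, norm_pow, Complex.norm_real, Real.norm_eq_abs,
      Complex.norm_natCast]
    ring
  have hexp : ∀ t : ℝ, HasSum (fun N : ℕ => t ^ N / (N.factorial : ℝ)) (Real.exp t) := by
    intro t
    rw [Real.exp_eq_exp_ℝ]
    exact NormedSpace.expSeries_div_hasSum_exp t
  have hexpC : ∀ t : ℂ, HasSum (fun N : ℕ => t ^ N / (N.factorial : ℂ)) (Complex.exp t) := by
    intro t
    rw [Complex.exp_eq_exp_ℂ]
    exact NormedSpace.expSeries_div_hasSum_exp t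
  have hsum : ∀ (u : Finset ℕ) p, ∑ N ∈ u, ‖F N p‖ ≤ G p := by
    intro u p
    refine le_trans ?_ (hGP p)
    simp_rw [hFn]
    rw [← Finset.mul_sum]
    refine mul_le_mul_of_nonneg_left ?_ (norm_nonneg _)
    exact sum_le_hasSum u (fun N _ => by positivity) (hexp |c + S p|)
  have hFi : ∀ N, Integrable (F N) ((gs ι).prod (gs ι)) := by
    intro N
    refine hG.mono' (hFm N).aestronglyMeasurable (Filter.Eventually.of_forall fun p => ?_)
    have := hsum {N} p
    rwa [Finset.sum_singleton] at this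
  have hsummable : Summable fun N => ∫ p, ‖F N p‖ ∂((gs ι).prod (gs ι)) := by
    refine summable_of_sum_le (c := ∫ p, G p ∂((gs ι).prod (gs ι)))
      (fun N => integral_nonneg fun p => norm_nonneg _) fun u => ?_
    rw [← integral_finsetSum u fun N _ => (hFi N).norm]
    exact integral_mono (integrable_finsetSum u fun N _ => (hFi N).norm) hG (hsum u)
  have hmain := hasSum_integral_of_summable_integral_norm hFi hsummable
  have hlim : ∀ p, ∑' N, F N p =
      (Real.exp c : ℂ) * (P p.1 p.2 * (Real.exp (S p) : ℂ)) := by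
    intro p
    have h1 := (hexpC ((c + S p : ℝ) : ℂ)).mul_left (P p.1 p.2)
    have h2 : (fun N : ℕ => P p.1 p.2 * (((c + S p : ℝ) : ℂ) ^ N / (N.factorial : ℂ))) =
        fun N => F N p := by
      funext N
      rw [hF]
      ring
    rw [h2] at h1
    rw [h1.tsum_eq, ← Complex.ofReal_exp, Real.exp_add]
    push_cast
    ring
  simp_rw [hlim] at hmain
  rw [integral_const_mul] at hmain
  have hexpi : Integrable (fun p : (ι → ℝ) × (ι → ℝ) => P p.1 p.2 * (Real.exp (S p) : ℂ))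
      ((gs ι).prod (gs ι)) := by
    have h3 : Integrable (fun p : (ι → ℝ) × (ι → ℝ) =>
        (Real.exp c : ℂ) * (P p.1 p.2 * (Real.exp (S p) : ℂ))) ((gs ι).prod (gs ι)) := by
      refine hG.mono' ?_ (Filter.Eventually.of_forall fun p => ?_)
      · refine Measurable.aestronglyMeasurable ?_
        exact (hPm.mul (Complex.measurable_ofReal.comp
          (Real.measurable_exp.comp hSm))).const_mul _
      · refine le_trans ?_ (hGP p)
        rw [norm_mul, norm_mul, Complex.norm_real, Complex.norm_real, Real.norm_of_nonneg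
          (Real.exp_pos _).le, Real.norm_of_nonneg (Real.exp_pos _).le]
        calc Real.exp c * (‖P p.1 p.2‖ * Real.exp (S p)) =
              ‖P p.1 p.2‖ * Real.exp (c + S p) := by
              rw [Real.exp_add]
              ring
          _ ≤ ‖P p.1 p.2‖ * Real.exp |c + S p| :=
              mul_le_mul_of_nonneg_left (Real.exp_le_exp.2 (le_abs_self _)) (norm_nonneg _)
    have h4 := h3.const_mul (((Real.exp c : ℝ) : ℂ))⁻¹
    refine h4.congr (Filter.Eventually.of_forall fun p => ?_)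
    have h5 : ((Real.exp c : ℝ) : ℂ) ≠ 0 := by
      exact_mod_cast (Real.exp_pos c).ne'
    change ((Real.exp c : ℝ) : ℂ)⁻¹ * (((Real.exp c : ℝ) : ℂ) *
      (P p.1 p.2 * ((Real.exp (S p) : ℝ) : ℂ))) = _
    rw [inv_mul_cancel_left₀ h5]
  rw [integral_prod _ hexpi] at hmain
  have hterm : (fun N => ∫ p, F N p ∂((gs ι).prod (gs ι))) = fun N : ℕ =>
      ((N.factorial : ℂ))⁻¹ *
        ∫ x, ∫ y, P x y * ((c + ∑ n, m n * x n * y n : ℝ) : ℂ) ^ N ∂(gs ι) ∂(gs ι) := by
    funext N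
    rw [integral_prod _ (hFi N), ← integral_const_mul]
    refine integral_congr_ae (Filter.Eventually.of_forall fun x => ?_)
    change ∫ y, ((N.factorial : ℂ))⁻¹ *
      (P x y * ((c + ∑ n, m n * x n * y n : ℝ) : ℂ) ^ N) ∂(gs ι) = ((N.factorial : ℂ))⁻¹ *
        ∫ y, P x y * ((c + ∑ n, m n * x n * y n : ℝ) : ℂ) ^ N ∂(gs ι)
    rw [← integral_const_mul]
  rw [hterm] at hmain
  exact hmain

end Pool.Agent.P76w
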