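import Pool.Agent.Lib.P76w.Energy
import Pool.Agent.Lib.P76w.IJCalc
import Pool.Agent.Lib.P76w.SumExp
import Pool.Agent.Lib.P76w.NMono

/-!
# P76w.Finite (2.5 h): the upper bound with finitely many modes
(black boxes: Energy, IJCalc, SumExp, NMono, FldCalc, TiltW.tw0)

`w_N = (N!)⁻¹ (mass psiN).toReal ≥ 0`, `Z = exp(r L³) ZZ > 0`.
* `JJ = r L³ + ∑ mm x x'`, `|mm| < 1`, so `sum_exp` (`c = r L³`) applies to `P = 1, KJ, IJ` (polynomial growth).
  `hasSum w_N = Z` (`P = 1`, `tw0`).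
* moments: `∑ N w_N`: `N/N! JJ^N = JJ · JJ^(N-1)/(N-1)!`: shift the index (`hasSum_nat_add_iff`/`HasSum` of the
  sequence with `P = JJ`): `∑ N w_N = Z nbar`; `∑ N(N-1) w_N = Z E[JJ²]`, `∑ N² w_N = Z (nbar² + vbar)`
  (`vbar = nbar + ∑(a²+gm²)`).  So `∑ (N - nbar)² w_N = Z vbar`.
* energy: `∑ (N!)⁻¹ kinetic.toReal = ½ Z ∑ nsq gm` (shift by 1), `∑ (N!)⁻¹ interaction.toReal =
  ½ Z L³ ∫_box w QQ` (shift by 2): total `Z HH`.
* Chebyshev: for `M < nbar`: `∑_{N<M} w_N ≤ Z vbar/(nbar - M)²`, so `∑_{N≥M} w_N ≥ Z(1 - vbar/(nbar-M)²)`.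
* `groundEnergy M · w_N ≤ groundEnergy N · w_N ≤ (N!)⁻¹(kinetic + interaction)` for `N ≥ M` (`groundEnergy_mono_N`,
  `groundEnergy_mul_mass_le`).  Sum in `ℝ≥0∞`:
  `groundEnergy M · ofReal(Z(1 - vbar/(nbar-M)²)) ≤ ofReal(Z HH)`; divide.
-/

open MeasureTheory Filter Topology ProbabilityTheory
open scoped BigOperators ContDiff ComplexConjugate ENNReal

namespace Pool.Agent.P76w

open Pool.Agent.P76s

namespace FiniteAux

variable {L r : ℝ} {I : Finset (Fin 3 → ℤ)} {a : (Fin 3 → ℤ) → ℝ}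

/-- the size function -/
noncomputable def SS {I : Finset (Fin 3 → ℤ)} (x x' : I → ℝ) : ℝ := 1 + ∑ n, |x n| + ∑ n, |x' n|

lemma one_le_SS (x x' : I → ℝ) : 1 ≤ SS x x' := by
  unfold SS
  have h1 : 0 ≤ ∑ n, |x n| := Finset.sum_nonneg fun n _ => abs_nonneg _
  have h2 : 0 ≤ ∑ n, |x' n| := Finset.sum_nonneg fun n _ => abs_nonneg _
  linarith

lemma le_SS (x x' : I → ℝ) (n : I) : |x n| ≤ SS x x' ∧ |x' n| ≤ SS x x' := by
  have h1 : 0 ≤ ∑ n, |x n| := Finset.sum_nonneg fun n _ => abs_nonneg _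
  have h2 : 0 ≤ ∑ n, |x' n| := Finset.sum_nonneg fun n _ => abs_nonneg _
  have h3 : |x n| ≤ ∑ n, |x n| :=
    Finset.single_le_sum (f := fun n : I => |x n|) (fun n _ => abs_nonneg _) (Finset.mem_univ n)
  have h4 : |x' n| ≤ ∑ n, |x' n| :=
    Finset.single_le_sum (f := fun n : I => |x' n|) (fun n _ => abs_nonneg _) (Finset.mem_univ n)
  unfold SS
  constructor <;> linarith

lemma abs_sum_le (c : I → ℝ) (x x' : I → ℝ) :
    |∑ n : I, c n * x n * x' n| ≤ (∑ n, |c n|) * SS x x' ^ 2 := by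
  refine (Finset.abs_sum_le_sum_abs _ _).trans ?_
  rw [Finset.sum_mul]
  refine Finset.sum_le_sum fun n _ => ?_
  rw [abs_mul, abs_mul, mul_assoc]
  refine mul_le_mul_of_nonneg_left ?_ (abs_nonneg _)
  have h := le_SS x x' n
  have h0 : 0 ≤ SS x x' := (one_le_SS x x').trans' zero_le_one
  calc |x n| * |x' n| ≤ SS x x' * SS x x' := mul_le_mul h.1 h.2 (abs_nonneg _) h0
    _ = SS x x' ^ 2 := by ring

lemma JJ_bound (L r : ℝ) (I : Finset (Fin 3 → ℤ)) (a : (Fin 3 → ℤ) → ℝ) (x x' : I → ℝ) :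
    |JJ L r I a x x'| ≤ (|r * L ^ 3| + ∑ n : I, |mm (a n)|) * SS x x' ^ 2 := by
  unfold JJ
  refine (abs_add_le _ _).trans ?_
  rw [add_mul]
  refine add_le_add ?_ (abs_sum_le (fun n => mm (a n)) x x')
  have h : 1 ≤ SS x x' ^ 2 := one_le_pow₀ (one_le_SS x x')
  nlinarith [abs_nonneg (r * L ^ 3)]

lemma KJ_bound (L : ℝ) (I : Finset (Fin 3 → ℤ)) (a : (Fin 3 → ℤ) → ℝ) (x x' : I → ℝ) :
    |KJ L I a x x'| ≤ (∑ n : I, |nsq L n * mm (a n)|) * SS x x' ^ 2 := by
  unfold KJ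
  exact abs_sum_le (fun n => nsq L n * mm (a n)) x x'

lemma JJ_meas (L r : ℝ) (I : Finset (Fin 3 → ℤ)) (a : (Fin 3 → ℤ) → ℝ) :
    Measurable (Function.uncurry (JJ L r I a)) := by
  unfold JJ Function.uncurry
  fun_prop

lemma KJ_meas (L : ℝ) (I : Finset (Fin 3 → ℤ)) (a : (Fin 3 → ℤ) → ℝ) :
    Measurable (Function.uncurry (KJ L I a)) := by
  unfold KJ Function.uncurry
  fun_prop

lemma mm_abs_lt (a : (Fin 3 → ℤ) → ℝ) (n : I) : |mm (a n)| < 1 := by
  rw [abs_of_nonneg (mm_nonneg _)]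
  exact mm_lt_one _

/-- `sum_exp` in our notation -/
lemma sum_JJ (L r : ℝ) (I : Finset (Fin 3 → ℤ)) (a : (Fin 3 → ℤ) → ℝ)
    {P : (I → ℝ) → (I → ℝ) → ℂ} (hP : Measurable (Function.uncurry P)) {C : ℝ} {k : ℕ}
    (hPb : ∀ x y, ‖P x y‖ ≤ C * SS x y ^ k) {V : ℝ}
    (hV : ∫ x, ∫ y, P x y * (Real.exp (∑ n : I, mm (a n) * x n * y n) : ℂ) ∂(gs I) ∂(gs I) =
      ((ZZ I a * V : ℝ) : ℂ)) :
    HasSum (fun N : ℕ => ((N.factorial : ℂ))⁻¹ *
        ∫ x, ∫ y, P x y * ((JJ L r I a x y : ℝ) : ℂ) ^ N ∂(gs I) ∂(gs I))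
      ((Real.exp (r * L ^ 3) * ZZ I a * V : ℝ) : ℂ) := by
  have h := sum_exp (m := fun n : I => mm (a n)) (mm_abs_lt a) (r * L ^ 3) hP hPb
  rw [hV, ← Complex.ofReal_mul, ← mul_assoc] at h
  exact h

/-- the same for real functions -/
lemma sum_JJ_real (L r : ℝ) (I : Finset (Fin 3 → ℤ)) (a : (Fin 3 → ℤ) → ℝ)
    {Q : (I → ℝ) → (I → ℝ) → ℝ} (hQ : Measurable (Function.uncurry Q)) {C : ℝ} {k : ℕ}
    (hQb : ∀ x y, |Q x y| ≤ C * SS x y ^ k) {V : ℝ}
    (hV : ∫ x, ∫ y, ((Q x y : ℝ) : ℂ) *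
      (Real.exp (∑ n : I, mm (a n) * x n * y n) : ℂ) ∂(gs I) ∂(gs I) = ((ZZ I a * V : ℝ) : ℂ)) :
    HasSum (fun N : ℕ => ((N.factorial : ℝ))⁻¹ *
        ∫ x, ∫ y, Q x y * JJ L r I a x y ^ N ∂(gs I) ∂(gs I))
      (Real.exp (r * L ^ 3) * ZZ I a * V) := by
  have h := sum_JJ L r I a (P := fun x y => ((Q x y : ℝ) : ℂ))
    (Complex.measurable_ofReal.comp hQ) (C := C) (k := k)
    (fun x y => by rw [Complex.norm_real, Real.norm_eq_abs]; exact hQb x y) hV
  rw [← Complex.hasSum_ofReal]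
  refine h.congr_fun fun N => ?_
  rw [Complex.ofReal_mul, ← integral_complex_ofReal, Complex.ofReal_inv, Complex.ofReal_natCast]
  congr 1
  refine integral_congr_ae (Filter.Eventually.of_forall fun x => ?_)
  simp only
  rw [← integral_complex_ofReal]
  refine integral_congr_ae (Filter.Eventually.of_forall fun y => ?_)
  simp only
  rw [Complex.ofReal_mul, Complex.ofReal_pow]

/-- the weights -/
noncomputable def ww (L r : ℝ) (I : Finset (Fin 3 → ℤ)) (a : (Fin 3 → ℤ) → ℝ) (N : ℕ) : ℝ :=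
  ((N.factorial : ℝ))⁻¹ * ∫ x, ∫ y, JJ L r I a x y ^ N ∂(gs I) ∂(gs I)

/-- the normalisation -/
noncomputable def Zt (L r : ℝ) (I : Finset (Fin 3 → ℤ)) (a : (Fin 3 → ℤ) → ℝ) : ℝ :=
  Real.exp (r * L ^ 3) * ZZ I a

lemma Zt_pos (L r : ℝ) (I : Finset (Fin 3 → ℤ)) (a : (Fin 3 → ℤ) → ℝ) : 0 < Zt L r I a := by
  unfold Zt ZZ
  refine mul_pos (Real.exp_pos _) (Finset.prod_pos fun n _ => inv_pos.mpr (Real.sqrt_pos.mpr ?_))
  have h0 := mm_nonneg (a n)
  have h1 := mm_lt_one (a n)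
  nlinarith

lemma hasSum_w (L r : ℝ) (I : Finset (Fin 3 → ℤ)) (a : (Fin 3 → ℤ) → ℝ) :
    HasSum (ww L r I a) (Zt L r I a) := by
  have h := sum_JJ_real L r I a (Q := fun _ _ => 1) measurable_const (C := 1) (k := 0)
    (fun x y => by simp) (V := 1) (by
      simp only [one_mul, mul_one, Complex.ofReal_one]
      exact tw0 (mm_abs_lt a))
  simp only [one_mul, mul_one] at h
  exact h

lemma fact_inv (N : ℕ) : (((N + 1).factorial : ℝ))⁻¹ * ((N : ℝ) + 1) = ((N.factorial : ℝ))⁻¹ := by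
  have h1 : ((N + 1).factorial : ℝ) = ((N : ℝ) + 1) * (N.factorial : ℝ) := by
    rw [Nat.factorial_succ]; push_cast; ring
  have h2 : ((N.factorial : ℝ)) ≠ 0 := by positivity
  have h3 : ((N : ℝ) + 1) ≠ 0 := by positivity
  rw [h1]
  field_simp

lemma hasSum_w1 (L r : ℝ) (I : Finset (Fin 3 → ℤ)) (a : (Fin 3 → ℤ) → ℝ) :
    HasSum (fun N : ℕ => (N : ℝ) * ww L r I a N) (Zt L r I a * nbar L r I a) := by
  have h := sum_JJ_real L r I a (Q := JJ L r I a) (JJ_meas L r I a) (JJ_bound L r I a)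
    (tw_JJ a)
  have h2 : HasSum (fun N : ℕ => ((N + 1 : ℕ) : ℝ) * ww L r I a (N + 1))
      (Zt L r I a * nbar L r I a) := by
    refine h.congr_fun fun N => ?_
    unfold ww
    rw [← fact_inv N]
    have e : ∀ x y : I → ℝ, JJ L r I a x y * JJ L r I a x y ^ N = JJ L r I a x y ^ (N + 1) := by
      intro x y; ring
    simp_rw [e]
    push_cast
    ring
  rw [hasSum_nat_add_iff (f := fun N : ℕ => (N : ℝ) * ww L r I a N) 1] at h2
  simpa using h2

lemma hasSum_w2 (L r : ℝ) (I : Finset (Fin 3 → ℤ)) (a : (Fin 3 → ℤ) → ℝ) :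
    HasSum (fun N : ℕ => (N : ℝ) * ((N : ℝ) - 1) * ww L r I a N)
      (Zt L r I a * (nbar L r I a ^ 2 + ∑ n : I, (a n ^ 2 + gm (a n) ^ 2))) := by
  have hb : ∀ x y : I → ℝ, |JJ L r I a x y ^ 2| ≤
      (|r * L ^ 3| + ∑ n : I, |mm (a n)|) ^ 2 * SS x y ^ 4 := by
    intro x y
    rw [abs_pow]
    calc |JJ L r I a x y| ^ 2 ≤ ((|r * L ^ 3| + ∑ n : I, |mm (a n)|) * SS x y ^ 2) ^ 2 :=
          pow_le_pow_left₀ (abs_nonneg _) (JJ_bound L r I a x y) 2
      _ = _ := by ring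
  have h := sum_JJ_real L r I a (Q := fun x y => JJ L r I a x y ^ 2)
    ((JJ_meas L r I a).pow_const 2) hb (tw_JJ2 a)
  have h2 : HasSum (fun N : ℕ => ((N + 2 : ℕ) : ℝ) * (((N + 2 : ℕ) : ℝ) - 1) * ww L r I a (N + 2))
      (Zt L r I a * (nbar L r I a ^ 2 + ∑ n : I, (a n ^ 2 + gm (a n) ^ 2))) := by
    refine h.congr_fun fun N => ?_
    unfold ww
    rw [← fact_inv N, ← fact_inv (N + 1)]
    have e : ∀ x y : I → ℝ, JJ L r I a x y ^ 2 * JJ L r I a x y ^ N =
        JJ L r I a x y ^ (N + 2) := by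
      intro x y; ring
    simp_rw [e]
    push_cast
    ring
  rw [hasSum_nat_add_iff (f := fun N : ℕ => (N : ℝ) * ((N : ℝ) - 1) * ww L r I a N) 2] at h2
  simpa [Finset.sum_range_succ] using h2

lemma hasSum_var (L r : ℝ) (I : Finset (Fin 3 → ℤ)) (a : (Fin 3 → ℤ) → ℝ) :
    HasSum (fun N : ℕ => ((N : ℝ) - nbar L r I a) ^ 2 * ww L r I a N)
      (Zt L r I a * vbar L r I a) := by
  have h0 := (hasSum_w L r I a).mul_left (nbar L r I a ^ 2)
  have h1 := (hasSum_w1 L r I a).mul_left (1 - 2 * nbar L r I a)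
  have h2 := hasSum_w2 L r I a
  have h3 := (h2.add h1).add h0
  have e1 : Zt L r I a * (nbar L r I a ^ 2 + ∑ n : I, (a n ^ 2 + gm (a n) ^ 2)) +
      (1 - 2 * nbar L r I a) * (Zt L r I a * nbar L r I a) + nbar L r I a ^ 2 * Zt L r I a =
      Zt L r I a * vbar L r I a := by
    unfold vbar
    ring
  rw [e1] at h3
  refine h3.congr_fun fun N => ?_
  ring

/-- the kinetic terms -/
noncomputable def kk (L r : ℝ) (I : Finset (Fin 3 → ℤ)) (a : (Fin 3 → ℤ) → ℝ) (N : ℕ) : ℝ :=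
  (N / 2 * ∫ x, ∫ x', KJ L I a x x' * JJ L r I a x x' ^ (N - 1) ∂(gs I) ∂(gs I))

lemma hasSum_kin (L r : ℝ) (I : Finset (Fin 3 → ℤ)) (a : (Fin 3 → ℤ) → ℝ) :
    HasSum (fun N : ℕ => ((N.factorial : ℝ))⁻¹ * kk L r I a N)
      (Zt L r I a * (1 / 2 * ∑ n : I, nsq L n * gm (a n))) := by
  have h := (sum_JJ_real L r I a (Q := KJ L I a) (KJ_meas L I a) (KJ_bound L I a)
    (tw_KJ a)).mul_left (1 / 2)
  have h2 : HasSum (fun N : ℕ => (((N + 1).factorial : ℝ))⁻¹ * kk L r I a (N + 1))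
      (Zt L r I a * (1 / 2 * ∑ n : I, nsq L n * gm (a n))) := by
    have e1 : 1 / 2 * (Real.exp (r * L ^ 3) * ZZ I a * ∑ n : I, nsq L n * gm (a n)) =
        Zt L r I a * (1 / 2 * ∑ n : I, nsq L n * gm (a n)) := by
      unfold Zt; ring
    rw [e1] at h
    refine h.congr_fun fun N => ?_
    unfold kk
    rw [← fact_inv N, Nat.add_sub_cancel]
    push_cast
    ring
  rw [hasSum_nat_add_iff (f := fun N : ℕ => ((N.factorial : ℝ))⁻¹ * kk L r I a N) 1] at h2
  simpa [kk] using h2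

lemma hasSum_int {L r : ℝ} (hL : 0 < L) (hr : 0 ≤ r) {I : Finset (Fin 3 → ℤ)}
    {a : (Fin 3 → ℤ) → ℝ} (hI : Modes I a)
    {W : (Fin 3 → ℝ) → ℝ≥0∞} (hW : Measurable W)
    (hWp : ∀ y (n : Fin 3 → ℤ), W (y + lat L n) = W y) (hWi : ∫⁻ y in box L, W y ≠ ⊤) :
    HasSum (fun N : ℕ => ((N.factorial : ℝ))⁻¹ * (interaction N L W (psiN L r I a N)).toReal)
      (Zt L r I a * (1 / 2 * (L ^ 3 * ∫ z in box L, (W z).toReal * QQ L r I a z))) := by
  obtain ⟨hm, C, hC, hb⟩ := IJ_bound (L := L) (r := r) hL (I := I) a hW hWp hWi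
  have h := (sum_JJ L r I a (P := IJ L r I a W) hm (C := C) (k := 4)
    (fun x y => hb x y) (tw_IJ hL hr hI hW hWp hWi)).mul_left (1 / 2 : ℂ)
  have h2 : HasSum (fun N : ℕ => ((((((N + 2).factorial : ℝ))⁻¹ *
      (interaction (N + 2) L W (psiN L r I a (N + 2))).toReal) : ℝ) : ℂ))
      ((Zt L r I a * (1 / 2 * (L ^ 3 * ∫ z in box L, (W z).toReal * QQ L r I a z)) : ℝ) : ℂ) := by
    have e1 : (1 / 2 : ℂ) * ((Real.exp (r * L ^ 3) * ZZ I a *
        (L ^ 3 * ∫ z in box L, (W z).toReal * QQ L r I a z) : ℝ) : ℂ) =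
        ((Zt L r I a * (1 / 2 * (L ^ 3 * ∫ z in box L, (W z).toReal * QQ L r I a z)) : ℝ) : ℂ) := by
      unfold Zt; push_cast; ring
    rw [e1] at h
    refine h.congr_fun fun N => ?_
    have h3 := (interaction_psiN hL hr hI.zero a hW hWp hWi (N + 2)).2
    rw [Complex.ofReal_mul, h3, Nat.add_sub_cancel]
    have h4 : ((N.factorial : ℂ))⁻¹ = (((((N + 2).factorial : ℝ))⁻¹ *
        (((N : ℝ) + 1) + 1) * ((N : ℝ) + 1) : ℝ) : ℂ) := by
      have h5 := fact_inv N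
      have h6 := fact_inv (N + 1)
      push_cast at h6
      rw [h6, h5]
      push_cast
      rfl
    rw [h4]
    push_cast
    ring
  rw [Complex.hasSum_ofReal] at h2
  rw [hasSum_nat_add_iff (f := fun N : ℕ => ((N.factorial : ℝ))⁻¹ *
    (interaction N L W (psiN L r I a N)).toReal) 2] at h2
  have z0 : (interaction 0 L W (psiN L r I a 0)).toReal = 0 := by
    have h3 := (interaction_psiN hL hr hI.zero a hW hWp hWi 0).2
    simpa using h3
  have z1 : (interaction 1 L W (psiN L r I a 1)).toReal = 0 := by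
    have h3 := (interaction_psiN hL hr hI.zero a hW hWp hWi 1).2
    simpa using h3
  simpa [Finset.sum_range_succ, z0, z1] using h2

end FiniteAux

open FiniteAux

theorem finite_bound {L r : ℝ} (hL : 0 < L) (hr : 0 ≤ r) {I : Finset (Fin 3 → ℤ)}
    {a : (Fin 3 → ℤ) → ℝ} (hI : Modes I a)
    {W : (Fin 3 → ℝ) → ℝ≥0∞} (hW : Measurable W)
    (hWp : ∀ y (n : Fin 3 → ℤ), W (y + lat L n) = W y) (hWi : ∫⁻ y in box L, W y ≠ ⊤)
    {M : ℕ} (hM : (M : ℝ) < nbar L r I a) (hM2 : vbar L r I a < (nbar L r I a - M) ^ 2) :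
    groundEnergy M L W ≤
      ENNReal.ofReal (HH L r I a W / (1 - vbar L r I a / (nbar L r I a - M) ^ 2)) := by
  set Z := Zt L r I a with hZ
  have hZ0 : 0 < Z := Zt_pos L r I a
  set w := ww L r I a with hw
  set δ := vbar L r I a / (nbar L r I a - M) ^ 2 with hδ
  have hd : 0 < nbar L r I a - M := by linarith
  have hd2 : 0 < (nbar L r I a - M) ^ 2 := by positivity
  have hδ1 : δ < 1 := by rw [hδ, div_lt_one hd2]; exact hM2
  have hw0 : ∀ N, 0 ≤ w N := by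
    intro N
    rw [hw]; unfold ww
    exact mul_nonneg (by positivity) (mass_psiN hL hr hI.zero a N).2
  -- the tail of the weights
  have hsum := hasSum_w L r I a
  have hvar := hasSum_var L r I a
  set u : ℕ → ℝ := fun N => if M ≤ N then w N else 0 with hu
  have hu0 : ∀ N, 0 ≤ u N := by
    intro N; simp only [hu]; split_ifs
    · exact hw0 N
    · exact le_rfl
  have huw : ∀ N, u N ≤ w N := by
    intro N; simp only [hu]; split_ifs
    · exact le_rfl
    · exact hw0 N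
  have hus : Summable u := Summable.of_nonneg_of_le hu0 huw hsum.summable
  have hlow : Z * (1 - δ) ≤ ∑' N, u N := by
    have h1 : HasSum (fun N => w N - u N) (Z - ∑' N, u N) := hsum.sub hus.hasSum
    have h2 := hvar.mul_left (1 / (nbar L r I a - M) ^ 2)
    have h3 : Z - ∑' N, u N ≤ 1 / (nbar L r I a - M) ^ 2 * (Z * vbar L r I a) := by
      refine hasSum_le (fun N => ?_) h1 h2
      simp only [hu]
      split_ifs with hMN
      · rw [sub_self]
        exact mul_nonneg (by positivity) (mul_nonneg (sq_nonneg _) (hw0 N))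
      · rw [sub_zero, ← mul_assoc]
        have h4 : 1 ≤ 1 / (nbar L r I a - M) ^ 2 * ((N : ℝ) - nbar L r I a) ^ 2 := by
          rw [one_div, ← div_eq_inv_mul, one_le_div hd2]
          have h5 : (N : ℝ) ≤ M := by exact_mod_cast (not_le.mp hMN).le
          have h6 : nbar L r I a - M ≤ nbar L r I a - N := by linarith
          calc (nbar L r I a - M) ^ 2 ≤ (nbar L r I a - N) ^ 2 :=
                pow_le_pow_left₀ hd.le h6 2
            _ = _ := by ring
        exact le_mul_of_one_le_left (hw0 N) h4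
    have h7 : 1 / (nbar L r I a - M) ^ 2 * (Z * vbar L r I a) = Z * δ := by
      rw [hδ]; ring
    rw [h7] at h3
    linarith
  -- the energies
  have hen := (hasSum_kin L r I a).add (hasSum_int hL hr hI hW hWp hWi)
  have hterm0 : ∀ N : ℕ, 0 ≤ ((N.factorial : ℝ))⁻¹ * kk L r I a N +
      ((N.factorial : ℝ))⁻¹ * (interaction N L W (psiN L r I a N)).toReal := by
    intro N
    refine add_nonneg (mul_nonneg (by positivity) ?_) (mul_nonneg (by positivity) ENNReal.toReal_nonneg)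
    exact (kinetic_psiN hL hr hI.zero a N).2
  have hHH : Zt L r I a * (1 / 2 * ∑ n : I, nsq L n * gm (a n)) +
      Zt L r I a * (1 / 2 * (L ^ 3 * ∫ z in box L, (W z).toReal * QQ L r I a z)) =
      Z * HH L r I a W := by
    unfold HH
    rw [hZ]
    ring
  rw [hHH] at hen
  have hkey : ∀ N, groundEnergy M L W * ENNReal.ofReal (u N) ≤
      ENNReal.ofReal (((N.factorial : ℝ))⁻¹ * kk L r I a N +
      ((N.factorial : ℝ))⁻¹ * (interaction N L W (psiN L r I a N)).toReal) := by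
    intro N
    by_cases hMN : M ≤ N
    · have e1 : u N = w N := by simp only [hu]; rw [if_pos hMN]
      have hfac : (0 : ℝ) ≤ ((N.factorial : ℝ))⁻¹ := by positivity
      have hmass := mass_psiN hL hr hI.zero a N
      have hkin : kinetic N L (psiN L r I a N) = ENNReal.ofReal (kk L r I a N) ∧
          0 ≤ kk L r I a N := kinetic_psiN hL hr hI.zero a N
      have hint := interaction_psiN hL hr hI.zero a hW hWp hWi N
      have e2 : ENNReal.ofReal (w N) =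
          ENNReal.ofReal ((N.factorial : ℝ))⁻¹ * mass N L (psiN L r I a N) := by
        rw [hmass.1, ← ENNReal.ofReal_mul hfac]
        rfl
      have e3 : ENNReal.ofReal (((N.factorial : ℝ))⁻¹ * kk L r I a N +
          ((N.factorial : ℝ))⁻¹ * (interaction N L W (psiN L r I a N)).toReal) =
          ENNReal.ofReal ((N.factorial : ℝ))⁻¹ * (kinetic N L (psiN L r I a N) +
            interaction N L W (psiN L r I a N)) := by
        rw [ENNReal.ofReal_add (mul_nonneg hfac hkin.2)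
          (mul_nonneg hfac ENNReal.toReal_nonneg), ENNReal.ofReal_mul hfac,
          ENNReal.ofReal_mul hfac, ENNReal.ofReal_toReal hint.1, hkin.1, mul_add]
      rw [e1, e2, e3, ← mul_assoc, mul_comm (groundEnergy M L W), mul_assoc]
      refine mul_le_mul_right ?_ _
      refine (mul_le_mul_left (groundEnergy_mono_N hMN hL hW) _).trans ?_
      exact groundEnergy_mul_mass_le (psiN_wave hL r I a N)
    · have e1 : u N = 0 := by simp only [hu]; rw [if_neg hMN]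
      rw [e1, ENNReal.ofReal_zero, mul_zero]
      exact bot_le
  have htot : groundEnergy M L W * ENNReal.ofReal (∑' N, u N) ≤
      ENNReal.ofReal (Z * HH L r I a W) := by
    rw [ENNReal.ofReal_tsum_of_nonneg hu0 hus, ← ENNReal.tsum_mul_left, ← hen.tsum_eq,
      ENNReal.ofReal_tsum_of_nonneg hterm0 hen.summable]
    exact ENNReal.tsum_le_tsum hkey
  have hfin : groundEnergy M L W * ENNReal.ofReal (Z * (1 - δ)) ≤
      ENNReal.ofReal (Z * HH L r I a W) :=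
    (mul_le_mul_right (ENNReal.ofReal_le_ofReal hlow) _).trans htot
  have hpos : 0 < Z * (1 - δ) := mul_pos hZ0 (by linarith)
  have e5 : HH L r I a W / (1 - δ) = Z * HH L r I a W / (Z * (1 - δ)) := by
    rw [mul_div_mul_left _ _ hZ0.ne']
  rw [e5, ENNReal.ofReal_div_of_pos hpos]
  rw [ENNReal.le_div_iff_mul_le (Or.inl ?_) (Or.inl ENNReal.ofReal_ne_top)]
  · exact hfin
  · rw [Ne, ENNReal.ofReal_eq_zero, not_le]
    exact hpos

end Pool.Agent.P76w
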