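import Pool.Agent.Lib.P76w.Alg

/-!
# P76w.Gain (1 h): the lower bound for the gain
(black box: Alg only for basic facts)

`b = ct v₁` is continuous, `b 0 = V = ∫ v₁ > 0`, `b → 0` at infinity.  By the intermediate value theorem
(on the ray `s ↦ s • e₁`) there is `k₀` with `b k₀ = V/2`, so the open set `{V/4 < b < 3V/4} ∩ ball 0 R`
(`R > |k₀|`) is non-empty, of positive (finite) measure; on it `K = ek k ≤ K_R`.
For data with `D₀ ≤ E/14`: `ρ lam V = E + D₀`, so there `T ≥ ρ lam b - D₀ ≥ (E+D₀)/4 - D₀ ≥ E/8`,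
`E - T ≥ E - ¾(E+D₀) - D₀ ≥ E/8`, and `K + E ≤ (K_R+1)(1+E)`, so the integrand is at least
`E³/(65536 (K_R+1)² (1+E)²)`.  The integrand is nonnegative and integrable:
`T³(E-T)/(16E(K+E)²) ≤ T² · 2E²/(16 E E²)`, and `T² ∈ L¹`.
-/

open MeasureTheory Filter Topology
open scoped BigOperators

namespace Pool.Agent.P76w

open Pool.Agent.P76s

private lemma gain_set {v₁ : E3 → ℝ} (hv : Pot v₁) (hb : Continuous (ct v₁))
    (h0 : ct v₁ 0 = ∫ x, v₁ x) (hlim : Tendsto (ct v₁) (cocompact E3) (𝓝 0)) :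
    ∃ (R : ℝ) (U : Set E3), 0 < R ∧ IsOpen U ∧ U.Nonempty ∧ U ⊆ Metric.ball 0 R ∧
      ∀ k ∈ U, (∫ x, v₁ x) / 4 < ct v₁ k ∧ ct v₁ k < 3 * (∫ x, v₁ x) / 4 := by
  have hV := hv.pos
  set V := ∫ x, v₁ x with hVdef
  have hlow : ∃ k, ct v₁ k ≤ V / 2 := by
    have h1 : ∀ᶠ k in cocompact E3, ct v₁ k < V / 2 :=
      hlim.eventually_lt_const (by linarith)
    obtain ⟨k, hk⟩ := h1.exists
    exact ⟨k, hk.le⟩
  have hhigh : ∃ k, V / 2 ≤ ct v₁ k := ⟨0, by rw [h0]; linarith⟩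
  obtain ⟨k₀, hk₀⟩ := mem_range_of_exists_le_of_exists_ge hb hlow hhigh
  refine ⟨‖k₀‖ + 1, {k | V / 4 < ct v₁ k} ∩ {k | ct v₁ k < 3 * V / 4} ∩ Metric.ball 0 (‖k₀‖ + 1),
    by positivity, ?_, ?_, ?_, ?_⟩
  · exact ((isOpen_lt continuous_const hb).inter (isOpen_lt hb continuous_const)).inter
      Metric.isOpen_ball
  · refine ⟨k₀, ⟨?_, ?_⟩, ?_⟩
    · show V / 4 < ct v₁ k₀
      rw [hk₀]; linarith
    · show ct v₁ k₀ < 3 * V / 4
      rw [hk₀]; linarith
    · rw [mem_ball_zero_iff]; linarith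
  · exact Set.inter_subset_right
  · intro k hk
    exact ⟨hk.1.1, hk.1.2⟩

private lemma ek_nonneg' (k : E3) : 0 ≤ ek k := by
  unfold ek; positivity

private lemma integrand_bounds {E t K : ℝ} (hE : 0 < E) (ht : |t| ≤ E) (hK : 0 ≤ K) :
    0 ≤ (max t 0) ^ 3 * (E - t) / (16 * E * (K + E) ^ 2) ∧
    (max t 0) ^ 3 * (E - t) / (16 * E * (K + E) ^ 2) ≤ t ^ 2 / (8 * E) := by
  have ht1 := (abs_le.mp ht).1
  have ht2 := (abs_le.mp ht).2
  have hm0 : 0 ≤ max t 0 := le_max_right _ _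
  refine ⟨?_, ?_⟩
  · apply div_nonneg
    · exact mul_nonneg (pow_nonneg hm0 3) (by linarith)
    · positivity
  · rcases le_total t 0 with h | h
    · rw [max_eq_right h]
      have : (0:ℝ) ^ 3 * (E - t) / (16 * E * (K + E) ^ 2) = 0 := by simp
      rw [this]; positivity
    · rw [max_eq_left h]
      rw [div_le_div_iff₀ (by positivity) (by positivity)]
      have h1 : t ^ 3 * (E - t) ≤ t ^ 2 * (E * E) := by
        have : t * (E - t) ≤ E * E := by nlinarith
        calc t ^ 3 * (E - t) = t ^ 2 * (t * (E - t)) := by ring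
          _ ≤ t ^ 2 * (E * E) := by
            exact mul_le_mul_of_nonneg_left this (by positivity)
      have h2 : E * E ≤ (K + E) ^ 2 := by nlinarith
      calc t ^ 3 * (E - t) * (8 * E) ≤ t ^ 2 * (E * E) * (8 * E) := by
            exact mul_le_mul_of_nonneg_right h1 (by positivity)
        _ ≤ t ^ 2 * (K + E) ^ 2 * (8 * E) := by
            exact mul_le_mul_of_nonneg_right (mul_le_mul_of_nonneg_left h2 (by positivity))
              (by positivity)
        _ ≤ t ^ 2 * (16 * E * (K + E) ^ 2) := by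
            have : 0 ≤ t ^ 2 * (K + E) ^ 2 * (8 * E) := by positivity
            nlinarith

private lemma integrand_lower {E t K KR : ℝ} (hE : 0 < E) (ht : E / 8 ≤ t) (ht' : E / 8 ≤ E - t)
    (hK : 0 ≤ K) (hKR : K ≤ KR) :
    E ^ 3 / (65536 * (KR + 1) ^ 2 * (1 + E) ^ 2) ≤
      (max t 0) ^ 3 * (E - t) / (16 * E * (K + E) ^ 2) := by
  have ht0 : 0 ≤ t := by linarith
  rw [max_eq_left ht0]
  have hKR0 : 0 ≤ KR := hK.trans hKR
  have h1 : (E / 8) ^ 3 * (E / 8) ≤ t ^ 3 * (E - t) := by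
    apply mul_le_mul _ ht' (by positivity) (by positivity)
    exact pow_le_pow_left₀ (by positivity) ht 3
  have h2 : K + E ≤ (KR + 1) * (1 + E) := by nlinarith
  have h3 : (K + E) ^ 2 ≤ ((KR + 1) * (1 + E)) ^ 2 := pow_le_pow_left₀ (by positivity) h2 2
  have h4 : E ^ 3 / (65536 * (KR + 1) ^ 2 * (1 + E) ^ 2) =
      (E / 8) ^ 3 * (E / 8) / (16 * E * ((KR + 1) * (1 + E)) ^ 2) := by
    field_simp
    norm_num
  rw [h4]
  apply div_le_div₀ (by nlinarith [show 0 ≤ (E / 8) ^ 3 * (E / 8) by positivity]) h1 (by positivity)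
  exact mul_le_mul_of_nonneg_left h3 (by positivity)

theorem gain {v₁ : E3 → ℝ} (hv : Pot v₁) (hb : Continuous (ct v₁)) (h0 : ct v₁ 0 = ∫ x, v₁ x)
    (hlim : Tendsto (ct v₁) (cocompact E3) (𝓝 0)) :
    ∃ c > 0, ∀ (lam ρ E D₀ : ℝ) (T h : E3 → ℝ), SD v₁ lam ρ E D₀ T h → D₀ ≤ E / 14 →
    Integrable (fun k => (max (T k) 0) ^ 3 * (E - T k) / (16 * E * (ek k + E) ^ 2)) ∧
    c * (E ^ 3 / (1 + E) ^ 2) ≤
      ∫ k, (max (T k) 0) ^ 3 * (E - T k) / (16 * E * (ek k + E) ^ 2) := by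
  obtain ⟨R, U, hR, hUo, hUn, hUb, hU⟩ := gain_set hv hb h0 hlim
  have hmpos : 0 < volume U := hUo.measure_pos volume hUn
  have hmfin : volume U ≠ ⊤ := by
    have : volume U ≤ volume (Metric.ball (0 : E3) R) := measure_mono hUb
    exact (this.trans_lt measure_ball_lt_top).ne
  set m := (volume U).toReal with hmdef
  have hm : 0 < m := ENNReal.toReal_pos hmpos.ne' hmfin
  set KR := 2 * Real.pi ^ 2 * R ^ 2 with hKRdef
  have hKR0 : 0 ≤ KR := by positivity
  refine ⟨m / (65536 * (KR + 1) ^ 2), by positivity, ?_⟩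
  intro lam ρ E D₀ T h hsd hD
  have hE := hsd.E_pos
  have hbd : ∀ k, 0 ≤ (max (T k) 0) ^ 3 * (E - T k) / (16 * E * (ek k + E) ^ 2) ∧
      (max (T k) 0) ^ 3 * (E - T k) / (16 * E * (ek k + E) ^ 2) ≤ (T k) ^ 2 / (8 * E) :=
    fun k => integrand_bounds hE (hsd.le k) (ek_nonneg' k)
  have hekc : Continuous ek := by
    unfold ek; fun_prop
  have hcont : Continuous (fun k => (max (T k) 0) ^ 3 * (E - T k) / (16 * E * (ek k + E) ^ 2)) := by
    have hT := hsd.cont
    apply Continuous.div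
    · exact ((hT.max continuous_const).pow 3).mul (continuous_const.sub hT)
    · exact continuous_const.mul ((hekc.add continuous_const).pow 2)
    · intro k
      have := ek_nonneg' k
      positivity
  have hint : Integrable (fun k => (max (T k) 0) ^ 3 * (E - T k) / (16 * E * (ek k + E) ^ 2)) := by
    have hsq : Integrable (fun k => (T k) ^ 2 / (8 * E)) := hsd.sq.integrable_sq.div_const _
    refine hsq.mono' hcont.aestronglyMeasurable (Eventually.of_forall fun k => ?_)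
    rw [Real.norm_eq_abs, abs_of_nonneg (hbd k).1]
    exact (hbd k).2
  refine ⟨hint, ?_⟩
  have hlow : ∀ k ∈ U, E ^ 3 / (65536 * (KR + 1) ^ 2 * (1 + E) ^ 2) ≤
      (max (T k) 0) ^ 3 * (E - T k) / (16 * E * (ek k + E) ^ 2) := by
    intro k hk
    obtain ⟨hk1, hk2⟩ := hU k hk
    have hsum := hsd.sum
    have hc := abs_le.mp (hsd.close k)
    have hD0 := hsd.D_nonneg
    have hrl : 0 < ρ * lam := mul_pos hsd.rho_pos hsd.lam_pos
    have hb1 : (E + D₀) / 4 ≤ ρ * lam * ct v₁ k := by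
      rw [hsum]
      have := mul_lt_mul_of_pos_left hk1 hrl
      linarith
    have hb2 : ρ * lam * ct v₁ k ≤ 3 * (E + D₀) / 4 := by
      rw [hsum]
      have := mul_lt_mul_of_pos_left hk2 hrl
      linarith
    have hkR : ‖k‖ ≤ R := by
      have := hUb hk
      rw [mem_ball_zero_iff] at this
      exact this.le
    apply integrand_lower hE
    · linarith [hc.1]
    · linarith [hc.2]
    · exact ek_nonneg' k
    · unfold ek
      rw [hKRdef]
      have : ‖k‖ ^ 2 ≤ R ^ 2 := pow_le_pow_left₀ (norm_nonneg _) hkR 2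
      exact mul_le_mul_of_nonneg_left this (by positivity)
  have hset : m * (E ^ 3 / (65536 * (KR + 1) ^ 2 * (1 + E) ^ 2)) ≤
      ∫ k in U, (max (T k) 0) ^ 3 * (E - T k) / (16 * E * (ek k + E) ^ 2) := by
    have h1 : ∫ k in U, E ^ 3 / (65536 * (KR + 1) ^ 2 * (1 + E) ^ 2) =
        m * (E ^ 3 / (65536 * (KR + 1) ^ 2 * (1 + E) ^ 2)) := by
      rw [setIntegral_const, smul_eq_mul]
      rfl
    rw [← h1]
    apply setIntegral_mono_on _ hint.integrableOn hUo.measurableSet hlow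
    exact integrableOn_const hmfin
  have hle : ∫ k in U, (max (T k) 0) ^ 3 * (E - T k) / (16 * E * (ek k + E) ^ 2) ≤
      ∫ k, (max (T k) 0) ^ 3 * (E - T k) / (16 * E * (ek k + E) ^ 2) :=
    setIntegral_le_integral hint (Eventually.of_forall fun k => (hbd k).1)
  calc m / (65536 * (KR + 1) ^ 2) * (E ^ 3 / (1 + E) ^ 2)
      = m * (E ^ 3 / (65536 * (KR + 1) ^ 2 * (1 + E) ^ 2)) := by
        field_simp
    _ ≤ _ := hset.trans hle

end Pool.Agent.P76w
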