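import Pool.Agent.Lib.P76w.EvenU
import Pool.Agent.Lib.P76w.Alg
import Pool.Agent.Lib.P76s.Branch

/-!
# P76w.HForm (1.5 h): the solution of the Simple equation in Fourier space
(black boxes: EvenU is not needed; CtFacts, Alg.XX_ge, P76s.Branch, P76s.FourierEqn, SimpleExact.facts)

`(u,e)` a solution for `v ≥ 0` even integrable, `0 < e`, `u` even, `0 ≤ u ≤ 1`.  `E = 2e`,
`S = (1-u)v` (even), `T = ρ ct S`, `h = ρ ct u`, `K = ek k = 2π²|k|²`, `4π²|k|²+4e = 2(K+E)`.
By `fourier_even`, `𝓕 S = ct S`, `𝓕 u = ct u`.  For `k ≠ 0`, `branch` with `w = E h/(K+E)` and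
`x = E T/(K+E)²` (check: `4eρ û/(2(K+E)) = E ρ û/(K+E)`, `8eρ Ŝ/(4(K+E)²) = E ρ Ŝ/(K+E)²`):
`2w = x + w²`, `|w| < 1`, both real; so `w = 1 - √(1-x)`, `(1-w)² = 1-x`, `1 - w > 0`, and
`h = ((K+E)/E) x/(1+√(1-x)) = T/((K+E)(1+√(1-x))) = T/(K+E+√((K+E)²-ET))`.
For `k = 0`: `h(0) = ρ∫u = 1` and `T(0) = ρ∫S = 2e = E`, `K = 0`, `X = E + 0 = E`: `T/X = 1`.
(`|T| ≤ E`: `|T| ≤ ρ∫|S| = ρ∫S = E`.)
-/

open MeasureTheory Filter Topology
open scoped BigOperators FourierTransform

namespace Pool.Agent.P76w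

open Pool.Agent.P76s

namespace HFormAux

/-- the algebra: the small root of the quadratic equation -/
theorem root {E K T h : ℝ} (hE : 0 < E) (hK : 0 ≤ K)
    (hq : 2 * (E * h / (K + E)) = E * T / (K + E) ^ 2 + (E * h / (K + E)) ^ 2)
    (hw : |E * h / (K + E)| < 1) : h = T / XX E T K := by
  have hP : 0 < K + E := by linarith
  unfold XX
  generalize K + E = P at *
  have h1 : 2 * h * P = T + E * h ^ 2 := by
    have h2 : 2 * (E * h / P) * P ^ 2 = (E * T / P ^ 2 + (E * h / P) ^ 2) * P ^ 2 := by rw [hq]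
    have h3 : 2 * (E * h / P) * P ^ 2 = E * (2 * h * P) := by field_simp
    have h4 : (E * T / P ^ 2 + (E * h / P) ^ 2) * P ^ 2 = E * (T + E * h ^ 2) := by
      field_simp
    rw [h3, h4] at h2
    exact mul_left_cancel₀ hE.ne' h2
  have h5 : P ^ 2 - E * T = (P - E * h) ^ 2 := by
    have h6 : T = 2 * h * P - E * h ^ 2 := by linarith
    rw [h6]
    ring
  have h7 : E * h < P := by
    have h8 := (abs_lt.mp hw).2
    rwa [div_lt_one hP] at h8
  rw [h5, Real.sqrt_sq (by linarith)]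
  rw [eq_div_iff (by linarith)]
  linarith

end HFormAux

open HFormAux in
theorem h_form {v u : E3 → ℝ} {ρ e : ℝ} (hρ : 0 < ρ) (hv : Integrable v) (hv0 : ∀ x, 0 ≤ v x)
    (heven : ∀ x, v (-x) = v x) (h : IsSimpleSolution v ρ u e)
    (hu : ∀ᵐ x, 0 ≤ u x ∧ u x ≤ 1) (hue : ∀ᵐ x, u (-x) = u x) (he : 0 < e) (k : E3) :
    |ρ * ct (fun x => (1 - u x) * v x) k| ≤ 2 * e ∧
    ρ * ct u k = ρ * ct (fun x => (1 - u x) * v x) k /
      XX (2 * e) (ρ * ct (fun x => (1 - u x) * v x) k) (ek k) := by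
  obtain ⟨iuv, ha0, hea, hmean, hS1, hS2, hun⟩ := SimpleExactAux.facts hρ hv hv0 h hu he
  have hE : 0 < 2 * e := by linarith
  have iS := h.int_S
  have hSe : ∀ᵐ x, (1 - u (-x)) * v (-x) = (1 - u x) * v x := by
    filter_upwards [hue] with x hx
    rw [hx, heven]
  have hFS := fourier_even iS hSe k
  have hFU := fourier_even h.int_u hue k
  have hen : ρ * ∫ x, (1 - u x) * v x = 2 * e := by
    have := h.energy
    linarith
  constructor
  · rw [abs_mul, abs_of_pos hρ]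
    have h1 : ∫ x, |(1 - u x) * v x| = ∫ x, (1 - u x) * v x := by
      refine integral_congr_ae ?_
      filter_upwards [hu] with x hx
      exact abs_of_nonneg (mul_nonneg (by linarith [hx.2]) (hv0 x))
    calc ρ * |ct (fun x => (1 - u x) * v x) k| ≤ ρ * ∫ x, |(1 - u x) * v x| :=
          mul_le_mul_of_nonneg_left (ct_abs_le iS k) hρ.le
      _ = 2 * e := by rw [h1, hen]
  · rcases eq_or_ne k 0 with rfl | hk
    · rw [ct_zero, ct_zero, hen, hmean]
      have h1 : ek 0 = 0 := by simp [ek]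
      rw [h1]
      unfold XX
      have h2 : (0 + 2 * e) ^ 2 - 2 * e * (2 * e) = 0 := by ring
      rw [h2, Real.sqrt_zero]
      field_simp
      norm_num
    · obtain ⟨hq, hw1⟩ := branch hρ hv hv0 h (hu.mono fun x hx => hx.2) he hk rfl rfl
      rw [hFS, hFU] at hq
      rw [hFU] at hw1
      have hκ : 4 * Real.pi ^ 2 * ‖k‖ ^ 2 + 4 * e = 2 * (ek k + 2 * e) := by
        unfold ek
        ring
      rw [hκ] at hq hw1
      have hK : 0 ≤ ek k := by
        unfold ek
        positivity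
      have hP : 0 < ek k + 2 * e := by linarith
      generalize ct (fun x => (1 - u x) * v x) k = T at *
      generalize ct u k = U at *
      have e1 : ((4 * e * ρ : ℝ) : ℂ) * (U : ℂ) / ((2 * (ek k + 2 * e) : ℝ) : ℂ) =
          ((2 * e * (ρ * U) / (ek k + 2 * e) : ℝ) : ℂ) := by
        rw [← Complex.ofReal_mul, ← Complex.ofReal_div]
        congr 1
        field_simp
        ring
      have e2 : ((8 * e * ρ : ℝ) : ℂ) * (T : ℂ) / ((2 * (ek k + 2 * e) : ℝ) : ℂ) ^ 2 =
          ((2 * e * (ρ * T) / (ek k + 2 * e) ^ 2 : ℝ) : ℂ) := by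
        rw [← Complex.ofReal_mul, ← Complex.ofReal_pow, ← Complex.ofReal_div]
        congr 1
        field_simp
        ring
      rw [e1, e2] at hq
      rw [e1] at hw1
      refine root hE hK ?_ ?_
      · exact_mod_cast hq
      · rwa [Complex.norm_real, Real.norm_eq_abs] at hw1

end Pool.Agent.P76w
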