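import Pool.Agent.Lib.P76w.CtFacts
import Pool.Agent.Lib.P76w.Alg

/-!
# P76w.Identity (1.5 h): the energy of the quasi-free state compared with the Simple-equation energy
(black boxes: CtFacts, Alg for `gm`)

`g = gm ∘ A`, `α = -ct A`, `γ = ct g`, `γ₀ = ∫ g`, `S = (1-u)v`, `T = ρ ct S`, `ρ u = ct h` a.e., `β = ct h - ct A`.
All functions `ct ·` are bounded and continuous, `v`, `S` integrable.  Pointwise (a.e.), with
`H = ct h = ρ u`, so `v H = ρ v - ρ S`:
`ρ v(γ + α) + ½ v(α² + γ²) + ½ρ² v = ½ρ² S + ρ v γ + ½ v(β² + γ²) + ρ S β - ½ ρ S H`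
(`α = β - H`; it is a `ring` identity after replacing `v H` by `ρ v - ρ S`:
`½vα² = ½vβ² - (vH)β + ½(vH)H`, `ρ v α = ρ v β - ρ (vH)`; and `½ρ²v - ½ρ(vH) = ½ρ²S`.)
Integrate: `½ρ²∫S = ρ e`; `ρ∫vγ = ∫ ρ ct v · g` (`ct_comm`); `ρ∫S ct f = ∫ T f` for `f = h - A` and `f = h`.
So `FF v A ρ = ρ e + ∫[(ek + ρ ct v) g - T A + ½ T h] + ½∫v(β²+γ²) - γ₀ ∫ v (γ + α)`.
Bounds: `|β| ≤ ∫|h-A|`, `|γ| ≤ ∫ g`, and `-∫v(γ+α) = ∫ ct v (A - g) ≤ ∫ |ct v| |A - g|`.
-/

open MeasureTheory Filter Topology
open scoped BigOperators FourierTransform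

namespace Pool.Agent.P76w

open Pool.Agent.P76s

theorem int_mul_ct {f g : E3 → ℝ} (hf : Integrable f) (hg : Integrable g) :
    Integrable fun x => f x * ct g x := by
  refine hf.mul_bdd (c := ∫ k, |g k|) (ct_continuous hg).aestronglyMeasurable ?_
  exact Filter.Eventually.of_forall fun x => by
    rw [Real.norm_eq_abs]
    exact ct_abs_le hg x

theorem int_ct_mul {f g : E3 → ℝ} (hf : Integrable f) (hg : Integrable g) :
    Integrable fun x => ct g x * f x := by
  have h := int_mul_ct hf hg
  exact h.congr (Filter.Eventually.of_forall fun x => mul_comm _ _)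

theorem int_mul_ct_sq {f g : E3 → ℝ} (hf : Integrable f) (hg : Integrable g) :
    Integrable fun x => f x * ct g x ^ 2 := by
  have h := int_mul_ct (int_mul_ct hf hg) hg
  exact h.congr (Filter.Eventually.of_forall fun x => by simp only; ring)

theorem FF_le {v u h A : E3 → ℝ} {ρ e : ℝ} (hρ : 0 < ρ) (hv : Integrable v) (hv0 : ∀ x, 0 ≤ v x)
    (hS : Integrable fun x => (1 - u x) * v x) (he : e = ρ / 2 * ∫ x, (1 - u x) * v x)
    (hh : Integrable h) (hu : ∀ᵐ x, ρ * u x = ct h x)
    (hA : Integrable A) (hAm : Continuous A) (hK : Integrable fun k => ek k * gm (A k))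
    (hG : Integrable fun k => (ek k + ρ * ct v k) * gm (A k) -
        ρ * ct (fun x => (1 - u x) * v x) k * A k +
        ρ * ct (fun x => (1 - u x) * v x) k * h k / 2) :
    FF v A ρ ≤ ρ * e + (∫ k, ((ek k + ρ * ct v k) * gm (A k) -
        ρ * ct (fun x => (1 - u x) * v x) k * A k +
        ρ * ct (fun x => (1 - u x) * v x) k * h k / 2)) +
      1 / 2 * (∫ x, v x) * ((∫ k, |h k - A k|) ^ 2 + (∫ k, gm (A k)) ^ 2) +
      (∫ k, gm (A k)) * ∫ k, |ct v k| * |A k - gm (A k)| := by
  have hgc : Continuous fun k => gm (A k) := continuous_gm.comp hAm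
  have hg : Integrable fun k => gm (A k) := by
    refine hA.abs.mono' hgc.aestronglyMeasurable ?_
    refine Filter.Eventually.of_forall fun k => ?_
    rw [Real.norm_eq_abs, abs_of_nonneg (gm_nonneg _)]
    exact gm_le_abs _
  have hg0 : 0 ≤ ∫ k, gm (A k) := integral_nonneg fun k => gm_nonneg _
  have hV0 : 0 ≤ ∫ x, v x := integral_nonneg hv0
  -- the integrable products
  have i1 : Integrable fun x => v x * ct (fun k => gm (A k)) x := int_mul_ct hv hg
  have i2 : Integrable fun x => v x * ct A x := int_mul_ct hv hA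
  have i3 : Integrable fun x => v x * ct A x ^ 2 := int_mul_ct_sq hv hA
  have i4 : Integrable fun x => v x * ct (fun k => gm (A k)) x ^ 2 := int_mul_ct_sq hv hg
  have hhA : Integrable fun k => h k - A k := hh.sub hA
  have i5 : Integrable fun x => v x * ct (fun k => h k - A k) x ^ 2 := int_mul_ct_sq hv hhA
  have i6 : Integrable fun x => ((1 - u x) * v x) * ct h x := int_mul_ct hS hh
  have i7 : Integrable fun x => ((1 - u x) * v x) * ct A x := int_mul_ct hS hA
  have j1 : Integrable fun k => ct v k * gm (A k) := int_ct_mul hg hv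
  have j2 : Integrable fun k => ct (fun x => (1 - u x) * v x) k * A k := int_ct_mul hA hS
  have j3 : Integrable fun k => ct (fun x => (1 - u x) * v x) k * h k := int_ct_mul hh hS
  -- Fubini
  have c1 : ∫ x, v x * ct (fun k => gm (A k)) x = ∫ k, ct v k * gm (A k) := ct_comm hv hg
  have c2 : ∫ x, ((1 - u x) * v x) * ct A x =
      ∫ k, ct (fun x => (1 - u x) * v x) k * A k := ct_comm hS hA
  have c3 : ∫ x, ((1 - u x) * v x) * ct h x =
      ∫ k, ct (fun x => (1 - u x) * v x) k * h k := ct_comm hS hh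
  -- the pointwise identity, integrated
  have key : ∫ x, (ρ * (v x * ct (fun k => gm (A k)) x) - ρ * (v x * ct A x) +
      1 / 2 * (v x * ct A x ^ 2) + 1 / 2 * (v x * ct (fun k => gm (A k)) x ^ 2) +
      ρ ^ 2 / 2 * v x) =
      ∫ x, (ρ ^ 2 / 2 * ((1 - u x) * v x) + ρ * (v x * ct (fun k => gm (A k)) x) +
      1 / 2 * (v x * ct (fun k => h k - A k) x ^ 2) +
      1 / 2 * (v x * ct (fun k => gm (A k)) x ^ 2) +
      ρ / 2 * (((1 - u x) * v x) * ct h x) - ρ * (((1 - u x) * v x) * ct A x)) := by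
    refine integral_congr_ae ?_
    filter_upwards [hu] with x hx
    have hs : ct (fun k => h k - A k) x = ρ * u x - ct A x := by
      rw [ct_sub hh hA, ← hx]
    rw [hs, ← hx]
    ring
  have e1 : ∫ x, (ρ * (v x * ct (fun k => gm (A k)) x) - ρ * (v x * ct A x) +
      1 / 2 * (v x * ct A x ^ 2) + 1 / 2 * (v x * ct (fun k => gm (A k)) x ^ 2) +
      ρ ^ 2 / 2 * v x) =
      ρ * (∫ x, v x * ct (fun k => gm (A k)) x) - ρ * (∫ x, v x * ct A x) +
      1 / 2 * (∫ x, v x * ct A x ^ 2) +
      1 / 2 * (∫ x, v x * ct (fun k => gm (A k)) x ^ 2) + ρ ^ 2 / 2 * ∫ x, v x := by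
    rw [integral_add _ (hv.const_mul _), integral_add _ (i4.const_mul _),
      integral_add _ (i3.const_mul _), integral_sub (i1.const_mul _) (i2.const_mul _),
      integral_const_mul, integral_const_mul, integral_const_mul, integral_const_mul,
      integral_const_mul]
    · exact (i1.const_mul _).sub (i2.const_mul _)
    · exact ((i1.const_mul _).sub (i2.const_mul _)).add (i3.const_mul _)
    · exact (((i1.const_mul _).sub (i2.const_mul _)).add (i3.const_mul _)).add
        (i4.const_mul _)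
  have e2 : ∫ x, (ρ ^ 2 / 2 * ((1 - u x) * v x) + ρ * (v x * ct (fun k => gm (A k)) x) +
      1 / 2 * (v x * ct (fun k => h k - A k) x ^ 2) +
      1 / 2 * (v x * ct (fun k => gm (A k)) x ^ 2) +
      ρ / 2 * (((1 - u x) * v x) * ct h x) - ρ * (((1 - u x) * v x) * ct A x)) =
      ρ ^ 2 / 2 * (∫ x, (1 - u x) * v x) + ρ * (∫ x, v x * ct (fun k => gm (A k)) x) +
      1 / 2 * (∫ x, v x * ct (fun k => h k - A k) x ^ 2) +
      1 / 2 * (∫ x, v x * ct (fun k => gm (A k)) x ^ 2) +
      ρ / 2 * (∫ x, ((1 - u x) * v x) * ct h x) -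
      ρ * ∫ x, ((1 - u x) * v x) * ct A x := by
    rw [integral_sub _ (i7.const_mul _), integral_add _ (i6.const_mul _),
      integral_add _ (i4.const_mul _), integral_add _ (i5.const_mul _),
      integral_add (hS.const_mul _) (i1.const_mul _),
      integral_const_mul, integral_const_mul, integral_const_mul, integral_const_mul,
      integral_const_mul, integral_const_mul]
    · exact (hS.const_mul _).add (i1.const_mul _)
    · exact ((hS.const_mul _).add (i1.const_mul _)).add (i5.const_mul _)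
    · exact (((hS.const_mul _).add (i1.const_mul _)).add (i5.const_mul _)).add
        (i4.const_mul _)
    · exact ((((hS.const_mul _).add (i1.const_mul _)).add (i5.const_mul _)).add
        (i4.const_mul _)).add (i6.const_mul _)
  -- the integral `G`
  have eG : (∫ k, ((ek k + ρ * ct v k) * gm (A k) -
        ρ * ct (fun x => (1 - u x) * v x) k * A k +
        ρ * ct (fun x => (1 - u x) * v x) k * h k / 2)) =
      (∫ k, ek k * gm (A k)) + ρ * (∫ k, ct v k * gm (A k)) -
        ρ * (∫ k, ct (fun x => (1 - u x) * v x) k * A k) +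
        ρ / 2 * ∫ k, ct (fun x => (1 - u x) * v x) k * h k := by
    have hc : ∀ k, ((ek k + ρ * ct v k) * gm (A k) -
        ρ * ct (fun x => (1 - u x) * v x) k * A k +
        ρ * ct (fun x => (1 - u x) * v x) k * h k / 2) =
        ek k * gm (A k) + ρ * (ct v k * gm (A k)) -
        ρ * (ct (fun x => (1 - u x) * v x) k * A k) +
        ρ / 2 * (ct (fun x => (1 - u x) * v x) k * h k) := fun k => by ring
    rw [integral_congr_ae (Filter.Eventually.of_forall hc),
      integral_add _ (j3.const_mul _), integral_sub _ (j2.const_mul _),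
      integral_add hK (j1.const_mul _), integral_const_mul, integral_const_mul,
      integral_const_mul]
    · exact hK.add (j1.const_mul _)
    · exact (hK.add (j1.const_mul _)).sub (j2.const_mul _)
  -- `FF`
  have eF1 : ∫ x, v x * (ct (fun k => gm (A k)) x - ct A x) =
      (∫ x, v x * ct (fun k => gm (A k)) x) - ∫ x, v x * ct A x := by
    rw [← integral_sub i1 i2]
    exact integral_congr_ae (Filter.Eventually.of_forall fun x => mul_sub _ _ _)
  have eF2 : ∫ x, v x * (ct A x ^ 2 + ct (fun k => gm (A k)) x ^ 2) =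
      (∫ x, v x * ct A x ^ 2) + ∫ x, v x * ct (fun k => gm (A k)) x ^ 2 := by
    rw [← integral_add i3 i4]
    exact integral_congr_ae (Filter.Eventually.of_forall fun x => mul_add _ _ _)
  -- the bounds
  have b1 : ∫ x, v x * ct (fun k => h k - A k) x ^ 2 ≤
      (∫ x, v x) * (∫ k, |h k - A k|) ^ 2 := by
    rw [← integral_mul_const]
    refine integral_mono i5 (hv.mul_const _) fun x => ?_
    refine mul_le_mul_of_nonneg_left ?_ (hv0 x)
    rw [← sq_abs]
    exact pow_le_pow_left₀ (abs_nonneg _) (ct_abs_le hhA x) 2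
  have b2 : ∫ x, v x * ct (fun k => gm (A k)) x ^ 2 ≤
      (∫ x, v x) * (∫ k, gm (A k)) ^ 2 := by
    rw [← integral_mul_const]
    refine integral_mono i4 (hv.mul_const _) fun x => ?_
    refine mul_le_mul_of_nonneg_left ?_ (hv0 x)
    rw [← sq_abs]
    refine pow_le_pow_left₀ (abs_nonneg _) ?_ 2
    have h1 := ct_abs_le hg x
    have h2 : ∫ k, |gm (A k)| = ∫ k, gm (A k) :=
      integral_congr_ae (Filter.Eventually.of_forall fun k => abs_of_nonneg (gm_nonneg _))
    rw [h2] at h1
    exact h1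
  have b3 : -(∫ x, v x * (ct (fun k => gm (A k)) x - ct A x)) ≤
      ∫ k, |ct v k| * |A k - gm (A k)| := by
    have hAg : Integrable fun k => A k - gm (A k) := hA.sub hg
    have h1 : -(∫ x, v x * (ct (fun k => gm (A k)) x - ct A x)) =
        ∫ x, v x * ct (fun k => A k - gm (A k)) x := by
      rw [← integral_neg]
      refine integral_congr_ae (Filter.Eventually.of_forall fun x => ?_)
      simp only
      rw [ct_sub hA hg]
      ring
    rw [h1, ct_comm hv hAg]
    refine integral_mono (int_ct_mul hAg hv) ?_ fun k => ?_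
    · have h2 : Integrable fun k => |ct v k * (A k - gm (A k))| := (int_ct_mul hAg hv).abs
      exact h2.congr (Filter.Eventually.of_forall fun k => abs_mul _ _)
    · simp only
      rw [← abs_mul]
      exact le_abs_self _
  have b4 := mul_le_mul_of_nonneg_left b3 hg0
  have hkey := e1.symm.trans (key.trans e2)
  unfold FF
  rw [eG, eF1, eF2]
  rw [eF1] at b4
  rw [c1] at hkey b4 ⊢
  rw [c2, c3] at hkey
  have he' : ρ * e = ρ ^ 2 / 2 * ∫ x, (1 - u x) * v x := by rw [he]; ring
  rw [he']
  nlinarith [hkey, b1, b2, b4]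

end Pool.Agent.P76w
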