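import Pool.Agent.Lib.P76w.TermsE

/-!
# P76w.Integ (1 h): integrability of the trial pairing function
(black boxes: Alg, Scale, TermsE)

`SD ...`, `0 < D ≤ E`, `A k = AA E D (T k) (ek k)`, `K = ek k`, `t = K/E`.
* `h`: `|h| ≤ |T|/(K+E) ≤ ½(T² + (K+E)⁻²)`, `(K+E)⁻² = E⁻²(1+t)⁻² ≤ E⁻² g0 t` (`h_le`, `g0_a`, `g0_scale`).
* `A`: `T ≤ E/2`: `|A| ≤ 2|T|/(K+E)` as above; `T > E/2` (then `1 ≤ 4T²/E²`): if `K ≤ E`:
  `|A| ≤ 1/√(8t) ≤ g0 t`; if `K > E`: `|A| ≤ E/(2K) ≤ ½ ≤ 2T²/E²`.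
* `ek·gm A`: `T ≤ E/2`: `K gm A ≤ K A² ≤ 4KT²/(K+E)² ≤ 4T²/E`; `T > E/2`: `K A² ≤ E/8 ≤ T²/(2E)`.
* `(ek + E')gm A - T A + T h/2`, `E' = ρ lam ct v₁` (continuous and bounded): `gm A ≤ |A|`, `|T| ≤ E`.
-/

open MeasureTheory Filter Topology
open scoped BigOperators

namespace Pool.Agent.P76w

open Pool.Agent.P76s

namespace IntegAux

lemma ek_nonneg (k : E3) : 0 ≤ ek k := by unfold ek; positivity

lemma ek_pos {k : E3} (hk : k ≠ 0) : 0 < ek k := by
  have : 0 < ‖k‖ := norm_pos_iff.2 hk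
  unfold ek
  positivity

lemma continuous_ek : Continuous ek := by unfold ek; fun_prop

lemma ae_ne : ∀ᵐ k : E3, k ≠ 0 := by
  have h : (volume : Measure E3) {0} = 0 := measure_singleton 0
  rw [ae_iff]
  simp [h]

lemma sq_integrable {v₁ : E3 → ℝ} {lam ρ E D₀ : ℝ} {T h : E3 → ℝ} (hs : SD v₁ lam ρ E D₀ T h) :
    Integrable (fun k => T k ^ 2) := hs.sq.integrable_sq

lemma inv_sq {E : ℝ} (hE : 0 < E) {k : E3} (hk : k ≠ 0) :
    1 / (ek k + E) ^ 2 ≤ 1 / E ^ 2 * g0 (ek k / E) := by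
  have ht : 0 < ek k / E := div_pos (ek_pos hk) hE
  have h1 := g0_a ht
  have h2 : 1 / (ek k + E) ^ 2 = 1 / E ^ 2 * (1 / (1 + ek k / E) ^ 2) := by
    have h3 : ek k + E = E * (1 + ek k / E) := by
      field_simp
      ring
    rw [h3, mul_pow]
    have : 0 < 1 + ek k / E := by linarith
    field_simp
  rw [h2]
  exact mul_le_mul_of_nonneg_left h1 (by positivity)

/-- the dominating function -/
noncomputable def dom (E : ℝ) (T : E3 → ℝ) (k : E3) : ℝ :=
  (1 + 2 / E ^ 2) * T k ^ 2 + (1 + 1 / E ^ 2) * g0 (ek k / E)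

lemma dom_integrable {v₁ : E3 → ℝ} {lam ρ E D₀ : ℝ} {T h : E3 → ℝ}
    (hs : SD v₁ lam ρ E D₀ T h) : Integrable (dom E T) :=
  ((sq_integrable hs).const_mul _).add ((g0_scale hs.E_pos).1.const_mul _)

lemma g0_nonneg (t : ℝ) : 0 ≤ g0 t := by
  unfold g0
  exact le_min (by positivity) (by positivity)

lemma two_div_le {x K E : ℝ} (hE : 0 < E) (hK : 0 ≤ K) :
    2 * |x| / (K + E) ≤ x ^ 2 + 1 / (K + E) ^ 2 := by
  have h1 : 0 < K + E := by linarith
  have h2 : 2 * |x| / (K + E) = 2 * |x| * (1 / (K + E)) := by ring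
  have h3 : 1 / (K + E) ^ 2 = (1 / (K + E)) ^ 2 := by rw [div_pow, one_pow]
  rw [h2, h3, ← sq_abs x]
  nlinarith [sq_nonneg (|x| - 1 / (K + E))]

lemma h_bound {E x : ℝ} (hE : 0 < E) (hx : |x| ≤ E) {k : E3} (hk : k ≠ 0) {T : E3 → ℝ}
    (hT : T k = x) : |x / XX E x (ek k)| ≤ dom E T k := by
  have h1 := h_le hE hx (ek_nonneg k)
  have h2 := two_div_le (x := x) hE (ek_nonneg k)
  have h3 := inv_sq hE hk
  have h4 := g0_nonneg (ek k / E)
  have h5 : |x| / (ek k + E) ≤ 2 * |x| / (ek k + E) := by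
    have : 0 < ek k + E := by linarith [ek_nonneg k]
    apply div_le_div_of_nonneg_right _ this.le
    linarith [abs_nonneg x]
  have h6 : 0 ≤ 2 / E ^ 2 * x ^ 2 := by positivity
  unfold dom
  rw [hT]
  linarith

lemma A_bound {E D x : ℝ} (hE : 0 < E) (hD : 0 < D) (hx : |x| ≤ E) {k : E3} (hk : k ≠ 0)
    {T : E3 → ℝ} (hT : T k = x) : |AA E D x (ek k)| ≤ dom E T k := by
  have h4 := g0_nonneg (ek k / E)
  have h7 : 0 ≤ 1 / E ^ 2 * g0 (ek k / E) := by positivity
  have h6 : 0 ≤ 2 / E ^ 2 * x ^ 2 := by positivity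
  have hK := ek_pos hk
  unfold dom
  rw [hT]
  rcases le_or_gt x (E / 2) with hx2 | hx2
  · have h1 := A_small hE hD hx (ek_nonneg k) hx2
    have h2 := two_div_le (x := x) hE (ek_nonneg k)
    have h3 := inv_sq hE hk
    linarith
  · have hx0 : 0 ≤ x := by linarith
    obtain ⟨h1, h2⟩ := A_big hE hD hx hK hx0
    rcases le_or_gt (ek k) E with hKE | hKE
    · have ht : 0 < ek k / E := div_pos hK hE
      have ht1 : ek k / E ≤ 1 := (div_le_one hE).2 hKE
      have h3 := g0_d ht ht1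
      have h5 : √(E / (8 * ek k)) ≤ 1 / √(ek k / E) := by
        rw [← Real.sqrt_one, ← Real.sqrt_div zero_le_one]
        refine Real.sqrt_le_sqrt ?_
        rw [one_div_div]
        exact div_le_div_of_nonneg_left hE.le hK (by linarith)
      have h8 : 0 ≤ x ^ 2 := sq_nonneg x
      linarith
    · have h3 : E / (2 * ek k) ≤ 1 / 2 := by
        rw [div_le_div_iff₀ (by positivity) (by norm_num)]
        linarith
      have h5 : 1 / 2 ≤ 2 / E ^ 2 * x ^ 2 := by
        rw [div_mul_eq_mul_div, div_le_div_iff₀ (by norm_num) (by positivity)]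
        nlinarith
      have h8 : 0 ≤ x ^ 2 := sq_nonneg x
      linarith

lemma K_bound {E D x : ℝ} (hE : 0 < E) (hD : 0 < D) (hx : |x| ≤ E) {k : E3} (hk : k ≠ 0) :
    ek k * gm (AA E D x (ek k)) ≤ 4 / E * x ^ 2 := by
  have hK := ek_pos hk
  have h0 := gm_le_sq (AA E D x (ek k))
  have h1 : ek k * gm (AA E D x (ek k)) ≤ ek k * |AA E D x (ek k)| ^ 2 := by
    rw [sq_abs]
    exact mul_le_mul_of_nonneg_left h0 hK.le
  refine h1.trans ?_
  rcases le_or_gt x (E / 2) with hx2 | hx2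
  · have h2 := A_small hE hD hx hK.le hx2
    have h3 : |AA E D x (ek k)| ^ 2 ≤ (2 * |x| / (ek k + E)) ^ 2 :=
      pow_le_pow_left₀ (abs_nonneg _) h2 2
    have h4 : ek k * (2 * |x| / (ek k + E)) ^ 2 ≤ 4 / E * x ^ 2 := by
      have h5 : 0 < ek k + E := by linarith
      rw [div_pow, mul_pow, sq_abs, div_mul_eq_mul_div, mul_div_assoc',
        div_le_div_iff₀ (by positivity) hE]
      have h6 : ek k * E ≤ (ek k + E) ^ 2 := by nlinarith
      nlinarith [mul_le_mul_of_nonneg_right h6 (show 0 ≤ 4 * x ^ 2 by positivity)]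
    exact (mul_le_mul_of_nonneg_left h3 hK.le).trans h4
  · have hx0 : 0 ≤ x := by linarith
    obtain ⟨h2, -⟩ := A_big hE hD hx hK hx0
    have h3 : |AA E D x (ek k)| ^ 2 ≤ E / (8 * ek k) := by
      refine (pow_le_pow_left₀ (abs_nonneg _) h2 2).trans (le_of_eq ?_)
      exact Real.sq_sqrt (by positivity)
    have h4 : ek k * |AA E D x (ek k)| ^ 2 ≤ E / 8 := by
      refine (mul_le_mul_of_nonneg_left h3 hK.le).trans (le_of_eq ?_)
      field_simp
    have h5 : E / 8 ≤ 4 / E * x ^ 2 := by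
      rw [div_mul_eq_mul_div, div_le_div_iff₀ (by norm_num) hE]
      nlinarith
    exact h4.trans h5

end IntegAux

open IntegAux

theorem integ_h {v₁ : E3 → ℝ} {lam ρ E D₀ : ℝ} {T h : E3 → ℝ} (hs : SD v₁ lam ρ E D₀ T h) :
    Integrable h := by
  have he : h = fun k => T k / XX E (T k) (ek k) := funext hs.h_eq
  rw [he]
  refine (dom_integrable hs).mono' ?_ ?_
  · have hT := hs.cont
    have hek := continuous_ek
    have h1 : Continuous fun k => XX E (T k) (ek k) := by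
      unfold XX
      fun_prop
    exact (hT.measurable.div h1.measurable).aestronglyMeasurable
  · filter_upwards [ae_ne] with k hk
    rw [Real.norm_eq_abs]
    exact h_bound hs.E_pos (hs.le k) hk rfl

theorem integ_A {v₁ : E3 → ℝ} {lam ρ E D₀ D : ℝ} {T h : E3 → ℝ} (hs : SD v₁ lam ρ E D₀ T h)
    (hD : 0 < D) (hDE : D ≤ E) : Integrable (fun k => AA E D (T k) (ek k)) := by
  refine (dom_integrable hs).mono' (continuous_AA hs.E_pos hD hs.cont hs.le).aestronglyMeasurable ?_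
  filter_upwards [ae_ne] with k hk
  rw [Real.norm_eq_abs]
  exact A_bound hs.E_pos hD (hs.le k) hk rfl

theorem integ_K {v₁ : E3 → ℝ} {lam ρ E D₀ D : ℝ} {T h : E3 → ℝ} (hs : SD v₁ lam ρ E D₀ T h)
    (hD : 0 < D) (hDE : D ≤ E) : Integrable (fun k => ek k * gm (AA E D (T k) (ek k))) := by
  have hA := continuous_AA hs.E_pos hD hs.cont hs.le
  refine ((sq_integrable hs).const_mul (4 / E)).mono'
    (continuous_ek.mul (continuous_gm.comp hA)).aestronglyMeasurable ?_
  filter_upwards [ae_ne] with k hk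
  rw [Real.norm_eq_abs, abs_of_nonneg (mul_nonneg (ek_nonneg k) (gm_nonneg _))]
  exact K_bound hs.E_pos hD (hs.le k) hk

theorem integ_G {v₁ : E3 → ℝ} {lam ρ E D₀ D : ℝ} {T h : E3 → ℝ} (hs : SD v₁ lam ρ E D₀ T h)
    (hv : Pot v₁) (hb : Continuous (ct v₁)) (hV : ∀ k, |ct v₁ k| ≤ ∫ x, v₁ x)
    (hD : 0 < D) (hDE : D ≤ E) :
    Integrable (fun k => (ek k + ρ * lam * ct v₁ k) * gm (AA E D (T k) (ek k)) -
      T k * AA E D (T k) (ek k) + T k * h k / 2) := by
  have hAc := continuous_AA hs.E_pos hD hs.cont hs.le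
  have hA := integ_A hs hD hDE
  have hK := integ_K hs hD hDE
  have hh := integ_h hs
  have hg : Integrable (fun k => gm (AA E D (T k) (ek k))) := by
    refine hA.mono (continuous_gm.comp hAc).aestronglyMeasurable
      (Eventually.of_forall fun k => ?_)
    rw [Real.norm_eq_abs, Real.norm_eq_abs, abs_of_nonneg (gm_nonneg _)]
    exact gm_le_abs _
  have h1 : Integrable (fun k => (ρ * lam * ct v₁ k) * gm (AA E D (T k) (ek k))) := by
    refine hg.bdd_mul (c := ρ * lam * ∫ x, v₁ x)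
      ((continuous_const.mul hb).aestronglyMeasurable) (Eventually.of_forall fun k => ?_)
    have hr := hs.rho_pos
    have hl := hs.lam_pos
    rw [Real.norm_eq_abs, abs_mul, abs_of_pos (mul_pos hr hl)]
    exact mul_le_mul_of_nonneg_left (hV k) (mul_pos hr hl).le
  have h2 : Integrable (fun k => T k * AA E D (T k) (ek k)) :=
    hA.bdd_mul (c := E) hs.cont.aestronglyMeasurable (Eventually.of_forall fun k => by
      rw [Real.norm_eq_abs]
      exact hs.le k)
  have h3 : Integrable (fun k => T k * h k) :=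
    hh.bdd_mul (c := E) hs.cont.aestronglyMeasurable (Eventually.of_forall fun k => by
      rw [Real.norm_eq_abs]
      exact hs.le k)
  have h4 := ((hK.add h1).sub h2).add (h3.div_const 2)
  refine h4.congr (Eventually.of_forall fun k => ?_)
  simp only [Pi.add_apply, Pi.sub_apply]
  ring

end Pool.Agent.P76w
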