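import Pool.Agent.Lib.P76w.CtFacts

/-!
# P76w.Inversion (1.5 h): Fourier inversion almost everywhere
(black boxes: P76s.FourierEqn (`fe_flip`), CtFacts)

`f ∈ L¹`, `𝓕 f ∈ L¹`.  `F := 𝓕⁻ (𝓕 f)` is continuous and bounded.  For `g` Schwartz (library
`fe_flip`): `∫ f · 𝓕⁻g = ∫ 𝓕 f(-k) g(k) dk`, and by Fubini (`𝓕 f` and `𝓕⁻ g` integrable)
`∫ F · 𝓕⁻g = ∫ 𝓕 f(k) (∫ e^{2πi⟨k,x⟩} (𝓕⁻g)(x) dx) dk = ∫ 𝓕 f(k) g(-k) dk` (inversion for Schwartz functions).
Every Schwartz function is `𝓕⁻ g` of one, so `∫ (f - F) φ = 0` for all Schwartz `φ`, in particular for all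
smooth compactly supported `φ`; so `f = F` a.e. (`ae_eq_zero_of_integral_contDiff_smul_eq_zero`, as in
`P76s.ae_nonneg_of_pair`; `f - F` is locally integrable).
* `ae_bound`: `|F| ≤ ∫ |𝓕 f|`.
* `ae_inv_ct`: `𝓕 f = ct f` (`fourier_even`), real and even, and `𝓕⁻` of a real even function is its `ct`.
-/

open MeasureTheory Filter Topology
open scoped BigOperators FourierTransform SchwartzMap ContDiff

namespace Pool.Agent.P76w

open Pool.Agent.P76s

theorem ae_inv {f : E3 → ℂ} (hf : Integrable f) (hF : Integrable (𝓕 f)) :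
    ∀ᵐ x, f x = 𝓕⁻ (𝓕 f) x := by
  have hFc : Continuous (𝓕⁻ (𝓕 f)) := by
    have h : 𝓕⁻ (𝓕 f) = fun x => 𝓕 (𝓕 f) (-x) := by
      funext x
      exact Real.fourierInv_eq_fourier_neg _ _
    rw [h]
    exact (fe_cont hF).comp continuous_neg
  apply ae_eq_of_integral_contDiff_smul_eq hf.locallyIntegrable hFc.locallyIntegrable
  intro g hg hgc
  have hg1 : HasCompactSupport (Complex.ofRealCLM ∘ g) := hgc.comp_left rfl
  have hg2 : ContDiff ℝ ∞ (Complex.ofRealCLM ∘ g) := by fun_prop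
  set G : 𝓢(E3, ℂ) := hg1.toSchwartzMap hg2 with hG
  have hGx : ∀ x, G x = (g x : ℂ) := fun x => rfl
  have hGinv : 𝓕⁻ (𝓕 G) = G := FourierTransform.fourierInv_fourier_eq G
  have e1 : ∫ x, g x • f x = ∫ k, 𝓕 f (-k) * (𝓕 G) k := by
    rw [← fe_flip hf (𝓕 G), hGinv]
    refine integral_congr_ae (Filter.Eventually.of_forall fun x => ?_)
    show g x • f x = f x * G x
    rw [hGx, Complex.real_smul, mul_comm]
  have e2 : ∫ x, g x • 𝓕⁻ (𝓕 f) x = ∫ k, 𝓕 f (-k) * (𝓕 G) k := by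
    have h1 : ∫ x, g x • 𝓕⁻ (𝓕 f) x = ∫ x, 𝓕 (𝓕 f) (-x) * G x := by
      refine integral_congr_ae (Filter.Eventually.of_forall fun x => ?_)
      show g x • 𝓕⁻ (𝓕 f) x = 𝓕 (𝓕 f) (-x) * G x
      rw [hGx, Complex.real_smul, mul_comm, Real.fourierInv_eq_fourier_neg]
    rw [h1, ← fe_flip hF G]
    refine Eq.trans ?_ (integral_neg_eq_self (fun k => 𝓕 f (-k) * (𝓕 G : 𝓢(E3, ℂ)) k) volume)
    refine integral_congr_ae (Filter.Eventually.of_forall fun x => ?_)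
    simp only [neg_neg]
    congr 1
  rw [e1, e2]

theorem ae_bound {f : E3 → ℂ} (hf : Integrable f) (hF : Integrable (𝓕 f)) :
    ∀ᵐ x, ‖f x‖ ≤ ∫ k, ‖𝓕 f k‖ := by
  filter_upwards [ae_inv hf hF] with x hx
  rw [hx, Real.fourierInv_eq_fourier_neg]
  exact VectorFourier.norm_fourierIntegral_le_integral_norm _ _ _ _ _

theorem ae_inv_ct {f : E3 → ℝ} (hf : Integrable f) (he : ∀ᵐ x, f (-x) = f x)
    (hF : Integrable (ct f)) : ∀ᵐ x, f x = ct (ct f) x := by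
  have h1 : 𝓕 (fun x => (f x : ℂ)) = fun k => ((ct f k : ℝ) : ℂ) := funext (fourier_even hf he)
  have h2 : Integrable (𝓕 (fun x => (f x : ℂ))) := by
    rw [h1]
    exact hF.ofReal
  filter_upwards [ae_inv (f := fun x => (f x : ℂ)) hf.ofReal h2] with x hx
  rw [Real.fourierInv_eq_fourier_neg, h1,
    fourier_even hF (Filter.Eventually.of_forall fun k => ct_neg f k), ct_neg] at hx
  exact_mod_cast hx

end Pool.Agent.P76w
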