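import Pool.Agent.Lib.P76w.Defs

/-!
# P76w.Riemann (2 h): lattice sums converge to integrals

`kL L n = n/L ∈ ℝ³`.  `φ` continuous, `φ k = 0` for `‖k‖ ≥ R`: so `φ` is uniformly continuous.  For `L ≥ 1` let
`ψ_L(k) = φ(⌊L k⌋/L)` (componentwise floor): `∫ ψ_L = L⁻³ ∑_n φ(n/L)` (cells `n/L + [0,1/L)³`, finitely many
non-zero), `|ψ_L - φ| ≤ ω(√3/L)`, both supported in the ball of radius `R + √3`: so `∫ψ_L → ∫φ` (dominated
convergence or uniform convergence on a bounded set).  The finite set `latI R L` contains all `n ≠ 0` with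
`‖n/L‖ < R`; the term `n = 0` is `L⁻³ φ(0) → 0`.
Alternatively: unit-partition theorems of Mathlib (`BoxIntegral.unitPartition`,
`tendsto_tsum_div_pow_atTop_integral` : `(∑' x : ι → ℤ-lattice, F x)/n^card → ∫`), which however is along
integer `L`; the direct proof is recommended.
-/

open MeasureTheory Filter Topology
open scoped BigOperators

namespace Pool.Agent.P76w

open Pool.Agent.P76s

/-- The lattice point `n/L`. -/
noncomputable def kL (L : ℝ) (n : Fin 3 → ℤ) : E3 := WithLp.toLp 2 fun b => (n b : ℝ) / L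

/-- The lattice points used: all `n ≠ 0` with `|n_b| ≤ ⌈R L⌉`. -/
noncomputable def latI (R L : ℝ) : Finset (Fin 3 → ℤ) :=
  (Fintype.piFinset fun _ => Finset.Icc (-⌈R * L⌉) ⌈R * L⌉).erase 0

theorem latI_modes {R L : ℝ} {A : E3 → ℝ} (hA : ∀ k, A (-k) = A k) :
    Modes (latI R L) (fun n => A (kL L n)) := by
  refine ⟨Finset.notMem_erase _ _, ?_, ?_⟩
  · intro n hn
    simp only [latI, Finset.mem_erase, Fintype.mem_piFinset, Finset.mem_Icc] at hn ⊢
    refine ⟨neg_ne_zero.2 hn.1, fun b => ?_⟩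
    have := hn.2 b
    simp only [Pi.neg_apply]
    constructor <;> linarith
  · intro n
    rw [show kL L (-n) = -kL L n from ?_]
    · exact hA _
    · ext b
      simp [kL, neg_div]

/-- Riemann sums in coordinates. -/
theorem riemann_aux {g : (Fin 3 → ℝ) → ℝ} (hg : Continuous g) {R : ℝ} (hR : 0 < R)
    (hg0 : ∀ y b, R ≤ |y b| → g y = 0) :
    Tendsto (fun L : ℝ => ∫ y : Fin 3 → ℝ, g (fun b => (⌊L * y b⌋ : ℝ) / L)) atTop
      (𝓝 (∫ y, g y)) := by
  -- a bound of `g`
  obtain ⟨C, hC⟩ : ∃ C, ∀ y, |g y| ≤ C := by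
    obtain ⟨C, hC⟩ := (isCompact_closedBall (0 : Fin 3 → ℝ) R).exists_bound_of_continuousOn
      hg.continuousOn
    refine ⟨max C 0, fun y => ?_⟩
    by_cases hy : y ∈ Metric.closedBall (0 : Fin 3 → ℝ) R
    · exact (hC y hy).trans (le_max_left _ _)
    · have : ∃ b, R ≤ |y b| := by
        by_contra hcon
        push Not at hcon
        apply hy
        rw [mem_closedBall_zero_iff, pi_norm_le_iff_of_nonneg hR.le]
        intro b
        exact (hcon b).le
      obtain ⟨b, hb⟩ := this
      rw [hg0 y b hb, abs_zero]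
      exact le_max_right _ _
  have hC0 : 0 ≤ C := (abs_nonneg _).trans (hC 0)
  have hfl : ∀ L : ℝ, 0 < L → ∀ t : ℝ, |(⌊L * t⌋ : ℝ) / L - t| ≤ 1 / L := by
    intro L hL t
    have h1 := Int.floor_le (L * t)
    have h2 := Int.lt_floor_add_one (L * t)
    rw [abs_le]
    constructor
    · rw [neg_le_sub_iff_le_add, ← add_div, le_div_iff₀ hL]
      nlinarith
    · rw [sub_le_iff_le_add, div_le_iff₀ hL, add_mul, one_div, inv_mul_cancel₀ hL.ne']
      nlinarith
  refine tendsto_integral_filter_of_dominated_convergence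
    (bound := (Metric.closedBall (0 : Fin 3 → ℝ) (R + 1)).indicator fun _ => C) ?_ ?_ ?_ ?_
  · refine Eventually.of_forall fun L => ?_
    apply Measurable.aestronglyMeasurable
    apply hg.measurable.comp
    rw [measurable_pi_iff]
    intro b
    fun_prop
  · filter_upwards [eventually_ge_atTop (1 : ℝ)] with L hL
    refine Eventually.of_forall fun y => ?_
    by_cases hy : y ∈ Metric.closedBall (0 : Fin 3 → ℝ) (R + 1)
    · rw [Set.indicator_of_mem hy]
      exact hC _
    · rw [Set.indicator_of_notMem hy]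
      have : ∃ b, R + 1 ≤ |y b| := by
        by_contra hcon
        push Not at hcon
        apply hy
        rw [mem_closedBall_zero_iff, pi_norm_le_iff_of_nonneg (by linarith)]
        intro b
        exact (hcon b).le
      obtain ⟨b, hb⟩ := this
      rw [hg0 _ b, norm_zero]
      have h1 := hfl L (by linarith) (y b)
      have h2 : 1 / L ≤ 1 := by
        rw [div_le_one (by linarith)]
        exact hL
      have h3 : |y b| ≤ |(⌊L * y b⌋ : ℝ) / L| + |(⌊L * y b⌋ : ℝ) / L - y b| := by
        have := abs_sub_abs_le_abs_sub (y b) ((⌊L * y b⌋ : ℝ) / L)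
        rw [abs_sub_comm] at this
        linarith
      linarith
  · rw [integrable_indicator_iff Metric.isClosed_closedBall.measurableSet]
    exact integrableOn_const (by exact (isCompact_closedBall _ _).measure_lt_top.ne)
  · refine Eventually.of_forall fun y => ?_
    apply (hg.tendsto y).comp
    rw [tendsto_pi_nhds]
    intro b
    rw [tendsto_iff_norm_sub_tendsto_zero]
    refine squeeze_zero' (Eventually.of_forall fun _ => norm_nonneg _) ?_
      (tendsto_const_nhds.div_atTop tendsto_id : Tendsto (fun L : ℝ => (1 : ℝ) / L) atTop (𝓝 0))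
    filter_upwards [eventually_gt_atTop (0 : ℝ)] with L hL
    exact hfl L hL (y b)

/-- The integral of the step function. -/
theorem step_integral {g : (Fin 3 → ℝ) → ℝ} {R L : ℝ} (hR : 0 < R) (hL : 0 < L)
    (hg0 : ∀ y b, R ≤ |y b| → g y = 0) :
    ∫ y : Fin 3 → ℝ, g (fun b => (⌊L * y b⌋ : ℝ) / L) =
      (L ^ 3)⁻¹ * g 0 + (L ^ 3)⁻¹ * ∑ n : latI R L, g (fun b => ((n : Fin 3 → ℤ) b : ℝ) / L) := by
  set S : Finset (Fin 3 → ℤ) := Fintype.piFinset fun _ => Finset.Icc (-⌈R * L⌉) ⌈R * L⌉ with hS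
  have hRL : 0 < R * L := mul_pos hR hL
  have h0S : (0 : Fin 3 → ℤ) ∈ S := by
    simp only [hS, Fintype.mem_piFinset, Finset.mem_Icc, Pi.zero_apply]
    intro b
    have : 0 ≤ ⌈R * L⌉ := Int.ceil_nonneg hRL.le
    constructor <;> linarith
  -- the cells
  set cel : (Fin 3 → ℤ) → Set (Fin 3 → ℝ) := fun n =>
    Set.univ.pi fun b => Set.Ico ((n b : ℝ) / L) (((n b : ℝ) + 1) / L) with hcel
  have hmem : ∀ (n : Fin 3 → ℤ) (y : Fin 3 → ℝ), y ∈ cel n ↔ (fun b => ⌊L * y b⌋) = n := by
    intro n y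
    simp only [hcel, Set.mem_pi, Set.mem_univ, true_imp_iff, Set.mem_Ico, funext_iff]
    refine forall_congr' fun b => ?_
    rw [Int.floor_eq_iff, div_le_iff₀ hL, lt_div_iff₀ hL, mul_comm (y b) L]
  have hcm : ∀ n, MeasurableSet (cel n) := fun n =>
    MeasurableSet.univ_pi fun b => measurableSet_Ico
  have hvol : ∀ n, (volume : Measure (Fin 3 → ℝ)).real (cel n) = (L ^ 3)⁻¹ := by
    intro n
    simp only [Measure.real, hcel]
    rw [volume_pi_pi]
    simp only [Real.volume_Ico]
    rw [ENNReal.toReal_prod]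
    have : ∀ b : Fin 3, (ENNReal.ofReal (((n b : ℝ) + 1) / L - (n b : ℝ) / L)).toReal = L⁻¹ := by
      intro b
      have h1 : ((n b : ℝ) + 1) / L - (n b : ℝ) / L = L⁻¹ := by
        field_simp
        ring
      rw [h1, ENNReal.toReal_ofReal (by positivity)]
    simp [this, Finset.prod_const]
  have hfun : (fun y : Fin 3 → ℝ => g (fun b => (⌊L * y b⌋ : ℝ) / L)) =
      fun y => ∑ n ∈ S, (cel n).indicator (fun _ => g (fun b => (n b : ℝ) / L)) y := by
    funext y
    by_cases hy : (fun b => ⌊L * y b⌋) ∈ S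
    · rw [Finset.sum_eq_single (fun b => ⌊L * y b⌋)]
      · rw [Set.indicator_of_mem ((hmem _ y).2 rfl)]
      · intro n _ hn
        rw [Set.indicator_of_notMem]
        intro hy'
        exact hn ((hmem n y).1 hy').symm
      · intro h
        exact absurd hy h
    · rw [Finset.sum_eq_zero]
      · have : ∃ b, R ≤ |(⌊L * y b⌋ : ℝ) / L| := by
          by_contra hcon
          push Not at hcon
          apply hy
          simp only [hS, Fintype.mem_piFinset, Finset.mem_Icc]
          intro b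
          have h1 := hcon b
          rw [abs_div, abs_of_pos hL, div_lt_iff₀ hL, abs_lt] at h1
          have h2 := Int.le_ceil (R * L)
          constructor
          · have : (-(⌈R * L⌉ : ℝ)) ≤ (⌊L * y b⌋ : ℝ) := by linarith
            exact_mod_cast this
          · have : (⌊L * y b⌋ : ℝ) ≤ (⌈R * L⌉ : ℝ) := by linarith
            exact_mod_cast this
        obtain ⟨b, hb⟩ := this
        exact hg0 _ b hb
      · intro n hn
        rw [Set.indicator_of_notMem]
        intro hy'
        apply hy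
        rw [(hmem n y).1 hy']
        exact hn
  rw [hfun, integral_finsetSum]
  · have h1 : ∀ n ∈ S, ∫ y, (cel n).indicator (fun _ => g (fun b => (n b : ℝ) / L)) y =
        (L ^ 3)⁻¹ * g (fun b => (n b : ℝ) / L) := by
      intro n _
      rw [integral_indicator (hcm n)]
      simp only [integral_const, smul_eq_mul, measureReal_restrict_apply_univ, hvol]
    rw [Finset.sum_congr rfl h1, ← Finset.mul_sum, ← Finset.add_sum_erase S _ h0S, mul_add]
    congr 1
    · congr 2
      funext b
      simp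
    · congr 1
      rw [Finset.sum_coe_sort (latI R L) fun n : Fin 3 → ℤ => g (fun b => (n b : ℝ) / L)]
      rfl
  · intro n _
    rw [integrable_indicator_iff (hcm n)]
    refine integrableOn_const ?_
    intro htop
    have := hvol n
    rw [Measure.real, htop] at this
    simp only [ENNReal.toReal_top] at this
    have h3 : 0 < (L ^ 3)⁻¹ := by positivity
    linarith

theorem riemann {φ : E3 → ℝ} (hc : Continuous φ) {R : ℝ} (hR : 0 < R)
    (hφ : ∀ k, R ≤ ‖k‖ → φ k = 0) :
    Tendsto (fun L : ℝ => (L ^ 3)⁻¹ * ∑ n : latI R L, φ (kL L n)) atTop (𝓝 (∫ k, φ k)) := by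
  set g : (Fin 3 → ℝ) → ℝ := fun y => φ (WithLp.toLp 2 y) with hg
  have hgc : Continuous g := hc.comp (PiLp.continuous_toLp 2 _)
  have hg0 : ∀ y b, R ≤ |y b| → g y = 0 := by
    intro y b hb
    apply hφ
    have h1 := PiLp.norm_apply_le (p := 2) (WithLp.toLp 2 y : E3) b
    simp only [Real.norm_eq_abs] at h1
    exact hb.trans h1
  have hint : ∫ y, g y = ∫ k, φ k :=
    (PiLp.volume_preserving_toLp (Fin 3)).integral_comp
      (MeasurableEquiv.toLp 2 (Fin 3 → ℝ)).measurableEmbedding φ
  rw [← hint]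
  have h1 := riemann_aux hgc hR hg0
  have h2 : Tendsto (fun L : ℝ => (L ^ 3)⁻¹ * g 0) atTop (𝓝 0) := by
    have h3 : Tendsto (fun L : ℝ => (L ^ 3)⁻¹) atTop (𝓝 0) :=
      tendsto_inv_atTop_zero.comp (tendsto_pow_atTop (by norm_num))
    simpa using h3.mul_const (g 0)
  have h4 := h1.sub h2
  rw [sub_zero] at h4
  refine h4.congr' ?_
  filter_upwards [eventually_gt_atTop (0 : ℝ)] with L hL
  rw [step_integral hR hL hg0, add_sub_cancel_left]
  rfl

/-- `ek (n/L) = nsq L n / 2` -/
theorem ek_kL (L : ℝ) (n : Fin 3 → ℤ) : ek (kL L n) = nsq L n / 2 := by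
  unfold ek nsq kL
  rw [EuclideanSpace.norm_sq_eq]
  simp only [Real.norm_eq_abs, sq_abs, div_pow]
  rw [← Finset.sum_div]
  ring

/-- the phase -/
theorem phase_kL (L : ℝ) (n : Fin 3 → ℤ) (z : Fin 3 → ℝ) :
    2 * Real.pi * inner ℝ (kL L n) (WithLp.toLp 2 z) = 2 * Real.pi / L * ∑ b, (n b : ℝ) * z b := by
  unfold kL
  rw [PiLp.inner_apply, div_mul_eq_mul_div, ← mul_div_assoc', Finset.sum_div]
  congr 1
  refine Finset.sum_congr rfl fun b _ => ?_
  simp only [RCLike.inner_apply, conj_trivial]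
  ring

end Pool.Agent.P76w
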