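import Pool.Agent.Lib.P76w.Finite
import Pool.Agent.Lib.P76w.Riemann
import Pool.Agent.Lib.P76w.CtFacts
import Pool.Agent.Lib.P76w.Alg
import Pool.Agent.Lib.P76s.Main

/-!
# P76w.Limit (2.5 h): the quasi-free upper bound in the thermodynamic limit
(black boxes: Finite, Riemann, CtFacts, Alg, `measurable_pot`, `lintegral_pot`, `side_cube`, `tendsto_side` of P76s.Main)

`A` continuous, even, `A = 0` for `‖k‖ ≥ R` (compact support).  `γ₀ = ∫ gm A < ρ`.  For `η > 0` small put `ρ' = ρ+η`,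
`r = ρ' - γ₀ > 0`.  `FF v A ρ'` is a quadratic polynomial in `ρ'`, so for `η` small `FF v A ρ' < FF v A ρ + ε/2`.
For `L > 0` let `I = latI R L`, `a n = A(n/L)`, `W = periodize L (pot v)`.  As `L → ∞`:
* `nbar/L³ = r + L⁻³∑ gm → r + γ₀ = ρ'`; `vbar/L³` converges, so `vbar/(nbar - ρL³)² = O(L⁻³) → 0`;
* `L⁻³ ½∑ nsq gm = L⁻³ ∑ ek(n/L) gm(A(n/L)) → ∫ ek gm A` (`ek_kL`);
* `∫_box W.toReal QQ = ∫_{ℝ³} v QQ` (`QQ` is `L`-periodic; unfold the periodization; `lintegral_periodize`-type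
  lemma exists in P76s (SelfTerm/Tile/NegMode, see there) or use `lintegral_tsum` and translation);
  `alL z → -ct A z`, `gaL z → ct (gm A) z` pointwise (`phase_kL`, Riemann with `φ = A cos`), uniformly bounded
  (`|alL| ≤ L⁻³∑|a|`, convergent), so by dominated convergence
  `½∫ v QQ → ½∫ v[ρ'² + 2r(γ - ct A) + (ct A)² + γ²]`.
  Hence `HH/L³ → FF v A ρ'`.
With `L = (N/ρ)^{1/3}`, `M = N = ρL³ < nbar` for large `N`: `finite_bound` gives
`groundEnergy N ≤ ofReal(HH/(1 - o(1))) ≤ ofReal(L³ (FF v A ρ' + ε/2)) ≤ ofReal((FF v A ρ + ε) N/ρ)`.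
-/

open MeasureTheory Filter Topology ProbabilityTheory
open scoped BigOperators ContDiff ComplexConjugate ENNReal

namespace Pool.Agent.P76w

open Pool.Agent.P76s

namespace LimitAux

/-- the potential as a function of the coordinates -/
def vc (v : E3 → ℝ) (y : Fin 3 → ℝ) : ℝ := v (WithLp.toLp 2 y)

lemma integrable_vc {v : E3 → ℝ} (hv : Integrable v) : Integrable (vc v) :=
  ((PiLp.volume_preserving_toLp (Fin 3)).integrable_comp_emb
    (MeasurableEquiv.toLp 2 _).measurableEmbedding).2 hv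

lemma integral_toLp (f : E3 → ℝ) : ∫ y : Fin 3 → ℝ, f (WithLp.toLp 2 y) = ∫ x, f x :=
  (PiLp.volume_preserving_toLp (Fin 3)).integral_comp
    (MeasurableEquiv.toLp 2 _).measurableEmbedding f

section per

variable {v : E3 → ℝ} {L : ℝ}

lemma box_ne_top (hL : 0 < L) (hvm : Measurable v) (hv : Integrable v) (hv0 : ∀ x, 0 ≤ v x) :
    ∫⁻ y in box L, periodize L (pot v) y ≠ ⊤ := by
  rw [lintegral_box_periodize hL (Pool.Agent.P76s.measurable_pot hvm), lintegral_pot hvm hv hv0]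
  exact ENNReal.ofReal_ne_top

lemma measurable_vc (hvm : Measurable v) : Measurable (vc v) :=
  hvm.comp (PiLp.volume_preserving_toLp (Fin 3)).measurable

lemma per_int_nonneg (hL : 0 < L) (hvm : Measurable v) (hv : Integrable v) (hv0 : ∀ x, 0 ≤ v x)
    {Q : (Fin 3 → ℝ) → ℝ} (hQm : Measurable Q) (hQ0 : ∀ z, 0 ≤ Q z)
    (hQp : ∀ y (n : Fin 3 → ℤ), Q (y + lat L n) = Q y) :
    ∫ z in box L, (periodize L (pot v) z).toReal * Q z = ∫ z, vc v z * Q z := by
  have hpm : Measurable (pot v) := Pool.Agent.P76s.measurable_pot hvm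
  have hWm : Measurable (periodize L (pot v)) := measurable_periodize hpm
  have hWi := box_ne_top hL hvm hv hv0
  have hWf : ∀ᵐ z ∂(volume.restrict (box L)), periodize L (pot v) z < ⊤ := ae_lt_top hWm hWi
  rw [integral_eq_lintegral_of_nonneg_ae
      (Eventually.of_forall fun z => mul_nonneg ENNReal.toReal_nonneg (hQ0 z))
      ((hWm.ennreal_toReal.mul hQm).aestronglyMeasurable),
    integral_eq_lintegral_of_nonneg_ae
      (Eventually.of_forall fun z => mul_nonneg (show 0 ≤ vc v z from hv0 _) (hQ0 z))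
      (((measurable_vc hvm).mul hQm).aestronglyMeasurable)]
  congr 1
  have h1 : ∫⁻ z in box L, ENNReal.ofReal ((periodize L (pot v) z).toReal * Q z) =
      ∫⁻ z in box L, periodize L (fun y => pot v y * ENNReal.ofReal (Q y)) z := by
    apply lintegral_congr_ae
    filter_upwards [hWf] with z hz
    rw [ENNReal.ofReal_mul ENNReal.toReal_nonneg, ENNReal.ofReal_toReal hz.ne]
    unfold periodize
    rw [← ENNReal.tsum_mul_right]
    simp only [hQp]
  have hm : Measurable fun y => pot v y * ENNReal.ofReal (Q y) := hpm.mul hQm.ennreal_ofReal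
  rw [h1, lintegral_box_periodize hL hm]
  apply lintegral_congr
  intro z
  rw [ENNReal.ofReal_mul (show 0 ≤ vc v z from hv0 _)]
  rfl

lemma per_int (hL : 0 < L) (hvm : Measurable v) (hv : Integrable v) (hv0 : ∀ x, 0 ≤ v x)
    {Q : (Fin 3 → ℝ) → ℝ} (hQm : Measurable Q) {C : ℝ} (hQC : ∀ z, |Q z| ≤ C)
    (hQp : ∀ y (n : Fin 3 → ℤ), Q (y + lat L n) = Q y) :
    ∫ z in box L, (periodize L (pot v) z).toReal * Q z = ∫ z, vc v z * Q z := by
  have hC : 0 ≤ C := (abs_nonneg _).trans (hQC 0)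
  have hpm : Measurable (pot v) := Pool.Agent.P76s.measurable_pot hvm
  have hWm : Measurable (periodize L (pot v)) := measurable_periodize hpm
  have hWi := box_ne_top hL hvm hv hv0
  have h1 := per_int_nonneg hL hvm hv hv0 (Q := fun z => Q z + C) (hQm.add_const C)
    (fun z => by have := neg_abs_le (Q z); linarith [hQC z]) (fun y n => by simp only [hQp])
  have h2 := per_int_nonneg hL hvm hv hv0 (Q := fun _ => C) measurable_const (fun _ => hC)
    (fun _ _ => rfl)
  have hWint : Integrable (fun z => (periodize L (pot v) z).toReal) (volume.restrict (box L)) :=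
    integrable_toReal_of_lintegral_ne_top hWm.aemeasurable hWi
  have i1 : Integrable (fun z => (periodize L (pot v) z).toReal * Q z)
      (volume.restrict (box L)) :=
    hWint.mul_bdd (c := C) hQm.aestronglyMeasurable (Eventually.of_forall fun z => by
      rw [Real.norm_eq_abs]; exact hQC z)
  have i2 : Integrable (fun z => (periodize L (pot v) z).toReal * C)
      (volume.restrict (box L)) := hWint.mul_const C
  have i3 : Integrable (fun z => vc v z * Q z) :=
    (integrable_vc hv).mul_bdd (c := C) hQm.aestronglyMeasurable (Eventually.of_forall fun z => by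
      rw [Real.norm_eq_abs]; exact hQC z)
  have i4 : Integrable (fun z => vc v z * C) := (integrable_vc hv).mul_const C
  simp only [mul_add] at h1
  rw [integral_add i1 i2, integral_add i3 i4, h2] at h1
  linarith

end per

section limits

variable {A : E3 → ℝ} {R : ℝ}

lemma gm_zero : gm 0 = 0 := by
  have h1 := gm_nonneg 0
  have h2 := gm_le_sq 0
  norm_num at h2
  linarith

lemma tend_ct {g : E3 → ℝ} (hg : Continuous g) (hR : 0 < R) (hgR : ∀ k, R ≤ ‖k‖ → g k = 0)
    (z : Fin 3 → ℝ) :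
    Tendsto (fun L : ℝ => (L ^ 3)⁻¹ * ∑ n : latI R L, g (kL L n) *
      Real.cos (2 * Real.pi / L * ∑ b, ((n : Fin 3 → ℤ) b : ℝ) * z b)) atTop
      (𝓝 (ct g (WithLp.toLp 2 z))) := by
  have hc : Continuous fun k : E3 =>
      g k * Real.cos (2 * Real.pi * inner ℝ k (WithLp.toLp 2 z : E3)) :=
    hg.mul (Real.continuous_cos.comp (continuous_const.mul (continuous_id.inner continuous_const)))
  have h := riemann hc hR (fun k hk => by rw [hgR k hk, zero_mul])
  unfold ct
  refine h.congr fun L => ?_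
  congr 1
  refine Finset.sum_congr rfl fun n _ => ?_
  rw [phase_kL]

lemma abs_sum_le {L : ℝ} (hL : 0 < L) (g : E3 → ℝ) (z : Fin 3 → ℝ) :
    |(L ^ 3)⁻¹ * ∑ n : latI R L, g (kL L n) *
      Real.cos (2 * Real.pi / L * ∑ b, ((n : Fin 3 → ℤ) b : ℝ) * z b)| ≤
      (L ^ 3)⁻¹ * ∑ n : latI R L, |g (kL L n)| := by
  rw [abs_mul, abs_of_pos (by positivity : 0 < (L ^ 3)⁻¹)]
  refine mul_le_mul_of_nonneg_left ?_ (by positivity)
  refine (Finset.abs_sum_le_sum_abs _ _).trans (Finset.sum_le_sum fun n _ => ?_)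
  rw [abs_mul]
  exact mul_le_of_le_one_right (abs_nonneg _) (Real.abs_cos_le_one _)

lemma alL_eq (L : ℝ) (z : Fin 3 → ℝ) : alL L (latI R L) (fun n => A (kL L n)) z =
    -((L ^ 3)⁻¹ * ∑ n : latI R L, A (kL L n) *
      Real.cos (2 * Real.pi / L * ∑ b, ((n : Fin 3 → ℤ) b : ℝ) * z b)) := by
  unfold alL
  rw [neg_mul]

lemma gaL_eq (L : ℝ) (z : Fin 3 → ℝ) : gaL L (latI R L) (fun n => A (kL L n)) z =
    (L ^ 3)⁻¹ * ∑ n : latI R L, gm (A (kL L n)) *
      Real.cos (2 * Real.pi / L * ∑ b, ((n : Fin 3 → ℤ) b : ℝ) * z b) := rfl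

lemma cos_per {L : ℝ} (hL : 0 < L) (n m : Fin 3 → ℤ) (y : Fin 3 → ℝ) :
    Real.cos (2 * Real.pi / L * ∑ b, (n b : ℝ) * (y + lat L m) b) =
      Real.cos (2 * Real.pi / L * ∑ b, (n b : ℝ) * y b) := by
  have h : 2 * Real.pi / L * ∑ b, (n b : ℝ) * (y + lat L m) b =
      2 * Real.pi / L * ∑ b, (n b : ℝ) * y b +
        ((∑ b, n b * m b : ℤ) : ℝ) * (2 * Real.pi) := by
    simp only [Pi.add_apply, lat]
    push_cast
    rw [Finset.sum_mul, Finset.mul_sum, Finset.mul_sum, ← Finset.sum_add_distrib]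
    refine Finset.sum_congr rfl fun b _ => ?_
    field_simp
  rw [h, Real.cos_add_int_mul_two_pi]

lemma QQ_per {L : ℝ} (hL : 0 < L) (r : ℝ) (I : Finset (Fin 3 → ℤ)) (a : (Fin 3 → ℤ) → ℝ)
    (y : Fin 3 → ℝ) (m : Fin 3 → ℤ) : QQ L r I a (y + lat L m) = QQ L r I a y := by
  unfold QQ alL gaL
  simp only [cos_per hL]

lemma continuous_alL (L : ℝ) (I : Finset (Fin 3 → ℤ)) (a : (Fin 3 → ℤ) → ℝ) :
    Continuous (alL L I a) := by
  unfold alL
  fun_prop

lemma continuous_gaL (L : ℝ) (I : Finset (Fin 3 → ℤ)) (a : (Fin 3 → ℤ) → ℝ) :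
    Continuous (gaL L I a) := by
  unfold gaL
  fun_prop

lemma continuous_QQ (L r : ℝ) (I : Finset (Fin 3 → ℤ)) (a : (Fin 3 → ℤ) → ℝ) :
    Continuous (QQ L r I a) := by
  unfold QQ
  have h1 := continuous_alL L I a
  have h2 := continuous_gaL L I a
  fun_prop

lemma QQ_bd {r C al ga g0 : ℝ} (hr : 0 ≤ r) (h0 : |g0| ≤ C) (h1 : |al| ≤ C) (h2 : |ga| ≤ C) :
    |(r + g0) ^ 2 + 2 * r * (al + ga) + al ^ 2 + ga ^ 2| ≤
      (r + C) ^ 2 + 4 * r * C + 2 * C ^ 2 := by
  have hC : 0 ≤ C := (abs_nonneg _).trans h0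
  rw [abs_le] at h0 h1 h2 ⊢
  have e1 : al ^ 2 ≤ C ^ 2 := by nlinarith
  have e2 : ga ^ 2 ≤ C ^ 2 := by nlinarith
  have e3 : (r + g0) ^ 2 ≤ (r + C) ^ 2 := by nlinarith
  have e4 : r * al ≤ r * C := mul_le_mul_of_nonneg_left h1.2 hr
  have e5 : r * ga ≤ r * C := mul_le_mul_of_nonneg_left h2.2 hr
  have e6 : r * -C ≤ r * al := mul_le_mul_of_nonneg_left h1.1 hr
  have e7 : r * -C ≤ r * ga := mul_le_mul_of_nonneg_left h2.1 hr
  constructor
  · nlinarith [sq_nonneg (r + g0), sq_nonneg al, sq_nonneg ga, sq_nonneg (r + C), sq_nonneg C]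
  · nlinarith

end limits

end LimitAux

open LimitAux in
theorem quasi_free {v : E3 → ℝ} (hvm : Measurable v) (hv : Integrable v) (hv0 : ∀ x, 0 ≤ v x)
    {A : E3 → ℝ} (hA : Continuous A) (hAc : HasCompactSupport A)
    (hAe : ∀ k, A (-k) = A k) {ρ ε : ℝ} (hρ : 0 < ρ) (hγ : ∫ k, gm (A k) < ρ) (hε : 0 < ε) :
    ∃ N₀ : ℕ, ∀ N ≥ N₀,
      groundEnergy N ((N / ρ) ^ (1 / 3 : ℝ)) (periodize ((N / ρ) ^ (1 / 3 : ℝ)) (pot v)) ≤
        ENNReal.ofReal ((FF v A ρ + ε) / ρ * N) := by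
  -- support
  obtain ⟨R, hR, hAR⟩ : ∃ R : ℝ, 0 < R ∧ ∀ k, R ≤ ‖k‖ → A k = 0 := by
    obtain ⟨R, hR⟩ := hAc.isCompact.isBounded.subset_ball (0 : E3)
    refine ⟨max R 1, by positivity, fun k hk => ?_⟩
    by_contra hne
    have h1 : k ∈ tsupport A := subset_tsupport A hne
    have h2 := hR h1
    rw [Metric.mem_ball, dist_zero_right] at h2
    exact absurd (le_trans (le_max_left _ _) hk) (not_le.2 h2)
  set G : E3 → ℝ := fun k => gm (A k) with hG
  have hGc : Continuous G := continuous_gm.comp hA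
  have hGR : ∀ k, R ≤ ‖k‖ → G k = 0 := fun k hk => by rw [hG]; simp only [hAR k hk, gm_zero]
  have hAi : Integrable A := hA.integrable_of_hasCompactSupport hAc
  have hGi : Integrable G := hGc.integrable_of_hasCompactSupport (hAc.comp_left gm_zero)
  set γ₀ := ∫ k, gm (A k) with hγ₀
  have hγ₀0 : 0 ≤ γ₀ := integral_nonneg fun k => gm_nonneg _
  -- the choice of the density
  have hFc : Continuous fun ρ' : ℝ => FF v A ρ' := by
    unfold FF
    fun_prop
  obtain ⟨η, hη, hFη⟩ : ∃ η > 0, FF v A (ρ + η) < FF v A ρ + ε := by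
    have h1 : Tendsto (fun η : ℝ => FF v A (ρ + η)) (𝓝[>] 0) (𝓝 (FF v A (ρ + 0))) :=
      ((hFc.comp (continuous_const.add continuous_id)).tendsto 0).mono_left nhdsWithin_le_nhds
    rw [add_zero] at h1
    have h2 := (h1.eventually (gt_mem_nhds (show FF v A ρ < FF v A ρ + ε by linarith))).and
      self_mem_nhdsWithin
    obtain ⟨η, h3, h4⟩ := h2.exists
    exact ⟨η, h4, h3⟩
  set r := ρ + η - γ₀ with hr
  have hr0 : 0 ≤ r := by linarith
  have hrγ : r + γ₀ = ρ + η := by rw [hr]; ring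
  -- the bounds
  set C₁ := (∫ k, |A k|) + 1 with hC₁
  have hC₁0 : 0 ≤ C₁ := by
    have : 0 ≤ ∫ k, |A k| := integral_nonneg fun k => abs_nonneg _
    linarith
  have tabs : Tendsto (fun L : ℝ => (L ^ 3)⁻¹ * ∑ n : latI R L, |A (kL L n)|) atTop
      (𝓝 (∫ k, |A k|)) :=
    riemann (φ := fun k => |A k|) hA.abs hR (fun k hk => by simp [hAR k hk])
  have evabs : ∀ᶠ L : ℝ in atTop, (L ^ 3)⁻¹ * ∑ n : latI R L, |A (kL L n)| ≤ C₁ :=
    (tabs.eventually (gt_mem_nhds (show (∫ k, |A k|) < C₁ by linarith))).mono fun _ h => h.le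
  have bda : ∀ᶠ L : ℝ in atTop, 0 < L ∧
      (∀ z, |alL L (latI R L) (fun n => A (kL L n)) z| ≤ C₁) ∧
      (∀ z, |gaL L (latI R L) (fun n => A (kL L n)) z| ≤ C₁) := by
    filter_upwards [evabs, eventually_gt_atTop (0 : ℝ)] with L h1 h2
    refine ⟨h2, fun z => ?_, fun z => ?_⟩
    · rw [alL_eq, abs_neg]
      exact (abs_sum_le h2 A z).trans h1
    · rw [gaL_eq]
      refine (abs_sum_le h2 G z).trans (le_trans ?_ h1)
      refine mul_le_mul_of_nonneg_left (Finset.sum_le_sum fun n _ => ?_) (by positivity)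
      rw [abs_of_nonneg (gm_nonneg _)]
      exact gm_le_abs _
  set C₂ := (r + C₁) ^ 2 + 4 * r * C₁ + 2 * C₁ ^ 2 with hC₂
  have bdQ : ∀ᶠ L : ℝ in atTop, 0 < L ∧
      ∀ z, |QQ L r (latI R L) (fun n => A (kL L n)) z| ≤ C₂ := by
    filter_upwards [bda] with L h
    refine ⟨h.1, fun z => ?_⟩
    exact QQ_bd hr0 (h.2.2 0) (h.2.1 z) (h.2.2 z)
  -- the limits
  have tG : Tendsto (fun L : ℝ => (L ^ 3)⁻¹ * ∑ n : latI R L, gm (A (kL L n))) atTop (𝓝 γ₀) :=
    riemann hGc hR hGR
  have tV : Tendsto (fun L : ℝ => (L ^ 3)⁻¹ * ∑ n : latI R L,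
      (A (kL L n) ^ 2 + gm (A (kL L n)) ^ 2)) atTop (𝓝 (∫ k, (A k ^ 2 + gm (A k) ^ 2))) :=
    riemann (φ := fun k => A k ^ 2 + gm (A k) ^ 2) ((hA.pow 2).add (hGc.pow 2)) hR
      (fun k hk => by simp [hAR k hk, gm_zero])
  have hekc : Continuous ek := by
    unfold ek
    fun_prop
  have tE : Tendsto (fun L : ℝ => (L ^ 3)⁻¹ * ∑ n : latI R L,
      (ek (kL L n) * gm (A (kL L n)))) atTop (𝓝 (∫ k, ek k * gm (A k))) :=
    riemann (φ := fun k => ek k * gm (A k)) (hekc.mul hGc) hR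
      (fun k hk => by simp [hAR k hk, gm_zero])
  have tal : ∀ z, Tendsto (fun L : ℝ => alL L (latI R L) (fun n => A (kL L n)) z) atTop
      (𝓝 (-ct A (WithLp.toLp 2 z))) := by
    intro z
    simp only [alL_eq]
    exact (tend_ct hA hR hAR z).neg
  have tga : ∀ z, Tendsto (fun L : ℝ => gaL L (latI R L) (fun n => A (kL L n)) z) atTop
      (𝓝 (ct G (WithLp.toLp 2 z))) := by
    intro z
    simp only [gaL_eq]
    exact tend_ct hGc hR hGR z
  have tga0 : Tendsto (fun L : ℝ => gaL L (latI R L) (fun n => A (kL L n)) 0) atTop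
      (𝓝 γ₀) := by
    have h := tga 0
    rw [WithLp.toLp_zero, ct_zero] at h
    exact h
  -- the potential term
  set Ql : (Fin 3 → ℝ) → ℝ := fun z => (r + γ₀) ^ 2 +
    2 * r * (-ct A (WithLp.toLp 2 z) + ct G (WithLp.toLp 2 z)) +
    (-ct A (WithLp.toLp 2 z)) ^ 2 + ct G (WithLp.toLp 2 z) ^ 2 with hQl
  have tQ : ∀ z, Tendsto (fun L : ℝ => QQ L r (latI R L) (fun n => A (kL L n)) z) atTop
      (𝓝 (Ql z)) := by
    intro z
    unfold QQ
    exact (((tga0.const_add r).pow 2).add (((tal z).add (tga z)).const_mul (2 * r))).add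
      ((tal z).pow 2) |>.add ((tga z).pow 2)
  have tpot : Tendsto (fun L : ℝ => ∫ z, vc v z * QQ L r (latI R L) (fun n => A (kL L n)) z)
      atTop (𝓝 (∫ z, vc v z * Ql z)) := by
    refine tendsto_integral_filter_of_dominated_convergence (fun z => |vc v z| * C₂) ?_ ?_ ?_ ?_
    · exact Eventually.of_forall fun L => ((measurable_vc hvm).mul
        (continuous_QQ L r _ _).measurable).aestronglyMeasurable
    · filter_upwards [bdQ] with L hL
      refine Eventually.of_forall fun z => ?_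
      rw [norm_mul, Real.norm_eq_abs, Real.norm_eq_abs]
      exact mul_le_mul_of_nonneg_left (hL.2 z) (abs_nonneg _)
    · exact (integrable_vc hv).abs.mul_const C₂
    · exact Eventually.of_forall fun z => (tQ z).const_mul _
  have hpotlim : ∫ z, vc v z * Ql z = (r + γ₀) ^ 2 * (∫ x, v x) +
      2 * r * (∫ x, v x * (ct G x - ct A x)) + ∫ x, v x * (ct A x ^ 2 + ct G x ^ 2) := by
    have cA := ct_continuous hAi
    have cG := ct_continuous hGi
    have bA := ct_abs_le hAi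
    have bG := ct_abs_le hGi
    have i0 : Integrable fun x => (r + γ₀) ^ 2 * v x := hv.const_mul _
    have i1 : Integrable fun x => v x * (ct G x - ct A x) :=
      hv.mul_bdd (c := (∫ k, |G k|) + ∫ k, |A k|) (cG.sub cA).aestronglyMeasurable
        (Eventually.of_forall fun x => by
          rw [Real.norm_eq_abs]
          exact (abs_sub _ _).trans (add_le_add (bG x) (bA x)))
    have i2 : Integrable fun x => v x * (ct A x ^ 2 + ct G x ^ 2) :=
      hv.mul_bdd (c := (∫ k, |A k|) ^ 2 + (∫ k, |G k|) ^ 2)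
        ((cA.pow 2).add (cG.pow 2)).aestronglyMeasurable
        (Eventually.of_forall fun x => by
          rw [Real.norm_eq_abs, abs_of_nonneg (by positivity)]
          refine add_le_add ?_ ?_
          · rw [← sq_abs]
            exact pow_le_pow_left₀ (abs_nonneg _) (bA x) 2
          · rw [← sq_abs]
            exact pow_le_pow_left₀ (abs_nonneg _) (bG x) 2)
    have h1 : ∫ z, vc v z * Ql z = ∫ x, v x * ((r + γ₀) ^ 2 + 2 * r * (-ct A x + ct G x) +
        (-ct A x) ^ 2 + ct G x ^ 2) :=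
      integral_toLp (fun x => v x * ((r + γ₀) ^ 2 + 2 * r * (-ct A x + ct G x) +
        (-ct A x) ^ 2 + ct G x ^ 2))
    have h2 : ∀ x, v x * ((r + γ₀) ^ 2 + 2 * r * (-ct A x + ct G x) +
        (-ct A x) ^ 2 + ct G x ^ 2) = (r + γ₀) ^ 2 * v x +
        2 * r * (v x * (ct G x - ct A x)) + v x * (ct A x ^ 2 + ct G x ^ 2) := by
      intro x
      ring
    rw [h1]
    simp only [h2]
    have i01 : Integrable fun x => (r + γ₀) ^ 2 * v x + 2 * r * (v x * (ct G x - ct A x)) :=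
      i0.add (i1.const_mul (2 * r))
    rw [integral_add i01 i2, integral_add i0 (i1.const_mul (2 * r)),
      integral_const_mul, integral_const_mul]
  -- the energy
  have tH : Tendsto (fun L : ℝ => HH L r (latI R L) (fun n => A (kL L n))
      (periodize L (pot v)) / L ^ 3) atTop (𝓝 (FF v A (ρ + η))) := by
    have h1 := tE.add (tpot.const_mul (1 / 2))
    have h2 : (∫ k, ek k * gm (A k)) + 1 / 2 * ∫ z, vc v z * Ql z = FF v A (ρ + η) := by
      rw [hpotlim, hrγ]
      unfold FF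
      rw [← hγ₀, ← hr]
      ring
    rw [h2] at h1
    refine h1.congr' ?_
    filter_upwards [bdQ] with L hL
    have hL0 := hL.1
    have hp := per_int hL0 hvm hv hv0
      (continuous_QQ L r (latI R L) (fun n => A (kL L n))).measurable hL.2
      (QQ_per hL0 r (latI R L) (fun n => A (kL L n)))
    unfold HH
    rw [hp]
    have e1 : ∑ n : latI R L, ek (kL L n) * gm (A (kL L n)) =
        1 / 2 * ∑ n : latI R L, nsq L n * gm (A (kL L n)) := by
      rw [Finset.mul_sum]
      refine Finset.sum_congr rfl fun n _ => ?_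
      rw [ek_kL]
      ring
    rw [e1]
    field_simp
  have tN : Tendsto (fun L : ℝ => nbar L r (latI R L) (fun n => A (kL L n)) / L ^ 3) atTop
      (𝓝 (ρ + η)) := by
    have h1 := tG.const_add r
    rw [hrγ] at h1
    refine h1.congr' ?_
    filter_upwards [eventually_gt_atTop (0 : ℝ)] with L hL
    unfold nbar
    field_simp
  obtain ⟨c, tVb⟩ : ∃ c : ℝ, Tendsto (fun L : ℝ =>
      vbar L r (latI R L) (fun n => A (kL L n)) / L ^ 3) atTop (𝓝 c) := by
    refine ⟨_, (tN.add tV).congr' ?_⟩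
    filter_upwards [eventually_gt_atTop (0 : ℝ)] with L hL
    unfold vbar
    field_simp
  have tD : Tendsto (fun L : ℝ => nbar L r (latI R L) (fun n => A (kL L n)) / L ^ 3 - ρ) atTop
      (𝓝 η) := by
    have h := tN.sub_const ρ
    rwa [add_sub_cancel_left] at h
  have tinv : Tendsto (fun L : ℝ => (L ^ 3)⁻¹) atTop (𝓝 0) :=
    tendsto_inv_atTop_zero.comp (tendsto_pow_atTop (by norm_num))
  have tt : Tendsto (fun L : ℝ => vbar L r (latI R L) (fun n => A (kL L n)) /
      (nbar L r (latI R L) (fun n => A (kL L n)) - ρ * L ^ 3) ^ 2) atTop (𝓝 0) := by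
    have h1 := (tVb.div (tD.pow 2) (by positivity)).mul tinv
    rw [mul_zero] at h1
    refine h1.congr' ?_
    filter_upwards [eventually_gt_atTop (0 : ℝ), tD.eventually (lt_mem_nhds hη)] with L hL hd
    have e1 : nbar L r (latI R L) (fun n => A (kL L n)) - ρ * L ^ 3 =
        L ^ 3 * (nbar L r (latI R L) (fun n => A (kL L n)) / L ^ 3 - ρ) := by
      field_simp
    rw [e1]
    have hL3 : L ^ 3 ≠ 0 := by positivity
    have hd' := hd.ne'
    simp only [Pi.div_apply]
    rw [mul_pow]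
    field_simp
  have tF : Tendsto (fun L : ℝ => (HH L r (latI R L) (fun n => A (kL L n))
      (periodize L (pot v)) / L ^ 3) / (1 - vbar L r (latI R L) (fun n => A (kL L n)) /
      (nbar L r (latI R L) (fun n => A (kL L n)) - ρ * L ^ 3) ^ 2)) atTop
      (𝓝 (FF v A (ρ + η))) := by
    have h1 := tH.div (tt.const_sub 1) (by norm_num)
    rw [sub_zero, div_one] at h1
    exact h1
  have hev : ∀ᶠ L : ℝ in atTop, 0 < L ∧
      ρ * L ^ 3 < nbar L r (latI R L) (fun n => A (kL L n)) ∧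
      vbar L r (latI R L) (fun n => A (kL L n)) <
        (nbar L r (latI R L) (fun n => A (kL L n)) - ρ * L ^ 3) ^ 2 ∧
      HH L r (latI R L) (fun n => A (kL L n)) (periodize L (pot v)) /
        (1 - vbar L r (latI R L) (fun n => A (kL L n)) /
        (nbar L r (latI R L) (fun n => A (kL L n)) - ρ * L ^ 3) ^ 2) ≤
        (FF v A ρ + ε) * L ^ 3 := by
    filter_upwards [eventually_gt_atTop (0 : ℝ), tD.eventually (lt_mem_nhds hη),
      tt.eventually (gt_mem_nhds one_pos), tF.eventually (gt_mem_nhds hFη)] with L hL h1 h2 h3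
    have hL3 : 0 < L ^ 3 := by positivity
    have h4 : ρ * L ^ 3 < nbar L r (latI R L) (fun n => A (kL L n)) := by
      have h5 : ρ < nbar L r (latI R L) (fun n => A (kL L n)) / L ^ 3 := by linarith
      rwa [lt_div_iff₀ hL3] at h5
    refine ⟨hL, h4, ?_, ?_⟩
    · have h6 : 0 < (nbar L r (latI R L) (fun n => A (kL L n)) - ρ * L ^ 3) ^ 2 :=
        pow_pos (by linarith) 2
      rwa [div_lt_one h6] at h2
    · rw [div_right_comm, div_lt_iff₀ hL3] at h3
      exact h3.le
  obtain ⟨N₀, hN₀⟩ := eventually_atTop.1 ((tendsto_side hρ).eventually hev)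
  refine ⟨N₀, fun N hN => ?_⟩
  obtain ⟨hL0, h1, h2, h3⟩ := hN₀ N hN
  have hL3 := side_cube hρ N
  set L := ((N : ℝ) / ρ) ^ (1 / 3 : ℝ) with hL
  have hNL : ρ * L ^ 3 = N := by
    rw [hL3]
    field_simp
  rw [hNL] at h1 h2 h3
  refine (finite_bound hL0 hr0 (latI_modes hAe)
    (measurable_periodize (Pool.Agent.P76s.measurable_pot hvm))
    (fun y n => periodize_add y n) (box_ne_top hL0 hvm hv hv0) h1 h2).trans
    (ENNReal.ofReal_le_ofReal (h3.trans (le_of_eq ?_)))
  rw [hL3]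
  ring

end Pool.Agent.P76w
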