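import Pool.Agent.Lib.P76w.VarMain
import Pool.Agent.Lib.P76w.Limit

/-!
# P76w.Main: weak coupling, all densities `ρ ≥ C lam`
-/

open MeasureTheory Filter Topology
open scoped ENNReal NNReal BigOperators FourierTransform

namespace Pool.Agent.P76w

open Pool.Agent.P76s

theorem main {v₁ : E3 → ℝ} (hv : Pot v₁) : ∃ lam₀ > 0, ∃ C > 0, ∃ c > 0, ∀ lam > 0,
    lam ≤ lam₀ → ∀ ρ : ℝ, C * lam ≤ ρ → ∀ (u : E3 → ℝ) (e : ℝ),
    IsSimpleSolution (fun x => lam * v₁ x) ρ u e → (∀ᵐ x, u x ≤ 1) → ∃ N₀ : ℕ, ∀ N ≥ N₀,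
      groundEnergy N ((N / ρ) ^ (1 / 3 : ℝ))
        (periodize ((N / ρ) ^ (1 / 3 : ℝ)) (pot fun x => lam * v₁ x)) ≤
        ENNReal.ofReal ((e - c * lam * (ρ * lam / (1 + ρ * lam)) ^ 2) * N) := by
  obtain ⟨lam₀, hlam₀, C, hC, c, hc, h⟩ := var_main hv
  refine ⟨lam₀, hlam₀, C, hC, c / 2, by positivity, ?_⟩
  intro lam hlam hle ρ hρC u e hsol hu1
  have hρ : 0 < ρ := lt_of_lt_of_le (by positivity) hρC
  obtain ⟨A, hAc, hAs, hAe, hAg, hAF⟩ := h lam hlam hle ρ hρC u e hsol hu1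
  have hs : 0 < ρ * lam := by positivity
  have hε : 0 < c / 2 * ((ρ * lam) ^ 3 / (1 + ρ * lam) ^ 2) := by positivity
  obtain ⟨N₀, hN₀⟩ := quasi_free (v := fun x => lam * v₁ x) (hv.meas.const_mul lam)
    (hv.int.const_mul lam) (fun x => mul_nonneg hlam.le (hv.nonneg x)) hAc hAs hAe hρ hAg hε
  refine ⟨N₀, fun N hN => (hN₀ N hN).trans (ENNReal.ofReal_le_ofReal ?_)⟩
  refine mul_le_mul_of_nonneg_right ?_ (Nat.cast_nonneg N)
  rw [div_le_iff₀ hρ]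
  have h1 : (e - c / 2 * lam * (ρ * lam / (1 + ρ * lam)) ^ 2) * ρ =
      ρ * e - c / 2 * ((ρ * lam) ^ 3 / (1 + ρ * lam) ^ 2) := by
    field_simp
  rw [h1]
  linarith

end Pool.Agent.P76w
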