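import Pool.Agent.Lib.P76w.HForm

/-!
# P76w.SimpleData (2 h): the package `SD`
(black boxes: EvenU, HForm, CtFacts, Inversion, Scale, Alg (`h_le`), SimpleExact.facts, e_pos, nonneg_of_le_one)

`v = lam v₁`, `E = 2e`, `S = (1-u)v`, `T = ρ ct S`, `h = ρ ct u`, `D₀ = ρ ∫ u v ≥ 0`, `V = ∫v₁`, `Q = ∫v₁²`.
* `sum`: `E = ρ∫(1-u)v = ρ lam V - D₀`.  `cont`, `even`: CtFacts.  `le`, `h_eq`: HForm.
* `close`: `T - ρ lam ct v₁ = -ρ ct (u v)`, `|ct (uv)| ≤ ∫ u v`.
* `sq`, `sqle`: `0 ≤ S ≤ v = lam v₁`, `S ∈ L² `, `ct_memLp`, `ct_sq`: `∫T² ≤ ρ²∫S² ≤ (ρ lam)² Q`.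
* `h ∈ L¹`: `|h| ≤ |T|/(K+E) ≤ ½(T² + (K+E)⁻²)`, Scale (`(K+E)⁻² ≤ E⁻² g0(K/E)`).  So `ct u ∈ L¹`,
  and by `ae_inv_ct` (`u` even): `u = ct (ct u)` a.e.
* `D₀ = ρ∫ u v = ∫ ct h(x) v(x) dx = lam ∫ h(k) ct v₁(k) dk` (`ct_comm`), so
  (i) `D₀ ≤ lam ∫ |h||b| ≤ lam E ∫ |b|/K = lam C₁ E` (`|h| ≤ E/(K+E)`, `b_over_K`);
  (ii) `D₀ ≤ (lam/E) ∫ |T||b| ≤ (lam/E) ½(ρ lam ∫b² + (ρ lam)⁻¹ ∫T²) ≤ (lam/E) ρ lam Q` (`∫b² ≤ Q` by
  `ct_sq`), and if `lam C₁ ≤ 1`: `ρ lam V = E + D₀ ≤ 2E`: `D₀ ≤ 2 lam Q/V`.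
  So `D₀ ≤ lam max(C₁, 2Q/V) min(E, 1) ≤ 2 lam max(C₁, 2Q/V) E/(1+E)`.  (`C₄ = 2(C₁ + 2Q/V) + 1`.)
-/

open MeasureTheory Filter Topology
open scoped BigOperators FourierTransform

namespace Pool.Agent.P76w

open Pool.Agent.P76s

namespace SimpleDataAux

/-- `|T|/(K+E) ≤ ½ (T² + E⁻² g0(K/E))` for `K > 0`. -/
theorem h_bound {E T K : ℝ} (hE : 0 < E) (hK : 0 < K) :
    |T| / (K + E) ≤ 1 / 2 * (T ^ 2 + (E ^ 2)⁻¹ * g0 (K / E)) := by
  have hg := g0_a (div_pos hK hE)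
  have h1 : (1 / (K + E)) ^ 2 = (E ^ 2)⁻¹ * (1 / (1 + K / E) ^ 2) := by
    field_simp
    ring
  have h2 : (1 / (K + E)) ^ 2 ≤ (E ^ 2)⁻¹ * g0 (K / E) := by
    rw [h1]
    exact mul_le_mul_of_nonneg_left hg (by positivity)
  have h3 : |T| / (K + E) = |T| * (1 / (K + E)) := by ring
  rw [h3]
  nlinarith [sq_nonneg (|T| - 1 / (K + E)), sq_abs T]

theorem ek_nonneg (k : E3) : 0 ≤ ek k := by
  unfold ek
  positivity

theorem ek_pos {k : E3} (hk : k ≠ 0) : 0 < ek k := by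
  unfold ek
  have : 0 < ‖k‖ := norm_pos_iff.2 hk
  positivity

theorem ae_ne_zero : ∀ᵐ k : E3, k ≠ 0 := by
  have : (volume : Measure E3) {(0 : E3)} = 0 := by simp
  exact (measure_eq_zero_iff_ae_notMem.1 this).mono fun x hx => by simpa using hx

/-- `D ≤ a E`, `D ≤ b` imply `D ≤ (2 (a + b) + 1) E/(1+E)` -/
theorem final_ineq {D a b E lam : ℝ} (hl : 0 < lam) (ha : 0 ≤ a) (hb : 0 ≤ b) (hE : 0 < E)
    (h1 : D ≤ lam * (a * E)) (h2 : D ≤ lam * b) :
    D ≤ (2 * (a + b) + 1) * lam * (E / (1 + E)) := by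
  have hE1 : 0 < 1 + E := by linarith
  rw [mul_div_assoc', le_div_iff₀ hE1]
  rcases le_total E 1 with h | h
  · have h3 : D * (1 + E) ≤ lam * (a * E) * (1 + E) := mul_le_mul_of_nonneg_right h1 hE1.le
    have h4 : lam * (a * E) * (1 + E) ≤ lam * (a * E) * 2 :=
      mul_le_mul_of_nonneg_left (by linarith) (by positivity)
    have h5 : (2 * (a + b) + 1) * lam * E = lam * (a * E) * 2 + (2 * b + 1) * lam * E := by ring
    have h6 : 0 ≤ (2 * b + 1) * lam * E := by positivity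
    linarith
  · have h3 : D * (1 + E) ≤ lam * b * (1 + E) := mul_le_mul_of_nonneg_right h2 hE1.le
    have h4 : lam * b * (1 + E) ≤ lam * b * (2 * E) :=
      mul_le_mul_of_nonneg_left (by linarith) (by positivity)
    have h5 : (2 * (a + b) + 1) * lam * E = lam * b * (2 * E) + (2 * a + 1) * lam * E := by ring
    have h6 : 0 ≤ (2 * a + 1) * lam * E := by positivity
    linarith

end SimpleDataAux

open SimpleDataAux SimpleExactAux SimpleLowerAux in
theorem simple_data {v₁ : E3 → ℝ} (hv : Pot v₁) : ∃ lam₀ > 0, ∃ C₄ > 0, ∀ lam > 0, lam ≤ lam₀ →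
    ∀ ρ > 0, ∀ (u : E3 → ℝ) (e : ℝ), IsSimpleSolution (fun x => lam * v₁ x) ρ u e →
    (∀ᵐ x, u x ≤ 1) →
    SD v₁ lam ρ (2 * e) (ρ * ∫ x, u x * (lam * v₁ x))
      (fun k => ρ * ct (fun x => (1 - u x) * (lam * v₁ x)) k) (fun k => ρ * ct u k) ∧
    ρ * ∫ x, u x * (lam * v₁ x) ≤ C₄ * lam * (2 * e / (1 + 2 * e)) ∧
    (∀ᵐ x, 0 ≤ u x ∧ u x ≤ 1) ∧
    (∀ᵐ x, ρ * u x = ct (fun k => ρ * ct u k) x) := by
  obtain ⟨lamE, hlamE, HE⟩ := even_u hv
  obtain ⟨V, hVdef⟩ : ∃ V, V = ∫ x, v₁ x := ⟨_, rfl⟩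
  obtain ⟨Q, hQdef⟩ : ∃ Q, Q = ∫ x, v₁ x ^ 2 := ⟨_, rfl⟩
  have hV : 0 < V := by rw [hVdef]; exact hv.pos
  have hQ : 0 ≤ Q := by rw [hQdef]; exact integral_nonneg fun x => sq_nonneg _
  have hbV : ∀ k, |ct v₁ k| ≤ V := by
    intro k
    refine (ct_abs_le hv.int k).trans_eq ?_
    rw [hVdef]
    exact integral_congr_ae (ae_of_all _ fun x => abs_of_nonneg (hv.nonneg x))
  have hbm : MemLp (ct v₁) 2 := ct_memLp hv.int hv.sq
  have hbK := b_over_K (ct_continuous hv.int) hbV hbm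
  have hb2 : ∫ k, ct v₁ k ^ 2 ≤ Q := by rw [hQdef]; exact ct_sq hv.int hv.sq
  obtain ⟨C₁, hC₁def⟩ : ∃ C₁, C₁ = ∫ k, |ct v₁ k| / ek k := ⟨_, rfl⟩
  have hC₁ : 0 ≤ C₁ := by
    rw [hC₁def]
    exact integral_nonneg fun k => div_nonneg (abs_nonneg _) (ek_nonneg k)
  refine ⟨min lamE (1 / (C₁ + 1)), lt_min hlamE (by positivity), 2 * (C₁ + 2 * Q / V) + 1,
    by positivity, ?_⟩
  intro lam hlam hlam0 ρ hρ u e h hu1
  have hlamE' : lam ≤ lamE := hlam0.trans (min_le_left _ _)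
  have hlamC : lam * C₁ ≤ 1 := by
    have h1 : lam ≤ 1 / (C₁ + 1) := hlam0.trans (min_le_right _ _)
    rw [le_div_iff₀ (by positivity)] at h1
    nlinarith
  have hvl : Integrable (fun x => lam * v₁ x) := hv.int.const_mul lam
  have hvl0 : ∀ x, 0 ≤ lam * v₁ x := fun x => mul_nonneg hlam.le (hv.nonneg x)
  have hvle : ∀ x, lam * v₁ (-x) = lam * v₁ x := fun x => by rw [hv.even]
  have hVl : ∫ x, lam * v₁ x = lam * V := by rw [integral_const_mul, hVdef]
  have hne : 0 < ∫ x, lam * v₁ x := by rw [hVl]; positivity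
  have hu0 := nonneg_of_le_one hρ hvl hvl0 h hu1
  have hu : ∀ᵐ x, 0 ≤ u x ∧ u x ≤ 1 := by
    filter_upwards [hu0, hu1] with x h0 h1 using ⟨h0, h1⟩
  have he := e_pos hvl hvl0 hne hρ h hu
  have hue := HE lam hlam hlamE' ρ hρ u e h hu1
  obtain ⟨iuv, huv0, hen, -, -, -, -⟩ := facts hρ hvl hvl0 h hu he
  have hform := fun k => h_form hρ hvl hvl0 hvle h hu hue he k
  -- the function `S`
  have iS : Integrable (fun x => (1 - u x) * (lam * v₁ x)) := h.int_S
  have hSle : ∀ᵐ x, |(1 - u x) * (lam * v₁ x)| ≤ lam * v₁ x := by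
    filter_upwards [hu] with x hx
    rw [abs_of_nonneg (mul_nonneg (by linarith [hx.2]) (hvl0 x))]
    nlinarith [hvl0 x, hx.1]
  have hvl2 : MemLp (fun x => lam * v₁ x) 2 := hv.sq.const_mul lam
  have hS2 : MemLp (fun x => (1 - u x) * (lam * v₁ x)) 2 := by
    refine hvl2.mono iS.aestronglyMeasurable ?_
    filter_upwards [hSle] with x hx
    rw [Real.norm_eq_abs, Real.norm_eq_abs, abs_of_nonneg (hvl0 x)]
    exact hx
  have hTcont : Continuous (fun k => ρ * ct (fun x => (1 - u x) * (lam * v₁ x)) k) :=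
    continuous_const.mul (ct_continuous iS)
  have hTm : MemLp (fun k => ρ * ct (fun x => (1 - u x) * (lam * v₁ x)) k) 2 :=
    (ct_memLp iS hS2).const_mul ρ
  have hSsq : ∫ x, ((1 - u x) * (lam * v₁ x)) ^ 2 ≤ lam ^ 2 * Q := by
    have h1 : lam ^ 2 * Q = ∫ x, (lam * v₁ x) ^ 2 := by
      rw [hQdef, ← integral_const_mul]
      exact integral_congr_ae (ae_of_all _ fun x => by ring)
    rw [h1]
    refine integral_mono_ae hS2.integrable_sq hvl2.integrable_sq ?_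
    filter_upwards [hSle] with x hx
    rw [← sq_abs]
    exact pow_le_pow_left₀ (abs_nonneg _) hx 2
  have hTsq : ∫ k, (ρ * ct (fun x => (1 - u x) * (lam * v₁ x)) k) ^ 2 ≤ (ρ * lam) ^ 2 * Q := by
    have h1 : ∫ k, (ρ * ct (fun x => (1 - u x) * (lam * v₁ x)) k) ^ 2 =
        ρ ^ 2 * ∫ k, ct (fun x => (1 - u x) * (lam * v₁ x)) k ^ 2 := by
      rw [← integral_const_mul]
      exact integral_congr_ae (ae_of_all _ fun x => by ring)
    rw [h1]
    have h2 := (ct_sq iS hS2).trans hSsq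
    calc _ ≤ ρ ^ 2 * (lam ^ 2 * Q) := mul_le_mul_of_nonneg_left h2 (by positivity)
      _ = _ := by ring
  have hE : 0 < 2 * e := by linarith
  -- integrability of `h`
  have hhle : ∀ k, |ρ * ct u k| ≤
      |ρ * ct (fun x => (1 - u x) * (lam * v₁ x)) k| / (ek k + 2 * e) := by
    intro k
    rw [(hform k).2]
    exact h_le hE (hform k).1 (ek_nonneg k)
  have ihc : Continuous (fun k => ρ * ct u k) := continuous_const.mul (ct_continuous h.int_u)
  have iT2 : Integrable (fun k => (ρ * ct (fun x => (1 - u x) * (lam * v₁ x)) k) ^ 2) :=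
    hTm.integrable_sq
  have ih : Integrable (fun k => ρ * ct u k) := by
    have hdom : Integrable (fun k => 1 / 2 *
        ((ρ * ct (fun x => (1 - u x) * (lam * v₁ x)) k) ^ 2 +
          ((2 * e) ^ 2)⁻¹ * g0 (ek k / (2 * e)))) :=
      (iT2.add ((g0_scale hE).1.const_mul _)).const_mul _
    refine hdom.mono' ihc.aestronglyMeasurable ?_
    filter_upwards [ae_ne_zero] with k hk
    rw [Real.norm_eq_abs]
    exact (hhle k).trans (h_bound hE (ek_pos hk))
  have ictu : Integrable (ct u) := by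
    have h1 := ih.const_mul ρ⁻¹
    refine h1.congr (ae_of_all _ fun k => ?_)
    beta_reduce
    rw [← mul_assoc, inv_mul_cancel₀ hρ.ne', one_mul]
  have hinv := ae_inv_ct h.int_u hue ictu
  have hinv' : ∀ᵐ x, ρ * u x = ct (fun k => ρ * ct u k) x := by
    filter_upwards [hinv] with x hx
    rw [ct_smul, ← hx]
  -- `D₀`
  have hD0eq : ρ * ∫ x, u x * (lam * v₁ x) = lam * ∫ k, ct v₁ k * (ρ * ct u k) := by
    have h1 : ρ * ∫ x, u x * (lam * v₁ x) = ∫ x, (lam * v₁ x) * ct (fun k => ρ * ct u k) x := by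
      rw [← integral_const_mul]
      refine integral_congr_ae ?_
      filter_upwards [hinv'] with x hx
      rw [← hx]
      ring
    rw [h1, ct_comm hvl ih, ← integral_const_mul]
    refine integral_congr_ae (ae_of_all _ fun k => ?_)
    beta_reduce
    rw [ct_smul]
    ring
  have ibh : Integrable (fun k => |ct v₁ k| * |ρ * ct u k|) := by
    refine (ih.abs.const_mul V).mono'
      ((ct_continuous hv.int).abs.mul ihc.abs).aestronglyMeasurable (ae_of_all _ fun k => ?_)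
    rw [Real.norm_eq_abs, abs_of_nonneg (by positivity)]
    exact mul_le_mul_of_nonneg_right (hbV k) (abs_nonneg _)
  have hD1 : ρ * ∫ x, u x * (lam * v₁ x) ≤ lam * ∫ k, |ct v₁ k| * |ρ * ct u k| := by
    rw [hD0eq]
    refine mul_le_mul_of_nonneg_left ?_ hlam.le
    refine (le_abs_self _).trans ((abs_integral_le_integral_abs).trans_eq ?_)
    exact integral_congr_ae (ae_of_all _ fun k => abs_mul _ _)
  have hDi : ρ * ∫ x, u x * (lam * v₁ x) ≤ lam * (C₁ * (2 * e)) := by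
    refine hD1.trans (mul_le_mul_of_nonneg_left ?_ hlam.le)
    rw [hC₁def, ← integral_mul_const]
    refine integral_mono_ae ibh (hbK.mul_const _) ?_
    filter_upwards [ae_ne_zero] with k hk
    have hK := ek_pos hk
    have h1 : |ρ * ct u k| ≤ 2 * e / ek k := by
      refine (hhle k).trans ?_
      refine div_le_div₀ hE.le (hform k).1 hK (by linarith)
    calc |ct v₁ k| * |ρ * ct u k| ≤ |ct v₁ k| * (2 * e / ek k) :=
          mul_le_mul_of_nonneg_left h1 (abs_nonneg _)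
      _ = |ct v₁ k| / ek k * (2 * e) := by ring
  have hsum : 2 * e + ρ * ∫ x, u x * (lam * v₁ x) = ρ * lam * V := by
    rw [hVl] at hen
    rw [hen]
    ring
  have hr2 : ρ * lam * V ≤ 2 * (2 * e) := by
    rw [← hsum]
    have : lam * (C₁ * (2 * e)) ≤ 2 * e := by
      have := mul_le_mul_of_nonneg_right hlamC hE.le
      linarith
    linarith
  have hDii : ρ * ∫ x, u x * (lam * v₁ x) ≤ lam * (2 * Q / V) := by
    have hrl : 0 < ρ * lam := mul_pos hρ hlam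
    have h2 : ∫ k, |ct v₁ k| * |ρ * ct u k| ≤ (2 * e)⁻¹ * (ρ * lam * Q) := by
      have ib2 : Integrable (fun k => ct v₁ k ^ 2) := hbm.integrable_sq
      have h3 : ∫ k, |ct v₁ k| * |ρ * ct u k| ≤ ∫ k, (2 * e)⁻¹ * (1 / 2 *
          (ρ * lam * ct v₁ k ^ 2 +
            (ρ * lam)⁻¹ * (ρ * ct (fun x => (1 - u x) * (lam * v₁ x)) k) ^ 2)) := by
        refine integral_mono ibh
          ((((ib2.const_mul _).add (iT2.const_mul _)).const_mul _).const_mul _) fun k => ?_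
        have h4 : |ρ * ct u k| ≤
            |ρ * ct (fun x => (1 - u x) * (lam * v₁ x)) k| * (2 * e)⁻¹ := by
          refine (hhle k).trans ?_
          rw [← div_eq_mul_inv]
          exact div_le_div_of_nonneg_left (abs_nonneg _) hE (by linarith [ek_nonneg k])
        beta_reduce
        obtain ⟨b, hb⟩ : ∃ b, b = ct v₁ k := ⟨_, rfl⟩
        obtain ⟨T, hT⟩ : ∃ T, T = ρ * ct (fun x => (1 - u x) * (lam * v₁ x)) k := ⟨_, rfl⟩
        rw [← hT] at h4
        rw [← hb, ← hT]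
        have h5 : |b| * |T| ≤ 1 / 2 * (ρ * lam * b ^ 2 + (ρ * lam)⁻¹ * T ^ 2) := by
          have h6 : 0 ≤ (ρ * lam)⁻¹ * (ρ * lam * |b| - |T|) ^ 2 := by positivity
          have h7 : (ρ * lam)⁻¹ * (ρ * lam * |b| - |T|) ^ 2 =
              ρ * lam * |b| ^ 2 - 2 * (|b| * |T|) + (ρ * lam)⁻¹ * |T| ^ 2 := by
            field_simp
            ring
          rw [sq_abs, sq_abs] at h7
          linarith
        calc |b| * |ρ * ct u k| ≤ |b| * (|T| * (2 * e)⁻¹) :=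
              mul_le_mul_of_nonneg_left h4 (abs_nonneg _)
          _ = (2 * e)⁻¹ * (|b| * |T|) := by ring
          _ ≤ _ := mul_le_mul_of_nonneg_left h5 (by positivity)
      refine h3.trans ?_
      rw [integral_const_mul, integral_const_mul, integral_add (ib2.const_mul _)
        (iT2.const_mul _), integral_const_mul, integral_const_mul]
      refine mul_le_mul_of_nonneg_left ?_ (by positivity)
      have h8 : ρ * lam * ∫ k, ct v₁ k ^ 2 ≤ ρ * lam * Q :=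
        mul_le_mul_of_nonneg_left hb2 hrl.le
      have h9 : (ρ * lam)⁻¹ *
          ∫ k, (ρ * ct (fun x => (1 - u x) * (lam * v₁ x)) k) ^ 2 ≤ ρ * lam * Q := by
        have := mul_le_mul_of_nonneg_left hTsq (inv_nonneg.2 hrl.le)
        refine this.trans_eq ?_
        field_simp
      linarith
    have h10 : ρ * ∫ x, u x * (lam * v₁ x) ≤ lam * ((2 * e)⁻¹ * (ρ * lam * Q)) :=
      hD1.trans (mul_le_mul_of_nonneg_left h2 hlam.le)
    refine h10.trans (mul_le_mul_of_nonneg_left ?_ hlam.le)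
    rw [inv_mul_le_iff₀ hE]
    have h11 : ρ * lam ≤ 2 * (2 * e) / V := by rwa [le_div_iff₀ hV]
    calc ρ * lam * Q ≤ 2 * (2 * e) / V * Q := mul_le_mul_of_nonneg_right h11 hQ
      _ = 2 * e * (2 * Q / V) := by ring
  have hD0nn : 0 ≤ ρ * ∫ x, u x * (lam * v₁ x) := mul_nonneg hρ.le huv0
  refine ⟨⟨hlam, hρ, hE, hD0nn, ?_, hTcont, ?_, fun k => (hform k).1, ?_, hTm, ?_,
    fun k => (hform k).2⟩, ?_, hu, hinv'⟩
  · rw [← hVdef]; exact hsum
  · intro k
    beta_reduce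
    rw [ct_neg]
  · intro k
    have h1 : ct (fun x => (1 - u x) * (lam * v₁ x)) k =
        lam * ct v₁ k - ct (fun x => u x * (lam * v₁ x)) k := by
      rw [← ct_smul, ← ct_sub hvl iuv]
      congr 1
      funext x
      ring
    have h2 : ρ * ct (fun x => (1 - u x) * (lam * v₁ x)) k - ρ * lam * ct v₁ k =
        -(ρ * ct (fun x => u x * (lam * v₁ x)) k) := by rw [h1]; ring
    beta_reduce
    rw [h2, abs_neg, abs_mul, abs_of_pos hρ]
    refine mul_le_mul_of_nonneg_left ?_ hρ.le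
    refine (ct_abs_le iuv k).trans_eq (integral_congr_ae ?_)
    filter_upwards [hu] with x hx
    exact abs_of_nonneg (mul_nonneg hx.1 (hvl0 x))
  · rw [← hQdef]; exact hTsq
  · exact final_ineq hlam hC₁ (by positivity) hE hDi hDii

end Pool.Agent.P76w
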