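import Pool.Agent.Lib.P76w.Alg
import Pool.Agent.Lib.P76w.Scale

/-!
# P76w.TermsE (2 h): the error integrals, bound by `E^{3/2}` (all `E`)
(black boxes: Alg, Scale)

`SD v₁ lam ρ E D₀ T h`, `0 < D ≤ E`, `A k = AA E D (T k) (ek k)`, `h k = T k / XX E (T k) (ek k)`, `K = ek k`.
Let `t = K/E`; all pointwise bounds are for `k ≠ 0` (a.e.).  `|T| ≤ E`, so `|T|/(K+E) ≤ 1/(1+t)`.
* `|A||h|`: if `T ≤ E/2`: `≤ 2T²/(K+E)² ≤ 2/(1+t)² ≤ 2 g0 t`; if `T > E/2`:
  `≤ min(√(E/8K), E/2K) · E/(K+E) = min(1/√(8t), 1/(2t))/(1+t) ≤ g0 t` (`A_big`, `h_le`, `g0_b`).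
* `gm A ≤ min(|A|, A²)`: if `T ≤ E/2`: `≤ 4T²/(K+E)² ≤ 4 g0 t`; if `T > E/2`: `≤ min(1/√(8t), (1/2t)²) ≤ g0 t`.
* `|h - A|`: `T < 0`: `0`; `0 ≤ T ≤ E/2` or `E ≤ K`: `≤ 2T(7T+2D)/(K+E)² ≤ 18/(1+t)² ≤ 18 g0 t`;
  `T > E/2`, `K < E`: `≤ |h| + |A| ≤ 1 + 1/√(8t) ≤ 2/√t ≤ 2 g0 t`.
* so `|A||h|, gm A, |h-A| ≤ 18 g0 (K/E)`, which is integrable with integral `18 M₀ E^{3/2}` (`g0_scale`).
* `|b||A - gm A| ≤ 2|b||A|`, `b = ct v₁`: `T ≤ E/2`: `≤ 4|b||T|/(K+E) ≤ 4E|b|/K`; `T > E/2`: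
  `≤ |b| E/K`.  So `J₃ ≤ 4 E ∫|b|/K`.  Measurability: `T` is continuous, `continuous_AA`; `h` is
  continuous too (`XX ≥ K+E > 0`).
-/

open MeasureTheory Filter Topology
open scoped BigOperators

namespace Pool.Agent.P76w

open Pool.Agent.P76s

namespace TermsEAux

theorem div_bd {E T K : ℝ} (hE : 0 < E) (hT : |T| ≤ E) (hK : 0 < K) :
    |T| / (K + E) ≤ 1 / (1 + K / E) := by
  have h1 : (1 : ℝ) / (1 + K / E) = E / (K + E) := by
    field_simp
    ring
  rw [h1]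
  gcongr

theorem g0_nn {t : ℝ} (ht : 0 < t) : 0 ≤ g0 t :=
  le_trans (by positivity) (g0_a ht)

theorem sq_bd {t c : ℝ} (ht : 0 < t) (hc : 0 ≤ c) : c / (1 + t) ^ 2 ≤ c * g0 t := by
  have := g0_a ht
  calc c / (1 + t) ^ 2 = c * (1 / (1 + t) ^ 2) := by ring
    _ ≤ c * g0 t := mul_le_mul_of_nonneg_left this hc

theorem A_s {E D T K : ℝ} (hE : 0 < E) (hD : 0 < D) (hT : |T| ≤ E) (hK : 0 < K)
    (h : T ≤ E / 2) : |AA E D T K| ≤ 2 / (1 + K / E) := by
  have h1 := A_small hE hD hT hK.le h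
  have h2 := div_bd hE hT hK
  calc |AA E D T K| ≤ 2 * |T| / (K + E) := h1
    _ = 2 * (|T| / (K + E)) := by ring
    _ ≤ 2 * (1 / (1 + K / E)) := by gcongr
    _ = 2 / (1 + K / E) := by ring

theorem A_b {E D T K : ℝ} (hE : 0 < E) (hD : 0 < D) (hT : |T| ≤ E) (hK : 0 < K)
    (h : 0 ≤ T) : |AA E D T K| ≤ 1 / √(8 * (K / E)) ∧ |AA E D T K| ≤ 1 / (2 * (K / E)) := by
  obtain ⟨h1, h2⟩ := A_big hE hD hT hK h
  refine ⟨h1.trans (le_of_eq ?_), h2.trans (le_of_eq ?_)⟩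
  · rw [← Real.sqrt_one, ← Real.sqrt_div' _ (by positivity)]
    congr 1
    field_simp
  · field_simp

theorem h_b {E T K : ℝ} (hE : 0 < E) (hT : |T| ≤ E) (hK : 0 < K) :
    |T / XX E T K| ≤ 1 / (1 + K / E) :=
  (h_le hE hT hK.le).trans (div_bd hE hT hK)

/-- `|A||h|` -/
theorem p1 {E D T K : ℝ} (hE : 0 < E) (hD : 0 < D) (hT : |T| ≤ E) (hK : 0 < K) :
    |AA E D T K| * |T / XX E T K| ≤ 18 * g0 (K / E) := by
  have ht : 0 < K / E := by positivity
  have hg := g0_nn ht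
  have hh := h_b hE hT hK
  by_cases h : T ≤ E / 2
  · have hA := A_s hE hD hT hK h
    calc |AA E D T K| * |T / XX E T K| ≤ (2 / (1 + K / E)) * (1 / (1 + K / E)) := by gcongr
      _ = 2 / (1 + K / E) ^ 2 := by
        field_simp
      _ ≤ 2 * g0 (K / E) := sq_bd ht (by norm_num)
      _ ≤ 18 * g0 (K / E) := by gcongr; norm_num
  · have h0 : 0 ≤ T := by linarith
    obtain ⟨hA1, hA2⟩ := A_b hE hD hT hK h0
    have hA : |AA E D T K| ≤ min (1 / √(8 * (K / E))) (1 / (2 * (K / E))) := le_min hA1 hA2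
    calc |AA E D T K| * |T / XX E T K|
        ≤ min (1 / √(8 * (K / E))) (1 / (2 * (K / E))) * (1 / (1 + K / E)) := by gcongr
      _ = min (1 / √(8 * (K / E))) (1 / (2 * (K / E))) / (1 + K / E) := by ring
      _ ≤ g0 (K / E) := g0_b ht
      _ ≤ 18 * g0 (K / E) := by linarith

/-- `gm A` -/
theorem p2 {E D T K : ℝ} (hE : 0 < E) (hD : 0 < D) (hT : |T| ≤ E) (hK : 0 < K) :
    gm (AA E D T K) ≤ 18 * g0 (K / E) := by
  have ht : 0 < K / E := by positivity
  have hg := g0_nn ht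
  by_cases h : T ≤ E / 2
  · have hA := A_s hE hD hT hK h
    calc gm (AA E D T K) ≤ (AA E D T K) ^ 2 := gm_le_sq _
      _ = |AA E D T K| ^ 2 := (sq_abs _).symm
      _ ≤ (2 / (1 + K / E)) ^ 2 := by gcongr
      _ = 4 / (1 + K / E) ^ 2 := by
        rw [div_pow]
        norm_num
      _ ≤ 4 * g0 (K / E) := sq_bd ht (by norm_num)
      _ ≤ 18 * g0 (K / E) := by gcongr; norm_num
  · have h0 : 0 ≤ T := by linarith
    obtain ⟨hA1, hA2⟩ := A_b hE hD hT hK h0
    have hA : gm (AA E D T K) ≤ min (1 / √(8 * (K / E))) ((1 / (2 * (K / E))) ^ 2) := by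
      refine le_min ((gm_le_abs _).trans hA1) ((gm_le_sq _).trans ?_)
      rw [← sq_abs]
      gcongr
    exact hA.trans ((g0_c ht).trans (by linarith))

/-- `|h - A|` -/
theorem p3 {E D T K : ℝ} (hE : 0 < E) (hD : 0 < D) (hDE : D ≤ E) (hT : |T| ≤ E) (hK : 0 < K) :
    |T / XX E T K - AA E D T K| ≤ 18 * g0 (K / E) := by
  have ht : 0 < K / E := by positivity
  have hg := g0_nn ht
  have hTE : T ≤ E := (le_abs_self T).trans hT
  rcases lt_or_ge T 0 with h0 | h0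
  · rw [diff_neg h0, abs_zero]
    positivity
  · by_cases h : T ≤ E / 2 ∨ E ≤ K
    · calc |T / XX E T K - AA E D T K| ≤ 2 * T * (7 * T + 2 * D) / (K + E) ^ 2 :=
            diff_small hE hD hT hK.le h0 h
        _ ≤ 2 * E * (7 * E + 2 * E) / (K + E) ^ 2 := by gcongr
        _ = 18 / (1 + K / E) ^ 2 := by
          field_simp
          ring
        _ ≤ 18 * g0 (K / E) := sq_bd ht (by norm_num)
    · push Not at h
      obtain ⟨h1, h2⟩ := h
      obtain ⟨hA1, hA2⟩ := A_b hE hD hT hK h0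
      have hh := h_b hE hT hK
      have ht1 : K / E ≤ 1 := by
        rw [div_le_one hE]
        exact h2.le
      have hd := g0_d ht ht1
      have hs : 0 < √(K / E) := Real.sqrt_pos.2 ht
      have hs1 : √(K / E) ≤ 1 := by
        rw [← Real.sqrt_one]
        exact Real.sqrt_le_sqrt ht1
      have e1 : 1 / (1 + K / E) ≤ 1 / √(K / E) := by
        apply one_div_le_one_div_of_le hs
        linarith
      have e2 : 1 / √(8 * (K / E)) ≤ 1 / √(K / E) := by
        apply one_div_le_one_div_of_le hs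
        apply Real.sqrt_le_sqrt
        linarith
      calc |T / XX E T K - AA E D T K| ≤ |T / XX E T K| + |AA E D T K| := abs_sub _ _
        _ ≤ 1 / √(K / E) + 1 / √(K / E) := add_le_add (hh.trans e1) (hA1.trans e2)
        _ ≤ g0 (K / E) + g0 (K / E) := add_le_add hd hd
        _ ≤ 18 * g0 (K / E) := by linarith

/-- `|A| ≤ 2E/K` -/
theorem p4 {E D T K : ℝ} (hE : 0 < E) (hD : 0 < D) (hT : |T| ≤ E) (hK : 0 < K) :
    |AA E D T K| ≤ 2 * E / K := by
  by_cases h : T ≤ E / 2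
  · calc |AA E D T K| ≤ 2 * |T| / (K + E) := A_small hE hD hT hK.le h
      _ ≤ 2 * E / K := by
        gcongr
        linarith
  · have h0 : 0 ≤ T := by linarith
    calc |AA E D T K| ≤ E / (2 * K) := (A_big hE hD hT hK h0).2
      _ ≤ 2 * E / K := by
        rw [div_le_div_iff₀ (by positivity) hK]
        nlinarith [mul_pos hE hK]

theorem ek_pos {k : E3} (hk : k ≠ 0) : 0 < ek k := by
  have : 0 < ‖k‖ := norm_pos_iff.2 hk
  have hp := Real.pi_pos
  unfold ek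
  positivity

theorem ek_nn (k : E3) : 0 ≤ ek k := by
  unfold ek
  positivity

theorem ek_cont : Continuous ek := by
  unfold ek
  fun_prop

theorem ae_ne : ∀ᵐ k : E3, k ≠ 0 := by
  have h := (Set.countable_singleton (0 : E3)).ae_notMem (volume : Measure E3)
  simpa using h

theorem h_cont {E : ℝ} (hE : 0 < E) {T h : E3 → ℝ} (hc : Continuous T) (hT : ∀ k, |T k| ≤ E)
    (hh : ∀ k, h k = T k / XX E (T k) (ek k)) : Continuous h := by
  have e : h = fun k => T k / XX E (T k) (ek k) := funext hh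
  rw [e]
  have hek := ek_cont
  refine hc.div ?_ fun k => ?_
  · unfold XX
    fun_prop
  · have h1 := XX_ge hE (hT k) (ek_nn k)
    have h2 := ek_nn k
    exact ne_of_gt (by linarith)

theorem int_bd {E : ℝ} (hE : 0 < E) {f : E3 → ℝ} (hf : Continuous f) (h0 : ∀ k, 0 ≤ f k)
    (hb : ∀ k, k ≠ 0 → f k ≤ 18 * g0 (ek k / E)) :
    Integrable f ∧ ∫ k, f k ≤ (18 * (∫ k : E3, g0 (ek k)) + 1) * (E * √E) := by
  obtain ⟨hi, he⟩ := g0_scale hE
  have hi2 : Integrable (fun k : E3 => 18 * g0 (ek k / E)) := hi.const_mul 18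
  have hfi : Integrable f := by
    refine hi2.mono' hf.aestronglyMeasurable ?_
    filter_upwards [ae_ne] with k hk
    rw [Real.norm_of_nonneg (h0 k)]
    exact hb k hk
  refine ⟨hfi, ?_⟩
  calc ∫ k, f k ≤ ∫ k, 18 * g0 (ek k / E) := by
        refine integral_mono_ae hfi hi2 ?_
        filter_upwards [ae_ne] with k hk
        exact hb k hk
    _ = 18 * (E * √E * ∫ k : E3, g0 (ek k)) := by rw [integral_const_mul, he]
    _ ≤ (18 * (∫ k : E3, g0 (ek k)) + 1) * (E * √E) := by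
      have : 0 ≤ E * √E := by positivity
      nlinarith

end TermsEAux

open TermsEAux

theorem terms_E : ∃ M > 0, ∀ (v₁ : E3 → ℝ) (lam ρ E D₀ D : ℝ) (T h : E3 → ℝ),
    SD v₁ lam ρ E D₀ T h → 0 < D → D ≤ E →
    Integrable (fun k => |AA E D (T k) (ek k)| * |h k|) ∧ J1 E D T h ≤ M * (E * √E) ∧
    Integrable (fun k => gm (AA E D (T k) (ek k))) ∧ G0 E D T ≤ M * (E * √E) ∧
    Integrable (fun k => h k - AA E D (T k) (ek k)) ∧ J2 E D T h ≤ M * (E * √E) := by
  have hI : 0 ≤ ∫ k : E3, g0 (ek k) := by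
    refine integral_nonneg_of_ae ?_
    filter_upwards [ae_ne] with k hk
    exact g0_nn (ek_pos hk)
  refine ⟨18 * (∫ k : E3, g0 (ek k)) + 1, by positivity, ?_⟩
  intro v₁ lam ρ E D₀ D T h hS hD hDE
  have hE := hS.E_pos
  have cA : Continuous fun k => AA E D (T k) (ek k) := continuous_AA hE hD hS.cont hS.le
  have ch : Continuous h := h_cont hE hS.cont hS.le hS.h_eq
  have b1 := int_bd hE (f := fun k => |AA E D (T k) (ek k)| * |h k|) (cA.abs.mul ch.abs)
    (fun k => by positivity) (fun k hk => by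
      rw [hS.h_eq k]
      exact p1 hE hD (hS.le k) (ek_pos hk))
  have b2 := int_bd hE (f := fun k => gm (AA E D (T k) (ek k))) (continuous_gm.comp cA)
    (fun k => gm_nonneg _) (fun k hk => p2 hE hD (hS.le k) (ek_pos hk))
  have b3 := int_bd hE (f := fun k => |h k - AA E D (T k) (ek k)|) (ch.sub cA).abs
    (fun k => abs_nonneg _) (fun k hk => by
      rw [hS.h_eq k]
      exact p3 hE hD hDE (hS.le k) (ek_pos hk))
  refine ⟨b1.1, b1.2, b2.1, b2.2, ?_, b3.2⟩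
  have := b3.1
  exact (integrable_norm_iff (ch.sub cA).aestronglyMeasurable).1 this

theorem terms_E3 {v₁ : E3 → ℝ} (hb : Continuous (ct v₁))
    (hi : Integrable (fun k : E3 => |ct v₁ k| / ek k)) :
    ∀ (lam ρ E D₀ D : ℝ) (T h : E3 → ℝ),
    SD v₁ lam ρ E D₀ T h → 0 < D → D ≤ E →
    Integrable (fun k => |ct v₁ k| * |AA E D (T k) (ek k)|) ∧
    Integrable (fun k => |ct v₁ k| * |AA E D (T k) (ek k) - gm (AA E D (T k) (ek k))|) ∧
    J3 v₁ E D T ≤ 4 * E * ∫ k : E3, |ct v₁ k| / ek k := by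
  intro lam ρ E D₀ D T h hS hD hDE
  have hE := hS.E_pos
  have cA : Continuous fun k => AA E D (T k) (ek k) := continuous_AA hE hD hS.cont hS.le
  have cg : Continuous fun k => gm (AA E D (T k) (ek k)) := continuous_gm.comp cA
  have q1 : ∀ k : E3, k ≠ 0 → |ct v₁ k| * |AA E D (T k) (ek k)| ≤
      2 * E * (|ct v₁ k| / ek k) := by
    intro k hk
    calc |ct v₁ k| * |AA E D (T k) (ek k)| ≤ |ct v₁ k| * (2 * E / ek k) := by
          gcongr
          exact p4 hE hD (hS.le k) (ek_pos hk)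
      _ = 2 * E * (|ct v₁ k| / ek k) := by ring
  have q2 : ∀ k : E3, k ≠ 0 →
      |ct v₁ k| * |AA E D (T k) (ek k) - gm (AA E D (T k) (ek k))| ≤
      4 * E * (|ct v₁ k| / ek k) := by
    intro k hk
    calc |ct v₁ k| * |AA E D (T k) (ek k) - gm (AA E D (T k) (ek k))|
        ≤ |ct v₁ k| * (2 * |AA E D (T k) (ek k)|) := by
          gcongr
          exact sub_gm_le _
      _ = 2 * (|ct v₁ k| * |AA E D (T k) (ek k)|) := by ring
      _ ≤ 2 * (2 * E * (|ct v₁ k| / ek k)) :=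
          mul_le_mul_of_nonneg_left (q1 k hk) (by norm_num)
      _ = 4 * E * (|ct v₁ k| / ek k) := by ring
  have i4 : Integrable (fun k : E3 => 4 * E * (|ct v₁ k| / ek k)) := hi.const_mul _
  have i2 : Integrable (fun k : E3 => 2 * E * (|ct v₁ k| / ek k)) := hi.const_mul _
  have r2 : Integrable (fun k => |ct v₁ k| * |AA E D (T k) (ek k) - gm (AA E D (T k) (ek k))|) := by
    refine i4.mono' (hb.abs.mul (cA.sub cg).abs).aestronglyMeasurable ?_
    filter_upwards [ae_ne] with k hk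
    rw [Real.norm_of_nonneg (by positivity)]
    exact q2 k hk
  refine ⟨?_, r2, ?_⟩
  · refine i2.mono' (hb.abs.mul cA.abs).aestronglyMeasurable ?_
    filter_upwards [ae_ne] with k hk
    rw [Real.norm_of_nonneg (by positivity)]
    exact q1 k hk
  · calc J3 v₁ E D T ≤ ∫ k, 4 * E * (|ct v₁ k| / ek k) := by
          refine integral_mono_ae r2 i4 ?_
          filter_upwards [ae_ne] with k hk
          exact q2 k hk
      _ = 4 * E * ∫ k : E3, |ct v₁ k| / ek k := by rw [integral_const_mul]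

end Pool.Agent.P76w
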