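import Pool.Agent.Lib.P76w.TermsE

/-!
# P76w.TermsL (2 h): the error integrals, bound by `E^{1/2}` (`E ≥ 1`)
(black boxes: Alg, Scale, TermsE for the integrability)

`V = ∫ v₁ > 0`, `b = ct v₁`, `Q = ∫ v₁²`, `∫ b² ≤ Q'` (only finiteness is used), `E ≥ 1`, `D₀ ≤ E`, `D ≤ 1`.
`ρ lam V = E + D₀ ≤ 2E`, so `∫ T² ≤ (ρ lam)² Q ≤ 4E²Q/V²` and `∫ T²/(K+E)² ≤ ∫T²/E² ≤ 4Q/V²`.
`T > E/2` implies `ρ lam |b| ≥ T - D₀`... more precisely, `D₀ ≤ E/4` is assumed below, so
`ρ lam |b| ≥ E/4`, `|b| ≥ E/(4ρ lam) = EV/(4(E+D₀)) ≥ V/8`: as `b → 0` at infinity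
(`lim`), such `k` lie in a ball `B_R`, `R` depending only on `v₁`; there `√(E/8K) ≤ √E/√K`, integrable
(`inv_ball`).
* `J₁`: `T ≤ E/2`: `2T²/(K+E)²`; `T > E/2`: `≤ |A| ≤ √E/√K` on `B_R`.  Total `≤ 8Q/V² + √E M_R ≤ M√E`.
* `G₀`: `T ≤ E/2`: `gm A ≤ A² ≤ 4T²/(K+E)²`; `T > E/2`: `gm A ≤ |A| ≤ √E/√K` on `B_R`.
* `J₂`: `T < 0`: `0`; `0 ≤ T ≤ E/2`: `≤ 2T(7T+2D)/(K+E)² ≤ 14T²/(K+E)² + 4DE/(K+E)²`, and
  `∫ 4DE/(K+E)² ≤ 4E⁻¹ ∫ g0(K/E) = 4 √E M₀` (`(K+E)^{-2} = E^{-2}(1+K/E)^{-2}`, `D ≤ 1`); `T > E/2`: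
  `≤ |h| + |A| ≤ 1 + √E/√K` on `B_R`.
* `J₃ ≤ 2∫|b||A|`: `T ≤ E/2`: `4|b||T|/(K+E) ≤ 2b² + 2T²/E²`; `T > E/2`: `2V√E/√K` on `B_R` (`|b| ≤ V`).
-/

open MeasureTheory Filter Topology
open scoped BigOperators

namespace Pool.Agent.P76w

open Pool.Agent.P76s

/-- the upper bound of the integrals -/
theorem termsL_int {E V M0 MR B W Q R : ℝ} {T b : E3 → ℝ} (hE : 1 ≤ E) (hV : 0 < V)
    (hM0 : M0 = ∫ k : E3, g0 (ek k)) (hM00 : 0 ≤ M0)
    (hMR : MR = ∫ k in Metric.ball (0 : E3) R, 1 / √(ek k))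
    (hB : B = ∫ k, b k ^ 2) (hB0 : 0 ≤ B)
    (hW : W = (volume : Measure E3).real (Metric.ball (0 : E3) R)) (hW0 : 0 ≤ W)
    (hT2 : MemLp T 2) (hb2 : MemLp b 2) (hQ : 0 ≤ Q)
    (hQT : ∫ k, T k ^ 2 ≤ 4 * E ^ 2 * Q)
    (f : E3 → ℝ) (hf0 : ∀ k, 0 ≤ f k)
    (hf : ∀ k, k ≠ 0 → f k ≤ 14 * (T k ^ 2 / E ^ 2) + 2 * b k ^ 2 +
      2 * (E⁻¹ * g0 (ek k / E)) +
      (2 * V + 2) * √E * (Metric.ball (0 : E3) R).indicator (fun k => 1 / √(ek k)) k +
      (Metric.ball (0 : E3) R).indicator (fun _ => (1 : ℝ)) k) :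
    ∫ k, f k ≤ (56 * Q + 2 * B + 2 * M0 + (2 * V + 2) * MR + W + 1) * √E := by
  have hE0 : 0 < E := by linarith
  have hsE : 1 ≤ √E := by
    rw [show (1 : ℝ) = √1 by simp]
    exact Real.sqrt_le_sqrt hE
  have i1 : Integrable (fun k => 14 * (T k ^ 2 / E ^ 2)) :=
    ((hT2.integrable_sq).div_const _).const_mul _
  have i2 : Integrable (fun k => 2 * b k ^ 2) := (hb2.integrable_sq).const_mul _
  have i3 : Integrable (fun k : E3 => 2 * (E⁻¹ * g0 (ek k / E))) :=
    (((g0_scale hE0).1).const_mul _).const_mul _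
  have i4 : Integrable (fun k : E3 => (2 * V + 2) * √E *
      (Metric.ball (0 : E3) R).indicator (fun k => 1 / √(ek k)) k) :=
    ((inv_ball R).integrable_indicator measurableSet_ball).const_mul _
  have i5 : Integrable ((Metric.ball (0 : E3) R).indicator (fun _ => (1 : ℝ))) := by
    rw [integrable_indicator_iff measurableSet_ball]
    exact integrableOn_const (by exact measure_ball_lt_top.ne)
  have hle := integral_mono_of_nonneg (μ := (volume : Measure E3)) (f := f)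
    (Eventually.of_forall hf0) ((((i1.add i2).add i3).add i4).add i5) (by
      have : ∀ᵐ k : E3 ∂volume, k ≠ 0 := by
        simp [ae_iff]
      filter_upwards [this] with k hk
      exact hf k hk)
  have e5 : ∫ k, (Metric.ball (0 : E3) R).indicator (fun _ => (1 : ℝ)) k = W := by
    rw [integral_indicator measurableSet_ball, hW]
    simp
  have e4 : ∫ k, (2 * V + 2) * √E * (Metric.ball (0 : E3) R).indicator
      (fun k => 1 / √(ek k)) k = (2 * V + 2) * √E * MR := by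
    rw [integral_const_mul, integral_indicator measurableSet_ball, hMR]
  have e3 : ∫ k : E3, 2 * (E⁻¹ * g0 (ek k / E)) = 2 * (√E * M0) := by
    rw [integral_const_mul, integral_const_mul, (g0_scale hE0).2, hM0]
    field_simp
  have e2 : ∫ k, 2 * b k ^ 2 = 2 * B := by
    rw [integral_const_mul, hB]
  have e1 : ∫ k, 14 * (T k ^ 2 / E ^ 2) ≤ 56 * Q := by
    rw [integral_const_mul, integral_div]
    have : (∫ k, T k ^ 2) / E ^ 2 ≤ 4 * Q := by
      rw [div_le_iff₀ (by positivity)]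
      linarith
    linarith
  rw [integral_add' (((i1.add i2).add i3).add i4) i5,
      integral_add' ((i1.add i2).add i3) i4, integral_add' (i1.add i2) i3,
      integral_add' i1 i2, e5, e4, e3, e2] at hle
  have h6 : 56 * Q ≤ 56 * Q * √E := le_mul_of_one_le_right (by positivity) hsE
  have h7 : 2 * B ≤ 2 * B * √E := le_mul_of_one_le_right (by positivity) hsE
  have h8 : W ≤ W * √E := le_mul_of_one_le_right (by positivity) hsE
  refine hle.trans ?_
  nlinarith [e1, h6, h7, h8]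

theorem terms_L {v₁ : E3 → ℝ} (hv : Pot v₁) (hb : Continuous (ct v₁))
    (hV : ∀ k, |ct v₁ k| ≤ ∫ x, v₁ x) (hb2 : MemLp (ct v₁) 2)
    (hlim : Tendsto (ct v₁) (cocompact E3) (𝓝 0)) :
    ∃ M > 0, ∀ (lam ρ E D₀ D : ℝ) (T h : E3 → ℝ),
    SD v₁ lam ρ E D₀ T h → 0 < D → D ≤ E → D ≤ 1 → D₀ ≤ E / 4 → 1 ≤ E →
    J1 E D T h ≤ M * √E ∧ G0 E D T ≤ M * √E ∧ J2 E D T h ≤ M * √E ∧ J3 v₁ E D T ≤ M * √E := by
  have hVpos : 0 < ∫ x, v₁ x := hv.pos
  obtain ⟨V, hVd⟩ : ∃ V, V = ∫ x, v₁ x := ⟨_, rfl⟩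
  rw [← hVd] at hV hVpos
  obtain ⟨R, hR⟩ : ∃ R : ℝ, ∀ k, k ∉ Metric.ball (0 : E3) R → |ct v₁ k| < V / 8 := by
    have h1 : {k | |ct v₁ k| < V / 8} ∈ cocompact E3 := by
      have h2 : ∀ᶠ k in cocompact E3, ct v₁ k ∈ Metric.ball (0 : ℝ) (V / 8) :=
        hlim (Metric.ball_mem_nhds _ (by positivity))
      filter_upwards [h2] with k hk
      simpa using hk
    obtain ⟨r, hr⟩ := Metric.closedBall_compl_subset_of_mem_cocompact h1 0
    refine ⟨r + 1, fun k hk => hr ?_⟩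
    simp only [Metric.mem_ball, not_lt, Set.mem_compl_iff, Metric.mem_closedBall, not_le] at hk ⊢
    linarith
  obtain ⟨M0, hM0⟩ : ∃ M0, M0 = ∫ k : E3, g0 (ek k) := ⟨_, rfl⟩
  obtain ⟨MR, hMR⟩ : ∃ MR, MR = ∫ k in Metric.ball (0 : E3) R, 1 / √(ek k) := ⟨_, rfl⟩
  obtain ⟨B, hB⟩ : ∃ B, B = ∫ k, ct v₁ k ^ 2 := ⟨_, rfl⟩
  obtain ⟨W, hW⟩ : ∃ W, W = (volume : Measure E3).real (Metric.ball (0 : E3) R) := ⟨_, rfl⟩
  obtain ⟨Q, hQ⟩ : ∃ Q, Q = (∫ x, v₁ x ^ 2) / V ^ 2 := ⟨_, rfl⟩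
  have hM00 : 0 ≤ M0 := by
    rw [hM0]
    refine integral_nonneg fun k => ?_
    simp only [g0]
    positivity
  have hMR0 : 0 ≤ MR := by
    rw [hMR]
    exact integral_nonneg fun k => by positivity
  have hB0 : 0 ≤ B := by
    rw [hB]
    exact integral_nonneg fun k => by positivity
  have hW0 : 0 ≤ W := by
    rw [hW]
    exact measureReal_nonneg
  have hQ0 : 0 ≤ Q := by
    rw [hQ]
    have : 0 ≤ ∫ x, v₁ x ^ 2 := integral_nonneg fun k => by positivity
    positivity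
  refine ⟨56 * Q + 2 * B + 2 * M0 + (2 * V + 2) * MR + W + 1, by positivity, ?_⟩
  intro lam ρ E D₀ D T h sd hD hDE hD1 hD0 hE1
  have hE0 : 0 < E := by linarith
  have hsE : 1 ≤ √E := by
    rw [show (1 : ℝ) = √1 by simp]
    exact Real.sqrt_le_sqrt hE1
  have hsum := sd.sum
  rw [← hVd] at hsum
  have hlr : 0 < ρ * lam := mul_pos sd.rho_pos sd.lam_pos
  have hlrV : ρ * lam ≤ 2 * E / V := by
    rw [le_div_iff₀ hVpos]
    linarith
  have hQT : ∫ k, T k ^ 2 ≤ 4 * E ^ 2 * Q := by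
    refine sd.sqle.trans ?_
    have h1 : (ρ * lam) ^ 2 ≤ (2 * E / V) ^ 2 := pow_le_pow_left₀ hlr.le hlrV 2
    have h2 : 0 ≤ ∫ x, v₁ x ^ 2 := integral_nonneg fun k => by positivity
    calc (ρ * lam) ^ 2 * ∫ x, v₁ x ^ 2 ≤ (2 * E / V) ^ 2 * ∫ x, v₁ x ^ 2 :=
          mul_le_mul_of_nonneg_right h1 h2
      _ = 4 * E ^ 2 * Q := by
          rw [hQ]
          field_simp
          ring
  -- the large set
  have hbig : ∀ k, E / 2 < T k → k ∈ Metric.ball (0 : E3) R := by
    intro k hk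
    by_contra hk'
    have h1 := hR k hk'
    have h2 := sd.close k
    have h3 : ρ * lam * ct v₁ k ≤ ρ * lam * (V / 8) :=
      mul_le_mul_of_nonneg_left ((le_abs_self _).trans h1.le) hlr.le
    have h4 : T k - ρ * lam * ct v₁ k ≤ D₀ := (le_abs_self _).trans h2
    nlinarith
  have hkK : ∀ k : E3, 0 ≤ ek k := fun k => by
    unfold ek
    positivity
  have hkK' : ∀ k : E3, k ≠ 0 → 0 < ek k := fun k hk => by
    unfold ek
    have := norm_pos_iff.2 hk
    positivity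
  -- the bound of `|h|`
  have hh : ∀ k, |h k| ≤ |T k| / (ek k + E) := by
    intro k
    rw [sd.h_eq k]
    exact h_le hE0 (sd.le k) (hkK k)
  have hh1 : ∀ k, |h k| ≤ 1 := by
    intro k
    refine (hh k).trans ?_
    rw [div_le_one (by have := hkK k; linarith)]
    have := hkK k
    linarith [sd.le k]
  have hTE : ∀ k, |T k| / (ek k + E) ≤ |T k| / E := by
    intro k
    exact div_le_div_of_nonneg_left (abs_nonneg _) hE0 (by have := hkK k; linarith)
  have hsq : ∀ k, (|T k| / (ek k + E)) ^ 2 ≤ T k ^ 2 / E ^ 2 := by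
    intro k
    have h1 : 0 ≤ |T k| / (ek k + E) := by
      have := hkK k
      positivity
    calc (|T k| / (ek k + E)) ^ 2 ≤ (|T k| / E) ^ 2 := pow_le_pow_left₀ h1 (hTE k) 2
      _ = T k ^ 2 / E ^ 2 := by rw [div_pow, sq_abs]
  have hAs : ∀ k, T k ≤ E / 2 → |AA E D (T k) (ek k)| ≤ 2 * (|T k| / (ek k + E)) := by
    intro k hk
    have := A_small hE0 hD (sd.le k) (hkK k) hk
    calc |AA E D (T k) (ek k)| ≤ 2 * |T k| / (ek k + E) := this
      _ = 2 * (|T k| / (ek k + E)) := by ring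
  have hAb : ∀ k, k ≠ 0 → E / 2 < T k → |AA E D (T k) (ek k)| ≤ √E * (1 / √(ek k)) := by
    intro k hk0 hk
    have := (A_big hE0 hD (sd.le k) (hkK' k hk0) (by linarith)).1
    refine this.trans ?_
    have h2 : √(E / (8 * ek k)) ≤ √(E / ek k) := by
      apply Real.sqrt_le_sqrt
      have h3 := hkK' k hk0
      exact div_le_div_of_nonneg_left hE0.le h3 (by linarith)
    refine h2.trans ?_
    rw [Real.sqrt_div hE0.le]
    rw [mul_one_div]
  -- nonnegativity of the terms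
  have p1 : ∀ k, 0 ≤ 14 * (T k ^ 2 / E ^ 2) := fun k => by positivity
  have p2 : ∀ k, 0 ≤ 2 * ct v₁ k ^ 2 := fun k => by positivity
  have p3 : ∀ k : E3, 0 ≤ 2 * (E⁻¹ * g0 (ek k / E)) := fun k => by
    have : 0 ≤ g0 (ek k / E) := by
      simp only [g0]
      positivity
    positivity
  have p4 : ∀ k : E3, 0 ≤ (2 * V + 2) * √E *
      (Metric.ball (0 : E3) R).indicator (fun k => 1 / √(ek k)) k := fun k => by
    have : 0 ≤ (Metric.ball (0 : E3) R).indicator (fun k => 1 / √(ek k)) k :=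
      Set.indicator_nonneg (fun k _ => by positivity) k
    positivity
  have p5 : ∀ k : E3, 0 ≤ (Metric.ball (0 : E3) R).indicator (fun _ => (1 : ℝ)) k := fun k =>
    Set.indicator_nonneg (fun k _ => by positivity) k
  have i4 : ∀ k : E3, k ∈ Metric.ball (0 : E3) R →
      (Metric.ball (0 : E3) R).indicator (fun k => 1 / √(ek k)) k = 1 / √(ek k) := fun k hk =>
    Set.indicator_of_mem hk _
  have i5 : ∀ k : E3, k ∈ Metric.ball (0 : E3) R →
      (Metric.ball (0 : E3) R).indicator (fun _ => (1 : ℝ)) k = 1 := fun k hk =>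
    Set.indicator_of_mem hk _
  have main := termsL_int (W := W) (R := R) (T := T) (b := ct v₁) hE1 hVpos hM0 hM00 hMR hB hB0
    hW hW0 sd.sq hb2 hQ0 hQT
  refine ⟨?_, ?_, ?_, ?_⟩
  · -- J1
    refine main (fun k => |AA E D (T k) (ek k)| * |h k|) (fun k => by positivity) ?_
    intro k hk
    have q1 := p1 k
    have q2 := p2 k
    have q3 := p3 k
    have q4 := p4 k
    have q5 := p5 k
    rcases le_or_gt (T k) (E / 2) with hT | hT
    · have h1 : |AA E D (T k) (ek k)| * |h k| ≤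
          (2 * (|T k| / (ek k + E))) * (|T k| / (ek k + E)) :=
        mul_le_mul (hAs k hT) (hh k) (abs_nonneg _) (by have := hkK k; positivity)
      have h2 := hsq k
      nlinarith
    · have h1 : |AA E D (T k) (ek k)| * |h k| ≤ √E * (1 / √(ek k)) * 1 :=
        mul_le_mul (hAb k hk hT) (hh1 k) (abs_nonneg _) (by positivity)
      have hm := hbig k hT
      rw [i4 k hm] at q4 ⊢
      have h3 : 0 ≤ √E * (1 / √(ek k)) := by positivity
      nlinarith
  · -- G0
    refine main (fun k => gm (AA E D (T k) (ek k))) (fun k => gm_nonneg _) ?_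
    intro k hk
    have q1 := p1 k
    have q2 := p2 k
    have q3 := p3 k
    have q4 := p4 k
    have q5 := p5 k
    rcases le_or_gt (T k) (E / 2) with hT | hT
    · have h1 := gm_le_sq (AA E D (T k) (ek k))
      have h3 : AA E D (T k) (ek k) ^ 2 ≤ (2 * (|T k| / (ek k + E))) ^ 2 := by
        rw [← sq_abs]
        exact pow_le_pow_left₀ (abs_nonneg _) (hAs k hT) 2
      have h2 := hsq k
      nlinarith
    · have h1 := (gm_le_abs (AA E D (T k) (ek k))).trans (hAb k hk hT)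
      have hm := hbig k hT
      rw [i4 k hm] at q4 ⊢
      have h3 : 0 ≤ √E * (1 / √(ek k)) := by positivity
      nlinarith
  · -- J2
    refine main (fun k => |h k - AA E D (T k) (ek k)|) (fun k => abs_nonneg _) ?_
    intro k hk
    have q1 := p1 k
    have q2 := p2 k
    have q3 := p3 k
    have q4 := p4 k
    have q5 := p5 k
    rcases le_or_gt (T k) (E / 2) with hT | hT
    · rcases lt_or_ge (T k) 0 with hT0 | hT0
      · rw [sd.h_eq k, diff_neg hT0, abs_zero]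
        linarith
      · have h1 := diff_small hE0 hD (sd.le k) (hkK k) hT0 (Or.inl hT)
        rw [← sd.h_eq k] at h1
        have hKE : 0 < ek k + E := by
          have := hkK k
          linarith
        have h2 := hsq k
        rw [abs_of_nonneg hT0, div_pow] at h2
        have h3 : 2 * T k * (7 * T k + 2 * D) / (ek k + E) ^ 2 ≤
            14 * (T k ^ 2 / (ek k + E) ^ 2) + 2 * (E / (ek k + E) ^ 2) := by
          rw [← mul_div_assoc, ← mul_div_assoc, ← add_div]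
          apply div_le_div_of_nonneg_right _ (by positivity)
          nlinarith
        have h4 : E / (ek k + E) ^ 2 ≤ E⁻¹ * g0 (ek k / E) := by
          have h5 := g0_a (div_pos (hkK' k hk) hE0)
          have h6 : E / (ek k + E) ^ 2 = E⁻¹ * (1 / (1 + ek k / E) ^ 2) := by
            have h7 : 1 + ek k / E = (ek k + E) / E := by
              field_simp
              ring
            rw [h7, div_pow]
            field_simp
          rw [h6]
          exact mul_le_mul_of_nonneg_left h5 (by positivity)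
        linarith
    · have h1 : |h k - AA E D (T k) (ek k)| ≤ |h k| + |AA E D (T k) (ek k)| := abs_sub _ _
      have h2 := hAb k hk hT
      have h4 := hh1 k
      have hm := hbig k hT
      rw [i4 k hm] at q4 ⊢
      rw [i5 k hm] at q5 ⊢
      have h3 : 0 ≤ √E * (1 / √(ek k)) := by positivity
      nlinarith
  · -- J3
    refine main (fun k => |ct v₁ k| * |AA E D (T k) (ek k) - gm (AA E D (T k) (ek k))|)
      (fun k => by positivity) ?_
    intro k hk
    have q1 := p1 k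
    have q2 := p2 k
    have q3 := p3 k
    have q4 := p4 k
    have q5 := p5 k
    have h0 := sub_gm_le (AA E D (T k) (ek k))
    have h00 : |ct v₁ k| * |AA E D (T k) (ek k) - gm (AA E D (T k) (ek k))| ≤
        |ct v₁ k| * (2 * |AA E D (T k) (ek k)|) :=
      mul_le_mul_of_nonneg_left h0 (abs_nonneg _)
    rcases le_or_gt (T k) (E / 2) with hT | hT
    · have h1 : |ct v₁ k| * (2 * |AA E D (T k) (ek k)|) ≤
          |ct v₁ k| * (2 * (2 * (|T k| / E))) := by
        apply mul_le_mul_of_nonneg_left _ (abs_nonneg _)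
        have := hAs k hT
        have := hTE k
        linarith
      have h2 : |ct v₁ k| * (2 * (2 * (|T k| / E))) ≤ 2 * ct v₁ k ^ 2 + 2 * (T k ^ 2 / E ^ 2) := by
        have h3 : T k ^ 2 / E ^ 2 = (|T k| / E) ^ 2 := by rw [div_pow, sq_abs]
        rw [h3, ← sq_abs (ct v₁ k)]
        nlinarith [sq_nonneg (|ct v₁ k| - |T k| / E)]
      have h4 : 0 ≤ T k ^ 2 / E ^ 2 := by positivity
      linarith
    · have h1 : |ct v₁ k| * (2 * |AA E D (T k) (ek k)|) ≤ V * (2 * (√E * (1 / √(ek k)))) := by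
        apply mul_le_mul (hV k) _ (by positivity) hVpos.le
        have := hAb k hk hT
        linarith
      have hm := hbig k hT
      rw [i4 k hm] at q4 ⊢
      have h3 : 0 ≤ √E * (1 / √(ek k)) := by positivity
      nlinarith

end Pool.Agent.P76w
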