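import Pool.Agent.Lib.P76w.GaussPoly

/-!
# P76w.Tilt (2.5 h): the Gaussian change of variables

`|m_n| < 1`, `s_n = 1/√(2(1-m_n))`, `t_n = 1/√(2(1+m_n))`.  For one mode:
`∫∫ F(x,y) e^{mxy} dγ dγ = (1-m²)^{-1/2} ∫∫ F(sp+tq, sp-tq) dγ(p) dγ(q)`: the Lebesgue density of the left
side is `e^{mxy - (x²+y²)/2}/(2π)`; substitute `x = sp+tq`, `y = sp-tq` (linear, |det| = `2st = (1-m²)^{-1/2}`):
`mxy - (x²+y²)/2 = -s²(1-m)p² - t²(1+m)q² = -(p²+q²)/2`.
As measures on `ℝ²`: `(γ×γ).withDensity(√(1-m²) e^{mxy}) = map φ (γ×γ)`.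
For finitely many modes: products of measures over `n : ι` (`Measure.pi` of measures on `ℝ × ℝ`,
`measurePreserving_arrowProdEquivProdArrow` or a direct argument; `Measure.pi_eq`).  Alternatively prove it by
induction on the number of modes, or through characteristic functions (both sides finite measures: the
left one has density, the right is Gaussian).
`tilt` is stated for all `P` (with `hP` measurable and of polynomial growth, so everything is integrable).
-/

open MeasureTheory Filter Topology ProbabilityTheory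
open scoped BigOperators ENNReal

namespace Pool.Agent.P76w

open Pool.Agent.P76s

namespace TiltAux

/-- one mode -/
noncomputable def ph (m : ℝ) (z : ℝ × ℝ) : ℝ × ℝ :=
  (1 / √(2 * (1 - m)) * z.1 + 1 / √(2 * (1 + m)) * z.2,
    1 / √(2 * (1 - m)) * z.1 - 1 / √(2 * (1 + m)) * z.2)

lemma measurable_ph (m : ℝ) : Measurable (ph m) := by
  unfold ph
  fun_prop

noncomputable def dn (m : ℝ) (z : ℝ × ℝ) : ℝ≥0∞ :=
  ENNReal.ofReal (√(1 - m ^ 2) * Real.exp (m * z.1 * z.2))

lemma measurable_dn (m : ℝ) : Measurable (dn m) := by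
  unfold dn
  fun_prop

/-- the Lebesgue density of two independent standard Gaussians -/
noncomputable def gd (z : ℝ × ℝ) : ℝ≥0∞ :=
  ENNReal.ofReal (1 / (2 * Real.pi) * Real.exp (-(z.1 ^ 2 + z.2 ^ 2) / 2))

lemma measurable_gd : Measurable gd := by
  unfold gd
  fun_prop

lemma prod_gauss : (gaussianReal 0 1).prod (gaussianReal 0 1) =
    (volume : Measure (ℝ × ℝ)).withDensity gd := by
  rw [gaussianReal_of_var_ne_zero 0 (one_ne_zero), prod_withDensity (measurable_gaussianPDF _ _)
    (measurable_gaussianPDF _ _)]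
  congr 1
  funext z
  unfold gd gaussianPDF
  rw [← ENNReal.ofReal_mul (gaussianPDFReal_nonneg _ _ _)]
  congr 1
  unfold gaussianPDFReal
  have h2 : (√(2 * Real.pi))⁻¹ * (√(2 * Real.pi))⁻¹ = 1 / (2 * Real.pi) := by
    rw [← mul_inv, Real.mul_self_sqrt (by positivity), one_div]
  have h3 : Real.exp (-(z.1 ^ 2 + z.2 ^ 2) / 2) = Real.exp (-z.1 ^ 2 / 2) * Real.exp (-z.2 ^ 2 / 2) := by
    rw [← Real.exp_add]
    congr 1
    ring
  rw [h3, ← h2]
  simp only [NNReal.coe_one, sub_zero, mul_one]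
  ring

/-- the density in the new coordinates -/
noncomputable def hd (m : ℝ) (z : ℝ × ℝ) : ℝ≥0∞ :=
  ENNReal.ofReal (1 / (2 * Real.pi) * Real.exp (-(z.1 ^ 2 + z.2 ^ 2) / 2 + m * z.1 * z.2))

lemma measurable_hd (m : ℝ) : Measurable (hd m) := by
  unfold hd
  fun_prop

lemma hd_ph {m : ℝ} (hm : |m| < 1) (z : ℝ × ℝ) : hd m (ph m z) = gd z := by
  obtain ⟨h1, h2⟩ := abs_lt.1 hm
  unfold hd gd ph
  congr 3
  have e1 : (1 / √(2 * (1 - m))) ^ 2 = 1 / (2 * (1 - m)) := by
    rw [div_pow, Real.sq_sqrt (by linarith), one_pow]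
  have e2 : (1 / √(2 * (1 + m))) ^ 2 = 1 / (2 * (1 + m)) := by
    rw [div_pow, Real.sq_sqrt (by linarith), one_pow]
  set s := 1 / √(2 * (1 - m)) with hs
  set t := 1 / √(2 * (1 + m)) with ht
  simp only
  have e3 : -((s * z.1 + t * z.2) ^ 2 + (s * z.1 - t * z.2) ^ 2) / 2 +
      m * (s * z.1 + t * z.2) * (s * z.1 - t * z.2) =
      -(s ^ 2 * (1 - m)) * z.1 ^ 2 - (t ^ 2 * (1 + m)) * z.2 ^ 2 := by ring
  rw [e3, e1, e2]
  have h3 : (1 - m) ≠ 0 := by linarith
  have h4 : (1 + m) ≠ 0 := by linarith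
  field_simp
  ring

lemma map_ph_volume {m : ℝ} (hm : |m| < 1) : (volume : Measure (ℝ × ℝ)).map (ph m) =
    ENNReal.ofReal (√(1 - m ^ 2)) • (volume : Measure (ℝ × ℝ)) := by
  obtain ⟨h1, h2⟩ := abs_lt.1 hm
  set s := 1 / √(2 * (1 - m)) with hs
  set t := 1 / √(2 * (1 + m)) with ht
  set L : (ℝ × ℝ) →ₗ[ℝ] (ℝ × ℝ) := Matrix.toLin (Module.Basis.finTwoProd ℝ) (Module.Basis.finTwoProd ℝ)
    !![s, t; s, -t] with hL
  have hs0 : 0 < s := by
    rw [hs]
    have : 0 < √(2 * (1 - m)) := Real.sqrt_pos.2 (by linarith)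
    positivity
  have ht0 : 0 < t := by
    rw [ht]
    have : 0 < √(2 * (1 + m)) := Real.sqrt_pos.2 (by linarith)
    positivity
  have hdet : LinearMap.det L = -(2 * s * t) := by
    rw [hL, LinearMap.det_toLin, Matrix.det_fin_two_of]
    ring
  have hLe : (L : ℝ × ℝ → ℝ × ℝ) = ph m := by
    funext z
    rw [hL, Matrix.toLin_finTwoProd_apply]
    unfold ph
    rw [← hs, ← ht]
    congr 1
    ring
  have h3 : LinearMap.det L ≠ 0 := by
    rw [hdet]
    have : 0 < 2 * s * t := by positivity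
    linarith
  have h4 := Measure.map_linearMap_addHaar_eq_smul_addHaar (volume : Measure (ℝ × ℝ)) h3
  rw [hLe] at h4
  rw [h4, hdet]
  congr 2
  rw [abs_inv, abs_neg, abs_of_pos (by positivity)]
  have e1 : s ^ 2 = 1 / (2 * (1 - m)) := by
    rw [hs, div_pow, Real.sq_sqrt (by linarith), one_pow]
  have e2 : t ^ 2 = 1 / (2 * (1 + m)) := by
    rw [ht, div_pow, Real.sq_sqrt (by linarith), one_pow]
  have h7 : 1 - m ^ 2 = ((2 * s * t)⁻¹) ^ 2 := by
    rw [inv_pow, mul_pow, mul_pow, e1, e2]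
    have h5 : (1 - m) ≠ 0 := by linarith
    have h6 : (1 + m) ≠ 0 := by linarith
    field_simp
    ring
  rw [h7, Real.sqrt_sq (by positivity)]

lemma map_ph {m : ℝ} (hm : |m| < 1) : ((gaussianReal 0 1).prod (gaussianReal 0 1)).map (ph m) =
    ((gaussianReal 0 1).prod (gaussianReal 0 1)).withDensity (dn m) := by
  rw [prod_gauss, ← withDensity_mul _ measurable_gd (measurable_dn m)]
  have h1 : (volume : Measure (ℝ × ℝ)).withDensity gd =
      (volume : Measure (ℝ × ℝ)).withDensity (fun z => hd m (ph m z)) := by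
    congr 1
    funext z
    exact (hd_ph hm z).symm
  rw [h1]
  ext S hS
  rw [Measure.map_apply (measurable_ph m) hS, withDensity_apply _ (measurable_ph m hS),
    withDensity_apply _ hS, ← setLIntegral_map hS (measurable_hd m) (measurable_ph m), map_ph_volume hm,
    Measure.restrict_smul, lintegral_smul_measure, smul_eq_mul, ← lintegral_const_mul _ (measurable_hd m)]
  refine lintegral_congr fun z => ?_
  unfold hd gd dn
  simp only [Pi.mul_apply]
  rw [← ENNReal.ofReal_mul (by positivity), ← ENNReal.ofReal_mul (by positivity), Real.exp_add]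
  congr 1
  ring


lemma pi_withDensity {ι : Type*} [Fintype ι] {α : ι → Type*} [∀ i, MeasurableSpace (α i)]
    (μ : ∀ i, Measure (α i)) [∀ i, IsProbabilityMeasure (μ i)] {f : ∀ i, α i → ℝ≥0∞}
    (hf : ∀ i, Measurable (f i)) [∀ i, SigmaFinite ((μ i).withDensity (f i))] :
    Measure.pi (fun i => (μ i).withDensity (f i)) =
      (Measure.pi μ).withDensity (fun z => ∏ i, f i (z i)) := by
  refine Measure.pi_eq fun S hS => ?_
  rw [withDensity_apply _ (MeasurableSet.univ_pi hS), ← lintegral_indicator (MeasurableSet.univ_pi hS)]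
  have h1 : (fun z : (∀ i, α i) => (Set.univ.pi S).indicator (fun z => ∏ i, f i (z i)) z) =
      fun z => ∏ i, (S i).indicator (f i) (z i) := by
    funext z
    by_cases hz : z ∈ Set.univ.pi S
    · rw [Set.indicator_of_mem hz]
      refine Finset.prod_congr rfl fun i _ => ?_
      rw [Set.indicator_of_mem (hz i (Set.mem_univ i))]
    · rw [Set.indicator_of_notMem hz]
      rw [Set.mem_univ_pi, not_forall] at hz
      obtain ⟨i, hi⟩ := hz
      symm
      refine Finset.prod_eq_zero (Finset.mem_univ i) ?_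
      rw [Set.indicator_of_notMem hi]
  rw [h1, ProbabilityTheory.lintegral_prod_eq_prod_lintegral_of_indepFun Finset.univ
    (fun i (z : ∀ i, α i) => (S i).indicator (f i) (z i))
    (iIndepFun_pi fun i => ((hf i).indicator (hS i)).aemeasurable)
    (fun i => ((hf i).indicator (hS i)).comp (measurable_pi_apply i))]
  refine Finset.prod_congr rfl fun i _ => ?_
  rw [withDensity_apply _ (hS i), ← lintegral_indicator (hS i)]
  exact (measurePreserving_eval μ i).lintegral_comp ((hf i).indicator (hS i))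

lemma map_pi {ι : Type*} [Fintype ι] {m : ι → ℝ} (hm : ∀ n, |m n| < 1) :
    (Measure.pi (fun _ : ι => (gaussianReal 0 1).prod (gaussianReal 0 1))).map
      (fun z n => ph (m n) (z n)) =
    (Measure.pi (fun _ : ι => (gaussianReal 0 1).prod (gaussianReal 0 1))).withDensity
      (fun z => ∏ n, dn (m n) (z n)) := by
  have hs : ∀ n : ι, IsProbabilityMeasure
      (((gaussianReal 0 1).prod (gaussianReal 0 1)).map (ph (m n))) := fun n =>
    Measure.isProbabilityMeasure_map (measurable_ph (m n)).aemeasurable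
  rw [Measure.pi_map_pi (fun n => (measurable_ph (m n)).aemeasurable)]
  have hs' : ∀ n : ι, IsProbabilityMeasure
      (((gaussianReal 0 1).prod (gaussianReal 0 1)).withDensity (dn (m n))) := fun n => by
    rw [← map_ph (hm n)]
    exact hs n
  rw [← pi_withDensity _ (fun n => measurable_dn (m n))]
  congr 1
  funext n
  exact map_ph (hm n)

end TiltAux

open TiltAux in
theorem tilt {ι : Type*} [Fintype ι] {m : ι → ℝ} (hm : ∀ n, |m n| < 1)
    {P : (ι → ℝ) → (ι → ℝ) → ℂ} (hP : Measurable (Function.uncurry P)) {C : ℝ} {k : ℕ}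
    (hPb : ∀ x y, ‖P x y‖ ≤ C * (1 + ∑ n, |x n| + ∑ n, |y n|) ^ k) :
    ∫ x, ∫ y, P x y * (Real.exp (∑ n, m n * x n * y n) : ℂ) ∂(gs ι) ∂(gs ι) =
      ((∏ n, (√(1 - m n ^ 2))⁻¹ : ℝ) : ℂ) * ∫ p, ∫ q,
        P (fun n => 1 / √(2 * (1 - m n)) * p n + 1 / √(2 * (1 + m n)) * q n)
          (fun n => 1 / √(2 * (1 - m n)) * p n - 1 / √(2 * (1 + m n)) * q n) ∂(gs ι) ∂(gs ι) := by
  have hC : 0 ≤ C := by
    have := hPb 0 0
    simp only [Pi.zero_apply, abs_zero, Finset.sum_const_zero, add_zero, one_pow, mul_one] at this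
    exact (norm_nonneg _).trans this
  -- the left side is integrable
  have hmE : Measurable (fun w : (ι → ℝ) × (ι → ℝ) =>
      (Real.exp (∑ n, m n * w.1 n * w.2 n) : ℂ)) := by
    refine Complex.measurable_ofReal.comp (Real.measurable_exp.comp ?_)
    refine Finset.measurable_sum _ fun n _ => ?_
    exact (measurable_const.mul ((measurable_pi_apply n).comp measurable_fst)).mul
      ((measurable_pi_apply n).comp measurable_snd)
  have hL : Integrable (fun w : (ι → ℝ) × (ι → ℝ) =>
      P w.1 w.2 * (Real.exp (∑ n, m n * w.1 n * w.2 n) : ℂ)) ((gs ι).prod (gs ι)) := by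
    refine ((integrable_poly_exp hm k).const_mul C).mono' (hP.mul hmE).aestronglyMeasurable ?_
    refine Eventually.of_forall fun w => ?_
    rw [norm_mul, Complex.norm_real, Real.norm_eq_abs, abs_of_pos (Real.exp_pos _), ← mul_assoc]
    refine mul_le_mul (hPb w.1 w.2) ?_ (Real.exp_pos _).le ((norm_nonneg _).trans (hPb w.1 w.2))
    exact Real.exp_le_exp.2 (Finset.sum_le_sum fun n _ => le_abs_self _)
  -- the right side is integrable
  have hmP : Measurable (fun w : (ι → ℝ) × (ι → ℝ) =>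
      P (fun n => 1 / √(2 * (1 - m n)) * w.1 n + 1 / √(2 * (1 + m n)) * w.2 n)
        (fun n => 1 / √(2 * (1 - m n)) * w.1 n - 1 / √(2 * (1 + m n)) * w.2 n)) := by
    refine hP.comp (Measurable.prodMk (measurable_pi_lambda _ fun n => ?_)
      (measurable_pi_lambda _ fun n => ?_))
    · exact (measurable_const.mul ((measurable_pi_apply n).comp measurable_fst)).add
        (measurable_const.mul ((measurable_pi_apply n).comp measurable_snd))
    · exact (measurable_const.mul ((measurable_pi_apply n).comp measurable_fst)).sub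
        (measurable_const.mul ((measurable_pi_apply n).comp measurable_snd))
  have hR : Integrable (fun w : (ι → ℝ) × (ι → ℝ) =>
      P (fun n => 1 / √(2 * (1 - m n)) * w.1 n + 1 / √(2 * (1 + m n)) * w.2 n)
        (fun n => 1 / √(2 * (1 - m n)) * w.1 n - 1 / √(2 * (1 + m n)) * w.2 n))
      ((gs ι).prod (gs ι)) := by
    set K : ℝ := 1 + ∑ n, 2 * (1 / √(2 * (1 - m n)) + 1 / √(2 * (1 + m n))) with hK
    have hst : ∀ n, 0 ≤ 2 * (1 / √(2 * (1 - m n)) + 1 / √(2 * (1 + m n))) := fun n => by positivity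
    have hK1 : 1 ≤ K := by
      rw [hK]
      have := Finset.sum_nonneg fun n (_ : n ∈ (Finset.univ : Finset ι)) => hst n
      linarith
    have hKn : ∀ n, 2 * (1 / √(2 * (1 - m n)) + 1 / √(2 * (1 + m n))) ≤ K := fun n => by
      rw [hK]
      have := Finset.single_le_sum (fun n (_ : n ∈ (Finset.univ : Finset ι)) => hst n)
        (Finset.mem_univ n)
      linarith
    refine ((integrable_poly₂ k).const_mul (C * K ^ k)).mono' hmP.aestronglyMeasurable ?_
    refine Eventually.of_forall fun w => (hPb _ _).trans ?_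
    rw [mul_assoc, ← mul_pow]
    refine mul_le_mul_of_nonneg_left (pow_le_pow_left₀ (by positivity) ?_ k) hC
    have h5 : ∀ n, |1 / √(2 * (1 - m n)) * w.1 n + 1 / √(2 * (1 + m n)) * w.2 n| +
        |1 / √(2 * (1 - m n)) * w.1 n - 1 / √(2 * (1 + m n)) * w.2 n| ≤
        K * (|w.1 n| + |w.2 n|) := fun n => by
      have hs0 : 0 ≤ 1 / √(2 * (1 - m n)) := by positivity
      have ht0 : 0 ≤ 1 / √(2 * (1 + m n)) := by positivity
      have h7 := abs_add_le (1 / √(2 * (1 - m n)) * w.1 n) (1 / √(2 * (1 + m n)) * w.2 n)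
      have h8 := abs_sub (1 / √(2 * (1 - m n)) * w.1 n) (1 / √(2 * (1 + m n)) * w.2 n)
      rw [abs_mul, abs_mul, abs_of_nonneg hs0, abs_of_nonneg ht0] at h7 h8
      have h9 := mul_le_mul_of_nonneg_right (hKn n) (add_nonneg (abs_nonneg (w.1 n)) (abs_nonneg (w.2 n)))
      have h10 := mul_nonneg hs0 (abs_nonneg (w.2 n))
      have h11 := mul_nonneg ht0 (abs_nonneg (w.1 n))
      nlinarith
    have h6 := Finset.sum_le_sum fun n (_ : n ∈ (Finset.univ : Finset ι)) => h5 n
    rw [Finset.sum_add_distrib, ← Finset.mul_sum, Finset.sum_add_distrib] at h6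
    calc 1 + ∑ n, |1 / √(2 * (1 - m n)) * w.1 n + 1 / √(2 * (1 + m n)) * w.2 n| +
        ∑ n, |1 / √(2 * (1 - m n)) * w.1 n - 1 / √(2 * (1 + m n)) * w.2 n| ≤
        1 + K * (∑ n, |w.1 n| + ∑ n, |w.2 n|) := by linarith
      _ ≤ K * (1 + ∑ n, |w.1 n| + ∑ n, |w.2 n|) := by linarith
  have hL' := integral_prod _ hL
  have hR' := integral_prod _ hR
  simp only at hL' hR'
  rw [← hL', ← hR']
  -- the transfer
  set ν : Measure (ι → ℝ × ℝ) := Measure.pi (fun _ : ι => (gaussianReal 0 1).prod (gaussianReal 0 1))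
    with hν
  have hMP : MeasurePreserving (MeasurableEquiv.arrowProdEquivProdArrow ℝ ℝ ι) ν
      ((gs ι).prod (gs ι)) :=
    measurePreserving_arrowProdEquivProdArrow ℝ ℝ ι (fun _ => gaussianReal 0 1)
      (fun _ => gaussianReal 0 1)
  rw [← hMP.integral_comp', ← hMP.integral_comp']
  have h1 : ∀ z : ι → ℝ × ℝ, MeasurableEquiv.arrowProdEquivProdArrow ℝ ℝ ι z =
      (fun n => (z n).1, fun n => (z n).2) := fun z => rfl
  simp only [h1]
  have hmΦ : Measurable (fun (z : ι → ℝ × ℝ) n => ph (m n) (z n)) :=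
    measurable_pi_lambda _ fun n => (measurable_ph (m n)).comp (measurable_pi_apply n)
  have hmP' : Measurable (fun z : ι → ℝ × ℝ => P (fun n => (z n).1) (fun n => (z n).2)) :=
    hP.comp (MeasurableEquiv.arrowProdEquivProdArrow ℝ ℝ ι).measurable
  have h2 : ∫ z, P (fun n => 1 / √(2 * (1 - m n)) * (z n).1 + 1 / √(2 * (1 + m n)) * (z n).2)
        (fun n => 1 / √(2 * (1 - m n)) * (z n).1 - 1 / √(2 * (1 + m n)) * (z n).2) ∂ν =
      ∫ z, P (fun n => (z n).1) (fun n => (z n).2) ∂(ν.map (fun z n => ph (m n) (z n))) := by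
    rw [integral_map hmΦ.aemeasurable hmP'.aestronglyMeasurable]
    rfl
  have hmD : Measurable (fun z : ι → ℝ × ℝ => ∏ n, dn (m n) (z n)) :=
    Finset.measurable_prod _ fun n _ => (measurable_dn (m n)).comp (measurable_pi_apply n)
  have hDf : ∀ᵐ z ∂ν, (∏ n, dn (m n) (z n)) < ⊤ :=
    Eventually.of_forall fun z => ENNReal.prod_lt_top fun n _ => ENNReal.ofReal_lt_top
  rw [h2, map_pi hm, integral_withDensity_eq_integral_toReal_smul hmD hDf,
    ← integral_const_mul]
  refine integral_congr_ae (Eventually.of_forall fun z => ?_)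
  simp only
  have h3 : (∏ n, dn (m n) (z n)).toReal = (∏ n, √(1 - m n ^ 2)) *
      Real.exp (∑ n, m n * (z n).1 * (z n).2) := by
    rw [ENNReal.toReal_prod, Real.exp_sum, ← Finset.prod_mul_distrib]
    refine Finset.prod_congr rfl fun n _ => ?_
    unfold dn
    rw [ENNReal.toReal_ofReal (by positivity)]
  have h4 : (∏ n, √(1 - m n ^ 2)) ≠ 0 := by
    refine Finset.prod_ne_zero_iff.2 fun n _ => ?_
    have := (sq_lt_one_iff_abs_lt_one (m n)).2 (hm n)
    exact (Real.sqrt_pos.2 (by linarith)).ne'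
  rw [h3, Finset.prod_inv_distrib, Complex.real_smul, ← mul_assoc, ← Complex.ofReal_mul, ← mul_assoc,
    inv_mul_cancel₀ h4, one_mul, mul_comm]

end Pool.Agent.P76w
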