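import Pool.Agent.Lib.P76w.GaussPoly
import Pool.Agent.Lib.Pd47e08.Wick

/-!
# P76w.Wick (2 h): moments of linear forms in independent standard Gaussians

`lin a b p q = ∑ a_n p_n + ∑ b_n q_n` with complex coefficients, `p, q` independent with law `gs ι`.
First moment `0`, second `∑ (a a' + b b')`, third `0` (symmetry `p,q ↦ -p,-q`), fourth: the three pairings
(Isserlis).  We reduce to one Gaussian vector indexed by `ι ⊕ ι`, expand the products of sums and use
the Wick recursion `W_cons` for words of independent standard Gaussians.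
-/

open MeasureTheory Filter Topology ProbabilityTheory
open scoped BigOperators

namespace Pool.Agent.P76w

open Pool.Agent.P76s

/-- A linear form in `p` and `q`. -/
noncomputable def lin {ι : Type*} [Fintype ι] (a b : ι → ℂ) (p q : ι → ℝ) : ℂ :=
  ∑ n, a n * (p n : ℂ) + ∑ n, b n * (q n : ℂ)

namespace WickAux

open Pool.Agent.Lib.Pd47e08

section One

variable {κ : Type*} [Fintype κ]

/-- A linear form in one Gaussian vector. -/
noncomputable def lf (A : κ → ℂ) (z : κ → ℝ) : ℂ := ∑ i, A i * (z i : ℂ)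

theorem integrable_word (l : List κ) :
    Integrable (fun z : κ → ℝ => (((l.map z).prod : ℝ) : ℂ)) (gs κ) := by
  classical
  exact (integrable_prod_map l).ofReal

theorem integral_word [DecidableEq κ] (l : List κ) :
    ∫ z : κ → ℝ, (((l.map z).prod : ℝ) : ℂ) ∂(gs κ) = ((W l : ℝ) : ℂ) := by
  rw [← integral_prod_map l]
  exact integral_ofReal

theorem W2 [DecidableEq κ] (i j : κ) : W [i, j] = if j = i then 1 else 0 := by
  rw [W_cons i [j] 1 (by simp)]
  simp [W_nil]

theorem W1 [DecidableEq κ] (i : κ) : W [i] = 0 := by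
  rw [W_cons i [] 0 (by simp)]
  simp

theorem W3 [DecidableEq κ] (i j k : κ) : W [i, j, k] = 0 := by
  rw [W_cons i [j, k] 2 (by simp)]
  simp [Finset.sum_range_succ, W1]

theorem W4 [DecidableEq κ] (i j k l : κ) : W [i, j, k, l] =
    (if j = i then 1 else 0) * (if l = k then 1 else 0) +
    (if k = i then 1 else 0) * (if l = j then 1 else 0) +
    (if l = i then 1 else 0) * (if k = j then 1 else 0) := by
  rw [W_cons i [j, k, l] 3 (by simp)]
  simp only [Finset.sum_range_succ, Finset.sum_range_zero]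
  simp [W2]
  split_ifs <;> simp

theorem lf1_eq (A : κ → ℂ) (z : κ → ℝ) :
    lf A z = ∑ i, A i * ((([i].map z).prod : ℝ) : ℂ) := by
  simp [lf]

theorem lf2_eq (A B : κ → ℂ) (z : κ → ℝ) :
    lf A z * lf B z = ∑ i, ∑ j, A i * B j * ((([i, j].map z).prod : ℝ) : ℂ) := by
  unfold lf
  rw [Finset.sum_mul_sum]
  refine Finset.sum_congr rfl fun i _ => Finset.sum_congr rfl fun j _ => ?_
  simp
  ring

theorem lf3_eq (A B C : κ → ℂ) (z : κ → ℝ) :
    lf A z * lf B z * lf C z =
      ∑ i, ∑ j, ∑ k, A i * B j * C k * ((([i, j, k].map z).prod : ℝ) : ℂ) := by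
  rw [lf2_eq, lf]
  rw [Finset.sum_mul]
  refine Finset.sum_congr rfl fun i _ => ?_
  rw [Finset.sum_mul_sum]
  refine Finset.sum_congr rfl fun j _ => Finset.sum_congr rfl fun k _ => ?_
  simp
  ring

theorem lf4_eq (A B C D : κ → ℂ) (z : κ → ℝ) :
    lf A z * lf B z * lf C z * lf D z =
      ∑ i, ∑ j, ∑ k, ∑ l, A i * B j * C k * D l * ((([i, j, k, l].map z).prod : ℝ) : ℂ) := by
  rw [lf3_eq, lf]
  rw [Finset.sum_mul]
  refine Finset.sum_congr rfl fun i _ => ?_
  rw [Finset.sum_mul]
  refine Finset.sum_congr rfl fun j _ => ?_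
  rw [Finset.sum_mul_sum]
  refine Finset.sum_congr rfl fun k _ => Finset.sum_congr rfl fun l _ => ?_
  simp
  ring

theorem integrable_lf1 (A : κ → ℂ) : Integrable (fun z => lf A z) (gs κ) := by
  simp_rw [lf1_eq]
  exact integrable_finsetSum _ fun i _ => (integrable_word [i]).const_mul _

theorem integrable_lf2 (A B : κ → ℂ) : Integrable (fun z => lf A z * lf B z) (gs κ) := by
  simp_rw [lf2_eq]
  exact integrable_finsetSum _ fun i _ => integrable_finsetSum _ fun j _ =>
    (integrable_word [i, j]).const_mul _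

theorem integrable_lf3 (A B C : κ → ℂ) :
    Integrable (fun z => lf A z * lf B z * lf C z) (gs κ) := by
  simp_rw [lf3_eq]
  exact integrable_finsetSum _ fun i _ => integrable_finsetSum _ fun j _ =>
    integrable_finsetSum _ fun k _ => (integrable_word [i, j, k]).const_mul _

theorem integrable_lf4 (A B C D : κ → ℂ) :
    Integrable (fun z => lf A z * lf B z * lf C z * lf D z) (gs κ) := by
  simp_rw [lf4_eq]
  exact integrable_finsetSum _ fun i _ => integrable_finsetSum _ fun j _ =>
    integrable_finsetSum _ fun k _ => integrable_finsetSum _ fun l _ =>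
      (integrable_word [i, j, k, l]).const_mul _

theorem int_lf1 (A : κ → ℂ) : ∫ z, lf A z ∂(gs κ) = 0 := by
  classical
  simp_rw [lf1_eq]
  rw [integral_finsetSum _ fun i _ => (integrable_word [i]).const_mul _]
  refine Finset.sum_eq_zero fun i _ => ?_
  rw [integral_const_mul, integral_word, W1]
  simp

theorem int_lf2 (A B : κ → ℂ) : ∫ z, lf A z * lf B z ∂(gs κ) = ∑ i, A i * B i := by
  classical
  simp_rw [lf2_eq]
  rw [integral_finsetSum _ fun i _ => integrable_finsetSum _ fun j _ =>
    (integrable_word [i, j]).const_mul _]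
  refine Finset.sum_congr rfl fun i _ => ?_
  rw [integral_finsetSum _ fun j _ => (integrable_word [i, j]).const_mul _]
  simp_rw [integral_const_mul, integral_word, W2]
  rw [Finset.sum_eq_single i]
  · simp
  · intro j _ hj
    simp [hj]
  · intro h
    exact absurd (Finset.mem_univ i) h

theorem int_lf3 (A B C : κ → ℂ) : ∫ z, lf A z * lf B z * lf C z ∂(gs κ) = 0 := by
  classical
  simp_rw [lf3_eq]
  rw [integral_finsetSum _ fun i _ => integrable_finsetSum _ fun j _ =>
    integrable_finsetSum _ fun k _ => (integrable_word [i, j, k]).const_mul _]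
  refine Finset.sum_eq_zero fun i _ => ?_
  rw [integral_finsetSum _ fun j _ =>
    integrable_finsetSum _ fun k _ => (integrable_word [i, j, k]).const_mul _]
  refine Finset.sum_eq_zero fun j _ => ?_
  rw [integral_finsetSum _ fun k _ => (integrable_word [i, j, k]).const_mul _]
  refine Finset.sum_eq_zero fun k _ => ?_
  rw [integral_const_mul, integral_word, W3]
  simp

theorem sum4 [DecidableEq κ] (A B C D : κ → ℂ) :
    ∑ i, ∑ j, ∑ k, ∑ l, A i * B j * C k * D l * ((W [i, j, k, l] : ℝ) : ℂ) =
      (∑ i, A i * B i) * (∑ i, C i * D i) + (∑ i, A i * C i) * (∑ i, B i * D i) +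
        (∑ i, A i * D i) * (∑ i, B i * C i) := by
  have h1 : ∑ i, ∑ j, ∑ k, ∑ l, A i * B j * C k * D l *
      ((if j = i then (1 : ℂ) else 0) * (if l = k then 1 else 0)) =
      (∑ i, A i * B i) * (∑ i, C i * D i) := by
    rw [Finset.sum_mul_sum]
    refine Finset.sum_congr rfl fun i _ => ?_
    rw [Finset.sum_eq_single i]
    · refine Finset.sum_congr rfl fun k _ => ?_
      rw [Finset.sum_eq_single k]
      · simp
        ring
      · intro l _ hl
        simp [hl]
      · intro h
        exact absurd (Finset.mem_univ k) h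
    · intro j _ hj
      simp [hj]
    · intro h
      exact absurd (Finset.mem_univ i) h
  have h2 : ∑ i, ∑ j, ∑ k, ∑ l, A i * B j * C k * D l *
      ((if k = i then (1 : ℂ) else 0) * (if l = j then 1 else 0)) =
      (∑ i, A i * C i) * (∑ i, B i * D i) := by
    rw [Finset.sum_mul_sum]
    refine Finset.sum_congr rfl fun i _ => ?_
    refine Finset.sum_congr rfl fun j _ => ?_
    rw [Finset.sum_eq_single i]
    · rw [Finset.sum_eq_single j]
      · simp
        ring
      · intro l _ hl
        simp [hl]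
      · intro h
        exact absurd (Finset.mem_univ j) h
    · intro k _ hk
      simp [hk]
    · intro h
      exact absurd (Finset.mem_univ i) h
  have h3 : ∑ i, ∑ j, ∑ k, ∑ l, A i * B j * C k * D l *
      ((if l = i then (1 : ℂ) else 0) * (if k = j then 1 else 0)) =
      (∑ i, A i * D i) * (∑ i, B i * C i) := by
    rw [Finset.sum_mul_sum]
    refine Finset.sum_congr rfl fun i _ => ?_
    refine Finset.sum_congr rfl fun j _ => ?_
    rw [Finset.sum_eq_single j]
    · rw [Finset.sum_eq_single i]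
      · simp
        ring
      · intro l _ hl
        simp [hl]
      · intro h
        exact absurd (Finset.mem_univ i) h
    · intro k _ hk
      simp [hk]
    · intro h
      exact absurd (Finset.mem_univ j) h
  rw [← h1, ← h2, ← h3]
  simp_rw [← Finset.sum_add_distrib]
  refine Finset.sum_congr rfl fun i _ => Finset.sum_congr rfl fun j _ =>
    Finset.sum_congr rfl fun k _ => Finset.sum_congr rfl fun l _ => ?_
  rw [W4]
  have e : ∀ (P : Prop) [Decidable P], (((if P then (1 : ℝ) else 0) : ℝ) : ℂ) =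
      if P then (1 : ℂ) else 0 := by
    intro P _
    split_ifs <;> simp
  rw [Complex.ofReal_add, Complex.ofReal_add, Complex.ofReal_mul, Complex.ofReal_mul,
    Complex.ofReal_mul, e, e, e, e, e, e]
  ring

theorem int_lf4 (A B C D : κ → ℂ) : ∫ z, lf A z * lf B z * lf C z * lf D z ∂(gs κ) =
    (∑ i, A i * B i) * (∑ i, C i * D i) + (∑ i, A i * C i) * (∑ i, B i * D i) +
      (∑ i, A i * D i) * (∑ i, B i * C i) := by
  classical
  rw [← sum4]
  simp_rw [lf4_eq]
  rw [integral_finsetSum _ fun i _ => integrable_finsetSum _ fun j _ =>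
    integrable_finsetSum _ fun k _ => integrable_finsetSum _ fun l _ =>
      (integrable_word [i, j, k, l]).const_mul _]
  refine Finset.sum_congr rfl fun i _ => ?_
  rw [integral_finsetSum _ fun j _ =>
    integrable_finsetSum _ fun k _ => integrable_finsetSum _ fun l _ =>
      (integrable_word [i, j, k, l]).const_mul _]
  refine Finset.sum_congr rfl fun j _ => ?_
  rw [integral_finsetSum _ fun k _ => integrable_finsetSum _ fun l _ =>
      (integrable_word [i, j, k, l]).const_mul _]
  refine Finset.sum_congr rfl fun k _ => ?_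
  rw [integral_finsetSum _ fun l _ => (integrable_word [i, j, k, l]).const_mul _]
  refine Finset.sum_congr rfl fun l _ => ?_
  rw [integral_const_mul, integral_word]

end One

variable {ι : Type*} [Fintype ι]

theorem lin_eq (a b : ι → ℂ) (z : ι ⊕ ι → ℝ) :
    lin a b (fun n => z (Sum.inl n)) (fun n => z (Sum.inr n)) = lf (Sum.elim a b) z := by
  unfold lin lf
  rw [Fintype.sum_sum_type]
  simp

theorem transfer (F : (ι → ℝ) → (ι → ℝ) → ℂ)
    (hF : Integrable (fun z : ι ⊕ ι → ℝ => F (fun n => z (Sum.inl n)) (fun n => z (Sum.inr n)))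
      (gs (ι ⊕ ι))) :
    ∫ p, ∫ q, F p q ∂(gs ι) ∂(gs ι) =
      ∫ z, F (fun n => z (Sum.inl n)) (fun n => z (Sum.inr n)) ∂(gs (ι ⊕ ι)) := by
  have hmp := measurePreserving_sumPiEquivProdPi (X := fun _ : ι ⊕ ι => ℝ)
    (fun _ : ι ⊕ ι => gaussianReal 0 1)
  have h1 : Integrable (fun w : (ι → ℝ) × (ι → ℝ) => F w.1 w.2) ((gs ι).prod (gs ι)) := by
    have := (hmp.integrable_comp_emb (MeasurableEquiv.measurableEmbedding _)
      (g := fun w : (ι → ℝ) × (ι → ℝ) => F w.1 w.2)).mp hF
    exact this
  have h2 := hmp.integral_comp (MeasurableEquiv.measurableEmbedding _)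
      (fun w : (ι → ℝ) × (ι → ℝ) => F w.1 w.2)
  have h3 : ∫ w : (ι → ℝ) × (ι → ℝ), F w.1 w.2 ∂((gs ι).prod (gs ι)) =
      ∫ p, ∫ q, F p q ∂(gs ι) ∂(gs ι) := integral_prod _ h1
  rw [← h3]
  exact h2.symm

end WickAux

open WickAux

theorem wick1 {ι : Type*} [Fintype ι] (a b : ι → ℂ) :
    ∫ p, ∫ q, lin a b p q ∂(gs ι) ∂(gs ι) = 0 := by
  rw [transfer (fun p q => lin a b p q) (by simp_rw [lin_eq]; exact integrable_lf1 _)]
  simp_rw [lin_eq]
  exact int_lf1 _

theorem wick2 {ι : Type*} [Fintype ι] (a b a' b' : ι → ℂ) :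
    ∫ p, ∫ q, lin a b p q * lin a' b' p q ∂(gs ι) ∂(gs ι) = ∑ n, (a n * a' n + b n * b' n) := by
  rw [transfer (fun p q => lin a b p q * lin a' b' p q)
    (by simp_rw [lin_eq]; exact integrable_lf2 _ _)]
  simp_rw [lin_eq]
  rw [int_lf2, Fintype.sum_sum_type, Finset.sum_add_distrib]
  simp

theorem wick3 {ι : Type*} [Fintype ι] (a b a' b' a'' b'' : ι → ℂ) :
    ∫ p, ∫ q, lin a b p q * lin a' b' p q * lin a'' b'' p q ∂(gs ι) ∂(gs ι) = 0 := by
  rw [transfer (fun p q => lin a b p q * lin a' b' p q * lin a'' b'' p q)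
    (by simp_rw [lin_eq]; exact integrable_lf3 _ _ _)]
  simp_rw [lin_eq]
  exact int_lf3 _ _ _

theorem wick4 {ι : Type*} [Fintype ι] (a b a' b' a'' b'' c d : ι → ℂ) :
    ∫ p, ∫ q, lin a b p q * lin a' b' p q * lin a'' b'' p q * lin c d p q ∂(gs ι) ∂(gs ι) =
      (∑ n, (a n * a' n + b n * b' n)) * (∑ n, (a'' n * c n + b'' n * d n)) +
      (∑ n, (a n * a'' n + b n * b'' n)) * (∑ n, (a' n * c n + b' n * d n)) +
      (∑ n, (a n * c n + b n * d n)) * (∑ n, (a' n * a'' n + b' n * b'' n)) := by
  rw [transfer (fun p q => lin a b p q * lin a' b' p q * lin a'' b'' p q * lin c d p q)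
    (by simp_rw [lin_eq]; exact integrable_lf4 _ _ _ _)]
  simp_rw [lin_eq]
  rw [int_lf4]
  simp_rw [Fintype.sum_sum_type, Finset.sum_add_distrib]
  simp

end Pool.Agent.P76w
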