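import Pool.Agent.Lib.P76w.Tilt
import Pool.Agent.Lib.P76w.Wick

/-!
# P76w.TiltW (1 h): moments of linear forms in the tilted Gaussian
(black boxes: Tilt, Wick)

`x = s p + t q`, `y = s p - t q`: `lin a b x y = lin (s(a+b)) (t(a-b)) p q`, `s² = 1/(2(1-m))`,
`t² = 1/(2(1+m))`, so the covariance `∑ s²(a+b)(a'+b') + t²(a-b)(a'-b')` is
`cov m a b a' b' = ∑ (a a' + b b' + m(a b' + b a'))/(1-m²)` (`s²+t² = 1/(1-m²)`, `s²-t² = m/(1-m²)`).
Polynomial growth of products of linear forms: `|lin a b x y| ≤ C (1 + ∑|x| + ∑|y|)`.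
-/

open MeasureTheory Filter Topology ProbabilityTheory
open scoped BigOperators

namespace Pool.Agent.P76w

open Pool.Agent.P76s

/-- The covariance of two linear forms in the tilted Gaussian. -/
noncomputable def cov {ι : Type*} [Fintype ι] (m : ι → ℝ) (a b a' b' : ι → ℂ) : ℂ :=
  ∑ n, (a n * a' n + b n * b' n + (m n : ℂ) * (a n * b' n + b n * a' n)) *
    ((1 / (1 - m n ^ 2) : ℝ) : ℂ)

variable {ι : Type*} [Fintype ι] {m : ι → ℝ}

theorem lin_bound (a b : ι → ℂ) : ∃ C > 0, ∀ x y : ι → ℝ,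
    ‖lin a b x y‖ ≤ C * (1 + ∑ n, |x n| + ∑ n, |y n|) := by
  refine ⟨1 + ∑ n, ‖a n‖ + ∑ n, ‖b n‖, by positivity, fun x y => ?_⟩
  have hA : 0 ≤ ∑ n, ‖a n‖ := Finset.sum_nonneg fun n _ => norm_nonneg _
  have hB : 0 ≤ ∑ n, ‖b n‖ := Finset.sum_nonneg fun n _ => norm_nonneg _
  have hX : 0 ≤ ∑ n, |x n| := Finset.sum_nonneg fun n _ => abs_nonneg _
  have hY : 0 ≤ ∑ n, |y n| := Finset.sum_nonneg fun n _ => abs_nonneg _
  have h1 : ∀ (a : ι → ℂ) (x : ι → ℝ), ‖∑ n, a n * (x n : ℂ)‖ ≤ (∑ n, ‖a n‖) * ∑ n, |x n| := by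
    intro a x
    refine (norm_sum_le _ _).trans ?_
    rw [Finset.sum_mul]
    refine Finset.sum_le_sum fun n _ => ?_
    rw [norm_mul, Complex.norm_real, Real.norm_eq_abs]
    exact mul_le_mul_of_nonneg_left
      (Finset.single_le_sum (f := fun n => |x n|) (fun n _ => abs_nonneg _) (Finset.mem_univ n))
      (norm_nonneg _)
  unfold lin
  refine (norm_add_le _ _).trans ((add_le_add (h1 a x) (h1 b y)).trans ?_)
  nlinarith [mul_nonneg hA hX, mul_nonneg hA hY, mul_nonneg hB hX, mul_nonneg hB hY]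

namespace TiltWAux

lemma lin_meas (a b : ι → ℂ) :
    Measurable (Function.uncurry fun x y : ι → ℝ => lin a b x y) := by
  unfold lin Function.uncurry
  refine Measurable.add ?_ ?_
  · refine Finset.measurable_sum _ fun n _ => ?_
    exact measurable_const.mul (Complex.measurable_ofReal.comp
      ((measurable_pi_apply n).comp measurable_fst))
  · refine Finset.measurable_sum _ fun n _ => ?_
    exact measurable_const.mul (Complex.measurable_ofReal.comp
      ((measurable_pi_apply n).comp measurable_snd))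

/-- the coefficients after the change of variables -/
noncomputable def sa (m : ι → ℝ) (a b : ι → ℂ) (n : ι) : ℂ :=
  ((1 / √(2 * (1 - m n)) : ℝ) : ℂ) * (a n + b n)

/-- the coefficients after the change of variables -/
noncomputable def ta (m : ι → ℝ) (a b : ι → ℂ) (n : ι) : ℂ :=
  ((1 / √(2 * (1 + m n)) : ℝ) : ℂ) * (a n - b n)

lemma lin_sub (m : ι → ℝ) (a b : ι → ℂ) (p q : ι → ℝ) :
    lin a b (fun n => 1 / √(2 * (1 - m n)) * p n + 1 / √(2 * (1 + m n)) * q n)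
      (fun n => 1 / √(2 * (1 - m n)) * p n - 1 / √(2 * (1 + m n)) * q n) =
      lin (sa m a b) (ta m a b) p q := by
  unfold lin sa ta
  rw [← Finset.sum_add_distrib, ← Finset.sum_add_distrib]
  refine Finset.sum_congr rfl fun n _ => ?_
  push_cast
  ring

lemma cov_eq (hm : ∀ n, |m n| < 1) (a b a' b' : ι → ℂ) :
    ∑ n, (sa m a b n * sa m a' b' n + ta m a b n * ta m a' b' n) = cov m a b a' b' := by
  unfold sa ta cov
  refine Finset.sum_congr rfl fun n _ => ?_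
  obtain ⟨h1, h2⟩ := abs_lt.1 (hm n)
  have p1 : 0 < 1 - m n := by linarith
  have p2 : 0 < 1 + m n := by linarith
  have e1 : (1 / √(2 * (1 - m n))) * (1 / √(2 * (1 - m n))) = 1 / (2 * (1 - m n)) := by
    rw [div_mul_div_comm, one_mul, Real.mul_self_sqrt (by positivity)]
  have e2 : (1 / √(2 * (1 + m n))) * (1 / √(2 * (1 + m n))) = 1 / (2 * (1 + m n)) := by
    rw [div_mul_div_comm, one_mul, Real.mul_self_sqrt (by positivity)]
  have e3 : 1 / (2 * (1 - m n)) + 1 / (2 * (1 + m n)) = 1 / (1 - m n ^ 2) := by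
    have : 1 - m n ^ 2 = (1 - m n) * (1 + m n) := by ring
    rw [this]
    field_simp
    ring
  have e4 : 1 / (2 * (1 - m n)) - 1 / (2 * (1 + m n)) = m n * (1 / (1 - m n ^ 2)) := by
    have : 1 - m n ^ 2 = (1 - m n) * (1 + m n) := by ring
    rw [this]
    field_simp
    ring
  have f1 : (((1 / √(2 * (1 - m n)) : ℝ)) : ℂ) * (((1 / √(2 * (1 - m n)) : ℝ)) : ℂ) =
      ((1 / (2 * (1 - m n)) : ℝ) : ℂ) := by rw [← Complex.ofReal_mul, e1]
  have f2 : (((1 / √(2 * (1 + m n)) : ℝ)) : ℂ) * (((1 / √(2 * (1 + m n)) : ℝ)) : ℂ) =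
      ((1 / (2 * (1 + m n)) : ℝ) : ℂ) := by rw [← Complex.ofReal_mul, e2]
  have f3 : ((1 / (2 * (1 - m n)) : ℝ) : ℂ) + ((1 / (2 * (1 + m n)) : ℝ) : ℂ) =
      ((1 / (1 - m n ^ 2) : ℝ) : ℂ) := by rw [← Complex.ofReal_add, e3]
  have f4 : ((1 / (2 * (1 - m n)) : ℝ) : ℂ) - ((1 / (2 * (1 + m n)) : ℝ) : ℂ) =
      (m n : ℂ) * ((1 / (1 - m n ^ 2) : ℝ) : ℂ) := by
    rw [← Complex.ofReal_sub, e4, Complex.ofReal_mul]
  linear_combination (a n + b n) * (a' n + b' n) * f1 + (a n - b n) * (a' n - b' n) * f2 +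
    (a n * a' n + b n * b' n) * f3 + (a n * b' n + b n * a' n) * f4

end TiltWAux

open TiltWAux

theorem tw0 (hm : ∀ n, |m n| < 1) :
    ∫ x, ∫ y, (Real.exp (∑ n, m n * x n * y n) : ℂ) ∂(gs ι) ∂(gs ι) =
      ((∏ n, (√(1 - m n ^ 2))⁻¹ : ℝ) : ℂ) := by
  have h := tilt (C := 1) (k := 0) hm (P := fun _ _ => (1 : ℂ)) measurable_const
    (fun x y => by simp)
  simp only [one_mul, integral_const, probReal_univ, one_smul, mul_one] at h
  exact h

theorem tw1 (hm : ∀ n, |m n| < 1) (a b : ι → ℂ) :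
    ∫ x, ∫ y, lin a b x y * (Real.exp (∑ n, m n * x n * y n) : ℂ) ∂(gs ι) ∂(gs ι) = 0 := by
  obtain ⟨C, hC, hb⟩ := lin_bound a b
  rw [tilt (C := C) (k := 1) hm (P := fun x y => lin a b x y) (lin_meas a b)
    (fun x y => by rw [pow_one]; exact hb x y)]
  simp only [lin_sub]
  rw [wick1, mul_zero]

theorem tw2 (hm : ∀ n, |m n| < 1) (a b a' b' : ι → ℂ) :
    ∫ x, ∫ y, lin a b x y * lin a' b' x y *
      (Real.exp (∑ n, m n * x n * y n) : ℂ) ∂(gs ι) ∂(gs ι) =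
      ((∏ n, (√(1 - m n ^ 2))⁻¹ : ℝ) : ℂ) * cov m a b a' b' := by
  obtain ⟨C, hC, hb⟩ := lin_bound a b
  obtain ⟨C', hC', hb'⟩ := lin_bound a' b'
  rw [tilt (C := C * C') (k := 2) hm (P := fun x y => lin a b x y * lin a' b' x y)
    ((lin_meas a b).mul (lin_meas a' b')) (fun x y => ?_)]
  · simp only [lin_sub]
    rw [wick2, cov_eq hm]
  · rw [norm_mul]
    have h0 : 0 ≤ C * (1 + ∑ n, |x n| + ∑ n, |y n|) := by positivity
    refine (mul_le_mul (hb x y) (hb' x y) (norm_nonneg _) h0).trans (le_of_eq ?_)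
    ring

theorem tw3 (hm : ∀ n, |m n| < 1) (a b a' b' a'' b'' : ι → ℂ) :
    ∫ x, ∫ y, lin a b x y * lin a' b' x y * lin a'' b'' x y *
      (Real.exp (∑ n, m n * x n * y n) : ℂ) ∂(gs ι) ∂(gs ι) = 0 := by
  obtain ⟨C, hC, hb⟩ := lin_bound a b
  obtain ⟨C', hC', hb'⟩ := lin_bound a' b'
  obtain ⟨C'', hC'', hb''⟩ := lin_bound a'' b''
  rw [tilt (C := C * C' * C'') (k := 3) hm
    (P := fun x y => lin a b x y * lin a' b' x y * lin a'' b'' x y)
    (((lin_meas a b).mul (lin_meas a' b')).mul (lin_meas a'' b'')) (fun x y => ?_)]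
  · simp only [lin_sub]
    rw [wick3, mul_zero]
  · rw [norm_mul, norm_mul]
    have h0 : 0 ≤ C * (1 + ∑ n, |x n| + ∑ n, |y n|) := by positivity
    have h1 : 0 ≤ C' * (1 + ∑ n, |x n| + ∑ n, |y n|) := by positivity
    refine (mul_le_mul (mul_le_mul (hb x y) (hb' x y) (norm_nonneg _) h0) (hb'' x y)
      (norm_nonneg _) (mul_nonneg h0 h1)).trans (le_of_eq ?_)
    ring

theorem tw4 (hm : ∀ n, |m n| < 1) (a b a' b' a'' b'' c d : ι → ℂ) :
    ∫ x, ∫ y, lin a b x y * lin a' b' x y * lin a'' b'' x y * lin c d x y *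
      (Real.exp (∑ n, m n * x n * y n) : ℂ) ∂(gs ι) ∂(gs ι) =
      ((∏ n, (√(1 - m n ^ 2))⁻¹ : ℝ) : ℂ) *
        (cov m a b a' b' * cov m a'' b'' c d + cov m a b a'' b'' * cov m a' b' c d +
          cov m a b c d * cov m a' b' a'' b'') := by
  obtain ⟨C, hC, hb⟩ := lin_bound a b
  obtain ⟨C', hC', hb'⟩ := lin_bound a' b'
  obtain ⟨C'', hC'', hb''⟩ := lin_bound a'' b''
  obtain ⟨C₃, hC₃, hb₃⟩ := lin_bound c d
  rw [tilt (C := C * C' * C'' * C₃) (k := 4) hm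
    (P := fun x y => lin a b x y * lin a' b' x y * lin a'' b'' x y * lin c d x y)
    ((((lin_meas a b).mul (lin_meas a' b')).mul (lin_meas a'' b'')).mul (lin_meas c d))
    (fun x y => ?_)]
  · simp only [lin_sub]
    rw [wick4]
    simp only [cov_eq hm]
  · rw [norm_mul, norm_mul, norm_mul]
    have h0 : 0 ≤ C * (1 + ∑ n, |x n| + ∑ n, |y n|) := by positivity
    have h1 : 0 ≤ C' * (1 + ∑ n, |x n| + ∑ n, |y n|) := by positivity
    have h2 : 0 ≤ C'' * (1 + ∑ n, |x n| + ∑ n, |y n|) := by positivity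
    refine (mul_le_mul (mul_le_mul (mul_le_mul (hb x y) (hb' x y) (norm_nonneg _) h0) (hb'' x y)
      (norm_nonneg _) (mul_nonneg h0 h1)) (hb₃ x y) (norm_nonneg _)
      (mul_nonneg (mul_nonneg h0 h1) h2)).trans (le_of_eq ?_)
    ring

end Pool.Agent.P76w
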