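import Pool.Agent.Lib.P76w.TermsL
import Pool.Agent.Lib.P76w.Gain
import Pool.Agent.Lib.P76w.Integ
import Pool.Agent.Lib.P76w.CtFacts

/-!
# P76w.Var (2 h): the variational inequality
(black boxes: Alg, Scale, TermsE, TermsL, Gain, Integ, CtFacts)

`V = ∫ v₁`, `D = C₄ lam E/(1+E)`, `φ = phi E = E√E/(1+E)`.  Take `lam₀` so small that
`C₄ lam ≤ 1/14`: so `D ≤ 1`, `D₀ ≤ D ≤ E/14`.
(1) `terms`: `J₁, G₀, J₂ ≤ M φ`, `J₃ ≤ M E/√(1+E)`: for `E ≤ 1` from TermsE (`E√E ≤ 2φ`, `E ≤ √2 E/√(1+E)`),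
for `E ≥ 1` from TermsL (`√E ≤ 2φ`, `√E ≤ √2 E/√(1+E)`).  The hypotheses on `ct v₁` come from CtFacts
(`Pot v₁`), and `Scale.b_over_K`.
(2) `alg_G` pointwise (`E' = ρ lam ct v₁ ≤ T + D₀ ≤ T + D` by `close`; `h = T/XX`), integrated (Integ, Gain,
TermsE): `∫ G ≤ -c₁ E³/(1+E)² + 3 D J₁`.
(3) Sum of the errors: `3DJ₁ + ½ lam V (J₂² + G₀²) + lam G₀ J₃ ≤ C₂ lam φ E/√(1+E)`: `D ≤ C₄ lam E/√(1+E)`,
`φ ≤ E/√(1+E)` (`√E ≤ √(1+E)`).  And `φ E/√(1+E) = E³/(1+E)² · √((1+E)/E)`.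
(4) `E + D₀ = ρ lam V`, `D₀ ≤ E`: `E ≥ ½ρ lam V ≥ ½ C V lam²`, so `lam² (1+E)/E ≤ lam₀² + 2/(CV)`, which
is at most `(c₁/(2C₂))²` if `lam₀` is small and `C` large: so the errors are `≤ ½ c₁ E³/(1+E)²`.
(5) `G₀ ≤ Mφ ≤ M E ≤ M ρ lam V ≤ ρ/2` if `lam₀ ≤ 1/(2MV)`.
-/

open MeasureTheory Filter Topology
open scoped BigOperators

namespace Pool.Agent.P76w

open Pool.Agent.P76s

namespace VarAux

lemma pot_facts {v₁ : E3 → ℝ} (hv : Pot v₁) : Continuous (ct v₁) ∧ (∀ k, |ct v₁ k| ≤ ∫ x, v₁ x) ∧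
    MemLp (ct v₁) 2 ∧ Tendsto (ct v₁) (cocompact E3) (𝓝 0) ∧ ct v₁ 0 = ∫ x, v₁ x := by
  refine ⟨ct_continuous hv.int, fun k => ?_, ct_memLp hv.int hv.sq, ct_tendsto hv.int, ct_zero _⟩
  refine (ct_abs_le hv.int k).trans (le_of_eq ?_)
  exact integral_congr_ae (Eventually.of_forall fun x => abs_of_nonneg (hv.nonneg x))

lemma ek_nonneg (k : E3) : 0 ≤ ek k := by
  unfold ek
  positivity

lemma phi_small {E : ℝ} (hE : 0 < E) (h1 : E ≤ 1) : E * √E ≤ 2 * phi E := by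
  unfold phi
  have hs := Real.sqrt_nonneg E
  rw [mul_div_assoc', le_div_iff₀ (by linarith)]
  have : 0 ≤ E * √E := by positivity
  nlinarith

lemma phi_large {E : ℝ} (h1 : 1 ≤ E) : √E ≤ 2 * phi E := by
  unfold phi
  have hs := Real.sqrt_nonneg E
  rw [mul_div_assoc', le_div_iff₀ (by linarith)]
  nlinarith

lemma psi_small {E : ℝ} (hE : 0 < E) (h1 : E ≤ 1) : E ≤ 2 * (E / √(1 + E)) := by
  have hr : 0 < √(1 + E) := Real.sqrt_pos.2 (by linarith)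
  have hr2 : √(1 + E) ≤ 2 := by
    rw [Real.sqrt_le_left (by norm_num)]
    linarith
  rw [mul_div_assoc', le_div_iff₀ hr]
  nlinarith

lemma psi_large {E : ℝ} (h1 : 1 ≤ E) : √E ≤ 2 * (E / √(1 + E)) := by
  have hr : 0 < √(1 + E) := Real.sqrt_pos.2 (by linarith)
  have hs : 0 < √E := Real.sqrt_pos.2 (by linarith)
  have hs2 : √E * √E = E := Real.mul_self_sqrt (by linarith)
  have hr2 : √(1 + E) ≤ 2 * √E := by
    rw [Real.sqrt_le_left (by positivity)]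
    nlinarith
  rw [mul_div_assoc', le_div_iff₀ hr]
  nlinarith

lemma phi_nonneg {E : ℝ} (hE : 0 < E) : 0 ≤ phi E := by
  unfold phi
  positivity

end VarAux

open VarAux

theorem terms {v₁ : E3 → ℝ} (hv : Pot v₁) :
    ∃ M > 0, ∀ (lam ρ E D₀ D : ℝ) (T h : E3 → ℝ),
    SD v₁ lam ρ E D₀ T h → 0 < D → D ≤ E → D ≤ 1 → D₀ ≤ E / 4 →
    J1 E D T h ≤ M * phi E ∧ G0 E D T ≤ M * phi E ∧ J2 E D T h ≤ M * phi E ∧
      J3 v₁ E D T ≤ M * (E / √(1 + E)) := by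
  obtain ⟨hb, hV, hb2, hlim, h0⟩ := pot_facts hv
  obtain ⟨M₁, hM₁, h1⟩ := terms_E
  obtain ⟨M₂, hM₂, h2⟩ := terms_L hv hb hV hb2 hlim
  have hi := b_over_K hb hV hb2
  obtain ⟨Q, hQ⟩ : ∃ Q : ℝ, Q = ∫ k : E3, |ct v₁ k| / ek k := ⟨_, rfl⟩
  have hQ0 : 0 ≤ Q := by
    rw [hQ]
    exact integral_nonneg fun k => div_nonneg (abs_nonneg _) (ek_nonneg k)
  refine ⟨2 * M₁ + 2 * M₂ + 8 * Q, by positivity, ?_⟩
  intro lam ρ E D₀ D T h hs hD hDE hD1 hD₀
  have hE := hs.E_pos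
  have hφ := phi_nonneg hE
  have hψ : 0 ≤ E / √(1 + E) := by positivity
  rcases le_total E 1 with hE1 | hE1
  · obtain ⟨-, a1, -, a2, -, a3⟩ := h1 v₁ lam ρ E D₀ D T h hs hD hDE
    obtain ⟨-, -, a4⟩ := terms_E3 hb hi lam ρ E D₀ D T h hs hD hDE
    rw [← hQ] at a4
    have b1 : M₁ * (E * √E) ≤ (2 * M₁ + 2 * M₂ + 8 * Q) * phi E := by
      have := mul_le_mul_of_nonneg_left (phi_small hE hE1) hM₁.le
      have e1 : 0 ≤ M₂ * phi E := by positivity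
      have e2 : 0 ≤ Q * phi E := by positivity
      nlinarith
    have b2 : 4 * E * Q ≤ (2 * M₁ + 2 * M₂ + 8 * Q) * (E / √(1 + E)) := by
      have := mul_le_mul_of_nonneg_left (psi_small hE hE1) (by positivity : 0 ≤ 4 * Q)
      have e1 : 0 ≤ M₁ * (E / √(1 + E)) := by positivity
      have e2 : 0 ≤ M₂ * (E / √(1 + E)) := by positivity
      nlinarith
    exact ⟨a1.trans b1, a2.trans b1, a3.trans b1, a4.trans b2⟩
  · obtain ⟨a1, a2, a3, a4⟩ := h2 lam ρ E D₀ D T h hs hD hDE hD1 hD₀ hE1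
    have b1 : M₂ * √E ≤ (2 * M₁ + 2 * M₂ + 8 * Q) * phi E := by
      have := mul_le_mul_of_nonneg_left (phi_large hE1) hM₂.le
      have e1 : 0 ≤ M₁ * phi E := by positivity
      have e2 : 0 ≤ Q * phi E := by positivity
      nlinarith
    have b2 : M₂ * √E ≤ (2 * M₁ + 2 * M₂ + 8 * Q) * (E / √(1 + E)) := by
      have := mul_le_mul_of_nonneg_left (psi_large hE1) hM₂.le
      have e1 : 0 ≤ M₁ * (E / √(1 + E)) := by positivity
      have e2 : 0 ≤ Q * (E / √(1 + E)) := by positivity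
      nlinarith
    exact ⟨a1.trans b1, a2.trans b1, a3.trans b1, a4.trans b2⟩

namespace VarAux

/-- the final comparison -/
lemma final_alg {lam E δ : ℝ} (hlam : 0 < lam) (hE : 0 < E) (hδ : 0 < δ)
    (h : lam ^ 2 * (1 + E) ≤ δ ^ 2 * E) :
    lam * (phi E * (E / √(1 + E))) ≤ δ * (E ^ 3 / (1 + E) ^ 2) := by
  set s := √E with hs
  set r := √(1 + E) with hr
  have hs0 : 0 < s := Real.sqrt_pos.2 hE
  have hr0 : 0 < r := Real.sqrt_pos.2 (by linarith)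
  have hs2 : s ^ 2 = E := Real.sq_sqrt hE.le
  have hr2 : r ^ 2 = 1 + E := Real.sq_sqrt (by linarith)
  have h1 : lam * r ≤ δ * s := by
    have h2 : (lam * r) ^ 2 ≤ (δ * s) ^ 2 := by
      rw [mul_pow, mul_pow, hs2, hr2]
      exact h
    exact le_of_sq_le_sq h2 (by positivity)
  unfold phi
  rw [← hs, ← hr2, ← hs2]
  have e1 : lam * (s ^ 2 * s / r ^ 2 * (s ^ 2 / r)) = (lam * r) * (s ^ 5 / r ^ 4) := by
    field_simp
  have e2 : δ * ((s ^ 2) ^ 3 / (r ^ 2) ^ 2) = (δ * s) * (s ^ 5 / r ^ 4) := by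
    field_simp
  rw [e1, e2]
  exact mul_le_mul_of_nonneg_right h1 (by positivity)

lemma phi_le_psi {E : ℝ} (hE : 0 < E) : phi E ≤ E / √(1 + E) := by
  set s := √E with hs
  set r := √(1 + E) with hr
  have hs0 : 0 < s := Real.sqrt_pos.2 hE
  have hr0 : 0 < r := Real.sqrt_pos.2 (by linarith)
  have hr2 : r ^ 2 = 1 + E := Real.sq_sqrt (by linarith)
  have hsr : s ≤ r := Real.sqrt_le_sqrt (by linarith)
  unfold phi
  rw [← hs, ← hr2, div_le_div_iff₀ (by positivity) hr0]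
  nlinarith [mul_le_mul_of_nonneg_left hsr (by positivity : 0 ≤ E * r)]

lemma frac_le_psi {E : ℝ} (hE : 0 < E) : E / (1 + E) ≤ E / √(1 + E) := by
  have hr0 : 0 < √(1 + E) := Real.sqrt_pos.2 (by linarith)
  refine div_le_div_of_nonneg_left hE.le hr0 ?_
  rw [Real.sqrt_le_left (by linarith)]
  nlinarith

lemma phi_le {E : ℝ} (hE : 0 < E) : phi E ≤ E := by
  unfold phi
  have hs : √E ≤ 1 + E := by
    rw [Real.sqrt_le_left (by linarith)]
    nlinarith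
  rw [div_le_iff₀ (by linarith)]
  nlinarith

end VarAux

theorem var_bound {v₁ : E3 → ℝ} (hv : Pot v₁) {C₄ : ℝ} (hC₄ : 0 < C₄) :
    ∃ lam₀ > 0, ∃ C > 0, ∃ c > 0, ∀ (lam ρ E D₀ D : ℝ) (T h : E3 → ℝ),
    lam ≤ lam₀ → C * lam ≤ ρ → SD v₁ lam ρ E D₀ T h → D = C₄ * lam * (E / (1 + E)) → D₀ ≤ D →
    (0 < D ∧ D ≤ E) ∧
    (∫ k, ((ek k + ρ * lam * ct v₁ k) * gm (AA E D (T k) (ek k)) -
      T k * AA E D (T k) (ek k) + T k * h k / 2)) +
      1 / 2 * (lam * ∫ x, v₁ x) * (J2 E D T h ^ 2 + G0 E D T ^ 2) +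
      G0 E D T * (lam * J3 v₁ E D T) ≤ -(c * (E ^ 3 / (1 + E) ^ 2)) ∧
    G0 E D T ≤ ρ / 2 := by
  obtain ⟨hb, hV, hb2, hlim, h0⟩ := pot_facts hv
  obtain ⟨M, hM, hterms⟩ := terms hv
  obtain ⟨c₁, hc₁, hgain⟩ := gain hv hb h0 hlim
  obtain ⟨M₁, -, hE1⟩ := terms_E
  obtain ⟨V, hVdef⟩ : ∃ V : ℝ, V = ∫ x, v₁ x := ⟨_, rfl⟩
  have hVpos : 0 < V := hVdef ▸ hv.pos
  set C₂ : ℝ := 3 * C₄ * M + V * M ^ 2 + M ^ 2 with hC₂
  have hC₂pos : 0 < C₂ := by positivity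
  set δ : ℝ := c₁ / (2 * C₂) with hδ
  have hδpos : 0 < δ := by positivity
  refine ⟨min (1 / (14 * C₄)) (min (δ / 2) (1 / (2 * M * V))), by positivity,
    4 / (δ ^ 2 * V), by positivity, c₁ / 2, by positivity, ?_⟩
  intro lam ρ E D₀ D T h hlam hρ hs hDdef hD₀
  have hl1 : lam ≤ 1 / (14 * C₄) := hlam.trans (min_le_left _ _)
  have hl2 : lam ≤ δ / 2 := hlam.trans ((min_le_right _ _).trans (min_le_left _ _))
  have hl3 : lam ≤ 1 / (2 * M * V) := hlam.trans ((min_le_right _ _).trans (min_le_right _ _))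
  have hlam0 := hs.lam_pos
  have hρ0 := hs.rho_pos
  have hE := hs.E_pos
  have hC4l : C₄ * lam ≤ 1 / 14 := by
    rw [le_div_iff₀ (by positivity)] at hl1
    linarith
  have hfr0 : 0 < E / (1 + E) := by positivity
  have hfr1 : E / (1 + E) ≤ 1 := by
    rw [div_le_one (by linarith)]
    linarith
  have hfrE : E / (1 + E) ≤ E := by
    rw [div_le_iff₀ (by linarith)]
    nlinarith
  have hD0 : 0 < D := by
    rw [hDdef]
    positivity
  have hD14 : D ≤ E / 14 := by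
    rw [hDdef]
    calc C₄ * lam * (E / (1 + E)) ≤ 1 / 14 * E :=
          mul_le_mul hC4l hfrE hfr0.le (by norm_num)
      _ = E / 14 := by ring
  have hD1 : D ≤ 1 := by
    rw [hDdef]
    calc C₄ * lam * (E / (1 + E)) ≤ 1 / 14 * 1 :=
          mul_le_mul hC4l hfr1 hfr0.le (by norm_num)
      _ ≤ 1 := by norm_num
  have hDE : D ≤ E := by linarith
  have hD₀14 : D₀ ≤ E / 14 := hD₀.trans hD14
  obtain ⟨t1, t2, t3, t4⟩ := hterms lam ρ E D₀ D T h hs hD0 hDE hD1 (by linarith)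
  obtain ⟨i1, -, i2, -, i3, -⟩ := hE1 v₁ lam ρ E D₀ D T h hs hD0 hDE
  obtain ⟨g1, g2⟩ := hgain lam ρ E D₀ T h hs hD₀14
  have iG := integ_G hs hv hb hV hD0 hDE
  obtain ⟨φ, hφdef⟩ : ∃ φ : ℝ, φ = phi E := ⟨_, rfl⟩
  obtain ⟨ψ, hψdef⟩ : ∃ ψ : ℝ, ψ = E / √(1 + E) := ⟨_, rfl⟩
  rw [← hφdef] at t1 t2 t3
  rw [← hψdef] at t4
  have hφ0 : 0 ≤ φ := hφdef ▸ phi_nonneg hE
  have hψ0 : 0 ≤ ψ := by
    rw [hψdef]
    positivity
  have hφψ : φ ≤ ψ := by
    rw [hφdef, hψdef]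
    exact phi_le_psi hE
  rw [← hVdef]
  have hG0 : 0 ≤ G0 E D T := integral_nonneg fun k => gm_nonneg _
  have hJ2 : 0 ≤ J2 E D T h := integral_nonneg fun k => abs_nonneg _
  have hJ3 : 0 ≤ J3 v₁ E D T := integral_nonneg fun k => by positivity
  refine ⟨⟨hD0, hDE⟩, ?_, ?_⟩
  · -- the integral
    have hint : (∫ k, ((ek k + ρ * lam * ct v₁ k) * gm (AA E D (T k) (ek k)) -
        T k * AA E D (T k) (ek k) + T k * h k / 2)) ≤
        -(c₁ * (E ^ 3 / (1 + E) ^ 2)) + 3 * D * J1 E D T h := by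
      have hmono : (∫ k, ((ek k + ρ * lam * ct v₁ k) * gm (AA E D (T k) (ek k)) -
          T k * AA E D (T k) (ek k) + T k * h k / 2)) ≤
          ∫ k, (-((max (T k) 0) ^ 3 * (E - T k) / (16 * E * (ek k + E) ^ 2)) +
            3 * D * (|AA E D (T k) (ek k)| * |h k|)) := by
        refine integral_mono iG (g1.neg.add (i1.const_mul _)) fun k => ?_
        have hk := (abs_le.1 (hs.close k)).1
        have := alg_G hE hD0 hDE (hs.le k) (ek_nonneg k) (E' := ρ * lam * ct v₁ k) (by linarith)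
        rw [← hs.h_eq k] at this
        exact this
      have heq : ∫ k, (-((max (T k) 0) ^ 3 * (E - T k) / (16 * E * (ek k + E) ^ 2)) +
            3 * D * (|AA E D (T k) (ek k)| * |h k|)) =
          -(∫ k, (max (T k) 0) ^ 3 * (E - T k) / (16 * E * (ek k + E) ^ 2)) +
            3 * D * J1 E D T h := by
        rw [integral_add
          (f := fun k => -((max (T k) 0) ^ 3 * (E - T k) / (16 * E * (ek k + E) ^ 2)))
          (g := fun k => 3 * D * (|AA E D (T k) (ek k)| * |h k|)) g1.neg (i1.const_mul _),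
          integral_neg, integral_const_mul]
        rfl
      rw [heq] at hmono
      linarith
    -- the errors
    have e1 : 3 * D * J1 E D T h ≤ 3 * C₄ * M * (lam * (φ * ψ)) := by
      have hDψ : D ≤ C₄ * lam * ψ := by
        rw [hDdef, hψdef]
        exact mul_le_mul_of_nonneg_left (frac_le_psi hE) (by positivity)
      calc 3 * D * J1 E D T h ≤ 3 * D * (M * φ) := mul_le_mul_of_nonneg_left t1 (by positivity)
        _ ≤ 3 * (C₄ * lam * ψ) * (M * φ) := by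
            refine mul_le_mul_of_nonneg_right ?_ (by positivity)
            linarith
        _ = 3 * C₄ * M * (lam * (φ * ψ)) := by ring
    have e2 : 1 / 2 * (lam * V) * (J2 E D T h ^ 2 + G0 E D T ^ 2) ≤
        V * M ^ 2 * (lam * (φ * ψ)) := by
      have q1 : J2 E D T h ^ 2 ≤ (M * φ) ^ 2 := pow_le_pow_left₀ hJ2 t3 2
      have q2 : G0 E D T ^ 2 ≤ (M * φ) ^ 2 := pow_le_pow_left₀ hG0 t2 2
      have q3 : (M * φ) ^ 2 ≤ M ^ 2 * (φ * ψ) := by
        rw [mul_pow, pow_two φ]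
        exact mul_le_mul_of_nonneg_left (mul_le_mul_of_nonneg_left hφψ hφ0) (by positivity)
      calc 1 / 2 * (lam * V) * (J2 E D T h ^ 2 + G0 E D T ^ 2)
          ≤ 1 / 2 * (lam * V) * (M ^ 2 * (φ * ψ) + M ^ 2 * (φ * ψ)) :=
            mul_le_mul_of_nonneg_left (by linarith) (by positivity)
        _ = V * M ^ 2 * (lam * (φ * ψ)) := by ring
    have e3 : G0 E D T * (lam * J3 v₁ E D T) ≤ M ^ 2 * (lam * (φ * ψ)) := by
      calc G0 E D T * (lam * J3 v₁ E D T) ≤ (M * φ) * (lam * (M * ψ)) :=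
            mul_le_mul t2 (mul_le_mul_of_nonneg_left t4 hlam0.le) (by positivity) (by positivity)
        _ = M ^ 2 * (lam * (φ * ψ)) := by ring
    have hkey : lam ^ 2 * (1 + E) ≤ δ ^ 2 * E := by
      have q1 : lam ^ 2 ≤ δ ^ 2 / 4 := by
        have := pow_le_pow_left₀ hlam0.le hl2 2
        calc lam ^ 2 ≤ (δ / 2) ^ 2 := this
          _ = δ ^ 2 / 4 := by ring
      have q2 : lam ^ 2 * E ≤ δ ^ 2 / 4 * E := mul_le_mul_of_nonneg_right q1 hE.le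
      have q3 : ρ * lam * V ≤ 2 * E := by
        rw [hVdef, ← hs.sum]
        linarith
      have q4 : 4 / (δ ^ 2 * V) * lam * (lam * V) ≤ ρ * (lam * V) :=
        mul_le_mul_of_nonneg_right hρ (by positivity)
      have q5 : 4 / (δ ^ 2 * V) * lam * (lam * V) = 4 * lam ^ 2 / δ ^ 2 := by
        field_simp
      rw [q5] at q4
      have q6 : 4 * lam ^ 2 / δ ^ 2 ≤ 2 * E := by linarith
      rw [div_le_iff₀ (by positivity)] at q6
      have q7 : 0 < δ ^ 2 * E := by positivity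
      nlinarith
    have hfin := final_alg hlam0 hE hδpos hkey
    rw [← hφdef, ← hψdef] at hfin
    have htot : C₂ * (lam * (φ * ψ)) ≤ c₁ / 2 * (E ^ 3 / (1 + E) ^ 2) := by
      calc C₂ * (lam * (φ * ψ)) ≤ C₂ * (δ * (E ^ 3 / (1 + E) ^ 2)) :=
            mul_le_mul_of_nonneg_left hfin hC₂pos.le
        _ = c₁ / 2 * (E ^ 3 / (1 + E) ^ 2) := by
            rw [hδ]
            field_simp
    have hexp : C₂ * (lam * (φ * ψ)) = 3 * C₄ * M * (lam * (φ * ψ)) +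
        V * M ^ 2 * (lam * (φ * ψ)) + M ^ 2 * (lam * (φ * ψ)) := by
      rw [hC₂]
      ring
    linarith
  · have q1 : φ ≤ E := by
      rw [hφdef]
      exact phi_le hE
    have q2 : E ≤ ρ * lam * V := by
      rw [hVdef, ← hs.sum]
      linarith [hs.D_nonneg]
    have q3 : lam * (2 * M * V) ≤ 1 := by
      rw [le_div_iff₀ (by positivity)] at hl3
      exact hl3
    calc G0 E D T ≤ M * φ := t2
      _ ≤ M * (ρ * lam * V) := mul_le_mul_of_nonneg_left (q1.trans q2) hM.le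
      _ = ρ / 2 * (lam * (2 * M * V)) := by ring
      _ ≤ ρ / 2 * 1 := mul_le_mul_of_nonneg_left q3 (by positivity)
      _ = ρ / 2 := mul_one _

end Pool.Agent.P76w
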