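import Pool.Agent.Lib.P76w.Var
import Pool.Agent.Lib.P76w.SimpleData
import Pool.Agent.Lib.P76w.Identity
import Pool.Agent.Lib.P76w.Cutoff

/-!
# P76w.VarMain: a compactly supported trial pairing function beating the Simple-equation energy
-/

open MeasureTheory Filter Topology
open scoped BigOperators FourierTransform

namespace Pool.Agent.P76w

open Pool.Agent.P76s

theorem cube_mono {κ s E : ℝ} (hκ : 0 < κ) (hs : 0 < s) (h : κ * s ≤ E) :
    κ ^ 3 / (1 + κ) ^ 2 * (s ^ 3 / (1 + s) ^ 2) ≤ E ^ 3 / (1 + E) ^ 2 := by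
  have hE : 0 < E := lt_of_lt_of_le (by positivity) h
  have h1 : κ ^ 3 / (1 + κ) ^ 2 * (s ^ 3 / (1 + s) ^ 2) ≤ (κ * s) ^ 3 / (1 + κ * s) ^ 2 := by
    rw [div_mul_div_comm, ← mul_pow, ← mul_pow]
    apply div_le_div_of_nonneg_left (by positivity) (by positivity)
    apply pow_le_pow_left₀ (by positivity)
    nlinarith
  refine h1.trans ?_
  have h2 : (κ * s) ^ 3 / (1 + κ * s) ^ 2 = (κ * s) * ((κ * s) / (1 + κ * s)) ^ 2 := by
    field_simp
  have h3 : E ^ 3 / (1 + E) ^ 2 = E * (E / (1 + E)) ^ 2 := by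
    field_simp
  rw [h2, h3]
  have h4 : (κ * s) / (1 + κ * s) ≤ E / (1 + E) := by
    rw [div_le_div_iff₀ (by positivity) (by positivity)]
    nlinarith
  gcongr

theorem var_main {v₁ : E3 → ℝ} (hv : Pot v₁) : ∃ lam₀ > 0, ∃ C > 0, ∃ c > 0, ∀ lam > 0,
    lam ≤ lam₀ → ∀ ρ : ℝ, C * lam ≤ ρ → ∀ (u : E3 → ℝ) (e : ℝ),
    IsSimpleSolution (fun x => lam * v₁ x) ρ u e → (∀ᵐ x, u x ≤ 1) →
    ∃ A : E3 → ℝ, Continuous A ∧ HasCompactSupport A ∧ (∀ k, A (-k) = A k) ∧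
      ∫ k, gm (A k) < ρ ∧
      FF (fun x => lam * v₁ x) A ρ ≤ ρ * e - c * ((ρ * lam) ^ 3 / (1 + ρ * lam) ^ 2) := by
  obtain ⟨lam₁, hlam₁, C₄, hC₄, hdata⟩ := simple_data hv
  obtain ⟨lam₂, hlam₂, C, hC, c, hc, hvar⟩ := var_bound hv hC₄
  set V := ∫ x, v₁ x with hV
  have hVpos : 0 < V := hv.pos
  have hκ : 0 < V / 2 := by positivity
  set c' := c * ((V / 2) ^ 3 / (1 + V / 2) ^ 2) with hc'
  have hc'pos : 0 < c' := by positivity
  refine ⟨min lam₁ lam₂, lt_min hlam₁ hlam₂, C, hC, c' / 2, by positivity, ?_⟩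
  intro lam hlam hle ρ hρC u e hsol hu1
  have hρ : 0 < ρ := lt_of_lt_of_le (by positivity) hρC
  obtain ⟨hSD, hD₀, hu01, hinv⟩ := hdata lam hlam (hle.trans (min_le_left _ _)) ρ hρ u e hsol hu1
  set S : E3 → ℝ := fun x => (1 - u x) * (lam * v₁ x) with hS
  set E := 2 * e with hE
  set D₀ := ρ * ∫ x, u x * (lam * v₁ x) with hD₀def
  set T : E3 → ℝ := fun k => ρ * ct S k with hT
  set h : E3 → ℝ := fun k => ρ * ct u k with hh
  set D := C₄ * lam * (E / (1 + E)) with hD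
  obtain ⟨⟨hDpos, hDE⟩, hmain, hG0⟩ := hvar lam ρ E D₀ D T h (hle.trans (min_le_right _ _)) hρC
    hSD hD hD₀
  have hEpos := hSD.E_pos
  set A : E3 → ℝ := fun k => AA E D (T k) (ek k) with hA
  have hAc : Continuous A := continuous_AA hEpos hDpos hSD.cont hSD.le
  have hAi : Integrable A := integ_A hSD hDpos hDE
  have hAe : ∀ k, A (-k) = A k := by
    intro k
    simp only [hA]
    rw [hSD.even k]
    simp only [ek, norm_neg]
  have hb : Continuous (ct v₁) := ct_continuous hv.int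
  have hbV : ∀ k, |ct v₁ k| ≤ ∫ x, v₁ x := by
    intro k
    refine (ct_abs_le hv.int k).trans (le_of_eq ?_)
    exact integral_congr_ae (Eventually.of_forall fun x => abs_of_nonneg (hv.nonneg x))
  have hK : Integrable fun k => ek k * gm (A k) := integ_K hSD hDpos hDE
  have hGi := integ_G hSD hv hb hbV hDpos hDE
  have hct : ∀ k, ct (fun x => lam * v₁ x) k = lam * ct v₁ k := fun k => ct_smul lam v₁ k
  have hvi : Integrable fun x => lam * v₁ x := hv.int.const_mul lam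
  have hG' : (fun k => (ek k + ρ * ct (fun x => lam * v₁ x) k) * gm (A k) -
        ρ * ct (fun x => (1 - u x) * (fun x => lam * v₁ x) x) k * A k +
        ρ * ct (fun x => (1 - u x) * (fun x => lam * v₁ x) x) k * h k / 2) =
      fun k => (ek k + ρ * lam * ct v₁ k) * gm (AA E D (T k) (ek k)) -
      T k * AA E D (T k) (ek k) + T k * h k / 2 := by
    funext k
    simp only [hct, hA, hT, hS]
    ring
  have hFF := FF_le (v := fun x => lam * v₁ x) (u := u) (h := h) (A := A) (ρ := ρ) (e := e) hρ hvi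
    (fun x => mul_nonneg hlam.le (hv.nonneg x)) hsol.int_S hsol.energy (integ_h hSD) hinv hAi hAc hK
    (by rw [hG']; exact hGi)
  rw [hG'] at hFF
  have hint : ∫ x, lam * v₁ x = lam * ∫ x, v₁ x := integral_const_mul _ _
  have hJ3 : ∫ k, |ct (fun x => lam * v₁ x) k| * |A k - gm (A k)| = lam * J3 v₁ E D T := by
    rw [J3, ← integral_const_mul]
    refine integral_congr_ae (Eventually.of_forall fun k => ?_)
    simp only [hct, abs_mul, abs_of_pos hlam, hA]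
    ring
  have hJ2 : ∫ k, |h k - A k| = J2 E D T h := rfl
  have hG0' : ∫ k, gm (A k) = G0 E D T := rfl
  rw [hJ3, hJ2, hG0', hint] at hFF
  have hFF2 : FF (fun x => lam * v₁ x) A ρ ≤ ρ * e - c * (E ^ 3 / (1 + E) ^ 2) := by
    linarith
  -- from `E` to `ρ lam`
  have hs : 0 < ρ * lam := by positivity
  have hEs : V / 2 * (ρ * lam) ≤ E := by
    have h1 := hSD.sum
    rw [← hV] at h1
    have h2 : D₀ ≤ E := hD₀.trans hDE
    nlinarith
  have hcube := cube_mono hκ hs hEs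
  have hFF3 : FF (fun x => lam * v₁ x) A ρ ≤
      ρ * e - c' * ((ρ * lam) ^ 3 / (1 + ρ * lam) ^ 2) := by
    have : c * ((V / 2) ^ 3 / (1 + V / 2) ^ 2 * ((ρ * lam) ^ 3 / (1 + ρ * lam) ^ 2)) ≤
        c * (E ^ 3 / (1 + E) ^ 2) := by gcongr
    have h3 : c' * ((ρ * lam) ^ 3 / (1 + ρ * lam) ^ 2) =
        c * ((V / 2) ^ 3 / (1 + V / 2) ^ 2 * ((ρ * lam) ^ 3 / (1 + ρ * lam) ^ 2)) := by
      rw [hc']; ring
    rw [h3]; linarith
  have hεpos : 0 < c' / 2 * ((ρ * lam) ^ 3 / (1 + ρ * lam) ^ 2) := by positivity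
  obtain ⟨A', hA'c, hA's, hA'e, hA'g, hA'F⟩ := cutoff (ρ := ρ) hvi hAc hAe hAi hK hεpos
  refine ⟨A', hA'c, hA's, hA'e, ?_, ?_⟩
  · calc ∫ k, gm (A' k) ≤ ∫ k, gm (A k) := hA'g
      _ ≤ ρ / 2 := hG0
      _ < ρ := by linarith
  · calc FF (fun x => lam * v₁ x) A' ρ ≤ FF (fun x => lam * v₁ x) A ρ +
          c' / 2 * ((ρ * lam) ^ 3 / (1 + ρ * lam) ^ 2) := hA'F
      _ ≤ ρ * e - c' / 2 * ((ρ * lam) ^ 3 / (1 + ρ * lam) ^ 2) := by linarith

end Pool.Agent.P76w
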